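import Mathlib
import Pool.Agent.N967.Stm3

set_option autoImplicit false

/-!
# Baez-Duarte's distance for general L-functions: definitions and the statements of the parts

`D.Zs s = (s - 1) ^ D.p * L s`, where `L` is an L-function with the critical line `re s = 1 / 2` and a pole of order
`D.p` at `s = 1`.
-/

namespace Pool.Agent.N967.G

open Complex MeasureTheory Filter Topology
open Pool.Agent.Y23 (Lg)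

/-- an L-function without its pole -/
structure Dat where
  /-- `(s - 1) ^ p * L s` -/
  Zs : ℂ → ℂ
  /-- the order of the pole at `s = 1` -/
  p : ℕ

/-- the L-function -/
noncomputable def Dat.L (D : Dat) (s : ℂ) : ℂ := D.Zs s / (s - 1) ^ D.p

/-- its inverse -/
noncomputable def Dat.fz (D : Dat) (s : ℂ) : ℂ := (s - 1) ^ D.p / D.Zs s

/-- the zeros on the critical line -/
def Dat.IsZ (D : Dat) (s : ℂ) : Prop := D.Zs s = 0 ∧ s.re = 1 / 2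

/-- the multiplicity -/
noncomputable def Dat.mu (D : Dat) (s : ℂ) : ℕ := analyticOrderNatAt D.Zs s

/-- the set of the zeros -/
abbrev Dat.ZZ (D : Dat) : Type := {s : ℂ // D.IsZ s}

/-- at most `M` zeros, counted with multiplicity, at distance `≤ r` from the height `t` -/
def Dat.Cnt (D : Dat) (t r M : ℝ) : Prop :=
  ∀ S : Finset ℂ, (∀ s ∈ S, D.IsZ s ∧ |s.im - t| ≤ r) → ∑ s ∈ S, (D.mu s : ℝ) ≤ M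

/-- the zeros in the intervals longer than the radius -/
def Dat.Slope (D : Dat) (θ C T0 : ℝ) : Prop := ∀ t : ℝ, T0 ≤ Lg t → ∀ r : ℝ, θ / Real.log (Lg t) ≤ r → r ≤ 1 →
  D.Cnt t r (C * r * Lg t)

/-- the integrand of the distance -/
noncomputable def Dat.ig (D : Dat) (N : ℕ) (a : ℕ → ℂ) (t : ℝ) : ℝ :=
  ‖1 - D.L (1 / 2 + t * I) * DP N a (1 / 2 + t * I)‖ ^ 2 / (1 / 4 + t ^ 2)

/-- the square of the norm of `1 - L A` -/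
noncomputable def Dat.err (D : Dat) (N : ℕ) (a : ℕ → ℂ) : ℝ := 1 / (2 * Real.pi) * ∫ t : ℝ, D.ig N a t

/-- the square of the distance -/
noncomputable def Dat.dd (D : Dat) (N : ℕ) : ℝ := ⨅ a : ℕ → ℂ, D.err N a

/-- the ratio `L(1/2 + i t) / L(1/2 + b + i (t + v))` -/
noncomputable def Dat.Fr (D : Dat) (b v t : ℝ) : ℂ :=
  D.L (1 / 2 + t * I) * D.fz (1 / 2 + b + ((t + v : ℝ) : ℂ) * I)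

/-- the weight of the kernel on the line `re z = - R` -/
noncomputable def KR (κ : ℂ → ℂ) (R y : ℝ) : ℂ :=
  -(1 / (2 * Real.pi) * (κ (-(R : ℂ) + y * I) / (-(R : ℂ) + y * I)))

/-- the error `1 - L A` at the height `t` for the kernel `κ` and the length `exp L`, on the line `re z = - R` -/
noncomputable def Dat.HR (D : Dat) (κ : ℂ → ℂ) (R L t : ℝ) : ℂ :=
  ∫ y : ℝ, KR κ R y * (1 - D.Fr (R / L) (-(y / L)) t)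

/-- the error `1 - L A` at the height `t` for the kernel `κ` and the length `exp L` -/
noncomputable def Dat.HH (D : Dat) (κ : ℂ → ℂ) (L t : ℝ) : ℂ := ∫ y : ℝ, KK κ y * (1 - D.Fr (1 / L) (-(y / L)) t)

/-- kernels with the decay `exp (- c |y| ^ β)` -/
def KerB (β : ℝ) (κ : ℂ → ℂ) : Prop := Differentiable ℂ κ ∧ κ 0 = 1 ∧ ∃ c C : ℝ, 0 < c ∧ 0 < C ∧
  (∀ z : ℂ, 0 ≤ z.re → ‖κ z‖ ≤ C * Real.exp (-(c * |z.im| ^ β))) ∧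
  (∀ z : ℂ, z.re ≤ 0 → ‖κ z‖ ≤ C * Real.exp (-z.re) * Real.exp (-(c * |z.im| ^ β)))

/-- the unconditional properties -/
structure Base (D : Dat) : Prop where
  diff : ∀ s : ℂ, 0 < s.re → DifferentiableAt ℂ D.Zs s
  one : 1 ≤ D.p → D.Zs 1 ≠ 0
  growth : ∃ (C : ℝ) (k : ℕ), 0 < C ∧ ∀ s : ℂ, 1 / 4 ≤ s.re → ‖D.Zs s‖ ≤ C * (1 + ‖s‖) ^ k

/-- pointwise bounds for the ratio -/
def S_pt (D : Dat) : Prop := ∀ η θ C T0 : ℝ, 0 < η → η ≤ 1 → 0 < θ → θ ≤ 1 → 0 < C → Real.exp 1 ≤ T0 →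
  D.Slope θ C T0 → ∃ e K : ℝ, 0 < e ∧ e ≤ 1 / 4 ∧ 0 < K ∧
  (∀ x v τ β M : ℝ, |x| ≤ e → |v| ≤ e → 0 < β →
    (∀ s : ℂ, D.IsZ s → |s.im - τ| ≤ 1 → β ^ 2 ≤ x ^ 2 + (τ - s.im) ^ 2) → D.Cnt τ (rad θ T0 τ) M →
    ‖D.L (1 / 2 + ((τ + v : ℝ) : ℂ) * I)‖ * ‖D.fz (1 / 2 + x + τ * I)‖ ≤
      K * Real.exp (η * Lg τ + M * Real.log (1 + |v| / β))) ∧
  (∀ b t τ M : ℝ, 0 < b → b ≤ e → D.Cnt τ (rad θ T0 τ) M →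
    ‖D.L (1 / 2 + t * I)‖ * ‖D.fz (1 / 2 + b + τ * I)‖ ≤
      K * Real.exp (η * Lg t + η * Lg τ + M * Real.log (1 + 1 / b)))

/-- the properties under the Riemann hypothesis for the L-function; `zero` says that there are no zeros with
`1/2 < re s`, `left` that there are none with `1/2 - e0 < re s < 1/2` -/
structure Rp (D : Dat) : Prop where
  base : Base D
  zero : ∀ s : ℂ, 1 / 2 < s.re → D.Zs s ≠ 0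
  left : ∃ e0 : ℝ, 0 < e0 ∧ ∀ s : ℂ, 1 / 2 - e0 < s.re → s.re < 1 / 2 → D.Zs s ≠ 0
  fin : ∀ R : ℝ, {s : ℂ | D.IsZ s ∧ |s.im| ≤ R}.Finite
  cnt : ∃ C : ℝ, 0 < C ∧ ∀ t : ℝ, ∀ S : Finset ℂ, (∀ s ∈ S, D.IsZ s ∧ |s.im - t| ≤ 1) →
    ∑ s ∈ S, (D.mu s : ℝ) ≤ C * Lg t
  slope : ∃ C T0 : ℝ, 0 < C ∧ Real.exp 1 ≤ T0 ∧ D.Slope 1 C T0
  ser : ∃ (b : ℕ → ℂ) (σ1 : ℝ), 1 ≤ σ1 ∧ ∀ s : ℂ, σ1 < s.re → LSeriesSummable b s ∧ D.fz s = LSeries b s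
  fzg : ∀ δ : ℝ, 0 < δ → ∃ (C : ℝ) (k : ℕ), 0 < C ∧ ∀ s : ℂ, 1 / 2 + δ ≤ s.re → ‖D.fz s‖ ≤ C * (1 + ‖s‖) ^ k
  crit : ∃ C : ℝ, 0 < C ∧ ∀ t : ℝ, ‖D.L (1 / 2 + t * I)‖ ≤ C * (1 + |t|) ^ (1 / 8 : ℝ)
  pt : S_pt D

/-- all integrals converge -/
def S_int (D : Dat) : Prop := ∀ (N : ℕ) (a : ℕ → ℂ), Integrable (D.ig N a)

/-- the exact approximation, on every line `re z = - R` -/
def S_app (D : Dat) : Prop := ∀ κ : ℂ → ℂ, Ker κ → ∀ L : ℝ, 4 ≤ L → ∀ N : ℕ, L ≤ Real.log (N + 1) →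
  ∃ a : ℕ → ℂ, ∀ R : ℝ, 0 < R → ∀ t : ℝ, 1 - D.L (1 / 2 + t * I) * DP N a (1 / 2 + t * I) = D.HR κ R L t

/-- Cauchy-Schwarz and Tonelli for `HR` -/
def S_cs (D : Dat) : Prop := ∀ κ : ℂ → ℂ, Ker κ → ∀ R L : ℝ, 0 < R → 4 ≤ L → ∀ w : ℝ → ℝ, Measurable w →
  (∀ t, 0 ≤ w t) →
  ∫⁻ t : ℝ, ENNReal.ofReal (‖D.HR κ R L t‖ ^ 2 * w t) ≤ ENNReal.ofReal (∫ y : ℝ, ‖KR κ R y‖) *
    ∫⁻ y : ℝ, ENNReal.ofReal ‖KR κ R y‖ * ∫⁻ t : ℝ, ENNReal.ofReal (‖1 - D.Fr (R / L) (-(y / L)) t‖ ^ 2 * w t)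

/-- the pointwise bound for `1 - F` -/
def S_pw (D : Dat) : Prop := ∀ η θ C T0 : ℝ, 0 < η → η ≤ 1 → 0 < θ → θ ≤ 1 → 0 < C → Real.exp 1 ≤ T0 →
  D.Slope θ C T0 → ∃ e K : ℝ, 0 < e ∧ e ≤ 1 / 4 ∧ 0 < K ∧ ∀ (b v M t : ℝ) (m : ℤ), 0 < b → b ≤ e → |v| ≤ e →
    (m : ℝ) ≤ t + v → t + v ≤ m + 1 → D.Cnt (t + v) (rad θ T0 (t + v)) M →
    ∀ Z : Finset ℂ, (∀ s : ℂ, D.IsZ s → |s.im - m| ≤ 4 → s ∈ Z) →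
    ‖1 - D.Fr b v t‖ ^ 2 ≤ K * Real.exp (6 * η * Lg m + 2 * M * Real.log (1 + |v| / b)) *
      ((b + |v|) ^ 2 + ∑ s ∈ Z, (b + |v|) ^ 2 / ((b + |v|) ^ 2 + (t - s.im) ^ 2))

/-- a uniform bound for the number of zeros in the short intervals -/
def S_mm (D : Dat) : Prop := ∃ C T0 A : ℝ, 0 < C ∧ Real.exp 1 ≤ T0 ∧ 0 < A ∧ D.Slope 1 C T0 ∧
  ∀ τ : ℝ, D.Cnt τ (rad 1 T0 τ) (A * Lg τ / Real.log (2 + Lg τ))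

/-- the mean square over a unit block, near part; `M = A * X / log (2 + X)` with `X = Lg m + 1` -/
def S_nearB (D : Dat) : Prop := ∀ η A C T0 : ℝ, 0 < η → η ≤ 1 → 0 < A → 0 < C → Real.exp 1 ≤ T0 → D.Slope 1 C T0 →
  (∀ τ : ℝ, D.Cnt τ (rad 1 T0 τ) (A * Lg τ / Real.log (2 + Lg τ))) →
  ∃ e K : ℝ, 0 < e ∧ e ≤ 1 / 4 ∧ 0 < K ∧ ∀ (b v : ℝ) (m : ℤ), 0 < b → b ≤ e → |v| ≤ e →
    ∫⁻ t in Set.Icc (m : ℝ) (m + 1), ENNReal.ofReal (‖1 - D.Fr b v t‖ ^ 2) ≤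
      ENNReal.ofReal (K * (b + |v|) * Real.exp (8 * η * Lg m + 4 * A * Lg m / Real.log (2 + Lg m) * Real.log (1 + |v| / b)))

/-- the mean square over a unit block, far part -/
def S_farB (D : Dat) : Prop := ∀ η A C T0 : ℝ, 0 < η → η ≤ 1 → 0 < A → 0 < C → Real.exp 1 ≤ T0 → D.Slope 1 C T0 →
  (∀ τ : ℝ, D.Cnt τ (rad 1 T0 τ) (A * Lg τ / Real.log (2 + Lg τ))) →
  ∃ e K : ℝ, 0 < e ∧ e ≤ 1 / 4 ∧ 0 < K ∧ ∀ (b v t : ℝ), 0 < b → b ≤ e →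
    ‖1 - D.Fr b v t‖ ^ 2 ≤ K * Real.exp (4 * η * Lg t + 2 * η * Real.log (1 + |v|) +
      2 * A * (Lg t / Real.log (2 + Lg t) + 2 * Real.log (1 + |v|)) * Real.log (1 + 1 / b))

/-- the choice of the line: real inequalities.  `X` is `Lg m`, `R = max 1 (min (X ^ ν) (e * L))` -/
def S_real : Prop := ∀ A η : ℝ, 0 < A → 0 < η → η ≤ 1 → ∃ β ν : ℝ, 19 / 20 ≤ β ∧ β < 1 ∧ 0 < ν ∧ ν < 1 ∧
  ∀ c e : ℝ, 0 < c → 0 < e → e ≤ 1 / 4 → ∃ K L0 : ℝ, 0 < K ∧ 4 ≤ L0 ∧ ∀ X L : ℝ, 1 ≤ X → L0 ≤ L →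
    ∃ R : ℝ, 1 ≤ R ∧ R ≤ e * L ∧ R ≤ η * X + K ∧
      (∀ y : ℝ, |y| ≤ e * L →
        (R + |y|) * Real.exp (4 * A * X / Real.log (2 + X) * Real.log (1 + |y| / R)) * Real.exp (-(c * |y| ^ β)) ≤
          K * Real.exp (η * X) / (1 + y ^ 2)) ∧
      (∀ y : ℝ, e * L < |y| →
        L * Real.exp (2 * η * Real.log (1 + |y| / L) +
          2 * A * (X / Real.log (2 + X) + 2 * Real.log (1 + |y| / L)) * Real.log (1 + L / R)) *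
            Real.exp (-(c * |y| ^ β)) ≤ K * Real.exp (η * X) / (1 + y ^ 2))

/-- the tail of `HH` -/
def S_prT (D : Dat) : Prop := ∃ β : ℝ, 19 / 20 ≤ β ∧ β < 1 ∧ ∀ κ : ℂ → ℂ, KerB β κ → ∀ ε : ℝ, 0 < ε →
  ∃ T L0 : ℝ, 1 ≤ T ∧ ∀ L : ℝ, L0 ≤ L →
    ∫⁻ t in {t : ℝ | T < |t|}, ENNReal.ofReal (‖D.HH κ L t‖ ^ 2 / (1 / 4 + t ^ 2)) ≤ ENNReal.ofReal (ε / L)

/-- the mean square at bounded height -/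
def S_loc (D : Dat) : Prop := ∀ T : ℝ, 1 ≤ T → ∃ C L0 : ℝ, 0 < C ∧ 4 ≤ L0 ∧ ∀ L y : ℝ, L0 ≤ L →
  ∫⁻ t in {t : ℝ | |t| ≤ T}, ENNReal.ofReal (‖1 - D.Fr (1 / L) (-(y / L)) t‖ ^ 2) ≤
    ENNReal.ofReal (C / L * Real.exp (C * (1 + |y|) ^ (1 / 2 : ℝ)))

/-- `HH` away from the zeros -/
def S_prO (D : Dat) : Prop := ∀ κ : ℂ → ℂ, Ker κ → ∀ T ε : ℝ, 1 ≤ T → 0 < ε → ∃ X0 : ℝ, ∀ X : ℝ, X0 ≤ X →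
    ∃ L0 : ℝ, ∀ L : ℝ, L0 ≤ L →
    ∫⁻ t in {t : ℝ | |t| ≤ T ∧ ∀ s : ℂ, D.IsZ s → X / L < |t - s.im|}, ENNReal.ofReal (‖D.HH κ L t‖ ^ 2) ≤
      ENNReal.ofReal (ε / L)

/-- the majorant near a fixed height -/
def S_maj (D : Dat) : Prop := ∀ γ X : ℝ, 1 ≤ X → ∃ C L0 : ℝ, 0 < C ∧ 4 ≤ L0 ∧ ∀ L x y : ℝ, L0 ≤ L → |x| ≤ X →
  ‖D.Fr (1 / L) (-(y / L)) (γ + x / L)‖ ≤ C * Real.exp (C * (1 + |y|) ^ (9 / 10 : ℝ))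

/-- `HH` near a zero -/
def S_prL (D : Dat) : Prop := ∀ κ : ℂ → ℂ, Ker κ → ∀ (ρ : D.ZZ) (X : ℝ), 1 ≤ X →
    Tendsto (fun L : ℝ => ∫ x in (-X)..X, ‖D.HH κ L ((ρ : ℂ).im + x / L) - GG κ (D.mu ρ) x‖ ^ 2) atTop (𝓝 0)

/-- a family of functions with given profiles at the zeros and nothing else -/
structure Prof (D : Dat) (f : ℝ → ℝ → ℂ) (G : D.ZZ → ℝ → ℂ) : Prop where
  cont : ∀ L : ℝ, 4 ≤ L → Continuous (f L)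
  contG : ∀ ρ : D.ZZ, Continuous (G ρ)
  tail : ∀ ε : ℝ, 0 < ε → ∃ T L0 : ℝ, 1 ≤ T ∧ ∀ L : ℝ, L0 ≤ L →
    ∫⁻ t in {t : ℝ | T < |t|}, ENNReal.ofReal (‖f L t‖ ^ 2 / (1 / 4 + t ^ 2)) ≤ ENNReal.ofReal (ε / L)
  out : ∀ T ε : ℝ, 1 ≤ T → 0 < ε → ∃ X0 : ℝ, ∀ X : ℝ, X0 ≤ X → ∃ L0 : ℝ, ∀ L : ℝ, L0 ≤ L →
    ∫⁻ t in {t : ℝ | |t| ≤ T ∧ ∀ s : ℂ, D.IsZ s → X / L < |t - s.im|}, ENNReal.ofReal (‖f L t‖ ^ 2) ≤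
      ENNReal.ofReal (ε / L)
  loc : ∀ (ρ : D.ZZ) (X : ℝ), 1 ≤ X →
    Tendsto (fun L : ℝ => ∫ x in (-X)..X, ‖f L ((ρ : ℂ).im + x / L) - G ρ x‖ ^ 2) atTop (𝓝 0)

/-- the profiles of `HH κ` -/
def S_prof (D : Dat) : Prop := ∃ β : ℝ, 19 / 20 ≤ β ∧ β < 1 ∧ ∀ κ : ℂ → ℂ, KerB β κ →
  Prof D (D.HH κ) (fun ρ => GG κ (D.mu ρ))

/-- the limit of the mean square is at most the sum over the profiles -/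
def S_lim (D : Dat) : Prop := ∀ (f : ℝ → ℝ → ℂ) (G : D.ZZ → ℝ → ℂ), Prof D f G →
  (∑' ρ : D.ZZ, ENNReal.ofReal (1 / ‖(ρ : ℂ)‖ ^ 2) * ∫⁻ x : ℝ, ENNReal.ofReal (‖G ρ x‖ ^ 2)) ≠ ⊤ ∧
  ∀ ε : ℝ, 0 < ε → ∃ L0 : ℝ, ∀ L : ℝ, L0 ≤ L →
    ENNReal.ofReal L * ∫⁻ t : ℝ, ENNReal.ofReal (‖f L t‖ ^ 2 / (1 / 4 + t ^ 2)) ≤
      (∑' ρ : D.ZZ, ENNReal.ofReal (1 / ‖(ρ : ℂ)‖ ^ 2) * ∫⁻ x : ℝ, ENNReal.ofReal (‖G ρ x‖ ^ 2)) + ENNReal.ofReal ε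

/-- combinations of families with profiles -/
def S_combo (D : Dat) : Prop := ∀ (S : Finset D.ZZ) (f0 : ℝ → ℝ → ℂ) (G0 : D.ZZ → ℝ → ℂ) (f : D.ZZ → ℝ → ℝ → ℂ)
  (G : D.ZZ → D.ZZ → ℝ → ℂ) (E : D.ZZ → ℝ → ℂ), Prof D f0 G0 → (∀ i ∈ S, Prof D (f i) (G i)) →
  (∀ i ∈ S, Continuous (E i) ∧ ∀ t, ‖E i t‖ ≤ 1) →
  Prof D (fun L t => f0 L t + ∑ i ∈ S, E i t * (f i L t - f0 L t))
    (fun ρ x => G0 ρ x + ∑ i ∈ S, E i (ρ : ℂ).im * (G i ρ x - G0 ρ x))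

/-- a kernel that is bounded by `1` on the imaginary axis -/
def S_kern : Prop := ∀ β : ℝ, 0 < β → β < 1 → ∃ κ : ℂ → ℂ, KerB β κ ∧ ∀ y : ℝ, ‖κ (y * I)‖ ≤ 1

/-- nearly optimal kernels -/
def S_opt : Prop := ∀ β : ℝ, 19 / 20 ≤ β → β < 1 → ∀ m : ℕ, 1 ≤ m → ∀ ε : ℝ, 0 < ε → ∃ κ : ℂ → ℂ, KerB β κ ∧
  ∫⁻ x : ℝ, ENNReal.ofReal (‖GG κ m x‖ ^ 2) ≤ ENNReal.ofReal (2 * Real.pi * ((m : ℝ) ^ 2 + ε))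

/-- the sum over the zeros converges -/
def S_sum (D : Dat) : Prop := Summable (fun ρ : D.ZZ => (D.mu ρ : ℝ) ^ 2 / ‖(ρ : ℂ)‖ ^ 2)

/-- growth of the Dirichlet polynomial to the left of the critical line -/
def S_grow (D : Dat) : Prop := ∀ δ : ℝ, 0 < δ → δ ≤ 1 / 4 → ∃ (C : ℝ) (k : ℕ), 0 < C ∧
  ∀ (N : ℕ) (a : ℕ → ℂ), 1 ≤ N → D.err N a ≤ 1 → ∀ s : ℂ, s.re ≤ 1 / 2 + δ →
    ‖DP N a s‖ ≤ C * (1 + ‖s‖) ^ k * (N : ℝ) ^ (1 / 2 + δ - s.re)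

/-- the inverse Laplace transform of the error -/
def S_jj (D : Dat) : Prop := ∀ δ : ℝ, 0 < δ → δ ≤ 1 / 8 → ∃ K : ℕ, ∀ c0 : ℝ, 1 ≤ c0 → ∃ C : ℝ, 0 < C ∧
  ∀ (N : ℕ) (a : ℕ → ℂ), 2 ≤ N → D.err N a ≤ 1 → ∃ J : ℝ → ℂ, Measurable J ∧ (∀ v, v ≤ 0 → J v = 0) ∧
    (∀ v, 0 ≤ v → ‖J v‖ ≤ C * Real.exp (-(v / 4)) * (N : ℝ) ^ (1 / 4 + δ)) ∧
    Integrable (fun v => ‖J v‖ ^ 2) ∧ ∫ v : ℝ, ‖J v‖ ^ 2 ≤ D.err N a ∧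
    ∀ ρ : ℂ, D.IsZ ρ → ∀ k : ℕ, k < D.mu ρ →
      ∫ v : ℝ, ((-v : ℝ) : ℂ) ^ k * J v * Complex.exp (-(v * ρ.im : ℝ) * I) =
        iteratedDeriv k (fun s => (s - 1) ^ D.p / s ^ (D.p + 1) * gw c0 K s) ρ

/-- the lower bound -/
def S_low3 (D : Dat) : Prop := ∀ S : Finset ℂ, (∀ s ∈ S, D.IsZ s) → ∀ ε : ℝ, 0 < ε → ∃ N0 : ℕ, 2 ≤ N0 ∧
  ∀ N : ℕ, N0 ≤ N → ∀ a : ℕ → ℂ, (∑ s ∈ S, (D.mu s : ℝ) ^ 2 / ‖s‖ ^ 2) - ε ≤ D.err N a * Real.log N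

/-- the upper bound with the right constant -/
def S_up (D : Dat) : Prop := ∀ ε : ℝ, 0 < ε → ∃ N0 : ℕ, 2 ≤ N0 ∧ ∀ N : ℕ, N0 ≤ N →
    D.dd N * Real.log N ≤ (∑' ρ : D.ZZ, (D.mu ρ : ℝ) ^ 2 / ‖(ρ : ℂ)‖ ^ 2) + ε

/-- the asymptotic formula -/
def S_asym (D : Dat) : Prop := Tendsto (fun N : ℕ => D.dd N * Real.log N) atTop
  (𝓝 (∑' ρ : D.ZZ, (D.mu ρ : ℝ) ^ 2 / ‖(ρ : ℂ)‖ ^ 2))

/-- zeros to the right of the critical line; no hypothesis on the integrals -/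
def S_off (D : Dat) : Prop := ∀ ρ : ℂ, 1 / 2 < ρ.re → D.Zs ρ = 0 → ∃ c : ℝ, 0 < c ∧ ∀ (N : ℕ) (a : ℕ → ℂ),
  ENNReal.ofReal c ≤ ∫⁻ t : ℝ, ENNReal.ofReal (D.ig N a t)

end Pool.Agent.N967.G
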