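import Mathlib
import Pool.Agent.N967.G.Stm
import Pool.Agent.TH839.NA.Raw

set_option autoImplicit false

/-!
# Baez-Duarte's distance for general L-functions: the properties of the L-function under the Riemann hypothesis
-/

namespace Pool.Agent.N967.G

open Complex MeasureTheory Filter Topology
open Pool.Agent.Y23 (Lg)
open Pool.Agent.TH839.NA (RawT)

/-- everything that is used about the L-function, under its Riemann hypothesis; `left` says that the trivial zeros are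
not close to the critical line -/
structure Ax (D : Dat) : Prop where
  base : Base D
  zero : ∀ s : ℂ, 1 / 2 < s.re → D.Zs s ≠ 0
  left : ∃ e0 : ℝ, 0 < e0 ∧ ∀ s : ℂ, 1 / 2 - e0 < s.re → s.re < 1 / 2 → D.Zs s ≠ 0
  ser : ∃ (b : ℕ → ℂ) (σ1 : ℝ), 1 ≤ σ1 ∧ ∀ s : ℂ, σ1 < s.re → LSeriesSummable b s ∧ D.fz s = LSeries b s
  bd : ∃ C : ℝ, 0 < C ∧ ∀ s : ℂ, 5 / 2 ≤ s.re → ‖D.L s‖ ≤ C ∧ ‖D.fz s‖ ≤ C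

/-- the local factorization of an analytic function in a disc -/
def S_lf : Prop := ∀ r1 r2 R : ℝ, 0 < r1 → r1 < r2 → r2 < R → ∃ C : ℝ, 0 < C ∧ ∀ (f : ℂ → ℂ) (s0 : ℂ) (B : ℝ), 0 ≤ B →
  (∀ s : ℂ, ‖s - s0‖ ≤ R → DifferentiableAt ℂ f s) → f s0 ≠ 0 →
  (∀ s : ℂ, ‖s - s0‖ ≤ R → ‖f s‖ ≤ Real.exp B * ‖f s0‖) →
  ∃ Z : Finset ℂ, (∀ ρ : ℂ, ρ ∈ Z ↔ f ρ = 0 ∧ ‖ρ - s0‖ ≤ r2) ∧
    ∑ ρ ∈ Z, (analyticOrderNatAt f ρ : ℝ) ≤ C * B ∧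
    (∀ s s' : ℂ, ‖s - s0‖ ≤ r1 → ‖s' - s0‖ ≤ r1 →
      ‖f s‖ * ∏ ρ ∈ Z, ‖s' - ρ‖ ^ analyticOrderNatAt f ρ ≤
        Real.exp (C * B * ‖s - s'‖) * ‖f s'‖ * ∏ ρ ∈ Z, ‖s - ρ‖ ^ analyticOrderNatAt f ρ) ∧
    (∀ s : ℂ, ‖s - s0‖ ≤ r1 → f s ≠ 0 →
      ‖logDeriv f s - ∑ ρ ∈ Z, (analyticOrderNatAt f ρ : ℂ) / (s - ρ)‖ ≤ C * B)

/-- the zeros near the height `τ` -/
def S_zn (D : Dat) : Prop := ∃ C : ℝ, 0 < C ∧ ∀ τ : ℝ, ∃ Z : Finset ℂ,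
  (∀ ρ : ℂ, ρ ∈ Z ↔ D.Zs ρ = 0 ∧ ‖ρ - (5 / 2 + τ * I)‖ ≤ 35 / 16) ∧
  ∑ ρ ∈ Z, (D.mu ρ : ℝ) ≤ C * Lg τ ∧
  (∀ s s' : ℂ, ‖s - (5 / 2 + τ * I)‖ ≤ 17 / 8 → ‖s' - (5 / 2 + τ * I)‖ ≤ 17 / 8 →
    ‖D.Zs s‖ * ∏ ρ ∈ Z, ‖s' - ρ‖ ^ D.mu ρ ≤
      Real.exp (C * Lg τ * ‖s - s'‖) * ‖D.Zs s'‖ * ∏ ρ ∈ Z, ‖s - ρ‖ ^ D.mu ρ) ∧
  (∀ s : ℂ, ‖s - (5 / 2 + τ * I)‖ ≤ 17 / 8 → D.Zs s ≠ 0 →
    ‖logDeriv D.Zs s - ∑ ρ ∈ Z, (D.mu ρ : ℂ) / (s - ρ)‖ ≤ C * Lg τ)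

/-- the Lindelof hypothesis to the right of the critical line, for `L` and its inverse -/
def S_lind (D : Dat) : Prop := ∀ δ η : ℝ, 0 < δ → 0 < η → ∃ C : ℝ, 0 < C ∧ ∀ s : ℂ, 1 / 2 + δ ≤ s.re →
  (1 ≤ |s.im| → ‖D.L s‖ ≤ C * Real.exp (η * Lg s.im)) ∧ ‖D.fz s‖ ≤ C * Real.exp (η * Lg s.im)

/-- the Lindelof hypothesis on the critical line -/
def S_crit (D : Dat) : Prop := ∀ η : ℝ, 0 < η → ∃ C : ℝ, 0 < C ∧ ∀ t : ℝ,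
  ‖D.L (1 / 2 + t * I)‖ ≤ C * Real.exp (η * Lg t)

/-- finitely many zeros at bounded height, `O (log t)` zeros in a unit interval -/
def S_cnt (D : Dat) : Prop := (∀ R : ℝ, {s : ℂ | D.IsZ s ∧ |s.im| ≤ R}.Finite) ∧
  ∃ C : ℝ, 0 < C ∧ ∀ t : ℝ, ∀ S : Finset ℂ, (∀ s ∈ S, D.IsZ s ∧ |s.im - t| ≤ 1) → ∑ s ∈ S, (D.mu s : ℝ) ≤ C * Lg t

/-- a nonnegative kernel of exponential type `1` -/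
def S_kerL : Prop := ∃ (k : ℂ → ℂ) (c C : ℝ), Differentiable ℂ k ∧ 0 < c ∧ 0 < C ∧
  (∀ u : ℝ, 0 ≤ (k u).re ∧ (k u).im = 0) ∧ (∀ u : ℝ, |u| ≤ 1 → c ≤ (k u).re) ∧
  (∀ z : ℂ, ‖k z‖ ≤ C * Real.exp |z.im| / (1 + |z.re|) ^ 4)

/-- shift of a vertical line -/
def S_sh : Prop := ∀ (H : ℂ → ℂ) (σ1 σ2 B : ℝ), σ1 ≤ σ2 →
  (∀ s : ℂ, σ1 ≤ s.re → s.re ≤ σ2 → DifferentiableAt ℂ H s) →
  (∀ s : ℂ, σ1 ≤ s.re → s.re ≤ σ2 → ‖H s‖ ≤ B / (1 + |s.im|) ^ 2) →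
  ∫ u : ℝ, H (σ1 + u * I) = ∫ u : ℝ, H (σ2 + u * I)

/-- at most `C r log t` zeros in an interval of radius `r ≥ 1 / log log t` -/
def S_slope (D : Dat) : Prop := ∃ C T0 : ℝ, 0 < C ∧ Real.exp 1 ≤ T0 ∧ D.Slope 1 C T0

/-- the L-function of the completed function `X`, without its pole at `s = 1` -/
noncomputable def datOf {m : ℕ} (r : ℕ) (N : ℝ) (a : Fin m → ℂ) (X : ℂ → ℂ) : Dat where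
  Zs s := X s * (s ^ r)⁻¹ * ((N : ℂ) ^ (s / 2))⁻¹ * ∏ j, (Gammaℝ (s + a j))⁻¹
  p := r

/-- polynomial growth -/
def S_rbase : Prop := ∀ (θ : ℝ) (m r : ℕ) (N : ℝ) (a : Fin m → ℂ) (b c : ℕ → ℂ) (X : ℂ → ℂ), RawT θ m r N a b c X →
  (1 ≤ r → X 1 ≠ 0) → Base (datOf r N a X)

/-- the Dirichlet series of `L` and of its inverse -/
def S_rser : Prop := ∀ (θ : ℝ) (m r : ℕ) (N : ℝ) (a : Fin m → ℂ) (b c : ℕ → ℂ) (X : ℂ → ℂ), RawT θ m r N a b c X →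
  (∃ (b' : ℕ → ℂ) (σ1 : ℝ), 1 ≤ σ1 ∧ ∀ s : ℂ, σ1 < s.re → LSeriesSummable b' s ∧ (datOf r N a X).fz s = LSeries b' s) ∧
  ∃ C : ℝ, 0 < C ∧ ∀ s : ℂ, 5 / 2 ≤ s.re → ‖(datOf r N a X).L s‖ ≤ C ∧ ‖(datOf r N a X).fz s‖ ≤ C

/-- the zeros -/
def S_rzero : Prop := ∀ (θ : ℝ) (m r : ℕ) (N : ℝ) (a : Fin m → ℂ) (b c : ℕ → ℂ) (X : ℂ → ℂ), RawT θ m r N a b c X →
  (∀ j, -1 / 2 < (a j).re) →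
  (∀ s : ℂ, 1 / 2 ≤ s.re → ((datOf r N a X).Zs s = 0 ↔ X s = 0) ∧ (datOf r N a X).mu s = analyticOrderNatAt X s) ∧
  ((∀ s : ℂ, X s = 0 → s.re = 1 / 2) → ∃ e0 : ℝ, 0 < e0 ∧ ∀ s : ℂ, 1 / 2 - e0 < s.re → s.re < 1 / 2 →
    (datOf r N a X).Zs s ≠ 0) ∧
  ((∃ s : ℂ, X s = 0 ∧ s.re ≠ 1 / 2) → ∃ s : ℂ, 1 / 2 < s.re ∧ (datOf r N a X).Zs s = 0)

end Pool.Agent.N967.G
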