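import Mathlib
import Pool.Agent.N967.G.StmA

set_option autoImplicit false

/-!
# Baez-Duarte's distance for general L-functions: the properties `Rp` from the parts (helper803)
-/

namespace Pool.Agent.N967.G

open Complex MeasureTheory Filter Topology
open Pool.Agent.Y23 (Lg)
open Pool.Agent.TH839.NA (RawT)

namespace AxF

lemma exp_Lg (t : ℝ) : Real.exp (Lg t) = 3 + |t| := by
  unfold Lg
  exact Real.exp_log (by positivity)

end AxF

theorem rp_of {D : Dat} (h : Ax D) (h1 : S_cnt D) (h2 : S_slope D) (h3 : S_lind D)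
    (h4 : S_crit D) (h5 : S_pt D) : Rp D where
  base := h.base
  zero := h.zero
  left := h.left
  fin := h1.1
  cnt := h1.2
  slope := h2
  ser := h.ser
  fzg := by
    intro δ hδ
    obtain ⟨C, hC, hb⟩ := h3 δ 1 hδ one_pos
    refine ⟨3 * C, 1, by positivity, fun s hs => ?_⟩
    have h6 := (hb s hs).2
    rw [one_mul, AxF.exp_Lg] at h6
    have h7 := Complex.abs_im_le_norm s
    have h8 := norm_nonneg s
    refine h6.trans ?_
    rw [pow_one]
    have h9 : 3 + |s.im| ≤ 3 * (1 + ‖s‖) := by linarith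
    calc C * (3 + |s.im|) ≤ C * (3 * (1 + ‖s‖)) := by gcongr
      _ = 3 * C * (1 + ‖s‖) := by ring
  crit := by
    obtain ⟨C, hC, hb⟩ := h4 (1 / 8) (by norm_num)
    refine ⟨C * 3 ^ (1 / 8 : ℝ), by positivity, fun t => ?_⟩
    refine (hb t).trans ?_
    have h6 : Real.exp (1 / 8 * Lg t) = (3 + |t|) ^ (1 / 8 : ℝ) := by
      rw [← AxF.exp_Lg t, ← Real.exp_mul, mul_comm]
    have h0 := abs_nonneg t
    rw [h6, mul_assoc, ← Real.mul_rpow (by norm_num) (by positivity)]
    refine mul_le_mul_of_nonneg_left ?_ hC.le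
    exact Real.rpow_le_rpow (by positivity) (by linarith) (by norm_num)
  pt := h5

theorem ax_raw (h1 : S_rbase) (h2 : S_rser) (h3 : S_rzero) :
    ∀ (θ : ℝ) (m r : ℕ) (N : ℝ) (a : Fin m → ℂ) (b c : ℕ → ℂ) (X : ℂ → ℂ),
      RawT θ m r N a b c X → (∀ j, -1 / 2 < (a j).re) → (1 ≤ r → X 1 ≠ 0) →
      (∀ s : ℂ, X s = 0 → s.re = 1 / 2) → Ax (datOf r N a X) := by
  intro θ m r N a b c X hR ha hX hRH
  obtain ⟨k1, k2, -⟩ := h3 θ m r N a b c X hR ha
  refine ⟨h1 θ m r N a b c X hR hX, fun s hs h0 => ?_, k2 hRH, (h2 θ m r N a b c X hR).1,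
    (h2 θ m r N a b c X hR).2⟩
  have h4 := hRH s (((k1 s hs.le).1).1 h0)
  linarith

end Pool.Agent.N967.G
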