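import Mathlib
import Pool.Agent.N967.G.Pw

set_option autoImplicit false

/-!
# The mean square of `1 - F` over a unit block, for general L-functions (helper769)
-/

namespace Pool.Agent.N967.G

open Complex MeasureTheory
open Pool.Agent.Y23 (Lg)

namespace Blk

open Set

lemma log_ge {X : ℝ} (hX : 1 ≤ X) : 1 ≤ Real.log (2 + X) := by
  rw [Real.le_log_iff_exp_le (by linarith)]
  have := Real.exp_one_lt_d9
  linarith

/-- `X / log (2 + X)` is increasing -/
lemma f_mono {X Y : ℝ} (hX : 1 ≤ X) (hXY : X ≤ Y) : X / Real.log (2 + X) ≤ Y / Real.log (2 + Y) := by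
  have h1 := log_ge hX
  have h2 := log_ge (hX.trans hXY)
  rw [div_le_div_iff₀ (by linarith) (by linarith)]
  have h3 : Real.log (2 + Y) ≤ Real.log (2 + X) + (Y - X) / (2 + X) := by
    have h4 : Real.log (2 + Y) = Real.log (2 + X) + Real.log ((2 + Y) / (2 + X)) := by
      rw [Real.log_div (by linarith) (by linarith)]
      ring
    have h5 := Real.log_le_sub_one_of_pos (show 0 < (2 + Y) / (2 + X) from div_pos (by linarith) (by linarith))
    have h6 : (2 + Y) / (2 + X) - 1 = (Y - X) / (2 + X) := by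
      have : 2 + X ≠ 0 := by linarith
      field_simp
      ring
    rw [h4]
    linarith
  have h7 : X * ((Y - X) / (2 + X)) ≤ Y - X := by
    rw [mul_div_assoc', div_le_iff₀ (by linarith)]
    nlinarith [mul_nonneg (sub_nonneg.mpr hXY) (show (0 : ℝ) ≤ 2 by norm_num)]
  have h8 : X * Real.log (2 + Y) ≤ X * (Real.log (2 + X) + (Y - X) / (2 + X)) :=
    mul_le_mul_of_nonneg_left h3 (by linarith)
  have h9 : (Y - X) * 1 ≤ (Y - X) * Real.log (2 + X) := mul_le_mul_of_nonneg_left h1 (by linarith)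
  linarith

/-- `f (X + Y) ≤ f X + Y` -/
lemma f_add {X Y : ℝ} (hX : 1 ≤ X) (hY : 0 ≤ Y) :
    (X + Y) / Real.log (2 + (X + Y)) ≤ X / Real.log (2 + X) + Y := by
  have h1 := log_ge hX
  have h2 : Real.log (2 + X) ≤ Real.log (2 + (X + Y)) := Real.log_le_log (by linarith) (by linarith)
  have h3 : (X + Y) / Real.log (2 + (X + Y)) ≤ (X + Y) / Real.log (2 + X) :=
    div_le_div_of_nonneg_left (by linarith) (by linarith) h2
  have h4 : Y / Real.log (2 + X) ≤ Y := div_le_self hY h1
  have h5 : (X + Y) / Real.log (2 + X) = X / Real.log (2 + X) + Y / Real.log (2 + X) := add_div _ _ _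
  linarith

/-- the count at a nearby height -/
lemma M_near {A t m : ℝ} (hA : 0 ≤ A) (h : |t - m| ≤ 3 / 2) :
    A * Lg t / Real.log (2 + Lg t) ≤ 2 * A * Lg m / Real.log (2 + Lg m) := by
  have h1 := BK.Lg_shift m (t - m)
  rw [add_sub_cancel] at h1
  have h2 : Real.log (1 + |t - m|) ≤ 1 := by
    rw [Real.log_le_iff_le_exp (by positivity)]
    have := Real.exp_one_gt_d9
    linarith
  have hm := Pool.Agent.Y23.one_le_Lg m
  have ht := Pool.Agent.Y23.one_le_Lg t
  have h3 : Lg t ≤ 2 * Lg m := by linarith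
  have h4 := f_mono ht h3
  have h5 : 2 * Lg m / Real.log (2 + 2 * Lg m) ≤ 2 * Lg m / Real.log (2 + Lg m) :=
    div_le_div_of_nonneg_left (by linarith) (by linarith [log_ge hm])
      (Real.log_le_log (by linarith) (by linarith))
  have h6 := mul_le_mul_of_nonneg_left (h4.trans h5) hA
  calc A * Lg t / Real.log (2 + Lg t) = A * (Lg t / Real.log (2 + Lg t)) := by ring
    _ ≤ A * (2 * Lg m / Real.log (2 + Lg m)) := h6
    _ = _ := by ring

/-- the zeros near `m` and their number -/
lemma near_set {D : Dat} (h : Rp D) : ∃ C : ℝ, 0 < C ∧ ∀ m : ℝ, ∃ Z : Finset ℂ,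
    (∀ s, s ∈ Z ↔ D.IsZ s ∧ |s.im - m| ≤ 5) ∧ (Z.card : ℝ) ≤ C * Lg m := by
  classical
  obtain ⟨C, hC, hcnt⟩ := h.cnt
  refine ⟨15 * C, by positivity, fun m => ?_⟩
  obtain ⟨Z, hZ⟩ := Pw.near_fin h m 5
  refine ⟨Z, hZ, ?_⟩
  have key : ∀ c : ℝ, |c - m| ≤ 4 → ((Z.filter fun s => |s.im - c| ≤ 1).card : ℝ) ≤ 3 * C * Lg m := by
    intro c hc
    have h1 := hcnt c (Z.filter fun s => |s.im - c| ≤ 1) (by
      intro s hs
      rw [Finset.mem_filter] at hs
      exact ⟨((hZ s).1 hs.1).1, hs.2⟩)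
    have h2 : ((Z.filter fun s => |s.im - c| ≤ 1).card : ℝ) ≤
        ∑ s ∈ Z.filter fun s => |s.im - c| ≤ 1, (D.mu s : ℝ) := by
      rw [Finset.card_eq_sum_ones]
      push_cast
      apply Finset.sum_le_sum
      intro s hs
      rw [Finset.mem_filter] at hs
      exact_mod_cast Pw.mu_pos h ((hZ s).1 hs.1).1
    have h4 : Lg c ≤ 3 * Lg m := by
      have h5 := BK.Lg_shift m (c - m)
      rw [add_sub_cancel] at h5
      have h6 : Real.log (1 + |c - m|) ≤ 2 := by
        rw [Real.log_le_iff_le_exp (by positivity)]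
        have e1 := Real.exp_one_gt_d9
        have e2 : Real.exp 2 = Real.exp 1 * Real.exp 1 := by rw [← Real.exp_add]; norm_num
        nlinarith
      have := Pool.Agent.Y23.one_le_Lg m
      linarith
    have h7 : C * Lg c ≤ C * (3 * Lg m) := mul_le_mul_of_nonneg_left h4 hC.le
    linarith
  have hsub : Z ⊆ (Z.filter fun s => |s.im - (m - 4)| ≤ 1) ∪ ((Z.filter fun s => |s.im - (m - 2)| ≤ 1) ∪
      ((Z.filter fun s => |s.im - m| ≤ 1) ∪ ((Z.filter fun s => |s.im - (m + 2)| ≤ 1) ∪
        (Z.filter fun s => |s.im - (m + 4)| ≤ 1)))) := by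
    intro s hs
    have h1 := ((hZ s).1 hs).2
    rw [abs_le] at h1
    simp only [Finset.mem_union, Finset.mem_filter, hs, true_and, abs_le]
    rcases le_total s.im (m - 3) with h2 | h2
    · left
      constructor <;> linarith
    · right
      rcases le_total s.im (m - 1) with h3 | h3
      · left
        constructor <;> linarith
      · right
        rcases le_total s.im (m + 1) with h4 | h4
        · left
          constructor <;> linarith
        · right
          rcases le_total s.im (m + 3) with h5 | h5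
          · left
            constructor <;> linarith
          · right
            constructor <;> linarith
  have h1 := Finset.card_le_card hsub
  have h2 := h1.trans ((Finset.card_union_le _ _).trans (add_le_add le_rfl ((Finset.card_union_le _ _).trans
    (add_le_add le_rfl ((Finset.card_union_le _ _).trans (add_le_add le_rfl (Finset.card_union_le _ _)))))))
  have h3 : (Z.card : ℝ) ≤ ((Z.filter fun s => |s.im - (m - 4)| ≤ 1).card : ℝ) +
      (((Z.filter fun s => |s.im - (m - 2)| ≤ 1).card : ℝ) + (((Z.filter fun s => |s.im - m| ≤ 1).card : ℝ) +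
      (((Z.filter fun s => |s.im - (m + 2)| ≤ 1).card : ℝ) +
        ((Z.filter fun s => |s.im - (m + 4)| ≤ 1).card : ℝ)))) := by exact_mod_cast h2
  have k1 := key (m - 4) (by rw [show m - 4 - m = -4 by ring]; norm_num)
  have k2 := key (m - 2) (by rw [show m - 2 - m = -2 by ring]; norm_num)
  have k3 := key m (by rw [sub_self]; norm_num)
  have k4 := key (m + 2) (by rw [show m + 2 - m = 2 by ring]; norm_num)
  have k5 := key (m + 4) (by rw [show m + 4 - m = 4 by ring]; norm_num)
  linarith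

end Blk

open Blk in
theorem nearB {D : Dat} (h : Rp D) (h1 : S_pw D) : S_nearB D := by
  intro η A C T0 hη hη1 hA hC hT0 hS hM
  obtain ⟨e1, K1, he1, he4, hK1, hpt⟩ := h1 η 1 C T0 hη hη1 one_pos le_rfl hC hT0 hS
  obtain ⟨C2, hC2, hset⟩ := near_set h
  refine ⟨e1, K1 * Real.exp 6 * (1 + 4 * C2 / η), he1, he4, by positivity, ?_⟩
  intro b v m hb hbe hve
  obtain ⟨Z, hZ, hcard⟩ := hset m
  set r : ℝ := b + |v| with hr
  have hv0 : 0 ≤ |v| := abs_nonneg v
  have hr0 : 0 < r := by linarith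
  have hr1 : r ≤ 1 := by linarith
  have hL1 := Pool.Agent.Y23.one_le_Lg (m : ℝ)
  have hlog : 0 ≤ Real.log (1 + |v| / b) := Real.log_nonneg (by
    have : 0 ≤ |v| / b := by positivity
    linarith)
  set X : ℝ := 4 * A * Lg m / Real.log (2 + Lg m) * Real.log (1 + |v| / b) with hX
  set A' : ℝ := K1 * Real.exp 6 * Real.exp (6 * η * Lg m + X) with hA'
  have hA'0 : 0 < A' := by positivity
  have hv4 : |v| ≤ 1 / 4 := hve.trans he4
  have hpw : ∀ t ∈ Set.Icc (m : ℝ) (m + 1), ‖1 - D.Fr b v t‖ ^ 2 ≤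
      A' * (r ^ 2 + ∑ s ∈ Z, r ^ 2 / (r ^ 2 + (t - s.im) ^ 2)) := by
    rintro t ⟨ht1, ht2⟩
    set m' : ℤ := ⌊t + v⌋ with hm'
    have f1 : (m' : ℝ) ≤ t + v := Int.floor_le _
    have f2 : t + v < m' + 1 := Int.lt_floor_add_one _
    rw [abs_le] at hv4
    have f3 : |t + v - m| ≤ 3 / 2 := by
      rw [abs_le]
      constructor <;> linarith
    have f4 : |(m' : ℝ) - m| ≤ 1 := by
      have g1 : (m : ℝ) - 2 < m' := by linarith
      have g2 : (m' : ℝ) < m + 2 := by linarith
      have g3 : m - 2 < m' := by exact_mod_cast g1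
      have g4 : m' < m + 2 := by exact_mod_cast g2
      have g5 : m - 1 ≤ m' := by omega
      have g6 : m' ≤ m + 1 := by omega
      have g7 : (m : ℝ) - 1 ≤ m' := by exact_mod_cast g5
      have g8 : (m' : ℝ) ≤ m + 1 := by exact_mod_cast g6
      rw [abs_le]
      constructor <;> linarith
    have h2 := hpt b v _ t m' hb hbe hve f1 f2.le (hM (t + v)) Z (by
      intro s hs hs'
      refine (hZ s).2 ⟨hs, ?_⟩
      have := abs_sub_le s.im m' m
      linarith)
    refine h2.trans ?_
    refine mul_le_mul_of_nonneg_right ?_ (by positivity)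
    have e0 : A' = K1 * Real.exp (6 + (6 * η * Lg m + X)) := by
      rw [hA', Real.exp_add 6 (6 * η * Lg m + X), mul_assoc]
    rw [e0]
    refine mul_le_mul_of_nonneg_left ?_ hK1.le
    rw [Real.exp_le_exp]
    have h3 : Lg m' ≤ Lg m + 1 := by
      have e1 := BK.Lg_shift m ((m' : ℝ) - m)
      rw [add_sub_cancel] at e1
      have e2 : Real.log (1 + |(m' : ℝ) - m|) ≤ 1 := by
        have := Real.log_le_sub_one_of_pos (show 0 < 1 + |(m' : ℝ) - m| by positivity)
        linarith
      linarith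
    have h4 := M_near hA.le f3
    have h5 : 6 * η * Lg m' ≤ 6 * η * (Lg m + 1) := mul_le_mul_of_nonneg_left h3 (by positivity)
    have h6 : 2 * (A * Lg (t + v) / Real.log (2 + Lg (t + v))) * Real.log (1 + |v| / b) ≤ X := by
      rw [hX]
      refine mul_le_mul_of_nonneg_right ?_ hlog
      calc 2 * (A * Lg (t + v) / Real.log (2 + Lg (t + v))) ≤ 2 * (2 * A * Lg m / Real.log (2 + Lg m)) := by
            linarith
        _ = _ := by ring
    linarith
  obtain ⟨hi, hle⟩ := BK.int_major (a := (m : ℝ)) hr0 Z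
  have hi2 : IntegrableOn (fun t : ℝ => A' * (r ^ 2 + ∑ s ∈ Z, r ^ 2 / (r ^ 2 + (t - s.im) ^ 2)))
      (Set.Icc (m : ℝ) (m + 1)) := by
    rw [intervalIntegrable_iff_integrableOn_Icc_of_le (by linarith)] at hi
    exact hi.const_mul A'
  calc ∫⁻ t in Set.Icc (m : ℝ) (m + 1), ENNReal.ofReal (‖1 - D.Fr b v t‖ ^ 2)
      ≤ ∫⁻ t in Set.Icc (m : ℝ) (m + 1),
          ENNReal.ofReal (A' * (r ^ 2 + ∑ s ∈ Z, r ^ 2 / (r ^ 2 + (t - s.im) ^ 2))) := by
        refine setLIntegral_mono' measurableSet_Icc fun t ht => ?_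
        exact ENNReal.ofReal_le_ofReal (hpw t ht)
    _ = ENNReal.ofReal (∫ t in Set.Icc (m : ℝ) (m + 1),
          A' * (r ^ 2 + ∑ s ∈ Z, r ^ 2 / (r ^ 2 + (t - s.im) ^ 2))) := by
        rw [ofReal_integral_eq_lintegral_ofReal hi2 (Filter.Eventually.of_forall fun t => by positivity)]
    _ ≤ _ := by
        refine ENNReal.ofReal_le_ofReal ?_
        have e1 : ∫ t in Set.Icc (m : ℝ) (m + 1),
            A' * (r ^ 2 + ∑ s ∈ Z, r ^ 2 / (r ^ 2 + (t - s.im) ^ 2)) =
            A' * ∫ t in (m : ℝ)..(m + 1), (r ^ 2 + ∑ s ∈ Z, r ^ 2 / (r ^ 2 + (t - s.im) ^ 2)) := by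
          rw [integral_const_mul, intervalIntegral.integral_of_le (by linarith),
            MeasureTheory.integral_Icc_eq_integral_Ioc]
        rw [e1]
        refine (mul_le_mul_of_nonneg_left hle hA'0.le).trans ?_
        have h1 : r ^ 2 + Z.card * (r * Real.pi) ≤ r * ((1 + 4 * C2 / η) * Real.exp (2 * η * Lg m)) := by
          have h2 : (Z.card : ℝ) * Real.pi ≤ C2 * Lg m * 4 :=
            mul_le_mul hcard Real.pi_le_four Real.pi_pos.le (by positivity)
          have h3 : Lg m ≤ Real.exp (2 * η * Lg m) / η := by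
            rw [le_div_iff₀ hη]
            have := Real.add_one_le_exp (2 * η * Lg m)
            have h0 : 0 ≤ η * Lg m := by positivity
            linarith
          have h4 : 1 ≤ Real.exp (2 * η * Lg m) := Real.one_le_exp (by positivity)
          have h5 : C2 * Lg m * 4 ≤ C2 * (Real.exp (2 * η * Lg m) / η) * 4 := by
            gcongr
          have h6 : r + Z.card * Real.pi ≤ (1 + 4 * C2 / η) * Real.exp (2 * η * Lg m) := by
            have e2 : (1 + 4 * C2 / η) * Real.exp (2 * η * Lg m) =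
                Real.exp (2 * η * Lg m) + C2 * (Real.exp (2 * η * Lg m) / η) * 4 := by ring
            rw [e2]
            linarith
          have e3 : r ^ 2 + Z.card * (r * Real.pi) = r * (r + Z.card * Real.pi) := by ring
          rw [e3]
          exact mul_le_mul_of_nonneg_left h6 hr0.le
        calc A' * (r ^ 2 + Z.card * (r * Real.pi)) ≤
              A' * (r * ((1 + 4 * C2 / η) * Real.exp (2 * η * Lg m))) :=
              mul_le_mul_of_nonneg_left h1 hA'0.le
          _ = K1 * Real.exp 6 * (1 + 4 * C2 / η) * r *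
              (Real.exp (6 * η * Lg m + X) * Real.exp (2 * η * Lg m)) := by
              rw [hA']; ring
          _ = _ := by
              rw [← Real.exp_add]
              congr 2
              ring

open Blk in
theorem farB {D : Dat} (h : Rp D) : S_farB D := by
  intro η A C T0 hη hη1 hA hC hT0 hS hM
  obtain ⟨e, K', he, he4, hK', -, far⟩ := h.pt η 1 C T0 hη hη1 one_pos le_rfl hC hT0 hS
  refine ⟨e, 2 + 2 * K' ^ 2, he, he4, by positivity, ?_⟩
  intro b v t hb hbe
  have hLt := Pool.Agent.Y23.one_le_Lg t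
  have hLtv := Pool.Agent.Y23.one_le_Lg (t + v)
  have hlog : 0 ≤ Real.log (1 + 1 / b) := Real.log_nonneg (by
    have : 0 ≤ 1 / b := by positivity
    linarith)
  have hlv : 0 ≤ Real.log (1 + |v|) := Real.log_nonneg (by linarith [abs_nonneg v])
  have hl2 := log_ge hLt
  set M : ℝ := A * Lg (t + v) / Real.log (2 + Lg (t + v)) with hMdef
  have hMle : M ≤ A * (Lg t / Real.log (2 + Lg t) + 2 * Real.log (1 + |v|)) := by
    have h1 := BK.Lg_shift t v
    have h2 := (f_mono hLtv h1).trans (f_add hLt hlv)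
    have h3 : M = A * (Lg (t + v) / Real.log (2 + Lg (t + v))) := by rw [hMdef]; ring
    rw [h3]
    refine mul_le_mul_of_nonneg_left ?_ hA.le
    linarith
  set Y : ℝ := 4 * η * Lg t + 2 * η * Real.log (1 + |v|) +
      2 * A * (Lg t / Real.log (2 + Lg t) + 2 * Real.log (1 + |v|)) * Real.log (1 + 1 / b) with hY
  have hF := far b t (t + v) M hb hbe (hM (t + v))
  have hFr : ‖D.Fr b v t‖ ^ 2 ≤ K' ^ 2 * Real.exp Y := by
    have h1 : ‖D.Fr b v t‖ ≤ K' * Real.exp (η * Lg t + η * Lg (t + v) + M * Real.log (1 + 1 / b)) := by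
      rw [Dat.Fr, norm_mul]
      exact hF
    refine (pow_le_pow_left₀ (norm_nonneg _) h1 2).trans ?_
    rw [mul_pow, ← Real.exp_nat_mul]
    refine mul_le_mul_of_nonneg_left ?_ (by positivity)
    rw [Real.exp_le_exp, hY]
    push_cast
    have h2 : η * Lg (t + v) ≤ η * (Lg t + Real.log (1 + |v|)) :=
      mul_le_mul_of_nonneg_left (BK.Lg_shift t v) hη.le
    have h3 := mul_le_mul_of_nonneg_right hMle hlog
    linarith
  have hY0 : 1 ≤ Real.exp Y := by
    apply Real.one_le_exp
    have : 0 ≤ Lg t / Real.log (2 + Lg t) := by positivity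
    positivity
  calc ‖1 - D.Fr b v t‖ ^ 2 ≤ 2 + 2 * ‖D.Fr b v t‖ ^ 2 := BK.one_sub_sq _
    _ ≤ 2 * Real.exp Y + 2 * (K' ^ 2 * Real.exp Y) := by linarith
    _ = (2 + 2 * K' ^ 2) * Real.exp Y := by ring

end Pool.Agent.N967.G
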