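import Pool.Agent.N967.G.StmA

set_option autoImplicit false

/-!
# The Lindelöf hypothesis on the critical line (helper494)
-/

namespace Pool.Agent.N967.G

open Complex
open Pool.Agent.Y23 (Lg)

namespace Crit

lemma Lg_nonneg (t : ℝ) : 0 ≤ Lg t := by
  unfold Lg
  exact Real.log_nonneg (by linarith [abs_nonneg t])

lemma one_le_exp {η : ℝ} (t : ℝ) (h : 0 < η) : 1 ≤ Real.exp (η * Lg t) :=
  Real.one_le_exp (mul_nonneg h.le (Lg_nonneg t))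

lemma exp_Lg (η t : ℝ) : Real.exp (η * Lg t) = (3 + |t|) ^ η := by
  unfold Lg
  rw [mul_comm, Real.rpow_def_of_pos (by linarith [abs_nonneg t])]

/-- the distance to a zero increases to the right of the critical line -/
lemma norm_le {t e : ℝ} {ρ : ℂ} (he : 0 ≤ e) (h : ρ.re ≤ 1 / 2) :
    ‖(1 / 2 + t * I : ℂ) - ρ‖ ≤ ‖(1 / 2 + e + t * I : ℂ) - ρ‖ := by
  rw [Complex.norm_def, Complex.norm_def]
  apply Real.sqrt_le_sqrt
  rw [Complex.normSq_apply, Complex.normSq_apply]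
  simp
  nlinarith

/-- from the critical line to the right of it -/
lemma step {D : Dat} (h : Ax D) {C e t : ℝ} (he : 0 < e) (he1 : e ≤ 1 / 4) (Z : Finset ℂ)
    (hZ : ∀ ρ : ℂ, ρ ∈ Z ↔ D.Zs ρ = 0 ∧ ‖ρ - (5 / 2 + t * I)‖ ≤ 35 / 16)
    (hp : ∀ s s' : ℂ, ‖s - (5 / 2 + t * I)‖ ≤ 17 / 8 → ‖s' - (5 / 2 + t * I)‖ ≤ 17 / 8 →
      ‖D.Zs s‖ * ∏ ρ ∈ Z, ‖s' - ρ‖ ^ D.mu ρ ≤
        Real.exp (C * Lg t * ‖s - s'‖) * ‖D.Zs s'‖ * ∏ ρ ∈ Z, ‖s - ρ‖ ^ D.mu ρ) :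
    ‖D.L (1 / 2 + t * I)‖ ≤ Real.exp (C * Lg t * e) * ‖D.L (1 / 2 + e + t * I)‖ := by
  have hs1 : ‖(1 / 2 + t * I : ℂ) - (5 / 2 + t * I)‖ ≤ 17 / 8 := by
    have h1 : (1 / 2 + t * I : ℂ) - (5 / 2 + t * I) = ((-2 : ℝ) : ℂ) := by push_cast; ring
    rw [h1, Complex.norm_real]
    norm_num
  have hs2 : ‖(1 / 2 + e + t * I : ℂ) - (5 / 2 + t * I)‖ ≤ 17 / 8 := by
    have h1 : (1 / 2 + e + t * I : ℂ) - (5 / 2 + t * I) = ((e - 2 : ℝ) : ℂ) := by push_cast; ring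
    rw [h1, Complex.norm_real, Real.norm_eq_abs, abs_le]
    constructor <;> linarith
  have hd : ‖(1 / 2 + t * I : ℂ) - (1 / 2 + e + t * I)‖ = e := by
    have h1 : (1 / 2 + t * I : ℂ) - (1 / 2 + e + t * I) = ((-e : ℝ) : ℂ) := by push_cast; ring
    rw [h1, Complex.norm_real, Real.norm_eq_abs, abs_neg, abs_of_pos he]
  have hre : ∀ ρ ∈ Z, ρ.re ≤ 1 / 2 := by
    intro ρ hρ
    by_contra hcon
    push Not at hcon
    exact h.zero ρ hcon ((hZ ρ).1 hρ).1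
  have hle : ∏ ρ ∈ Z, ‖(1 / 2 + t * I : ℂ) - ρ‖ ^ D.mu ρ ≤
      ∏ ρ ∈ Z, ‖(1 / 2 + e + t * I : ℂ) - ρ‖ ^ D.mu ρ :=
    Finset.prod_le_prod (fun ρ _ => pow_nonneg (norm_nonneg _) _)
      fun ρ hρ => pow_le_pow_left₀ (norm_nonneg _) (norm_le he.le (hre ρ hρ)) _
  have hpos : 0 < ∏ ρ ∈ Z, ‖(1 / 2 + e + t * I : ℂ) - ρ‖ ^ D.mu ρ := by
    refine Finset.prod_pos fun ρ hρ => pow_pos (norm_pos_iff.2 ?_) _
    intro h0
    have h1 := congrArg Complex.re h0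
    simp at h1
    have h2 := hre ρ hρ
    linarith
  have h3 := hp _ _ hs1 hs2
  rw [hd] at h3
  have h4 : ‖D.Zs (1 / 2 + t * I)‖ ≤ Real.exp (C * Lg t * e) * ‖D.Zs (1 / 2 + e + t * I)‖ := by
    refine le_of_mul_le_mul_right (h3.trans ?_) hpos
    exact mul_le_mul_of_nonneg_left hle (by positivity)
  have hn2 : ‖(1 / 2 + e + t * I : ℂ) - 1‖ ≤ ‖(1 / 2 + t * I : ℂ) - 1‖ := by
    rw [Complex.norm_def, Complex.norm_def]
    apply Real.sqrt_le_sqrt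
    rw [Complex.normSq_apply, Complex.normSq_apply]
    simp
    nlinarith
  have h5 : 0 < ‖(1 / 2 + e + t * I : ℂ) - 1‖ := by
    refine norm_pos_iff.2 fun h0 => ?_
    have h1 := congrArg Complex.re h0
    simp at h1
    linarith
  unfold Dat.L
  rw [norm_div, norm_div, norm_pow, norm_pow, ← mul_div_assoc]
  exact div_le_div₀ (by positivity) h4 (pow_pos h5 _) (pow_le_pow_left₀ h5.le hn2 _)

/-- bounded height -/
lemma low {D : Dat} (h : Base D) : ∃ C : ℝ, 0 < C ∧ ∀ t : ℝ, |t| ≤ 1 → ‖D.L (1 / 2 + t * I)‖ ≤ C := by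
  obtain ⟨C, k, hC, hg⟩ := h.growth
  refine ⟨C * (1 + 3) ^ k * 2 ^ D.p, by positivity, fun t ht => ?_⟩
  have h1 : (1 / 4 : ℝ) ≤ (1 / 2 + t * I : ℂ).re := by
    simp
    norm_num
  have h2 : ‖(1 / 2 + t * I : ℂ)‖ ≤ 3 := by
    refine (norm_add_le _ _).trans ?_
    rw [norm_mul, Complex.norm_I, mul_one, Complex.norm_real, Real.norm_eq_abs]
    have h3 : ‖(1 / 2 : ℂ)‖ = 1 / 2 := by norm_num
    rw [h3]
    linarith
  have h3 : (1 / 2 : ℝ) ≤ ‖(1 / 2 + t * I : ℂ) - 1‖ := by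
    refine le_trans ?_ (Complex.abs_re_le_norm _)
    simp
    norm_num [abs_of_neg]
  have h4 : (1 / 2 : ℝ) ^ D.p ≤ ‖(1 / 2 + t * I : ℂ) - 1‖ ^ D.p :=
    pow_le_pow_left₀ (by norm_num) h3 _
  unfold Dat.L
  rw [norm_div, norm_pow, div_le_iff₀ (lt_of_lt_of_le (by positivity) h4)]
  calc ‖D.Zs (1 / 2 + t * I)‖ ≤ C * (1 + ‖(1 / 2 + t * I : ℂ)‖) ^ k := hg _ h1
    _ ≤ C * (1 + 3) ^ k := by gcongr
    _ = C * (1 + 3) ^ k * 2 ^ D.p * (1 / 2) ^ D.p := by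
      rw [mul_assoc, ← mul_pow]
      norm_num
    _ ≤ C * (1 + 3) ^ k * 2 ^ D.p * ‖(1 / 2 + t * I : ℂ) - 1‖ ^ D.p := by gcongr

end Crit

/-- the Lindelöf hypothesis on the critical line -/
theorem crit {D : Dat} (h : Ax D) (hz : S_zn D) (hl : S_lind D) : S_crit D := by
  intro η hη
  obtain ⟨C, hC, hz⟩ := hz
  let e : ℝ := min (1 / 4) (η / (2 * C))
  have he : 0 < e := lt_min (by norm_num) (by positivity)
  have he1 : e ≤ 1 / 4 := min_le_left _ _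
  have he2 : C * e ≤ η / 2 := by
    have h1 : e ≤ η / (2 * C) := min_le_right _ _
    calc C * e ≤ C * (η / (2 * C)) := by gcongr
      _ = η / 2 := by field_simp
  obtain ⟨C', hC', hl⟩ := hl e (η / 2) he (by positivity)
  obtain ⟨C'', hC'', h2⟩ := Crit.low h.base
  refine ⟨C' + C'', by positivity, fun t => ?_⟩
  rcases le_total |t| 1 with ht | ht
  · calc ‖D.L (1 / 2 + t * I)‖ ≤ C'' := h2 t ht
      _ ≤ (C' + C'') * 1 := by linarith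
      _ ≤ (C' + C'') * Real.exp (η * Lg t) := by
        gcongr
        exact Crit.one_le_exp t hη
  · obtain ⟨Z, hZ, -, hp, -⟩ := hz t
    have h3 := Crit.step h he he1 Z hZ hp
    have h4 : (1 / 2 : ℝ) + e ≤ (1 / 2 + e + t * I : ℂ).re := by
      simp
    have h5 : (1 / 2 + e + t * I : ℂ).im = t := by
      simp
    have h6 := (hl _ h4).1 (by rw [h5]; exact ht)
    rw [h5] at h6
    have hL := Crit.Lg_nonneg t
    calc ‖D.L (1 / 2 + t * I)‖ ≤ Real.exp (C * Lg t * e) * ‖D.L (1 / 2 + e + t * I)‖ := h3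
      _ ≤ Real.exp (η / 2 * Lg t) * (C' * Real.exp (η / 2 * Lg t)) := by
        refine mul_le_mul (Real.exp_le_exp.2 ?_) h6 (norm_nonneg _) (Real.exp_pos _).le
        calc C * Lg t * e = (C * e) * Lg t := by ring
          _ ≤ η / 2 * Lg t := by gcongr
      _ = C' * Real.exp (η * Lg t) := by
        have h7 : Real.exp (η * Lg t) = Real.exp (η / 2 * Lg t) * Real.exp (η / 2 * Lg t) := by
          rw [← Real.exp_add]
          ring_nf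
        rw [h7]
        ring
      _ ≤ (C' + C'') * Real.exp (η * Lg t) := by
        gcongr
        linarith

theorem crit8 {D : Dat} (h : S_crit D) :
    ∃ C : ℝ, 0 < C ∧ ∀ t : ℝ, ‖D.L (1 / 2 + t * I)‖ ≤ C * (1 + |t|) ^ (1 / 8 : ℝ) := by
  obtain ⟨C, hC, h⟩ := h (1 / 8) (by norm_num)
  refine ⟨C * 3 ^ (1 / 8 : ℝ), by positivity, fun t => (h t).trans ?_⟩
  rw [Crit.exp_Lg, mul_assoc, ← Real.mul_rpow (by norm_num) (by positivity)]
  have h1 : 3 + |t| ≤ 3 * (1 + |t|) := by linarith [abs_nonneg t]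
  gcongr

theorem fzg {D : Dat} (h : S_lind D) : ∀ δ : ℝ, 0 < δ → ∃ (C : ℝ) (k : ℕ), 0 < C ∧
    ∀ s : ℂ, 1 / 2 + δ ≤ s.re → ‖D.fz s‖ ≤ C * (1 + ‖s‖) ^ k := by
  intro δ hδ
  obtain ⟨C, hC, h⟩ := h δ 1 hδ one_pos
  refine ⟨C * 3, 1, by positivity, fun s hs => (h s hs).2.trans ?_⟩
  rw [Crit.exp_Lg, Real.rpow_one, pow_one, mul_assoc]
  have h1 := Complex.abs_im_le_norm s
  have h2 := norm_nonneg s
  gcongr
  linarith

end Pool.Agent.N967.G
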