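import Mathlib
import Pool.Agent.N967.G.Stm
import Pool.Agent.N967.Upper3

set_option autoImplicit false

/-!
# Baez-Duarte's distance for general L-functions: Cauchy-Schwarz and Tonelli for `HR`
(port of `Pool.Agent.N967.Cs`, helper803)
-/

namespace Pool.Agent.N967.G

open Complex MeasureTheory Filter Topology

namespace Cs

lemma den_ne {R : ℝ} (hR : 0 < R) (y : ℝ) : (-(R : ℂ) + y * I : ℂ) ≠ 0 := by
  intro h
  have := congrArg Complex.re h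
  simp at this
  linarith

lemma R_le_den {R : ℝ} (hR : 0 < R) (y : ℝ) : R ≤ ‖(-(R : ℂ) + y * I : ℂ)‖ := by
  have := Complex.abs_re_le_norm (-(R : ℂ) + y * I : ℂ)
  simp only [add_re, neg_re, ofReal_re, mul_re, I_re, mul_zero, ofReal_im, I_im, mul_one, sub_self,
    add_zero, abs_neg] at this
  rwa [abs_of_pos hR] at this

lemma KR_cont' {κ : ℂ → ℂ} (h : Differentiable ℂ κ) {R : ℝ} (hR : 0 < R) : Continuous (KR κ R) := by
  unfold KR
  refine (continuous_const.mul (Continuous.div ?_ (by fun_prop) (den_ne hR))).neg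
  exact h.continuous.comp (by fun_prop)

lemma KR_cont {κ : ℂ → ℂ} (h : Ker κ) {R : ℝ} (hR : 0 < R) : Continuous (KR κ R) := KR_cont' h.1 hR

lemma KR_bdd_aux {κ : ℂ → ℂ} {β c C : ℝ} (hC : 0 < C)
    (h3 : ∀ z : ℂ, z.re ≤ 0 → ‖κ z‖ ≤ C * Real.exp (-z.re) * Real.exp (-(c * |z.im| ^ β)))
    {R : ℝ} (hR : 0 < R) (y : ℝ) :
    ‖KR κ R y‖ ≤ C * Real.exp R / R * Real.exp (-(c * |y| ^ β)) := by
  have h1 := h3 (-(R : ℂ) + y * I) (by simp; linarith)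
  have e1 : (-(R : ℂ) + y * I : ℂ).re = -R := by simp
  have e2 : (-(R : ℂ) + y * I : ℂ).im = y := by simp
  rw [e1, e2, neg_neg] at h1
  have h2 := R_le_den hR y
  unfold KR
  rw [norm_neg, norm_mul, norm_div (κ (-(R : ℂ) + y * I))]
  have h4 : ‖(1 / (2 * Real.pi) : ℂ)‖ ≤ 1 := by
    have e5 : ((1 / (2 * Real.pi)) : ℂ) = (((1 / (2 * Real.pi)) : ℝ) : ℂ) := by push_cast; rfl
    rw [e5, Complex.norm_real, Real.norm_eq_abs, abs_of_nonneg (by positivity)]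
    rw [div_le_one (by positivity)]
    linarith [Real.pi_gt_three]
  calc ‖(1 / (2 * Real.pi) : ℂ)‖ * (‖κ (-(R : ℂ) + y * I)‖ / ‖(-(R : ℂ) + y * I : ℂ)‖)
      ≤ 1 * ((C * Real.exp R * Real.exp (-(c * |y| ^ β))) / R) := by gcongr
    _ = _ := by ring

/-- the bound for the weight of the kernel, uniform in `R` -/
lemma KR_bound {κ : ℂ → ℂ} (h : Ker κ) : ∃ c C : ℝ, 0 < c ∧ 0 < C ∧ ∀ R : ℝ, 0 < R → ∀ y : ℝ,
    ‖KR κ R y‖ ≤ C * Real.exp R / R * Real.exp (-(c * |y| ^ (19 / 20 : ℝ))) := by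
  obtain ⟨-, -, c, C, hc, hC, -, h3⟩ := h
  exact ⟨c, C, hc, hC, fun R hR y => KR_bdd_aux hC h3 hR y⟩

/-- the bound for the weight of the kernel with the decay `exp (- c |y| ^ β)`, uniform in `R` -/
lemma KR_boundB {β : ℝ} {κ : ℂ → ℂ} (h : KerB β κ) : ∃ c C : ℝ, 0 < c ∧ 0 < C ∧ ∀ R : ℝ, 0 < R →
    ∀ y : ℝ, ‖KR κ R y‖ ≤ C * Real.exp R / R * Real.exp (-(c * |y| ^ β)) := by
  obtain ⟨-, -, c, C, hc, hC, -, h3⟩ := h
  exact ⟨c, C, hc, hC, fun R hR y => KR_bdd_aux hC h3 hR y⟩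

lemma KR_int {κ : ℂ → ℂ} (h : Ker κ) {R : ℝ} (hR : 0 < R) : Integrable (KR κ R) := by
  obtain ⟨c, C, hc, hC, hb⟩ := KR_bound h
  obtain ⟨B, hB, hd⟩ := U3.dec hc
  refine (U3.eight_int.const_mul (C * Real.exp R / R * B)).mono' (KR_cont h hR).aestronglyMeasurable
    (Eventually.of_forall fun y => ?_)
  refine (hb R hR y).trans ?_
  have := hd |y| (abs_nonneg y)
  calc C * Real.exp R / R * Real.exp (-(c * |y| ^ (19 / 20 : ℝ)))
      ≤ C * Real.exp R / R * (B / (1 + |y|) ^ 8) := by gcongr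
    _ = _ := by ring

lemma KR_lint {κ : ℂ → ℂ} (h : Ker κ) {R : ℝ} (hR : 0 < R) :
    ENNReal.ofReal (∫ y : ℝ, ‖KR κ R y‖) = ∫⁻ y, ‖KR κ R y‖ₑ := by
  rw [ofReal_integral_eq_lintegral_ofReal (KR_int h hR).norm
    (Eventually.of_forall fun y => norm_nonneg _)]
  exact lintegral_congr fun y => ofReal_norm _

lemma L_cont {D : Dat} (h : Rp D) : Continuous fun t : ℝ => D.L (1 / 2 + t * I) := by
  rw [continuous_iff_continuousAt]
  intro t
  unfold Dat.L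
  refine ContinuousAt.div ?_ (by fun_prop) ?_
  · have h2 : ContinuousAt D.Zs (1 / 2 + t * I) := (h.base.diff _ (by simp)).continuousAt
    exact ContinuousAt.comp (f := fun t : ℝ => (1 / 2 : ℂ) + t * I) h2 (by fun_prop)
  · refine pow_ne_zero _ (sub_ne_zero.2 fun h1 => ?_)
    have := congrArg Complex.re h1
    simp at this

lemma fz_cont {D : Dat} (h : Rp D) {b : ℝ} (hb : 0 < b) :
    Continuous fun u : ℝ => D.fz (1 / 2 + b + (u : ℂ) * I) := by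
  rw [continuous_iff_continuousAt]
  intro u
  have hre : (1 / 2 + b + (u : ℂ) * I).re = 1 / 2 + b := by simp
  unfold Dat.fz
  refine ContinuousAt.div (by fun_prop) ?_ ?_
  · have h2 : ContinuousAt D.Zs (1 / 2 + b + (u : ℂ) * I) :=
      (h.base.diff _ (by rw [hre]; linarith)).continuousAt
    exact ContinuousAt.comp (f := fun u : ℝ => (1 / 2 : ℂ) + b + (u : ℂ) * I) h2 (by fun_prop)
  · exact h.zero _ (by rw [hre]; linarith)

lemma Fr_cont2 {D : Dat} (h : Rp D) {b : ℝ} (hb : 0 < b) :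
    Continuous fun p : ℝ × ℝ => D.Fr b p.1 p.2 := by
  unfold Dat.Fr
  exact ((L_cont h).comp continuous_snd).mul
    ((fz_cont h hb).comp (continuous_snd.add continuous_fst))

lemma Fr_cont' {D : Dat} (h : Rp D) {b : ℝ} (hb : 0 < b) (L : ℝ) :
    Continuous fun p : ℝ × ℝ => D.Fr b (-(p.2 / L)) p.1 :=
  (Fr_cont2 h hb).comp (f := fun p : ℝ × ℝ => (-(p.2 / L), p.1)) (by fun_prop)

end Cs

open Cs in
theorem cs {D : Dat} (hD : Rp D) : S_cs D := by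
  intro κ hκ R L hR hL w hw hw0
  have hL0 : 0 < L := by linarith
  have hgc := KR_cont hκ hR
  have hFc := Fr_cont' hD (b := R / L) (by positivity) L
  rw [KR_lint hκ hR]
  have hHm : ∀ t : ℝ, Measurable fun y : ℝ => ‖1 - D.Fr (R / L) (-(y / L)) t‖ₑ := by
    intro t
    have : Continuous fun y : ℝ => (1 : ℂ) - D.Fr (R / L) (-(y / L)) t :=
      continuous_const.sub (hFc.comp (f := fun y : ℝ => (t, y)) (by fun_prop))
    exact this.measurable.enorm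
  have e2 : ∀ t y : ℝ, ENNReal.ofReal (‖1 - D.Fr (R / L) (-(y / L)) t‖ ^ 2 * w t) =
      ‖1 - D.Fr (R / L) (-(y / L)) t‖ₑ ^ 2 * ENNReal.ofReal (w t) := by
    intro t y
    rw [ENNReal.ofReal_mul (by positivity), ENNReal.ofReal_pow (norm_nonneg _), ofReal_norm]
  have hpt : ∀ t : ℝ, ENNReal.ofReal (‖D.HR κ R L t‖ ^ 2 * w t) ≤
      (∫⁻ y, ‖KR κ R y‖ₑ) *
        ∫⁻ y, ‖KR κ R y‖ₑ * ENNReal.ofReal (‖1 - D.Fr (R / L) (-(y / L)) t‖ ^ 2 * w t) := by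
    intro t
    have h1 : ‖D.HR κ R L t‖ₑ ≤ ∫⁻ y, ‖KR κ R y‖ₑ * ‖1 - D.Fr (R / L) (-(y / L)) t‖ₑ := by
      unfold Dat.HR
      refine (enorm_integral_le_lintegral_enorm _).trans (le_of_eq ?_)
      exact lintegral_congr fun y => enorm_mul _ _
    simp_rw [e2]
    rw [ENNReal.ofReal_mul (by positivity), ENNReal.ofReal_pow (norm_nonneg _), ofReal_norm]
    calc ‖D.HR κ R L t‖ₑ ^ 2 * ENNReal.ofReal (w t)
        ≤ (∫⁻ y, ‖KR κ R y‖ₑ * ‖1 - D.Fr (R / L) (-(y / L)) t‖ₑ) ^ 2 * ENNReal.ofReal (w t) := by gcongr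
      _ ≤ ((∫⁻ y, ‖KR κ R y‖ₑ) * ∫⁻ y, ‖KR κ R y‖ₑ * ‖1 - D.Fr (R / L) (-(y / L)) t‖ₑ ^ 2) *
          ENNReal.ofReal (w t) := by
          gcongr
          exact U3.csE hgc.measurable.enorm (hHm t)
      _ = _ := by
          rw [mul_assoc, ← lintegral_mul_const' _ _ ENNReal.ofReal_ne_top]
          congr 1
          refine lintegral_congr fun y => ?_
          rw [mul_assoc]
  have hjoint : AEMeasurable (Function.uncurry fun (t y : ℝ) => ‖KR κ R y‖ₑ *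
      ENNReal.ofReal (‖1 - D.Fr (R / L) (-(y / L)) t‖ ^ 2 * w t)) (volume.prod volume) := by
    refine Measurable.aemeasurable ?_
    refine (hgc.measurable.enorm.comp measurable_snd).mul (ENNReal.measurable_ofReal.comp ?_)
    have h1 : Continuous fun p : ℝ × ℝ => ‖1 - D.Fr (R / L) (-(p.2 / L)) p.1‖ ^ 2 :=
      (continuous_const.sub hFc).norm.pow 2
    exact h1.measurable.mul (hw.comp measurable_fst)
  have hfin : (∫⁻ y, ‖KR κ R y‖ₑ) ≠ ⊤ := by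
    rw [← KR_lint hκ hR]; exact ENNReal.ofReal_ne_top
  calc ∫⁻ t : ℝ, ENNReal.ofReal (‖D.HR κ R L t‖ ^ 2 * w t)
      ≤ ∫⁻ t, (∫⁻ y, ‖KR κ R y‖ₑ) *
          ∫⁻ y, ‖KR κ R y‖ₑ * ENNReal.ofReal (‖1 - D.Fr (R / L) (-(y / L)) t‖ ^ 2 * w t) :=
        lintegral_mono hpt
    _ = (∫⁻ y, ‖KR κ R y‖ₑ) *
          ∫⁻ t, ∫⁻ y, ‖KR κ R y‖ₑ * ENNReal.ofReal (‖1 - D.Fr (R / L) (-(y / L)) t‖ ^ 2 * w t) := by
        rw [lintegral_const_mul' _ _ hfin]
    _ = (∫⁻ y, ‖KR κ R y‖ₑ) *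
          ∫⁻ y, ∫⁻ t, ‖KR κ R y‖ₑ * ENNReal.ofReal (‖1 - D.Fr (R / L) (-(y / L)) t‖ ^ 2 * w t) := by
        rw [lintegral_lintegral_swap hjoint]
    _ = (∫⁻ y, ‖KR κ R y‖ₑ) *
          ∫⁻ y, ‖KR κ R y‖ₑ * ∫⁻ t, ENNReal.ofReal (‖1 - D.Fr (R / L) (-(y / L)) t‖ ^ 2 * w t) := by
        congr 1
        refine lintegral_congr fun y => ?_
        rw [lintegral_const_mul' _ _ enorm_ne_top]
    _ = _ := by
        congr 1
        refine lintegral_congr fun y => ?_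
        rw [ofReal_norm]

end Pool.Agent.N967.G
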