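import Pool.Agent.N967.G.Stm
import Pool.Agent.N967.Grow

set_option autoImplicit false

/-!
# Growth of the Dirichlet polynomials to the left of the critical line (`S_grow`), general L-functions
-/

namespace Pool.Agent.N967.G

namespace Grow

open Complex MeasureTheory Filter Topology Set
open Pool.Agent.H295R2 (integrable_decay)

/-- `((s - 1) ^ p - (s - 1) ^ p L(s) A(s)) / s ^ (p + 1)` -/
noncomputable def G1 (D : Dat) (N : ℕ) (a : ℕ → ℂ) (s : ℂ) : ℂ :=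
  ((s - 1) ^ D.p - D.Zs s * DP N a s) / s ^ (D.p + 1)

lemma ne_zero_of_re {s : ℂ} (hs : 0 < s.re) : s ≠ 0 := by
  rintro rfl
  simp at hs

lemma G1_diff {D : Dat} (hb : Base D) (N : ℕ) (a : ℕ → ℂ) {s : ℂ} (hs : 0 < s.re) :
    DifferentiableAt ℂ (G1 D N a) s := by
  unfold G1
  have h1 : DifferentiableAt ℂ D.Zs s := hb.diff s hs
  have h2 : DifferentiableAt ℂ (DP N a) s := DP_differentiable N a s
  refine DifferentiableAt.div (by fun_prop) (by fun_prop) ?_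
  exact pow_ne_zero _ (ne_zero_of_re hs)

lemma G1_line (D : Dat) (N : ℕ) (a : ℕ → ℂ) (t : ℝ) : ‖G1 D N a (1 / 2 + t * I)‖ ^ 2 = D.ig N a t := by
  unfold G1 Dat.ig
  have hne0 : (1 / 2 + (t : ℂ) * I) - 1 ≠ 0 := sub_ne_zero.2 (half_ne_one t)
  have n0 := norm_half_sq t
  have n1 := norm_half_sub_sq t
  have hp : (0:ℝ) < 1 / 4 + t ^ 2 := by positivity
  obtain ⟨s, hs⟩ : ∃ s : ℂ, s = 1 / 2 + (t : ℂ) * I := ⟨_, rfl⟩
  obtain ⟨Q, hQ⟩ : ∃ Q : ℝ, Q = 1 / 4 + t ^ 2 := ⟨_, rfl⟩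
  rw [← hs, ← hQ] at n0 n1
  rw [← hs] at hne0
  rw [← hQ] at hp
  rw [← hs, ← hQ]
  have h3 := pow_ne_zero D.p hne0
  have h2 : (s - 1) ^ D.p - D.Zs s * DP N a s = (s - 1) ^ D.p * (1 - D.L s * DP N a s) := by
    unfold Dat.L
    rw [mul_sub, mul_one, ← mul_assoc, mul_div_cancel₀ _ h3]
  have h4 : (‖s - 1‖ ^ D.p) ^ 2 = Q ^ D.p := by
    rw [← n1, ← pow_mul, ← pow_mul, mul_comm]
  have h5 : (‖s‖ ^ (D.p + 1)) ^ 2 = Q ^ (D.p + 1) := by
    rw [← n0, ← pow_mul, ← pow_mul, mul_comm]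
  rw [h2, norm_div, norm_mul, norm_pow, norm_pow, div_pow, mul_pow, h4, h5, pow_succ Q]
  have h6 : Q ^ D.p ≠ 0 := pow_ne_zero _ hp.ne'
  rw [mul_div_mul_left _ _ h6]

lemma G1_bound {D : Dat} (hb : Base D) : ∃ k : ℕ, ∀ (N : ℕ) (a : ℕ → ℂ), ∃ B : ℝ, 0 ≤ B ∧
    ∀ s : ℂ, 1 / 4 ≤ s.re → ‖G1 D N a s‖ ≤ B * (1 + ‖s‖) ^ k := by
  obtain ⟨C, k, hC, hCk⟩ := hb.growth
  refine ⟨D.p + k, fun N a => ?_⟩
  set M := ∑ n ∈ Finset.Icc 1 N, ‖a n‖ with hM
  have hM0 : 0 ≤ M := Finset.sum_nonneg fun n _ => norm_nonneg _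
  refine ⟨(1 + C * M) * 4 ^ (D.p + 1), by positivity, fun s hs => ?_⟩
  have h1 : 1 / 4 ≤ ‖s‖ := by
    have := (le_abs_self _).trans (Complex.abs_re_le_norm s)
    linarith
  have h2 := hCk s hs
  have h3 : ‖DP N a s‖ ≤ M := DP_norm_le N a (by linarith)
  have h4 : ‖s - 1‖ ≤ 1 + ‖s‖ := by
    have := norm_sub_le s 1
    rw [norm_one] at this
    linarith
  have h0 : 0 < ‖s‖ := by linarith
  have h5 : 0 < ‖s‖ ^ (D.p + 1) := by positivity
  unfold G1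
  rw [norm_div, norm_pow, div_le_iff₀ h5]
  have h7 : 1 ≤ 4 ^ (D.p + 1) * ‖s‖ ^ (D.p + 1) := by
    rw [← mul_pow]
    exact one_le_pow₀ (by linarith)
  have h8 : (1 + ‖s‖) ^ D.p ≤ (1 + ‖s‖) ^ (D.p + k) :=
    pow_le_pow_right₀ (by linarith) (by omega)
  have h9 : (1 + ‖s‖) ^ k ≤ (1 + ‖s‖) ^ (D.p + k) :=
    pow_le_pow_right₀ (by linarith) (by omega)
  calc ‖(s - 1) ^ D.p - D.Zs s * DP N a s‖ ≤ ‖(s - 1) ^ D.p‖ + ‖D.Zs s * DP N a s‖ := norm_sub_le _ _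
    _ = ‖s - 1‖ ^ D.p + ‖D.Zs s‖ * ‖DP N a s‖ := by rw [norm_mul, norm_pow]
    _ ≤ (1 + ‖s‖) ^ D.p + (C * (1 + ‖s‖) ^ k) * M := by gcongr
    _ ≤ (1 + ‖s‖) ^ (D.p + k) + (C * (1 + ‖s‖) ^ (D.p + k)) * M := by gcongr
    _ = (1 + C * M) * (1 + ‖s‖) ^ (D.p + k) * 1 := by ring
    _ ≤ (1 + C * M) * (1 + ‖s‖) ^ (D.p + k) * (4 ^ (D.p + 1) * ‖s‖ ^ (D.p + 1)) := by gcongr
    _ = _ := by ring

lemma ig_continuous {D : Dat} (hb : Base D) (N : ℕ) (a : ℕ → ℂ) : Continuous (D.ig N a) := by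
  have h0 : Continuous (fun t : ℝ => G1 D N a (1 / 2 + t * I)) := by
    rw [continuous_iff_continuousAt]
    intro t
    have h1 : ContinuousAt (G1 D N a) (1 / 2 + (t : ℂ) * I) :=
      (G1_diff hb N a (by simp)).continuousAt
    exact ContinuousAt.comp (f := fun t : ℝ => (1 / 2 + (t : ℂ) * I)) h1 (by fun_prop)
  have h1 : D.ig N a = fun t : ℝ => ‖G1 D N a (1 / 2 + t * I)‖ ^ 2 := by
    funext t
    rw [G1_line]
  rw [h1]
  exact h0.norm.pow 2

/-- the value at a point to the right of the critical line -/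
lemma cau {D : Dat} (hb : Base D) (h : S_int D) (hs : S_shift) : ∃ K : ℕ,
    ∀ (N : ℕ) (a : ℕ → ℂ) (s0 : ℂ), 1 / 2 < s0.re →
    ‖G1 D N a s0‖ ^ 2 * (s0.re - 1 / 2) ≤ (‖s0 + 1‖ ^ K) ^ 2 * D.err N a := by
  obtain ⟨k, hk⟩ := G1_bound hb
  refine ⟨k + 1, fun N a s0 h0 => ?_⟩
  set α : ℝ := 1 / 2 - s0.re with hα
  have hα0 : α < 0 := by linarith
  obtain ⟨B, hB0, hB⟩ := hk N a
  set F : ℂ → ℂ := fun z => G1 D N a (z + s0) * ((z + s0 + 1) ^ (k + 1))⁻¹ with hF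
  have hne : ∀ z : ℂ, α ≤ z.re → z + s0 + 1 ≠ 0 := by
    intro z hz
    refine ne_zero_of_re ?_
    simp only [add_re, one_re]
    linarith
  have hd : ∀ z : ℂ, α ≤ z.re → DifferentiableAt ℂ F z := by
    intro z hz
    have h1 : DifferentiableAt ℂ (G1 D N a) (z + s0) := by
      refine G1_diff hb N a ?_
      simp only [add_re]
      linarith
    have h2 : DifferentiableAt ℂ (fun z => G1 D N a (z + s0)) z :=
      DifferentiableAt.comp (g := G1 D N a) (f := fun z : ℂ => z + s0) z h1 (by fun_prop)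
    have h3 : DifferentiableAt ℂ (fun z : ℂ => (z + s0 + 1) ^ (k + 1)) z := by fun_prop
    exact h2.mul (h3.inv (pow_ne_zero _ (hne z hz)))
  have hone : ∀ z : ℂ, α ≤ z.re → 3 / 2 ≤ ‖z + s0 + 1‖ := by
    intro z hz
    have h2 := (le_abs_self _).trans (Complex.abs_re_le_norm (z + s0 + 1))
    simp only [add_re, one_re] at h2
    linarith
  have hBd : ∀ z : ℂ, α ≤ z.re →
      ‖F z‖ ≤ B * 2 ^ k * (2 + |s0.im|) * (1 + |z.im|) ^ (-(1 / 2 : ℝ)) := by
    intro z hz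
    have h1 : 1 / 2 ≤ (z + s0).re := by
      simp only [add_re]
      linarith
    have h2 := Pool.Agent.N967.Grow.decay_lin h1
    have h3 := hB (z + s0) (by linarith)
    have h5 := hone z hz
    have h4 : 1 + ‖z + s0‖ ≤ 2 * ‖z + s0 + 1‖ := by
      have h6 : ‖z + s0‖ ≤ ‖z + s0 + 1‖ := by
        refine le_of_sq_le_sq ?_ (norm_nonneg _)
        rw [← Complex.normSq_eq_norm_sq, ← Complex.normSq_eq_norm_sq, Complex.normSq_apply,
          Complex.normSq_apply]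
        simp only [add_re, one_re, add_im, one_im, add_zero] at h1 ⊢
        nlinarith
      linarith
    have h7 : 0 < ‖z + s0 + 1‖ := by linarith
    rw [hF]
    simp only
    rw [norm_mul, norm_inv, norm_pow, pow_succ, mul_inv]
    calc ‖G1 D N a (z + s0)‖ * ((‖z + s0 + 1‖ ^ k)⁻¹ * ‖z + s0 + 1‖⁻¹)
        ≤ (B * (2 * ‖z + s0 + 1‖) ^ k) * ((‖z + s0 + 1‖ ^ k)⁻¹ *
          ((2 + |s0.im|) * (1 + |z.im|) ^ (-(1 / 2 : ℝ)))) := by
          refine mul_le_mul (h3.trans ?_) ?_ (by positivity) (by positivity)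
          · gcongr
          · gcongr
      _ = B * 2 ^ k * (2 + |s0.im|) * (1 + |z.im|) ^ (-(1 / 2 : ℝ)) *
          (‖z + s0 + 1‖ ^ k * (‖z + s0 + 1‖ ^ k)⁻¹) := by ring
      _ = _ := by rw [mul_inv_cancel₀ (by positivity), mul_one]
  have h1 := (Pool.Agent.N967.Grow.shift_inf hs hα0 hd hBd).2
  -- the functions on the line
  set f : ℝ → ℝ := fun y => ‖G1 D N a (1 / 2 + ((y + s0.im : ℝ) : ℂ) * I)‖ with hf
  set g : ℝ → ℝ := fun y => (‖(α : ℂ) + y * I + s0 + 1‖ ^ (k + 1))⁻¹ * ‖(α : ℂ) + y * I‖⁻¹ with hg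
  have hpt : ∀ y : ℝ, ‖F (α + y * I) / (α + y * I)‖ = f y * g y := by
    intro y
    have e1 : (α : ℂ) + y * I + s0 = 1 / 2 + ((y + s0.im : ℝ) : ℂ) * I := by
      apply Complex.ext
      · simp [hα]
      · simp
    rw [hF, hf, hg]
    simp only
    rw [norm_div, norm_mul, norm_inv, norm_pow, e1]
    ring
  have hf2 : ∀ y, f y ^ 2 = D.ig N a (y + s0.im) := fun y => G1_line D N a (y + s0.im)
  have hfi : Integrable (fun y => f y ^ 2) := by
    simp_rw [hf2]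
    exact (h N a).comp_add_right s0.im
  have hfe : ∫ y, f y ^ 2 = 2 * Real.pi * D.err N a := by
    simp_rw [hf2]
    rw [integral_add_right_eq_self (fun y => D.ig N a y) s0.im]
    unfold Dat.err
    field_simp
  have hca := cauchy_int (a := -α) (by linarith) 0
  have hg2 : ∀ y, g y ^ 2 ≤ (4 / 9) * ((-α) ^ 2 + (y + 0) ^ 2)⁻¹ := by
    intro y
    have e1 : ‖(α : ℂ) + y * I‖ ^ 2 = (-α) ^ 2 + (y + 0) ^ 2 := by
      rw [← Complex.normSq_eq_norm_sq, Complex.normSq_apply]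
      simp
      ring
    have e2 : 3 / 2 ≤ ‖(α : ℂ) + y * I + s0 + 1‖ := hone _ (by simp)
    have e3 : 3 / 2 ≤ ‖(α : ℂ) + y * I + s0 + 1‖ ^ (k + 1) := by
      rw [pow_succ]
      have e4 : 1 ≤ ‖(α : ℂ) + y * I + s0 + 1‖ ^ k := one_le_pow₀ (by linarith)
      nlinarith
    rw [hg]
    simp only
    rw [mul_pow, inv_pow, inv_pow, e1]
    refine mul_le_mul_of_nonneg_right ?_ (by positivity)
    rw [inv_le_comm₀ (by positivity) (by norm_num)]
    nlinarith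
  have hα1 : ∀ y : ℝ, (α : ℂ) + y * I ≠ 0 := by
    intro y hy
    have := congrArg Complex.re hy
    simp at this
    linarith
  have hgc : Continuous g := by
    rw [hg]
    refine Continuous.mul (Continuous.inv₀ (by fun_prop) fun y => ?_)
      (Continuous.inv₀ (by fun_prop) fun y => ?_)
    · refine pow_ne_zero _ ?_
      rw [norm_ne_zero_iff]
      exact hne _ (by simp)
    · rw [norm_ne_zero_iff]
      exact hα1 y
  have hgi : Integrable (fun y => g y ^ 2) := by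
    refine (hca.1.const_mul (4 / 9)).mono' (hgc.pow 2).aestronglyMeasurable
      (Eventually.of_forall fun y => ?_)
    rw [Real.norm_of_nonneg (sq_nonneg _)]
    exact hg2 y
  have hge : ∫ y, g y ^ 2 ≤ (4 / 9) * (Real.pi / (-α)) := by
    rw [← hca.2, ← integral_const_mul]
    exact integral_mono hgi (hca.1.const_mul _) hg2
  have hfc : Continuous f := by
    have hF2 : ∀ y, f y = Real.sqrt (D.ig N a (y + s0.im)) := by
      intro y
      rw [← hf2, Real.sqrt_sq (norm_nonneg _)]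
    have : f = fun y => Real.sqrt (D.ig N a (y + s0.im)) := funext hF2
    rw [this]
    exact ((ig_continuous hb N a).comp (by fun_prop)).sqrt
  have hfgi : Integrable (fun y => f y * g y) := by
    refine ((hfi.add hgi)).mono' (hfc.mul hgc).aestronglyMeasurable (Eventually.of_forall fun y => ?_)
    have hfn : 0 ≤ f y := norm_nonneg _
    have hgn : 0 ≤ g y := by rw [hg]; positivity
    rw [Real.norm_of_nonneg (mul_nonneg hfn hgn)]
    simp only [Pi.add_apply]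
    nlinarith [sq_nonneg (f y - g y)]
  have hcs := cs hfi hgi hfgi
  have hle : 2 * Real.pi * ‖F 0‖ ≤ ∫ y, f y * g y := by
    have e1 : ‖(2 * Real.pi * F 0 : ℂ)‖ = 2 * Real.pi * ‖F 0‖ := by
      rw [norm_mul, norm_mul, Complex.norm_real, Real.norm_of_nonneg Real.pi_pos.le]
      simp
    rw [← e1, ← h1, norm_neg]
    refine (norm_integral_le_integral_norm _).trans (le_of_eq ?_)
    exact integral_congr_ae (Eventually.of_forall hpt)
  have hF0 : ‖F 0‖ = ‖G1 D N a s0‖ / ‖s0 + 1‖ ^ (k + 1) := by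
    rw [hF]
    simp only [zero_add]
    rw [norm_mul, norm_inv, norm_pow, div_eq_mul_inv]
  have hs1 : 0 < ‖s0 + 1‖ ^ (k + 1) := by
    refine pow_pos ?_ _
    rw [norm_pos_iff]
    have := hne 0 (by simpa using hα0.le)
    simpa using this
  have hfin : (2 * Real.pi * ‖F 0‖) ^ 2 ≤
      (2 * Real.pi * D.err N a) * ((4 / 9) * (Real.pi / (-α))) := by
    have h3 : (2 * Real.pi * ‖F 0‖) ^ 2 ≤ (∫ y, f y * g y) ^ 2 :=
      pow_le_pow_left₀ (by positivity) hle 2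
    refine h3.trans (hcs.trans ?_)
    rw [hfe]
    have h4 : 0 ≤ 2 * Real.pi * D.err N a := by
      rw [← hfe]
      exact integral_nonneg fun y => sq_nonneg _
    exact mul_le_mul_of_nonneg_left hge h4
  have herr : 0 ≤ D.err N a := by
    have h4 : 0 ≤ 2 * Real.pi * D.err N a := by
      rw [← hfe]
      exact integral_nonneg fun y => sq_nonneg _
    exact nonneg_of_mul_nonneg_right h4 (by positivity)
  rw [hF0] at hfin
  have hαp : 0 < -α := by linarith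
  have e3 : s0.re - 1 / 2 = -α := by rw [hα]; ring
  rw [e3]
  obtain ⟨R, hR⟩ : ∃ R, R = ‖s0 + 1‖ ^ (k + 1) := ⟨_, rfl⟩
  rw [← hR] at hs1 hfin ⊢
  have h5 : (2 * Real.pi * (‖G1 D N a s0‖ / R)) ^ 2 =
      4 * Real.pi ^ 2 * (‖G1 D N a s0‖ ^ 2 / R ^ 2) := by
    rw [mul_pow, div_pow]
    ring
  have h6 : (2 * Real.pi * D.err N a) * ((4 / 9) * (Real.pi / (-α))) =
      (8 / 9) * Real.pi ^ 2 * (D.err N a / (-α)) := by
    field_simp
    ring
  rw [h5, h6] at hfin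
  have hpi : 0 < Real.pi ^ 2 := by positivity
  have h7 : ‖G1 D N a s0‖ ^ 2 / R ^ 2 ≤ D.err N a / (-α) := by
    have h8 : 0 ≤ D.err N a / (-α) := by positivity
    have h9 : Real.pi ^ 2 * (4 * (‖G1 D N a s0‖ ^ 2 / R ^ 2)) ≤
        Real.pi ^ 2 * ((8 / 9) * (D.err N a / (-α))) := by linarith
    have h10 := le_of_mul_le_mul_left h9 hpi
    linarith
  rw [div_le_div_iff₀ (by positivity) hαp] at h7
  linarith

/-- growth on the line `re s = 1/2 + δ` -/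
lemma DP_line {D : Dat} (hr : Rp D) (h : S_int D) (hs : S_shift) {δ : ℝ} (hδ : 0 < δ)
    (hδ4 : δ ≤ 1 / 4) : ∃ (K : ℝ) (κ : ℕ), 0 < K ∧ ∀ (N : ℕ) (a : ℕ → ℂ), D.err N a ≤ 1 →
    ∀ s : ℂ, s.re = 1 / 2 + δ → ‖DP N a s‖ ≤ K * ‖s - 4‖ ^ κ := by
  obtain ⟨C, k1, hC, hfz⟩ := hr.fzg δ hδ
  obtain ⟨k2, hcau⟩ := cau hr.base h hs
  have hq : 0 < Real.sqrt δ := Real.sqrt_pos.2 hδ
  refine ⟨C * 2 ^ k1 * (1 + 4 ^ D.p / Real.sqrt δ), k1 + (D.p + 1 + k2), by positivity,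
    fun N a he s hre => ?_⟩
  have h1 : D.Zs s ≠ 0 := hr.zero s (by rw [hre]; linarith)
  have h2 : s - 1 ≠ 0 := by
    intro h0
    have := congrArg Complex.re h0
    simp only [sub_re, one_re, zero_re] at this
    linarith
  have h3 : s ≠ 0 := ne_zero_of_re (by rw [hre]; linarith)
  have e : DP N a s = D.fz s * (1 - s ^ (D.p + 1) * G1 D N a s / (s - 1) ^ D.p) := by
    unfold Dat.fz G1
    have h4 := pow_ne_zero D.p h2
    have h5 := pow_ne_zero (D.p + 1) h3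
    field_simp
    ring
  have hc := hcau N a s (by rw [hre]; linarith)
  have hsq : ∀ w : ℂ, ‖w‖ ^ 2 = w.re ^ 2 + w.im ^ 2 := by
    intro w
    rw [← Complex.normSq_eq_norm_sq, Complex.normSq_apply]
    ring
  obtain ⟨Q, hQ⟩ : ∃ Q, Q = ‖s - 4‖ := ⟨_, rfl⟩
  have hQ0 : 0 ≤ Q := by rw [hQ]; exact norm_nonneg _
  have q2 : Q ^ 2 = (s.re - 4) ^ 2 + s.im ^ 2 := by rw [hQ, hsq]; simp
  have n1 : ‖s‖ ≤ Q := by
    refine le_of_sq_le_sq ?_ hQ0
    rw [hsq, q2]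
    nlinarith
  have n2 : ‖s + 1‖ ≤ Q := by
    refine le_of_sq_le_sq ?_ hQ0
    rw [hsq, q2]
    simp only [add_re, one_re, add_im, one_im, add_zero]
    nlinarith
  have n4 : 1 ≤ Q := by
    have := Complex.abs_re_le_norm (s - 4)
    rw [← hQ] at this
    have h4 := neg_abs_le (s - 4).re
    simp only [sub_re, re_ofNat] at h4 this
    linarith
  have n5 : 1 / 4 ≤ ‖s - 1‖ := by
    have := Complex.abs_re_le_norm (s - 1)
    have h4 := neg_abs_le (s - 1).re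
    simp only [sub_re, one_re] at h4 this
    linarith
  have n6 : ‖G1 D N a s‖ ≤ Q ^ k2 / Real.sqrt δ := by
    rw [le_div_iff₀ hq]
    refine le_of_sq_le_sq ?_ (by positivity)
    have e4 : s.re - 1 / 2 = δ := by rw [hre]; ring
    rw [e4] at hc
    rw [mul_pow, Real.sq_sqrt hδ.le]
    calc ‖G1 D N a s‖ ^ 2 * δ ≤ (‖s + 1‖ ^ k2) ^ 2 * D.err N a := hc
      _ ≤ (‖s + 1‖ ^ k2) ^ 2 * 1 := by gcongr
      _ ≤ (Q ^ k2) ^ 2 := by rw [mul_one]; gcongr
  have n7 : 1 / 4 ^ D.p ≤ ‖s - 1‖ ^ D.p := by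
    have := pow_le_pow_left₀ (by norm_num) n5 D.p
    rwa [div_pow, one_pow] at this
  have hp : 0 < ‖s - 1‖ ^ D.p := pow_pos (norm_pos_iff.mpr h2) _
  have h6 : ‖1 - s ^ (D.p + 1) * G1 D N a s / (s - 1) ^ D.p‖ ≤
      (1 + 4 ^ D.p / Real.sqrt δ) * Q ^ (D.p + 1 + k2) := by
    calc ‖1 - s ^ (D.p + 1) * G1 D N a s / (s - 1) ^ D.p‖
        ≤ ‖(1:ℂ)‖ + ‖s ^ (D.p + 1) * G1 D N a s / (s - 1) ^ D.p‖ := norm_sub_le _ _
      _ = 1 + ‖s‖ ^ (D.p + 1) * ‖G1 D N a s‖ / ‖s - 1‖ ^ D.p := by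
          rw [norm_one, norm_div, norm_mul, norm_pow, norm_pow]
      _ ≤ 1 + Q ^ (D.p + 1) * (Q ^ k2 / Real.sqrt δ) / (1 / 4 ^ D.p) := by gcongr
      _ = 1 + 4 ^ D.p / Real.sqrt δ * Q ^ (D.p + 1 + k2) := by
          rw [pow_add Q (D.p + 1) k2]
          field_simp
      _ ≤ Q ^ (D.p + 1 + k2) + 4 ^ D.p / Real.sqrt δ * Q ^ (D.p + 1 + k2) := by
          have : 1 ≤ Q ^ (D.p + 1 + k2) := one_le_pow₀ n4
          linarith
      _ = _ := by ring
  have h7 := hfz s (by rw [hre])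
  rw [e, norm_mul, ← hQ]
  calc ‖D.fz s‖ * ‖1 - s ^ (D.p + 1) * G1 D N a s / (s - 1) ^ D.p‖ ≤
      (C * (2 * Q) ^ k1) * ((1 + 4 ^ D.p / Real.sqrt δ) * Q ^ (D.p + 1 + k2)) := by
        refine mul_le_mul (h7.trans ?_) h6 (norm_nonneg _) (by positivity)
        refine mul_le_mul_of_nonneg_left ?_ hC.le
        exact pow_le_pow_left₀ (by positivity) (by linarith) _
    _ = _ := by
        rw [mul_pow, pow_add Q k1 (D.p + 1 + k2)]
        ring

/-- growth to the left of the line `re s = 1/2 + δ` -/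
lemma DP_left {D : Dat} (hr : Rp D) (h : S_int D) (hs : S_shift) {δ : ℝ} (hδ : 0 < δ)
    (hδ4 : δ ≤ 1 / 4) : ∃ (K : ℝ) (κ : ℕ), 0 < K ∧ ∀ (N : ℕ) (a : ℕ → ℂ), 1 ≤ N → D.err N a ≤ 1 →
    ∀ s : ℂ, s.re ≤ 1 / 2 + δ →
      ‖DP N a s‖ ≤ K * (N : ℝ) ^ (1 / 2 + δ - s.re) * ‖s - 4‖ ^ κ := by
  obtain ⟨K, κ, hK0, hK⟩ := DP_line hr h hs hδ hδ4
  refine ⟨K, κ, hK0, fun N a hN he s hs2 => ?_⟩
  have hN1 : (1:ℝ) ≤ N := by exact_mod_cast hN
  have hN0 : (0:ℝ) < N := by linarith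
  have hNc : (N : ℂ) ≠ 0 := by
    have : N ≠ 0 := by omega
    exact_mod_cast this
  have hcast : ((N : ℂ)) = ((N : ℝ) : ℂ) := by simp
  obtain ⟨σ, hσ⟩ : ∃ σ : ℝ, σ = 1 / 2 + δ := ⟨_, rfl⟩
  have hσ1 : σ ≤ 3 / 4 := by rw [hσ]; linarith
  have hσ0 : 0 < σ := by rw [hσ]; linarith
  rw [← hσ] at hs2 ⊢
  set f : ℂ → ℂ := fun z => DP N a (σ - z) * (N : ℂ) ^ (σ - z) / (z + (4 - σ)) ^ κ with hf
  have hne : ∀ z : ℂ, 0 ≤ z.re → z + (4 - σ) ≠ 0 := by
    intro z hz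
    refine ne_zero_of_re ?_
    simp only [add_re, sub_re, re_ofNat, ofReal_re]
    linarith
  have hd : ∀ z : ℂ, 0 ≤ z.re → DifferentiableAt ℂ f z := by
    intro z hz
    have h1 : DifferentiableAt ℂ (fun z => DP N a (σ - z)) z :=
      DifferentiableAt.comp (g := DP N a) (f := fun z : ℂ => σ - z) z (DP_differentiable N a _)
        (by fun_prop)
    have h2 : DifferentiableAt ℂ (fun z : ℂ => (N : ℂ) ^ (σ - z)) z := by
      have h3 : DifferentiableAt ℂ (fun z : ℂ => σ - z) z := by fun_prop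
      exact h3.const_cpow (Or.inl hNc)
    have h4 : DifferentiableAt ℂ (fun z : ℂ => (z + (4 - σ)) ^ κ) z := by fun_prop
    exact (h1.mul h2).div h4 (pow_ne_zero κ (hne z hz))
  set M := ∑ n ∈ Finset.Icc 1 N, ‖a n‖ * (N : ℝ) ^ σ with hM
  have hbd : ∀ z : ℂ, 0 ≤ z.re → ‖DP N a (σ - z) * (N : ℂ) ^ (σ - z)‖ ≤ M := by
    intro z hz
    unfold DP
    rw [Finset.sum_mul]
    refine (norm_sum_le _ _).trans (Finset.sum_le_sum fun n hn => ?_)
    obtain ⟨hn1, hnN⟩ := Finset.mem_Icc.mp hn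
    have hn0 : (0:ℝ) < n := by exact_mod_cast hn1
    have hn1' : (1:ℝ) ≤ n := by exact_mod_cast hn1
    have hnN' : (n:ℝ) ≤ N := by exact_mod_cast hnN
    have hcn : ((n : ℂ)) = ((n : ℝ) : ℂ) := by simp
    rw [norm_mul, norm_mul, mul_assoc, hcn, hcast, Complex.norm_cpow_eq_rpow_re_of_pos hn0,
      Complex.norm_cpow_eq_rpow_re_of_pos hN0]
    refine mul_le_mul_of_nonneg_left ?_ (norm_nonneg _)
    have e1 : (-(σ - z)).re = -(σ - z).re := by simp
    rw [e1, Real.rpow_neg hn0.le, mul_comm, ← div_eq_mul_inv, ← Real.div_rpow hN0.le hn0.le]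
    have h5 : 1 ≤ (N : ℝ) / n := by rwa [one_le_div hn0]
    calc ((N : ℝ) / n) ^ (σ - z).re ≤ ((N : ℝ) / n) ^ σ := by
          refine Real.rpow_le_rpow_of_exponent_le h5 ?_
          simp only [sub_re, ofReal_re]
          linarith
      _ ≤ (N : ℝ) ^ σ := by
          refine Real.rpow_le_rpow (by positivity) ?_ hσ0.le
          exact div_le_self hN0.le hn1'
  have hden : ∀ z : ℂ, 0 ≤ z.re → 1 ≤ ‖(z + (4 - σ)) ^ κ‖ := by
    intro z hz
    rw [norm_pow]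
    have h2 := (le_abs_self _).trans (Complex.abs_re_le_norm (z + (4 - σ)))
    simp only [add_re, sub_re, re_ofNat, ofReal_re] at h2
    exact one_le_pow₀ (by linarith)
  have hM0 : 0 ≤ M := Finset.sum_nonneg fun n _ => by positivity
  have hfM : ∀ z : ℂ, 0 ≤ z.re → ‖f z‖ ≤ M := by
    intro z hz
    rw [hf]
    simp only
    rw [norm_div]
    exact (div_le_self (norm_nonneg _) (hden z hz)).trans (hbd z hz)
  have hPL := PhragmenLindelof.right_half_plane_of_bounded_on_real (f := f) (C := K * (N : ℝ) ^ σ)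
    (z := σ - s) ?_ ?_ ?_ ?_ (by simp only [sub_re, ofReal_re]; linarith)
  · rw [hf] at hPL
    simp only at hPL
    have e1 : (σ : ℂ) - (σ - s) = s := by ring
    have e2 : (σ : ℂ) - s + (4 - σ) = -(s - 4) := by ring
    rw [e1, e2, norm_div, norm_mul, norm_pow, norm_neg, hcast,
      Complex.norm_cpow_eq_rpow_re_of_pos hN0] at hPL
    have h4 : 0 < ‖s - 4‖ := by
      rw [norm_pos_iff]
      intro h0
      have := congrArg Complex.re h0
      simp at this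
      linarith
    rw [div_le_iff₀ (by positivity)] at hPL
    have e3 : (N : ℝ) ^ σ = (N : ℝ) ^ (σ - s.re) * (N : ℝ) ^ s.re := by
      rw [← Real.rpow_add hN0]
      norm_num
    rw [e3] at hPL
    have h5 : 0 < (N : ℝ) ^ s.re := Real.rpow_pos_of_pos hN0 _
    have h6 : ‖DP N a s‖ * (N : ℝ) ^ s.re ≤
        (K * (N : ℝ) ^ (σ - s.re) * ‖s - 4‖ ^ κ) * (N : ℝ) ^ s.re := by
      calc ‖DP N a s‖ * (N : ℝ) ^ s.re ≤ _ := hPL
        _ = _ := by ring
    exact le_of_mul_le_mul_right h6 h5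
  · refine DifferentiableOn.diffContOnCl fun z hz => ?_
    have : z ∈ {z : ℂ | 0 ≤ z.re} := by
      rwa [Complex.closure_setOfPred_lt_re] at hz
    exact (hd z this).differentiableWithinAt
  · refine ⟨1, by norm_num, 0, ?_⟩
    refine Asymptotics.IsBigO.of_bound M ?_
    rw [eventually_inf_principal]
    refine Eventually.of_forall fun z hz => ?_
    have hz' : 0 < z.re := hz
    simpa using hfM z hz'.le
  · refine ⟨M, ?_⟩
    rw [eventually_map]
    filter_upwards [eventually_ge_atTop 0] with x hx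
    exact hfM x (by simpa using hx)
  · intro x
    have hre : ((σ : ℂ) - x * I).re = σ := by simp
    have h1 := hK N a he (σ - x * I) (by rw [hre, hσ])
    rw [hf]
    simp only
    have e2 : (x : ℂ) * I + (4 - σ) = -(σ - x * I - 4) := by ring
    have e3 : ‖(N : ℂ) ^ ((σ : ℂ) - x * I)‖ = (N : ℝ) ^ σ := by
      rw [hcast, Complex.norm_cpow_eq_rpow_re_of_pos hN0, hre]
    rw [e2, norm_div, norm_mul, norm_pow, norm_neg, e3]
    have h4 : 0 < ‖(σ : ℂ) - x * I - 4‖ := by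
      rw [norm_pos_iff]
      intro h0
      have := congrArg Complex.re h0
      simp at this
      linarith
    rw [div_le_iff₀ (by positivity)]
    calc ‖DP N a (σ - x * I)‖ * (N : ℝ) ^ σ ≤
          (K * ‖(σ : ℂ) - x * I - 4‖ ^ κ) * (N : ℝ) ^ σ := by gcongr
      _ = _ := by ring

end Grow

/-- **Growth of the Dirichlet polynomial to the left of the critical line.** -/
theorem grow {D : Dat} (h : Rp D) (hs : Pool.Agent.N967.S_shift) (hi : S_int D) : S_grow D := by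
  intro δ hδ hδ4
  obtain ⟨K, κ, hK0, hK⟩ := Grow.DP_left h hi hs hδ hδ4
  refine ⟨4 ^ κ * K, κ, by positivity, fun N a hN he s hs2 => ?_⟩
  refine (hK N a hN he s hs2).trans ?_
  have h1 : ‖s - 4‖ ≤ 4 * (1 + ‖s‖) := by
    have := norm_sub_le s 4
    have h4 : ‖(4 : ℂ)‖ = 4 := by norm_num
    rw [h4] at this
    linarith [norm_nonneg s]
  have h2 : ‖s - 4‖ ^ κ ≤ (4 * (1 + ‖s‖)) ^ κ := pow_le_pow_left₀ (norm_nonneg _) h1 κ
  have h3 : 0 ≤ (N : ℝ) ^ (1 / 2 + δ - s.re) := by positivity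
  calc K * (N : ℝ) ^ (1 / 2 + δ - s.re) * ‖s - 4‖ ^ κ ≤
      K * (N : ℝ) ^ (1 / 2 + δ - s.re) * (4 * (1 + ‖s‖)) ^ κ :=
        mul_le_mul_of_nonneg_left h2 (by positivity)
    _ = _ := by
        rw [mul_pow]
        ring

end Pool.Agent.N967.G
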