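import Pool.Agent.N967.G.Stm
import Pool.Agent.N967.LowA

set_option autoImplicit false

/-!
# Baez-Duarte's distance for general L-functions: all integrals converge
-/

namespace Pool.Agent.N967.G

open Complex MeasureTheory Filter Topology

namespace Int

lemma L_continuous {D : Dat} (h : Rp D) : Continuous fun t : ℝ => D.L (1 / 2 + t * I) := by
  unfold Dat.L
  rw [continuous_iff_continuousAt]
  intro t
  have hre : 0 < ((1 / 2 : ℂ) + t * I).re := by simp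
  have h1 : ContinuousAt D.Zs (1 / 2 + t * I) := (h.base.diff _ hre).continuousAt
  have h2 : ContinuousAt (fun t : ℝ => D.Zs (1 / 2 + t * I)) t :=
    ContinuousAt.comp (f := fun t : ℝ => (1 / 2 : ℂ) + t * I) h1 (by fun_prop)
  refine h2.div (by fun_prop) ?_
  exact pow_ne_zero _ (sub_ne_zero.mpr (half_ne_one t))

lemma ig_continuous {D : Dat} (h : Rp D) (N : ℕ) (a : ℕ → ℂ) : Continuous (D.ig N a) := by
  unfold Dat.ig
  have h1 := L_continuous h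
  have h3 : Continuous fun t : ℝ => DP N a (1 / 2 + t * I) :=
    (DP_differentiable N a).continuous.comp (by fun_prop)
  refine Continuous.div (by fun_prop) (by fun_prop) fun t => ?_
  positivity

lemma dom_int : Integrable (fun t : ℝ => (1 + ‖t‖) ^ (-(7 / 4) : ℝ)) := by
  refine integrable_one_add_norm (E := ℝ) (r := 7 / 4) ?_
  simp
  norm_num

end Int

open Int in
theorem int {D : Dat} (h : Rp D) : S_int D := by
  intro N a
  obtain ⟨C, hC, hL⟩ := h.crit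
  set M := ∑ n ∈ Finset.Icc 1 N, ‖a n‖ with hM
  have hdom : Integrable (fun t : ℝ => (16 + 16 * M ^ 2 * C ^ 2) * (1 + ‖t‖) ^ (-(7 / 4) : ℝ)) :=
    dom_int.const_mul _
  refine hdom.mono' (Int.ig_continuous h N a).aestronglyMeasurable (Eventually.of_forall fun t => ?_)
  have hp : 0 < 1 / 4 + t ^ 2 := by positivity
  have hig : ‖D.ig N a t‖ = D.ig N a t := by
    rw [Real.norm_of_nonneg]
    unfold Dat.ig
    positivity
  rw [hig]
  unfold Dat.ig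
  set z := D.L (1 / 2 + t * I) with hz
  set A := DP N a (1 / 2 + t * I) with hA
  have hA1 : ‖A‖ ≤ M := DP_norm_le N a (by simp)
  have hM0 : 0 ≤ M := (norm_nonneg _).trans hA1
  have h1 : ‖1 - z * A‖ ≤ 1 + ‖z‖ * M := by
    calc ‖1 - z * A‖ ≤ ‖(1:ℂ)‖ + ‖z * A‖ := norm_sub_le _ _
      _ ≤ 1 + ‖z‖ * M := by
        rw [norm_one, norm_mul]
        gcongr
  have h2 : ‖1 - z * A‖ ^ 2 ≤ 2 + 2 * M ^ 2 * ‖z‖ ^ 2 := by
    calc ‖1 - z * A‖ ^ 2 ≤ (1 + ‖z‖ * M) ^ 2 := pow_le_pow_left₀ (norm_nonneg _) h1 2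
      _ ≤ _ := by nlinarith [sq_nonneg (1 - ‖z‖ * M)]
  have hu : 0 < 1 + |t| := by positivity
  have hu1 : 1 ≤ 1 + |t| := by linarith [abs_nonneg t]
  have h3 : ‖z‖ ^ 2 ≤ C ^ 2 * (1 + |t|) ^ (1 / 4 : ℝ) := by
    have h4 := pow_le_pow_left₀ (norm_nonneg _) (hL t) 2
    rw [← hz] at h4
    refine h4.trans (le_of_eq ?_)
    rw [mul_pow, ← Real.rpow_natCast ((1 + |t|) ^ (1 / 8 : ℝ)), ← Real.rpow_mul hu.le]
    norm_num
  have h5 : (1 : ℝ) ≤ (1 + |t|) ^ (1 / 4 : ℝ) := Real.one_le_rpow hu1 (by norm_num)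
  have h6 : ‖1 - z * A‖ ^ 2 ≤ (2 + 2 * M ^ 2 * C ^ 2) * (1 + |t|) ^ (1 / 4 : ℝ) := by
    calc ‖1 - z * A‖ ^ 2 ≤ 2 + 2 * M ^ 2 * ‖z‖ ^ 2 := h2
      _ ≤ 2 * (1 + |t|) ^ (1 / 4 : ℝ) + 2 * M ^ 2 * (C ^ 2 * (1 + |t|) ^ (1 / 4 : ℝ)) := by
          refine add_le_add (by linarith) ?_
          gcongr
      _ = _ := by ring
  have h7 : (1 + |t|) ^ 2 ≤ 8 * (1 / 4 + t ^ 2) := by
    nlinarith [sq_nonneg (|t| - 1), sq_abs t]
  have h8 : (1 + |t|) ^ (1 / 4 : ℝ) = (1 + ‖t‖) ^ (-(7 / 4) : ℝ) * (1 + |t|) ^ 2 := by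
    rw [Real.norm_eq_abs, ← Real.rpow_natCast (1 + |t|) 2, ← Real.rpow_add hu]
    norm_num
  rw [div_le_iff₀ hp]
  have hw : 0 < (1 + ‖t‖) ^ (-(7 / 4) : ℝ) := by positivity
  calc ‖1 - z * A‖ ^ 2 ≤ (2 + 2 * M ^ 2 * C ^ 2) * ((1 + ‖t‖) ^ (-(7 / 4) : ℝ) * (1 + |t|) ^ 2) := by
        rw [← h8]; exact h6
    _ ≤ (2 + 2 * M ^ 2 * C ^ 2) * ((1 + ‖t‖) ^ (-(7 / 4) : ℝ) * (8 * (1 / 4 + t ^ 2))) := by
        gcongr
    _ = _ := by ring

end Pool.Agent.N967.G
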