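import Pool.Agent.N967.G.Stm
import Pool.Agent.N967.Jj

set_option autoImplicit false

/-!
# Baez-Duarte's distance for general L-functions: the inverse Laplace transform of the error
-/

namespace Pool.Agent.N967.G.Jj

open Complex MeasureTheory Filter Topology Set
open Pool.Agent.N967.JjAux hiding FF G0 FF_diff G0_diff G0_line deriv_zero

/-- `(1 - L(s) A(s)) (s - 1)^p / s^(p + 1)` -/
noncomputable def G0 (D : Dat) (N : ℕ) (a : ℕ → ℂ) (s : ℂ) : ℂ :=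
  ((s - 1) ^ D.p - D.Zs s * DP N a s) / s ^ (D.p + 1)

lemma G0_diff {D : Dat} (hb : Base D) (N : ℕ) (a : ℕ → ℂ) {s : ℂ} (hs : 0 < s.re) :
    DifferentiableAt ℂ (G0 D N a) s := by
  unfold G0
  have h1 : DifferentiableAt ℂ D.Zs s := hb.diff s hs
  have h2 : DifferentiableAt ℂ (DP N a) s := DP_differentiable N a s
  refine DifferentiableAt.div (by fun_prop) (by fun_prop) ?_
  exact pow_ne_zero _ (ne_zero_of_re hs)

lemma G0_line (D : Dat) (N : ℕ) (a : ℕ → ℂ) (t : ℝ) :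
    ‖G0 D N a (1 / 2 + t * I)‖ ^ 2 = D.ig N a t := by
  unfold G0 Dat.ig Dat.L
  have h0 : (1 / 2 + (t : ℂ) * I) - 1 ≠ 0 := sub_ne_zero.2 (half_ne_one t)
  have h0' := pow_ne_zero D.p h0
  have h2 : ((1 / 2 + (t : ℂ) * I) - 1) ^ D.p - D.Zs (1 / 2 + t * I) * DP N a (1 / 2 + t * I) =
      ((1 / 2 + (t : ℂ) * I) - 1) ^ D.p *
        (1 - D.Zs (1 / 2 + t * I) / ((1 / 2 + (t : ℂ) * I) - 1) ^ D.p *
          DP N a (1 / 2 + t * I)) := by
    generalize ((1 / 2 + (t : ℂ) * I) - 1) ^ D.p = q at h0' ⊢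
    generalize D.Zs (1 / 2 + t * I) = Z
    generalize DP N a (1 / 2 + t * I) = P
    field_simp
  have hp : (0:ℝ) < 1 / 4 + t ^ 2 := by positivity
  rw [h2, norm_div, norm_mul, norm_pow, norm_pow, div_pow, mul_pow, ← pow_mul, ← pow_mul,
    mul_comm D.p 2, mul_comm (D.p + 1) 2, pow_mul, pow_mul, norm_half_sub_sq, norm_half_sq]
  generalize ‖1 - D.Zs (1 / 2 + t * I) / ((1 / 2 + (t : ℂ) * I) - 1) ^ D.p *
    DP N a (1 / 2 + t * I)‖ ^ 2 = Y
  generalize 1 / 4 + t ^ 2 = q at hp ⊢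
  rw [pow_succ]
  field_simp

lemma quarter_le {s : ℂ} (hs : 1 / 4 ≤ s.re) : 1 / 4 ≤ ‖s‖ := by
  have := (le_abs_self _).trans (Complex.abs_re_le_norm s)
  linarith

/-- the growth of the function `G0` -/
lemma G0_growth (D : Dat) {Cz : ℝ} {kz : ℕ} (hCz : 0 < Cz)
    (hz : ∀ s : ℂ, 1 / 4 ≤ s.re → ‖D.Zs s‖ ≤ Cz * (1 + ‖s‖) ^ kz) (N : ℕ) (a : ℕ → ℂ) {k : ℕ}
    {M : ℝ} (hM : 0 ≤ M) {s : ℂ} (hs : 1 / 4 ≤ s.re) (hD : ‖DP N a s‖ ≤ M * (1 + ‖s‖) ^ k) :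
    ‖G0 D N a s‖ ≤ 4 ^ (D.p + 1) * (1 + Cz * M) * (1 + ‖s‖) ^ (kz + k + D.p) := by
  have h1 := quarter_le hs
  have hx : 1 ≤ 1 + ‖s‖ := by linarith [norm_nonneg s]
  have h4 : ‖s - 1‖ ≤ 1 + ‖s‖ := by
    have := norm_sub_le s 1
    rw [norm_one] at this
    linarith
  have h5 : (1 / 4 : ℝ) ^ (D.p + 1) ≤ ‖s‖ ^ (D.p + 1) := pow_le_pow_left₀ (by norm_num) h1 _
  have h6 : 0 < ‖s‖ ^ (D.p + 1) := by positivity
  unfold G0
  rw [norm_div, norm_pow, div_le_iff₀ h6]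
  have h7 : ‖(s - 1) ^ D.p - D.Zs s * DP N a s‖ ≤ (1 + Cz * M) * (1 + ‖s‖) ^ (kz + k + D.p) := by
    calc ‖(s - 1) ^ D.p - D.Zs s * DP N a s‖ ≤ ‖(s - 1) ^ D.p‖ + ‖D.Zs s * DP N a s‖ :=
          norm_sub_le _ _
      _ = ‖s - 1‖ ^ D.p + ‖D.Zs s‖ * ‖DP N a s‖ := by rw [norm_mul, norm_pow]
      _ ≤ (1 + ‖s‖) ^ D.p + (Cz * (1 + ‖s‖) ^ kz) * (M * (1 + ‖s‖) ^ k) := by
          have := hz s hs
          gcongr
      _ = 1 * (1 + ‖s‖) ^ D.p + Cz * M * (1 + ‖s‖) ^ (kz + k) := by ring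
      _ ≤ 1 * (1 + ‖s‖) ^ (kz + k + D.p) + Cz * M * (1 + ‖s‖) ^ (kz + k + D.p) := by
          have e1 : (1 + ‖s‖) ^ D.p ≤ (1 + ‖s‖) ^ (kz + k + D.p) :=
            pow_le_pow_right₀ hx (by omega)
          have e2 : (1 + ‖s‖) ^ (kz + k) ≤ (1 + ‖s‖) ^ (kz + k + D.p) :=
            pow_le_pow_right₀ hx (by omega)
          have e3 : 0 ≤ Cz * M := by positivity
          exact add_le_add (mul_le_mul_of_nonneg_left e1 zero_le_one)
            (mul_le_mul_of_nonneg_left e2 e3)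
      _ = _ := by ring
  have h8 : 0 ≤ (1 + Cz * M) * (1 + ‖s‖) ^ (kz + k + D.p) := by positivity
  calc ‖(s - 1) ^ D.p - D.Zs s * DP N a s‖ ≤ (1 + Cz * M) * (1 + ‖s‖) ^ (kz + k + D.p) := h7
    _ = 4 ^ (D.p + 1) * ((1 + Cz * M) * (1 + ‖s‖) ^ (kz + k + D.p)) * (1 / 4) ^ (D.p + 1) := by
        have : (4 : ℝ) ^ (D.p + 1) * (1 / 4) ^ (D.p + 1) = 1 := by
          rw [← mul_pow]
          norm_num
        linear_combination -((1 + Cz * M) * (1 + ‖s‖) ^ (kz + k + D.p)) * this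
    _ ≤ 4 ^ (D.p + 1) * ((1 + Cz * M) * (1 + ‖s‖) ^ (kz + k + D.p)) * ‖s‖ ^ (D.p + 1) := by gcongr
    _ = _ := by ring

/-! ### the weight -/

lemma gw_norm2 {c0 : ℝ} (hc : 1 ≤ c0) (K : ℕ) {s : ℂ} (hs : 1 / 4 ≤ s.re) :
    ‖gw c0 K s‖ ≤ (4 * c0) ^ K * ((1 + ‖s‖) ^ K)⁻¹ := by
  have h1 := (le_abs_self _).trans (Complex.abs_re_le_norm ((c0 : ℂ) + (s - 1 / 2)))
  have h2 := Complex.abs_im_le_norm ((c0 : ℂ) + (s - 1 / 2))
  have h3 : ((c0 : ℂ) + (s - 1 / 2)).re = c0 + (s.re - 1 / 2) := by simp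
  have h4 : ((c0 : ℂ) + (s - 1 / 2)).im = s.im := by simp
  rw [h3] at h1
  rw [h4] at h2
  have h5 := Complex.norm_le_abs_re_add_abs_im s
  rw [abs_of_pos (show 0 < s.re by linarith)] at h5
  have h6 : (1 + ‖s‖) / 4 ≤ ‖(c0 : ℂ) + (s - 1 / 2)‖ := by linarith
  have h0 : 0 < 1 + ‖s‖ := by positivity
  have hc0 : 0 ≤ c0 := by linarith
  rw [gw, norm_pow, ← div_eq_mul_inv, ← div_pow, norm_div, Complex.norm_real,
    Real.norm_of_nonneg hc0]
  refine pow_le_pow_left₀ (by positivity) ?_ K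
  calc c0 / ‖(c0 : ℂ) + (s - 1 / 2)‖ ≤ c0 / ((1 + ‖s‖) / 4) := by gcongr
    _ = _ := by field_simp

/-- the integrand -/
noncomputable def FF (D : Dat) (N : ℕ) (a : ℕ → ℂ) (c0 : ℝ) (K : ℕ) (s : ℂ) : ℂ :=
  G0 D N a s * gw c0 K s

lemma FF_diff {D : Dat} (hb : Base D) (N : ℕ) (a : ℕ → ℂ) {c0 : ℝ} (hc : 1 ≤ c0) (K : ℕ) {s : ℂ}
    (hs : 0 < s.re) : DifferentiableAt ℂ (FF D N a c0 K) s :=
  (G0_diff hb N a hs).mul (gw_diff hc K hs)

lemma sq_dc (s : ℂ) : ((1 + ‖s‖) ^ 2)⁻¹ ≤ dc s.im := by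
  rw [dc_eq]
  have := Complex.abs_im_le_norm s
  gcongr

/-- the decay of the integrand -/
lemma FF_decay (D : Dat) (N : ℕ) (a : ℕ → ℂ) {c0 : ℝ} (hc : 1 ≤ c0) {m : ℕ} {B : ℝ} (hB : 0 ≤ B)
    {s : ℂ} (hs : 1 / 4 ≤ s.re) (h : ‖G0 D N a s‖ ≤ B * (1 + ‖s‖) ^ m) :
    ‖FF D N a c0 (m + 2) s‖ ≤ (B * (4 * c0) ^ (m + 2)) * ((1 + ‖s‖) ^ 2)⁻¹ := by
  have h0 : 0 < 1 + ‖s‖ := by positivity
  have h1 := gw_norm2 hc (m + 2) hs
  rw [FF, norm_mul]
  calc ‖G0 D N a s‖ * ‖gw c0 (m + 2) s‖ ≤ (B * (1 + ‖s‖) ^ m) *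
        ((4 * c0) ^ (m + 2) * ((1 + ‖s‖) ^ (m + 2))⁻¹) :=
        mul_le_mul h h1 (norm_nonneg _) (by positivity)
    _ = _ := by
        rw [pow_add (1 + ‖s‖) m 2]
        field_simp

/-! ### the zeros -/

lemma deriv_zero {D : Dat} (hb : Base D) (N : ℕ) (a : ℕ → ℂ) {c0 : ℝ} (hc : 1 ≤ c0) (K : ℕ)
    {ρ : ℂ} (hρ : D.IsZ ρ) {k : ℕ} (hk : k < D.mu ρ) :
    iteratedDeriv k (FF D N a c0 K) ρ =
      iteratedDeriv k (fun s => (s - 1) ^ D.p / s ^ (D.p + 1) * gw c0 K s) ρ := by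
  have hre : 0 < ρ.re := by rw [hρ.2]; norm_num
  have hop : IsOpen {z : ℂ | 0 < z.re} := isOpen_lt continuous_const Complex.continuous_re
  have han : ∀ {f : ℂ → ℂ}, (∀ s : ℂ, 0 < s.re → DifferentiableAt ℂ f s) → AnalyticAt ℂ f ρ := by
    intro f hf
    exact (DifferentiableOn.analyticOnNhd (fun z hz => (hf z hz).differentiableWithinAt) hop) ρ hre
  set E : ℂ → ℂ := fun s => (s - 1) ^ D.p / s ^ (D.p + 1) * gw c0 K s with hE
  set W : ℂ → ℂ := fun s => DP N a s / s ^ (D.p + 1) * gw c0 K s with hW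
  have hEd : ∀ s : ℂ, 0 < s.re → DifferentiableAt ℂ E s := by
    intro s hs
    have h1 : DifferentiableAt ℂ (gw c0 K) s := gw_diff hc K hs
    have h2 : DifferentiableAt ℂ (fun s : ℂ => (s - 1) ^ D.p / s ^ (D.p + 1)) s :=
      DifferentiableAt.div (by fun_prop) (by fun_prop) (pow_ne_zero _ (ne_zero_of_re hs))
    exact h2.mul h1
  have hWd : ∀ s : ℂ, 0 < s.re → DifferentiableAt ℂ W s := by
    intro s hs
    have h1 : DifferentiableAt ℂ (gw c0 K) s := gw_diff hc K hs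
    have h3 : DifferentiableAt ℂ (DP N a) s := DP_differentiable N a s
    have h2 : DifferentiableAt ℂ (fun s : ℂ => DP N a s / s ^ (D.p + 1)) s :=
      DifferentiableAt.div (by fun_prop) (by fun_prop) (pow_ne_zero _ (ne_zero_of_re hs))
    exact h2.mul h1
  have hFd : AnalyticAt ℂ (FF D N a c0 K) ρ := han fun s hs => FF_diff hb N a hc K hs
  have hEq : (fun s => E s - FF D N a c0 K s) = D.Zs * W := by
    ext s
    rw [Pi.mul_apply, hE, hW, FF, G0]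
    ring
  have hζ : AnalyticAt ℂ D.Zs ρ := han fun s hs => hb.diff s hs
  have hord : (D.mu ρ : ℕ∞) ≤ analyticOrderAt (fun s => E s - FF D N a c0 K s) ρ := by
    rw [hEq, analyticOrderAt_mul hζ (han hWd)]
    refine le_trans ?_ le_self_add
    exact ENat.natCast_toNat_le_self _
  have hsub : AnalyticAt ℂ (fun s => E s - FF D N a c0 K s) ρ := (han hEd).sub hFd
  have h1 := (natCast_le_analyticOrderAt_iff_iteratedDeriv_eq_zero hsub).1 hord k hk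
  have h2 : iteratedDeriv k (fun s => E s - FF D N a c0 K s) ρ =
      iteratedDeriv k E ρ - iteratedDeriv k (FF D N a c0 K) ρ := by
    have := iteratedDeriv_sub (n := k) (x := ρ) (han hEd).contDiffAt hFd.contDiffAt
    exact this
  rw [h2] at h1
  exact (sub_eq_zero.1 h1).symm

end Pool.Agent.N967.G.Jj

namespace Pool.Agent.N967.G

open Complex MeasureTheory Filter Topology Set
open Pool.Agent.N967.JjAux hiding FF G0 FF_diff G0_diff G0_line deriv_zero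

open Pool.Agent.N967.G.Jj in
/-- the inverse Laplace transform of the error -/
theorem jj {D : Dat} (h : Rp D) (hg : S_grow D) (hi : S_int D) (hs : Pool.Agent.N967.S_shift) :
    S_jj D := by
  intro δ hδ hδ'
  have hb := h.base
  obtain ⟨Cz, kz, hCz, hz⟩ := hb.growth
  obtain ⟨Cg, k, hCg, hgr⟩ := hg δ hδ (by linarith)
  set m := kz + k + D.p with hm
  refine ⟨m + 2, fun c0 hc => ?_⟩
  have hc0 : 0 < c0 := by linarith
  have hdc : 0 < ∫ y, dc y := by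
    rw [integral_pos_iff_support_of_nonneg (fun y => (dc_pos y).le) dc_int]
    have : Function.support dc = univ := by
      ext y
      simp [(dc_pos y).ne']
    rw [this]
    simp
  set C : ℝ := 4 ^ (D.p + 1) * (1 + Cz * Cg) * (4 * c0) ^ (m + 2) with hC
  have hC0 : 0 < C := by positivity
  refine ⟨C * ∫ y, dc y, by positivity, fun N a hN he => ?_⟩
  -- the bound for all `s`
  set M := ∑ n ∈ Finset.Icc 1 N, ‖a n‖ with hM
  have hM0 : 0 ≤ M := Finset.sum_nonneg fun n _ => norm_nonneg _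
  have hall : ∀ s : ℂ, 1 / 4 ≤ s.re → ‖FF D N a c0 (m + 2) s‖ ≤
      (4 ^ (D.p + 1) * (1 + Cz * M) * (4 * c0) ^ (m + 2)) * ((1 + ‖s‖) ^ 2)⁻¹ := by
    intro s hs'
    refine FF_decay D N a hc (by positivity) hs' ?_
    refine G0_growth D hCz hz N a hM0 hs' ?_
    refine (DP_norm_le N a (by linarith)).trans ?_
    exact le_mul_of_one_le_right hM0 (one_le_pow₀ (by linarith [norm_nonneg s]))
  set B := 4 ^ (D.p + 1) * (1 + Cz * M) * (4 * c0) ^ (m + 2) with hBdef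
  have hB0 : 0 ≤ B := by positivity
  have hB : ∀ z : ℂ, 1 / 4 ≤ z.re → ‖FF D N a c0 (m + 2) z‖ ≤ B * dc z.im := fun z hz' =>
    (hall z hz').trans (mul_le_mul_of_nonneg_left (sq_dc z) hB0)
  -- the bound on the line
  have hCb : ∀ z : ℂ, z.re = 1 / 4 → ‖FF D N a c0 (m + 2) z‖ ≤
      (C * (N : ℝ) ^ (1 / 4 + δ)) * dc z.im := by
    intro z hz'
    have hN1 : (1:ℝ) ≤ N := by exact_mod_cast (by omega : 1 ≤ N)
    have h1 := hgr N a (by omega) he z (by rw [hz']; linarith)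
    have e1 : (1:ℝ) / 2 + δ - z.re = 1 / 4 + δ := by rw [hz']; ring
    rw [e1] at h1
    set Q := (N : ℝ) ^ (1 / 4 + δ) with hQ
    have hQ1 : 1 ≤ Q := Real.one_le_rpow hN1 (by linarith)
    have h2 := G0_growth D hCz hz N a (k := k) (M := Cg * Q) (by positivity) (s := z)
      (by rw [hz']) (by
        refine h1.trans (le_of_eq ?_)
        ring)
    have h3 : ‖G0 D N a z‖ ≤ (4 ^ (D.p + 1) * (1 + Cz * Cg) * Q) * (1 + ‖z‖) ^ m := by
      refine h2.trans ?_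
      have h4 : 1 + Cz * (Cg * Q) ≤ (1 + Cz * Cg) * Q := by
        nlinarith [mul_pos hCz hCg]
      calc 4 ^ (D.p + 1) * (1 + Cz * (Cg * Q)) * (1 + ‖z‖) ^ m
          ≤ 4 ^ (D.p + 1) * ((1 + Cz * Cg) * Q) * (1 + ‖z‖) ^ m := by gcongr
        _ = _ := by ring
    have h5 := FF_decay D N a hc (m := m) (by positivity) (s := z) (by rw [hz']) h3
    calc ‖FF D N a c0 (m + 2) z‖ ≤ _ := h5
      _ ≤ (4 ^ (D.p + 1) * (1 + Cz * Cg) * Q * (4 * c0) ^ (m + 2)) * dc z.im :=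
          mul_le_mul_of_nonneg_left (sq_dc z) (by positivity)
      _ = _ := by rw [hC]; ring
  have hd : ∀ z : ℂ, 1 / 4 ≤ z.re → DifferentiableAt ℂ (FF D N a c0 (m + 2)) z := fun z hz' =>
    FF_diff hb N a hc (m + 2) (by linarith)
  have hlim : ∀ y : ℝ, Tendsto (fun b : ℝ => FF D N a c0 (m + 2) (b + y * I)) atTop (𝓝 0) := by
    intro y
    rw [tendsto_zero_iff_norm_tendsto_zero]
    have h1 : Tendsto (fun b : ℝ => B * (b⁻¹)) atTop (𝓝 0) := by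
      simpa using tendsto_inv_atTop_zero.const_mul B
    refine squeeze_zero' (Eventually.of_forall fun b => norm_nonneg _) ?_ h1
    filter_upwards [eventually_ge_atTop 1] with b hb'
    have hb0 : 0 < b := by linarith
    have h2 := hall (b + y * I) (by simp; linarith)
    refine h2.trans (mul_le_mul_of_nonneg_left ?_ hB0)
    have h3 : b ≤ ‖(b : ℂ) + y * I‖ := by
      have := (le_abs_self _).trans (Complex.abs_re_le_norm ((b : ℂ) + y * I))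
      simpa using this
    refine inv_anti₀ hb0 ?_
    nlinarith
  have hneg : ∀ v, v ≤ 0 → JJ (FF D N a c0 (m + 2)) v = 0 := fun v hv =>
    JJ_neg hs hB0 hd hB hlim hv
  have hpos : ∀ v, 0 ≤ v → ‖JJ (FF D N a c0 (m + 2)) v‖ ≤
      ((C * (N : ℝ) ^ (1 / 4 + δ)) * ∫ y, dc y) * Real.exp (-(v / 4)) := fun v hv =>
    JJ_pos hs hB0 hd hB hCb hv
  obtain ⟨h1, h2, h3⟩ := JJ_planch hd hB
  refine ⟨JJ (FF D N a c0 (m + 2)), h1.measurable, hneg, fun v hv => ?_, h2, ?_,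
    fun ρ hρ k hk => ?_⟩
  · calc ‖JJ (FF D N a c0 (m + 2)) v‖ ≤ _ := hpos v hv
      _ = _ := by ring
  · rw [h3, Dat.err]
    refine mul_le_mul_of_nonneg_left ?_ (by positivity)
    refine integral_mono_of_nonneg (Eventually.of_forall fun t => by positivity) (hi N a)
      (Eventually.of_forall fun t => ?_)
    simp only
    rw [FF, norm_mul, mul_pow, G0_line]
    have h4 : ‖gw c0 (m + 2) (1 / 2 + t * I)‖ ^ 2 ≤ 1 :=
      pow_le_one₀ (norm_nonneg _) (gw_half hc (m + 2) t)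
    have h5 : 0 ≤ D.ig N a t := by unfold Dat.ig; positivity
    exact mul_le_of_le_one_right h5 h4
  · have h5 : ρ = 1 / 2 + (ρ.im : ℂ) * I := by
      apply Complex.ext
      · simp [hρ.2]
      · simp
    rw [inversion hd hB hneg hpos k ρ.im, ← h5]
    exact deriv_zero hb N a hc (m + 2) hρ hk

end Pool.Agent.N967.G
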