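import Mathlib

set_option autoImplicit false

/-!
# The local factorization of an analytic function in a disc

Landau's lemma: `f = P g` with `P` the product over the zeros in the closed disc of radius `r2`, and `g` without
zeros there; the number of the zeros is bounded by Jensen's inequality (Blaschke factors and the maximum principle),
and the logarithm of `g` by the Borel-Caratheodory inequality.
-/

namespace Pool.Agent.N967.G.Lf

open Complex Metric Filter Topology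

/-- a function without zeros in a disc is an exponential there -/
theorem base {F : ℂ → ℂ} {ρ A : ℝ} (hρ : 0 < ρ) (hF : DifferentiableOn ℂ F (ball 0 ρ))
    (hnz : ∀ u ∈ ball (0 : ℂ) ρ, F u ≠ 0)
    (hb : ∀ w ∈ ball (0 : ℂ) ρ, ‖F w‖ ≤ Real.exp A * ‖F 0‖) :
    ∃ L : ℂ → ℂ, ∀ w ∈ ball (0 : ℂ) ρ, HasDerivAt L (deriv F w / F w) w ∧
      F w = F 0 * cexp (L w) ∧ ‖L w‖ ≤ 2 * A * (‖w‖ / (ρ - ‖w‖)) := by
  have h0 : F 0 ≠ 0 := hnz 0 (mem_ball_self hρ)
  have h0n : 0 < ‖F 0‖ := norm_pos_iff.2 h0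
  have hFd : ∀ x ∈ ball (0 : ℂ) ρ, DifferentiableAt ℂ F x := fun x hx =>
    hF.differentiableAt (isOpen_ball.mem_nhds hx)
  have hg : DifferentiableOn ℂ (fun z => deriv F z / F z) (ball 0 ρ) :=
    (hF.deriv isOpen_ball).div hF hnz
  obtain ⟨L0, hL0⟩ := hg.isExactOn_ball
  set L : ℂ → ℂ := fun z => L0 z - L0 0 with hLdef
  have hL : ∀ z ∈ ball (0 : ℂ) ρ, HasDerivAt L (deriv F z / F z) z := fun z hz =>
    (hL0 z hz).sub_const _
  have hLz : L 0 = 0 := by simp [hLdef]
  have hconst : ∀ z ∈ ball (0 : ℂ) ρ, F z * cexp (-L z) = F 0 := by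
    intro z hz
    have hd : ∀ x ∈ ball (0 : ℂ) ρ, HasDerivAt (fun y => F y * cexp (-L y)) 0 x := by
      intro x hx
      have h1 := (hFd x hx).hasDerivAt.mul ((hL x hx).neg.cexp)
      have e : deriv F x * cexp (-L x) + F x * (cexp (-L x) * -(deriv F x / F x)) = 0 := by
        have hx' := hnz x hx
        field_simp
        ring
      have h1' : HasDerivAt (fun y => F y * cexp (-L y))
        (deriv F x * cexp (-L x) + F x * (cexp (-L x) * -(deriv F x / F x))) x := h1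
      rwa [e] at h1'
    have h2 := (convex_ball (0 : ℂ) ρ).is_const_of_fderivWithin_eq_zero (𝕜 := ℂ)
      (f := fun y => F y * cexp (-L y))
      (fun x hx => (hd x hx).differentiableAt.differentiableWithinAt) (by
        intro x hx
        rw [((hd x hx).hasFDerivAt.hasFDerivWithinAt (s := ball (0 : ℂ) ρ)).fderivWithin
          (isOpen_ball.uniqueDiffWithinAt hx)]
        ext
        simp) hz (mem_ball_self hρ)
    simpa [hLz] using h2
  have hFL : ∀ z ∈ ball (0 : ℂ) ρ, F z = F 0 * cexp (L z) := by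
    intro z hz
    rw [← hconst z hz, mul_assoc, ← Complex.exp_add]
    simp
  have hre : ∀ z ∈ ball (0 : ℂ) ρ, (L z).re ≤ A := by
    intro z hz
    have h1 := hb z hz
    rw [hFL z hz, norm_mul, Complex.norm_exp, mul_comm] at h1
    exact Real.exp_le_exp.1 (le_of_mul_le_mul_right h1 h0n)
  have hA0 : 0 ≤ A := by
    have := hre 0 (mem_ball_self hρ)
    rwa [hLz] at this
  refine ⟨L, ?_⟩
  intro w hw
  have hwb : ‖w‖ < ρ := by simpa using hw
  have hden : 0 < ρ - ‖w‖ := by linarith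
  refine ⟨hL w hw, hFL w hw, ?_⟩
  set c : ℝ := ‖w‖ / (ρ - ‖w‖) with hc
  have hc0 : 0 ≤ c := div_nonneg (norm_nonneg _) hden.le
  refine le_of_forall_pos_le_add (fun δ hδ => ?_)
  have hε : 0 < δ / (2 * c + 1) := by positivity
  have h1 := Complex.borelCaratheodory_zero (f := L) (R := ρ) (z := w)
    (M := A + δ / (2 * c + 1)) (by linarith)
    (fun z hz => (hL z hz).differentiableAt.differentiableWithinAt)
    (fun z hz => by
      show (L z).re ≤ _
      linarith [hre z hz]) hρ hw hLz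
  refine h1.trans ?_
  have h2 : 2 * (A + δ / (2 * c + 1)) * ‖w‖ / (ρ - ‖w‖) =
      2 * A * c + (δ / (2 * c + 1)) * (2 * c) := by
    rw [hc]; ring
  rw [h2]
  have h3 : (δ / (2 * c + 1)) * (2 * c) ≤ (δ / (2 * c + 1)) * (2 * c + 1) :=
    mul_le_mul_of_nonneg_left (by linarith) hε.le
  have h4 : (δ / (2 * c + 1)) * (2 * c + 1) = δ := by
    field_simp
  linarith

/-- the same in a disc with an arbitrary centre, with a bound for the derivative -/
theorem base' {g : ℂ → ℂ} {s0 : ℂ} {r1 r2 A : ℝ} (h1 : 0 < r1) (h12 : r1 < r2)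
    (hg : DifferentiableOn ℂ g (ball s0 r2)) (hnz : ∀ u ∈ ball s0 r2, g u ≠ 0)
    (hb : ∀ w ∈ ball s0 r2, ‖g w‖ ≤ Real.exp A * ‖g s0‖) :
    ∃ L : ℂ → ℂ, (∀ w ∈ ball s0 r2, HasDerivAt L (deriv g w / g w) w ∧
      g w = g s0 * cexp (L w)) ∧
      ∀ w, ‖w - s0‖ ≤ r1 → ‖deriv g w / g w‖ ≤ 4 * A * (r1 + r2) / (r2 - r1) ^ 2 := by
  have hball : ∀ w ∈ ball (0 : ℂ) r2, s0 + w ∈ ball s0 r2 := by
    intro w hw
    rw [mem_ball, dist_eq_norm] at hw ⊢
    simpa using hw
  have hd : ∀ x ∈ ball s0 r2, DifferentiableAt ℂ g x := fun x hx =>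
    hg.differentiableAt (isOpen_ball.mem_nhds hx)
  have hF' : ∀ w ∈ ball (0 : ℂ) r2, HasDerivAt (fun w => g (s0 + w)) (deriv g (s0 + w)) w := by
    intro w hw
    have h := (hd _ (hball w hw)).hasDerivAt
    exact h.comp_const_add s0 w
  obtain ⟨L, hL⟩ := base (F := fun w => g (s0 + w)) (h1.trans h12)
    (fun w hw => (hF' w hw).differentiableAt.differentiableWithinAt)
    (fun w hw => hnz _ (hball w hw)) (A := A) (fun w hw => by
      simpa using hb _ (hball w hw))
  have hball' : ∀ w ∈ ball s0 r2, w - s0 ∈ ball (0 : ℂ) r2 := by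
    intro w hw
    rw [mem_ball, dist_eq_norm] at hw ⊢
    simpa using hw
  have hLd : ∀ w ∈ ball s0 r2, HasDerivAt (fun w => L (w - s0)) (deriv g w / g w) w := by
    intro w hw
    have h := (hL _ (hball' w hw)).1
    rw [(hF' _ (hball' w hw)).deriv] at h
    simp only [add_sub_cancel] at h
    exact h.comp_sub_const w s0
  refine ⟨fun w => L (w - s0), fun w hw => ⟨hLd w hw, ?_⟩, ?_⟩
  · have h := (hL _ (hball' w hw)).2.1
    simpa using h
  · intro w hw
    have hA0 : 0 ≤ A := by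
      have h := hb s0 (mem_ball_self (h1.trans h12))
      have h0 : 0 < ‖g s0‖ := norm_pos_iff.2 (hnz s0 (mem_ball_self (h1.trans h12)))
      have h2 : (1 : ℝ) * ‖g s0‖ ≤ Real.exp A * ‖g s0‖ := by rwa [one_mul]
      have h3 := le_of_mul_le_mul_right h2 h0
      rwa [Real.one_le_exp_iff] at h3
    have hsub : closedBall w ((r2 - r1) / 2) ⊆ ball s0 r2 := by
      intro z hz
      rw [mem_closedBall, dist_eq_norm] at hz
      rw [mem_ball, dist_eq_norm]
      have h2 : ‖z - s0‖ ≤ ‖z - w‖ + ‖w - s0‖ := by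
        have h3 : z - s0 = (z - w) + (w - s0) := by ring
        rw [h3]
        exact norm_add_le _ _
      linarith
    have hpos : 0 < (r2 - r1) / 2 := by linarith
    have hD : DiffContOnCl ℂ (fun w => L (w - s0)) (ball w ((r2 - r1) / 2)) := by
      apply DifferentiableOn.diffContOnCl
      rw [closure_ball w hpos.ne']
      exact fun z hz => (hLd z (hsub hz)).differentiableAt.differentiableWithinAt
    have hbd : ∀ z ∈ sphere w ((r2 - r1) / 2), ‖L (z - s0)‖ ≤ 2 * A * ((r1 + r2) / (r2 - r1)) := by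
      intro z hz
      have hz' : z ∈ ball s0 r2 := hsub (sphere_subset_closedBall hz)
      have h4 := (hL _ (hball' z hz')).2.2
      refine h4.trans ?_
      refine mul_le_mul_of_nonneg_left ?_ (by positivity)
      have h5 : ‖z - s0‖ ≤ (r1 + r2) / 2 := by
        rw [mem_sphere, dist_eq_norm] at hz
        have h3 : z - s0 = (z - w) + (w - s0) := by ring
        rw [h3]
        refine (norm_add_le _ _).trans ?_
        linarith
      have h6 : 0 < r2 - ‖z - s0‖ := by linarith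
      rw [div_le_div_iff₀ h6 (by linarith)]
      have h7 := norm_nonneg (z - s0)
      nlinarith
    have h8 := Complex.norm_deriv_le_of_forall_mem_sphere_norm_le hpos hD hbd
    have hw' : w ∈ ball s0 r2 := by
      rw [mem_ball, dist_eq_norm]
      linarith
    rw [(hLd w hw').deriv] at h8
    refine h8.trans (le_of_eq ?_)
    have h9 : r2 - r1 ≠ 0 := by linarith
    field_simp
    ring

/-- a factorization with `N` factors -/
def Fact (f : ℂ → ℂ) (s0 : ℂ) (r2 R : ℝ) (N : ℕ) : Prop :=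
  ∃ (M : Multiset ℂ) (g : ℂ → ℂ), M.card = N ∧ (∀ ρ ∈ M, ‖ρ - s0‖ ≤ r2) ∧
    (∀ s : ℂ, ‖s - s0‖ ≤ R → DifferentiableAt ℂ g s) ∧
    ∀ s, f s = (M.map fun ρ => s - ρ).prod * g s

theorem fact_step {f : ℂ → ℂ} {s0 : ℂ} {r2 R : ℝ} (h2R : r2 < R) {M : Multiset ℂ} {g : ℂ → ℂ}
    (hM : ∀ ρ ∈ M, ‖ρ - s0‖ ≤ r2) (hg : ∀ s : ℂ, ‖s - s0‖ ≤ R → DifferentiableAt ℂ g s)
    (hf : ∀ s, f s = (M.map fun ρ => s - ρ).prod * g s) {σ : ℂ} (hσ : ‖σ - s0‖ ≤ r2)
    (hgσ : g σ = 0) : Fact f s0 r2 R (M.card + 1) := by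
  refine ⟨σ ::ₘ M, dslope g σ, by rw [Multiset.card_cons], ?_, ?_, ?_⟩
  · intro ρ hρ
    rcases Multiset.mem_cons.1 hρ with h | h
    · rw [h]; exact hσ
    · exact hM ρ h
  · intro s hs
    by_cases h : s = σ
    · have h1 : DifferentiableOn ℂ g (ball s0 R) := fun z hz =>
        (hg z (by rw [mem_ball, dist_eq_norm] at hz; exact hz.le)).differentiableWithinAt
      have h2 : σ ∈ ball s0 R := by
        rw [mem_ball, dist_eq_norm]
        linarith
      have h3 := (Complex.differentiableOn_dslope (isOpen_ball.mem_nhds h2)).2 h1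
      rw [h]
      exact h3.differentiableAt (isOpen_ball.mem_nhds h2)
    · exact (differentiableAt_dslope_of_ne h).2 (hg s hs)
  · intro s
    have h := sub_smul_dslope g σ s
    rw [hgσ, sub_zero, smul_eq_mul] at h
    rw [Multiset.map_cons, Multiset.prod_cons, hf s, ← h]
    ring

/-- Jensen's inequality -/
theorem fact_bound {f : ℂ → ℂ} {s0 : ℂ} {r2 R B : ℝ} (hr2 : 0 < r2) (h2R : r2 < R)
    (hf0 : f s0 ≠ 0) (hB : ∀ s : ℂ, ‖s - s0‖ ≤ R → ‖f s‖ ≤ Real.exp B * ‖f s0‖)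
    {M : Multiset ℂ} {g : ℂ → ℂ}
    (hM : ∀ ρ ∈ M, ‖ρ - s0‖ ≤ r2) (hg : ∀ s : ℂ, ‖s - s0‖ ≤ R → DifferentiableAt ℂ g s)
    (hf : ∀ s, f s = (M.map fun ρ => s - ρ).prod * g s) :
    (M.card : ℝ) * Real.log (R / r2) ≤ B := by
  have hR : 0 < R := hr2.trans h2R
  have hg0 : g s0 ≠ 0 := by
    intro h
    apply hf0
    rw [hf s0, h, mul_zero]
  have hg0n : 0 < ‖g s0‖ := norm_pos_iff.2 hg0
  -- the function with Blaschke factors
  have key : ∀ M : Multiset ℂ, (∀ s : ℂ, ‖s - s0‖ = R →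
      ‖(M.map fun ρ => ((R : ℂ) ^ 2 - (starRingEnd ℂ) (ρ - s0) * (s - s0)) / R).prod‖ =
      ‖(M.map fun ρ => s - ρ).prod‖) ∧
      (Differentiable ℂ fun s =>
        (M.map fun ρ => ((R : ℂ) ^ 2 - (starRingEnd ℂ) (ρ - s0) * (s - s0)) / R).prod) ∧
      ‖(M.map fun ρ => ((R : ℂ) ^ 2 - (starRingEnd ℂ) (ρ - s0) * (s0 - s0)) / R).prod‖ =
        R ^ M.card := by
    intro M
    induction M using Multiset.induction_on with
    | empty => simp
    | cons σ M ih =>
      obtain ⟨ih1, ih2, ih3⟩ := ih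
      simp only [Multiset.map_cons, Multiset.prod_cons]
      refine ⟨?_, ?_, ?_⟩
      · intro s hs
        rw [norm_mul, norm_mul, ih1 s hs]
        congr 1
        have h1 : (R : ℂ) ^ 2 = (starRingEnd ℂ) (s - s0) * (s - s0) := by
          rw [mul_comm, Complex.mul_conj, Complex.normSq_eq_norm_sq, hs]
          push_cast
          ring
        have h2 : ((R : ℂ) ^ 2 - (starRingEnd ℂ) (σ - s0) * (s - s0)) =
            (starRingEnd ℂ) (s - σ) * (s - s0) := by
          rw [h1, ← sub_mul, ← map_sub]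
          congr 2
          ring
        rw [h2, norm_div, norm_mul, hs, Complex.norm_real, Real.norm_of_nonneg hR.le,
          RCLike.norm_conj]
        field_simp
      · refine Differentiable.mul ?_ ih2
        fun_prop
      · have h0 : ‖((R : ℂ) ^ 2 - (starRingEnd ℂ) (σ - s0) * (s0 - s0)) / R‖ = R := by
          rw [sub_self, mul_zero, sub_zero, norm_div, norm_pow, Complex.norm_real,
            Real.norm_of_nonneg hR.le]
          field_simp
        rw [norm_mul, ih3, h0, Multiset.card_cons, pow_succ, mul_comm]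
  obtain ⟨k1, k2, k3⟩ := key M
  have hD : DiffContOnCl ℂ (fun s =>
      (M.map fun ρ => ((R : ℂ) ^ 2 - (starRingEnd ℂ) (ρ - s0) * (s - s0)) / R).prod * g s)
      (ball s0 R) := by
    apply DifferentiableOn.diffContOnCl
    rw [closure_ball s0 hR.ne']
    intro z hz
    rw [mem_closedBall, dist_eq_norm] at hz
    exact ((k2 z).mul (hg z hz)).differentiableWithinAt
  have hmax := Complex.norm_le_of_forall_mem_frontier_norm_le isBounded_ball hD
    (C := Real.exp B * ‖f s0‖) (by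
      intro z hz
      rw [frontier_ball s0 hR.ne', mem_sphere, dist_eq_norm] at hz
      rw [norm_mul, k1 z hz, ← norm_mul, ← hf z]
      exact hB z hz.le) (z := s0) (subset_closure (mem_ball_self hR))
  rw [norm_mul, k3, hf s0, norm_mul, ← mul_assoc] at hmax
  have h3 := le_of_mul_le_mul_right hmax hg0n
  have h4 : ∀ M : Multiset ℂ, (∀ ρ ∈ M, ‖ρ - s0‖ ≤ r2) →
      ‖(M.map fun ρ => s0 - ρ).prod‖ ≤ r2 ^ M.card := by
    intro M
    induction M using Multiset.induction_on with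
    | empty => simp
    | cons σ M ih =>
      intro h
      rw [Multiset.map_cons, Multiset.prod_cons, norm_mul, Multiset.card_cons, pow_succ, mul_comm]
      refine mul_le_mul (ih fun ρ hρ => h ρ (Multiset.mem_cons_of_mem hρ)) ?_ (norm_nonneg _)
        (by positivity)
      rw [norm_sub_rev]
      exact h σ (Multiset.mem_cons_self σ M)
  have h5 : R ^ M.card ≤ Real.exp B * r2 ^ M.card :=
    h3.trans (mul_le_mul_of_nonneg_left (h4 M hM) (Real.exp_pos _).le)
  have h6 : (R / r2) ^ M.card ≤ Real.exp B := by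
    rw [div_pow, div_le_iff₀ (by positivity)]
    exact h5
  have h7 := Real.log_le_log (by positivity) h6
  rwa [Real.log_pow, Real.log_exp] at h7

/-- the full factorization -/
theorem fact_full {f : ℂ → ℂ} {s0 : ℂ} {r2 R B : ℝ} (hr2 : 0 < r2) (h2R : r2 < R)
    (hfd : ∀ s : ℂ, ‖s - s0‖ ≤ R → DifferentiableAt ℂ f s)
    (hf0 : f s0 ≠ 0) (hB : ∀ s : ℂ, ‖s - s0‖ ≤ R → ‖f s‖ ≤ Real.exp B * ‖f s0‖) :
    ∃ (M : Multiset ℂ) (g : ℂ → ℂ), (∀ ρ ∈ M, ‖ρ - s0‖ ≤ r2) ∧
      (∀ s : ℂ, ‖s - s0‖ ≤ R → DifferentiableAt ℂ g s) ∧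
      (∀ s, f s = (M.map fun ρ => s - ρ).prod * g s) ∧ (∀ s, ‖s - s0‖ ≤ r2 → g s ≠ 0) := by
  classical
  by_contra hcon
  push Not at hcon
  have hall : ∀ N, Fact f s0 r2 R N := by
    intro N
    induction N with
    | zero => exact ⟨0, f, rfl, by simp, hfd, by simp⟩
    | succ N ih =>
      obtain ⟨M, g, hN, hM, hg, hf⟩ := ih
      obtain ⟨σ, hσ, hσ0⟩ := hcon M g hM hg hf
      rw [← hN]
      exact fact_step h2R hM hg hf hσ hσ0
  have hlog : 0 < Real.log (R / r2) := Real.log_pos (by rwa [one_lt_div hr2])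
  obtain ⟨N, hN⟩ := exists_nat_gt (B / Real.log (R / r2))
  obtain ⟨M, g, hMN, hM, hg, hf⟩ := hall N
  have h1 := fact_bound hr2 h2R hf0 hB hM hg hf
  rw [hMN] at h1
  rw [div_lt_iff₀ hlog] at hN
  linarith

/-- bound for the factor without zeros -/
theorem fact_g {f : ℂ → ℂ} {s0 : ℂ} {r2 R B : ℝ} (hr2 : 0 < r2) (h2R : r2 < R)
    (hf0 : f s0 ≠ 0) (hB : ∀ s : ℂ, ‖s - s0‖ ≤ R → ‖f s‖ ≤ Real.exp B * ‖f s0‖)
    {M : Multiset ℂ} {g : ℂ → ℂ}
    (hM : ∀ ρ ∈ M, ‖ρ - s0‖ ≤ r2) (hg : ∀ s : ℂ, ‖s - s0‖ ≤ R → DifferentiableAt ℂ g s)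
    (hf : ∀ s, f s = (M.map fun ρ => s - ρ).prod * g s) :
    ∀ s, ‖s - s0‖ ≤ R → ‖g s‖ ≤
      Real.exp ((1 + max 0 (Real.log (r2 / (R - r2))) / Real.log (R / r2)) * B) * ‖g s0‖ := by
  have hR : 0 < R := hr2.trans h2R
  have hlog : 0 < Real.log (R / r2) := Real.log_pos (by rwa [one_lt_div hr2])
  have hcard := fact_bound hr2 h2R hf0 hB hM hg hf
  have hRr : 0 < R - r2 := by linarith
  have h4 : ∀ M : Multiset ℂ, (∀ ρ ∈ M, ‖ρ - s0‖ ≤ r2) → ∀ s, ‖s - s0‖ = R →
      ‖(M.map fun ρ => s0 - ρ).prod‖ ≤ (r2 / (R - r2)) ^ M.card * ‖(M.map fun ρ => s - ρ).prod‖ := by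
    intro M
    induction M using Multiset.induction_on with
    | empty => simp
    | cons σ M ih =>
      intro h s hs
      rw [Multiset.map_cons, Multiset.prod_cons, norm_mul, Multiset.card_cons, pow_succ,
        Multiset.map_cons, Multiset.prod_cons, norm_mul]
      have h5 := ih (fun ρ hρ => h ρ (Multiset.mem_cons_of_mem hρ)) s hs
      have h6 : ‖s0 - σ‖ ≤ r2 := by
        rw [norm_sub_rev]
        exact h σ (Multiset.mem_cons_self σ M)
      have h7 : R - r2 ≤ ‖s - σ‖ := by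
        have h8 : s - s0 = (s - σ) + (σ - s0) := by ring
        have h9 : ‖s - s0‖ ≤ ‖s - σ‖ + ‖σ - s0‖ := by
          rw [h8]
          exact norm_add_le _ _
        rw [norm_sub_rev] at h6
        linarith
      have h8 : ‖s0 - σ‖ ≤ r2 / (R - r2) * ‖s - σ‖ := by
        rw [div_mul_eq_mul_div, le_div_iff₀ hRr]
        have := norm_nonneg (s0 - σ)
        nlinarith
      calc ‖s0 - σ‖ * ‖(M.map fun ρ => s0 - ρ).prod‖
          ≤ (r2 / (R - r2) * ‖s - σ‖) *
            ((r2 / (R - r2)) ^ M.card * ‖(M.map fun ρ => s - ρ).prod‖) :=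
            mul_le_mul h8 h5 (norm_nonneg _) (by positivity)
        _ = _ := by ring
  have hpw : (r2 / (R - r2)) ^ M.card ≤
      Real.exp (max 0 (Real.log (r2 / (R - r2))) / Real.log (R / r2) * B) := by
    have h5 : 0 < r2 / (R - r2) := by positivity
    have h6 : (r2 / (R - r2)) ^ M.card = Real.exp (M.card * Real.log (r2 / (R - r2))) := by
      rw [Real.exp_nat_mul, Real.exp_log h5]
    rw [h6]
    apply Real.exp_le_exp.2
    have h7 : (M.card : ℝ) ≤ B / Real.log (R / r2) := by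
      rw [le_div_iff₀ hlog]
      exact hcard
    calc (M.card : ℝ) * Real.log (r2 / (R - r2))
        ≤ M.card * max 0 (Real.log (r2 / (R - r2))) :=
          mul_le_mul_of_nonneg_left (le_max_right _ _) (by positivity)
      _ ≤ B / Real.log (R / r2) * max 0 (Real.log (r2 / (R - r2))) :=
          mul_le_mul_of_nonneg_right h7 (le_max_left _ _)
      _ = _ := by ring
  have hD : DiffContOnCl ℂ g (ball s0 R) := by
    apply DifferentiableOn.diffContOnCl
    rw [closure_ball s0 hR.ne']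
    intro z hz
    rw [mem_closedBall, dist_eq_norm] at hz
    exact (hg z hz).differentiableWithinAt
  intro s hs
  refine Complex.norm_le_of_forall_mem_frontier_norm_le isBounded_ball hD ?_
    (by rw [closure_ball s0 hR.ne', mem_closedBall, dist_eq_norm]; exact hs)
  intro z hz
  rw [frontier_ball s0 hR.ne', mem_sphere, dist_eq_norm] at hz
  have h5 := hB z hz.le
  have hpos : 0 < ‖(M.map fun ρ => z - ρ).prod‖ := by
    rw [norm_pos_iff]
    apply Multiset.prod_ne_zero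
    intro h
    obtain ⟨ρ, hρ, hρ0⟩ := Multiset.mem_map.1 h
    have h6 : z = ρ := sub_eq_zero.1 hρ0
    have h7 := hM ρ hρ
    rw [← h6, hz] at h7
    linarith
  rw [hf z, hf s0, norm_mul, norm_mul] at h5
  have h6 := h4 M hM z hz
  have h7 : ‖(M.map fun ρ => z - ρ).prod‖ * ‖g z‖ ≤ ‖(M.map fun ρ => z - ρ).prod‖ *
      (Real.exp ((1 + max 0 (Real.log (r2 / (R - r2))) / Real.log (R / r2)) * B) * ‖g s0‖) := by
    calc ‖(M.map fun ρ => z - ρ).prod‖ * ‖g z‖
        ≤ Real.exp B * (‖(M.map fun ρ => s0 - ρ).prod‖ * ‖g s0‖) := h5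
      _ ≤ Real.exp B * (((r2 / (R - r2)) ^ M.card * ‖(M.map fun ρ => z - ρ).prod‖) * ‖g s0‖) := by
          gcongr
      _ ≤ Real.exp B * ((Real.exp (max 0 (Real.log (r2 / (R - r2))) / Real.log (R / r2) * B) *
          ‖(M.map fun ρ => z - ρ).prod‖) * ‖g s0‖) := by
          gcongr
      _ = _ := by
          rw [add_mul, one_mul, Real.exp_add]
          ring
  exact le_of_mul_le_mul_left h7 hpos

/-- order of vanishing -/
theorem order_eq {f : ℂ → ℂ} {s0 : ℂ} {r2 R : ℝ} (h2R : r2 < R)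
    (hfd : ∀ s : ℂ, ‖s - s0‖ ≤ R → DifferentiableAt ℂ f s)
    {M : Multiset ℂ} {g : ℂ → ℂ}
    (hg : ∀ s : ℂ, ‖s - s0‖ ≤ R → DifferentiableAt ℂ g s)
    (hf : ∀ s, f s = (M.map fun ρ => s - ρ).prod * g s)
    (hgn : ∀ s, ‖s - s0‖ ≤ r2 → g s ≠ 0)
    {ρ : ℂ} (hρ : ‖ρ - s0‖ ≤ r2) [DecidableEq ℂ] : analyticOrderNatAt f ρ = M.count ρ := by
  have hball : ρ ∈ ball s0 R := by
    rw [mem_ball, dist_eq_norm]
    linarith
  have han : ∀ h : ℂ → ℂ, (∀ s : ℂ, ‖s - s0‖ ≤ R → DifferentiableAt ℂ h s) → AnalyticAt ℂ h ρ := by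
    intro h hh
    have h1 : DifferentiableOn ℂ h (ball s0 R) := fun z hz =>
      (hh z (by rw [mem_ball, dist_eq_norm] at hz; exact hz.le)).differentiableWithinAt
    exact h1.analyticAt (isOpen_ball.mem_nhds hball)
  have hpr : ∀ N : Multiset ℂ, AnalyticAt ℂ (fun z => (N.map fun σ => z - σ).prod) ρ := by
    intro N
    induction N using Multiset.induction_on with
    | empty => simpa using analyticAt_const
    | cons σ N ih =>
      simp only [Multiset.map_cons, Multiset.prod_cons]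
      exact (analyticAt_id.sub analyticAt_const).mul ih
  have hM : M = Multiset.replicate (M.count ρ) ρ + M.filter (fun σ => ¬ σ = ρ) := by
    have h := Multiset.filter_add_not (fun σ => σ = ρ) M
    rw [Multiset.filter_eq'] at h
    exact h.symm
  have hcount : analyticOrderAt f ρ = (M.count ρ : ℕ) := by
    rw [(han f hfd).analyticOrderAt_eq_natCast]
    refine ⟨fun z => ((M.filter (fun σ => ¬ σ = ρ)).map fun σ => z - σ).prod * g z,
      (hpr _).mul (han g hg), ?_, ?_⟩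
    · refine mul_ne_zero ?_ (hgn ρ hρ)
      apply Multiset.prod_ne_zero
      intro h
      obtain ⟨σ, hσ, hσ0⟩ := Multiset.mem_map.1 h
      exact (Multiset.mem_filter.1 hσ).2 (sub_eq_zero.1 hσ0).symm
    · refine Filter.Eventually.of_forall fun z => ?_
      have h2 : (M.map fun σ => z - σ).prod = (z - ρ) ^ M.count ρ *
          ((M.filter (fun σ => ¬ σ = ρ)).map fun σ => z - σ).prod := by
        conv_lhs => rw [hM]
        rw [Multiset.map_add, Multiset.prod_add, Multiset.map_replicate, Multiset.prod_replicate]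
      rw [hf z, h2, smul_eq_mul]
      ring
  rw [analyticOrderNatAt, hcount, ENat.toNat_natCast]

/-- the local factorization of an analytic function in a disc -/
theorem core : ∀ r1 r2 R : ℝ, 0 < r1 → r1 < r2 → r2 < R → ∃ C : ℝ, 0 < C ∧
    ∀ (f : ℂ → ℂ) (s0 : ℂ) (B : ℝ), 0 ≤ B →
    (∀ s : ℂ, ‖s - s0‖ ≤ R → DifferentiableAt ℂ f s) → f s0 ≠ 0 →
    (∀ s : ℂ, ‖s - s0‖ ≤ R → ‖f s‖ ≤ Real.exp B * ‖f s0‖) →
    ∃ Z : Finset ℂ, (∀ ρ : ℂ, ρ ∈ Z ↔ f ρ = 0 ∧ ‖ρ - s0‖ ≤ r2) ∧
      ∑ ρ ∈ Z, (analyticOrderNatAt f ρ : ℝ) ≤ C * B ∧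
      (∀ s s' : ℂ, ‖s - s0‖ ≤ r1 → ‖s' - s0‖ ≤ r1 →
        ‖f s‖ * ∏ ρ ∈ Z, ‖s' - ρ‖ ^ analyticOrderNatAt f ρ ≤
          Real.exp (C * B * ‖s - s'‖) * ‖f s'‖ * ∏ ρ ∈ Z, ‖s - ρ‖ ^ analyticOrderNatAt f ρ) ∧
      (∀ s : ℂ, ‖s - s0‖ ≤ r1 → f s ≠ 0 →
        ‖logDeriv f s - ∑ ρ ∈ Z, (analyticOrderNatAt f ρ : ℂ) / (s - ρ)‖ ≤ C * B) := by
  classical
  intro r1 r2 R h1 h12 h2R
  have hr2 : 0 < r2 := h1.trans h12
  have hlog : 0 < Real.log (R / r2) := Real.log_pos (by rwa [one_lt_div hr2])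
  obtain ⟨C1, hC1⟩ : ∃ C1 : ℝ, C1 = 1 + max 0 (Real.log (r2 / (R - r2))) / Real.log (R / r2) :=
    ⟨_, rfl⟩
  have hC1p : 0 < C1 := by
    rw [hC1]
    have : 0 ≤ max 0 (Real.log (r2 / (R - r2))) / Real.log (R / r2) :=
      div_nonneg (le_max_left _ _) hlog.le
    linarith
  obtain ⟨C3, hC3⟩ : ∃ C3 : ℝ, C3 = 4 * C1 * (r1 + r2) / (r2 - r1) ^ 2 := ⟨_, rfl⟩
  have hC3p : 0 < C3 := by
    rw [hC3]
    have : 0 < r2 - r1 := by linarith
    positivity
  refine ⟨1 / Real.log (R / r2) + C3, by positivity, ?_⟩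
  intro f s0 B hB0 hfd hf0 hB
  obtain ⟨M, g, hM, hg, hf, hgn⟩ := fact_full hr2 h2R hfd hf0 hB
  have hcard := fact_bound hr2 h2R hf0 hB hM hg hf
  have hgb := fact_g hr2 h2R hf0 hB hM hg hf
  rw [← hC1] at hgb
  have hord : ∀ ρ ∈ M.toFinset, analyticOrderNatAt f ρ = M.count ρ := fun ρ hρ =>
    order_eq h2R hfd hg hf hgn (hM ρ (Multiset.mem_toFinset.1 hρ))
  have hball : ∀ w ∈ ball s0 r2, ‖w - s0‖ ≤ r2 := by
    intro w hw
    rw [mem_ball, dist_eq_norm] at hw
    exact hw.le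
  have hin : ∀ w : ℂ, ‖w - s0‖ ≤ r1 → w ∈ ball s0 r2 := by
    intro w hw
    rw [mem_ball, dist_eq_norm]
    exact hw.trans_lt h12
  obtain ⟨L, hL, hL'⟩ := base' (g := g) (s0 := s0) (A := C1 * B) h1 h12
    (fun w hw => (hg w ((hball w hw).trans h2R.le)).differentiableWithinAt)
    (fun w hw => hgn w (hball w hw)) (fun w hw => hgb w ((hball w hw).trans h2R.le))
  have hL'' : ∀ w, ‖w - s0‖ ≤ r1 → ‖deriv g w / g w‖ ≤ C3 * B := by
    intro w hw
    refine (hL' w hw).trans (le_of_eq ?_)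
    rw [hC3]
    ring
  have hle : C3 * B ≤ (1 / Real.log (R / r2) + C3) * B := by
    refine mul_le_mul_of_nonneg_right ?_ hB0
    have : 0 ≤ 1 / Real.log (R / r2) := by positivity
    linarith
  refine ⟨M.toFinset, ?_, ?_, ?_, ?_⟩
  · intro ρ
    rw [Multiset.mem_toFinset]
    constructor
    · intro h
      refine ⟨?_, hM ρ h⟩
      rw [hf ρ, Multiset.prod_eq_zero, zero_mul]
      exact Multiset.mem_map.2 ⟨ρ, h, sub_self ρ⟩
    · rintro ⟨h, h'⟩
      rw [hf ρ] at h
      have h3 := (mul_eq_zero.1 h).resolve_right (hgn ρ h')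
      rw [Multiset.prod_eq_zero_iff] at h3
      obtain ⟨σ, hσ, hσ0⟩ := Multiset.mem_map.1 h3
      rwa [sub_eq_zero.1 hσ0]
  · have h3 : ∑ ρ ∈ M.toFinset, (analyticOrderNatAt f ρ : ℝ) = M.card := by
      rw [Finset.sum_congr rfl fun ρ hρ => by rw [hord ρ hρ], ← Nat.cast_sum,
        Multiset.toFinset_sum_count_eq]
    rw [h3]
    have h4 : (M.card : ℝ) ≤ B / Real.log (R / r2) := by
      rwa [le_div_iff₀ hlog]
    calc (M.card : ℝ) ≤ B / Real.log (R / r2) := h4
      _ = 1 / Real.log (R / r2) * B := by ring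
      _ ≤ (1 / Real.log (R / r2) + C3) * B := by
        refine mul_le_mul_of_nonneg_right ?_ hB0
        linarith
  · intro s s' hs hs'
    have hP : ∀ z : ℂ, ∏ ρ ∈ M.toFinset, ‖z - ρ‖ ^ analyticOrderNatAt f ρ =
        ‖(M.map fun ρ => z - ρ).prod‖ := by
      intro z
      rw [Finset.prod_multiset_map_count, norm_prod]
      refine Finset.prod_congr rfl fun ρ hρ => ?_
      rw [hord ρ hρ, norm_pow]
    rw [hP s, hP s', hf s, hf s', norm_mul, norm_mul]
    have hg1 : ‖g s‖ ≤ Real.exp ((1 / Real.log (R / r2) + C3) * B * ‖s - s'‖) * ‖g s'‖ := by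
      rw [(hL s (hin s hs)).2, (hL s' (hin s' hs')).2, norm_mul, norm_mul, Complex.norm_exp,
        Complex.norm_exp]
      have h5 : ‖L s - L s'‖ ≤ C3 * B * ‖s - s'‖ := by
        have hc : Convex ℝ (closedBall s0 r1) := convex_closedBall s0 r1
        refine Convex.norm_image_sub_le_of_norm_hasDerivWithin_le (f := L)
          (f' := fun w => deriv g w / g w) (s := closedBall s0 r1) (fun w hw => ?_)
          (fun w hw => ?_) hc ?_ ?_
        · rw [mem_closedBall, dist_eq_norm] at hw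
          exact (hL w (hin w hw)).1.hasDerivWithinAt
        · rw [mem_closedBall, dist_eq_norm] at hw
          exact hL'' w hw
        · rwa [mem_closedBall, dist_eq_norm]
        · rwa [mem_closedBall, dist_eq_norm]
      have h6 : (L s).re - (L s').re ≤ C3 * B * ‖s - s'‖ := by
        have h7 := (Complex.abs_re_le_norm (L s - L s')).trans h5
        rw [Complex.sub_re] at h7
        exact (le_abs_self _).trans h7
      have h7 : Real.exp (L s).re ≤
          Real.exp ((1 / Real.log (R / r2) + C3) * B * ‖s - s'‖) * Real.exp (L s').re := by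
        rw [← Real.exp_add]
        apply Real.exp_le_exp.2
        have h8 := mul_le_mul_of_nonneg_right hle (norm_nonneg (s - s'))
        linarith
      calc ‖g s0‖ * Real.exp (L s).re
          ≤ ‖g s0‖ * (Real.exp ((1 / Real.log (R / r2) + C3) * B * ‖s - s'‖) *
            Real.exp (L s').re) := mul_le_mul_of_nonneg_left h7 (norm_nonneg _)
        _ = _ := by ring
    calc ‖(M.map fun ρ => s - ρ).prod‖ * ‖g s‖ * ‖(M.map fun ρ => s' - ρ).prod‖
        ≤ ‖(M.map fun ρ => s - ρ).prod‖ *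
          (Real.exp ((1 / Real.log (R / r2) + C3) * B * ‖s - s'‖) * ‖g s'‖) *
          ‖(M.map fun ρ => s' - ρ).prod‖ := by gcongr
      _ = _ := by ring
  · intro s hs hfs
    have hgs : g s ≠ 0 := hgn s (hs.trans h12.le)
    have hfun : f = fun z => (∏ ρ ∈ M.toFinset, (z - ρ) ^ M.count ρ) * g z := by
      funext z
      rw [hf z, Finset.prod_multiset_map_count]
    have hP0 : ∏ ρ ∈ M.toFinset, (s - ρ) ^ M.count ρ ≠ 0 := by
      intro h
      apply hfs
      rw [hfun]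
      simp only
      rw [h, zero_mul]
    have hP0' : ∀ ρ ∈ M.toFinset, (s - ρ) ^ M.count ρ ≠ 0 := Finset.prod_ne_zero_iff.1 hP0
    have h1 : logDeriv f s = logDeriv (fun z => ∏ ρ ∈ M.toFinset, (z - ρ) ^ M.count ρ) s +
        logDeriv g s := by
      conv_lhs => rw [hfun]
      exact logDeriv_mul s hP0 hgs (by fun_prop) (hg s (by linarith))
    have h2 : logDeriv (fun z => ∏ ρ ∈ M.toFinset, (z - ρ) ^ M.count ρ) s =
        ∑ ρ ∈ M.toFinset, logDeriv (fun z => (z - ρ) ^ M.count ρ) s :=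
      logDeriv_prod (f := fun ρ z => (z - ρ) ^ M.count ρ) hP0' (fun ρ _ => by fun_prop)
    have h3 : ∀ ρ ∈ M.toFinset, logDeriv (fun z => (z - ρ) ^ M.count ρ) s =
        (analyticOrderNatAt f ρ : ℂ) / (s - ρ) := by
      intro ρ hρ
      rw [logDeriv_fun_pow (f := fun z => z - ρ) (by fun_prop), logDeriv_apply, hord ρ hρ]
      have h4 : deriv (fun z : ℂ => z - ρ) s = 1 := by simp
      rw [h4, mul_one_div]
    rw [h1, h2, Finset.sum_congr rfl h3, add_sub_cancel_left, logDeriv_apply]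
    exact (hL'' s hs).trans hle

end Pool.Agent.N967.G.Lf
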