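import Mathlib
import Pool.Agent.N967.G.StmA
import Pool.Agent.N967.G.LfCore

set_option autoImplicit false

namespace Pool.Agent.N967.G

/-- the local factorization of an analytic function in a disc -/
theorem lf : S_lf := Lf.core

end Pool.Agent.N967.G
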