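import Mathlib
import Pool.Agent.N967.G.Stm

set_option autoImplicit false

/-!
# Limit theorem for families with profiles, combinations of families with profiles
(helper457; the proofs are ports of those of helper186 in `N967/Lim3.lean` and of the last part of
`N967/Loc3.lean`)
-/

namespace Pool.Agent.N967.G

open Complex MeasureTheory Filter Topology
open Pool.Agent.Y23 (Lg)

namespace Lim

variable {D : Dat}

/-- the weight -/
noncomputable def wt (t : ℝ) : ℝ := 1 / (1 / 4 + t ^ 2)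

lemma wt_pos (t : ℝ) : 0 < wt t := by unfold wt; positivity

lemma wt_le (t : ℝ) : wt t ≤ 4 := by
  unfold wt
  rw [div_le_iff₀ (by positivity)]
  nlinarith [sq_nonneg t]

lemma abs_mul_wt (t : ℝ) : |t| * wt t ≤ 1 := by
  unfold wt
  rw [mul_one_div, div_le_one (by positivity)]
  nlinarith [sq_nonneg (|t| - 1 / 2), sq_abs t]

lemma wt_cont : Continuous wt := by
  unfold wt
  refine continuous_const.div (by fun_prop) (fun t => by positivity)

lemma wt_lip (s t : ℝ) : |wt s - wt t| ≤ 8 * |s - t| := by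
  have h1 : wt s - wt t = (t - s) * ((t + s) * (wt s * wt t)) := by
    unfold wt
    have h2 : (1 / 4 + s ^ 2) ≠ 0 := by positivity
    have h3 : (1 / 4 + t ^ 2) ≠ 0 := by positivity
    field_simp
    ring
  rw [h1, abs_mul, abs_sub_comm t s, mul_comm (8 : ℝ)]
  refine mul_le_mul_of_nonneg_left ?_ (abs_nonneg _)
  have hs := wt_pos s
  have ht := wt_pos t
  rw [abs_mul, abs_of_pos (mul_pos hs ht)]
  have h4 : |t + s| ≤ |t| + |s| := abs_add_le t s
  have h5 : |t| * wt t * wt s ≤ 1 * 4 :=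
    mul_le_mul (abs_mul_wt t) (wt_le s) hs.le one_pos.le
  have h6 : |s| * wt s * wt t ≤ 1 * 4 :=
    mul_le_mul (abs_mul_wt s) (wt_le t) ht.le one_pos.le
  have h7 := mul_le_mul_of_nonneg_right h4 (mul_pos hs ht).le
  nlinarith

lemma re_half {s : ℂ} (h : D.IsZ s) : s.re = 1 / 2 := h.2

lemma norm_sq (ρ : D.ZZ) : 1 / ‖(ρ : ℂ)‖ ^ 2 = wt (ρ : ℂ).im := by
  unfold wt
  congr 1
  rw [← Complex.normSq_eq_norm_sq, Complex.normSq_apply, re_half ρ.2]
  ring

lemma im_inj {ρ σ : D.ZZ} (h : (ρ : ℂ).im = (σ : ℂ).im) : ρ = σ := by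
  apply Subtype.ext
  apply Complex.ext _ h
  rw [re_half ρ.2, re_half σ.2]

lemma ptw {a b c δ : ℝ} (hδ : 0 < δ) (ha : 0 ≤ a) (hb : 0 ≤ b) (h : |a - b| ≤ c) :
    |a ^ 2 - b ^ 2| ≤ (1 + 1 / δ) * c ^ 2 + δ * b ^ 2 := by
  have hc : 0 ≤ c := (abs_nonneg _).trans h
  have h1 : |a ^ 2 - b ^ 2| ≤ c * (c + 2 * b) := by
    have h2 : a ^ 2 - b ^ 2 = (a - b) * (a + b) := by ring
    rw [h2, abs_mul, abs_of_nonneg (add_nonneg ha hb)]
    have h3 : a + b ≤ c + 2 * b := by linarith [le_abs_self (a - b)]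
    exact mul_le_mul h h3 (add_nonneg ha hb) hc
  refine h1.trans ?_
  have h2 : 2 * (b * c) ≤ 1 / δ * c ^ 2 + δ * b ^ 2 := by
    have h3 : 0 ≤ (1 / δ) * (c - δ * b) ^ 2 := by positivity
    have h4 : (1 / δ) * (c - δ * b) ^ 2 = 1 / δ * c ^ 2 - 2 * (b * c) + δ * b ^ 2 := by
      field_simp
      ring
    linarith
  nlinarith

lemma b_tendsto {g : ℝ → ℝ → ℂ} {G : ℝ → ℂ} {X : ℝ} (hX : 0 ≤ X)
    (hg : ∀ᶠ L in atTop, Continuous (g L)) (hG : Continuous G)
    (h : Tendsto (fun L : ℝ => ∫ x in (-X)..X, ‖g L x - G x‖ ^ 2) atTop (𝓝 0)) :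
    Tendsto (fun L : ℝ => ∫ x in (-X)..X, ‖g L x‖ ^ 2) atTop (𝓝 (∫ x in (-X)..X, ‖G x‖ ^ 2)) := by
  have hXX : -X ≤ X := by linarith
  set B : ℝ := ∫ x in (-X)..X, ‖G x‖ ^ 2 with hB
  have hB0 : 0 ≤ B := intervalIntegral.integral_nonneg hXX (fun x _ => by positivity)
  rw [Metric.tendsto_atTop']
  intro ε hε
  obtain ⟨δ, hδ, hδB⟩ : ∃ δ : ℝ, 0 < δ ∧ δ * B < ε / 2 := by
    refine ⟨ε / (2 * (B + 1)), by positivity, ?_⟩
    rw [div_mul_eq_mul_div, div_lt_div_iff₀ (by positivity) (by norm_num)]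
    nlinarith
  have hη : 0 < ε / (2 * (1 + 1 / δ)) := by positivity
  have h1 := h.eventually (gt_mem_nhds hη)
  obtain ⟨L0, hL0⟩ := (eventually_atTop.1 (h1.and hg))
  refine ⟨L0, fun L hL => ?_⟩
  obtain ⟨h2, h3⟩ := hL0 L hL.le
  have c1 : Continuous (fun x => ‖g L x‖ ^ 2) := h3.norm.pow 2
  have c2 : Continuous (fun x => ‖G x‖ ^ 2) := hG.norm.pow 2
  have c3 : Continuous (fun x => (1 + 1 / δ) * ‖g L x - G x‖ ^ 2) := ((h3.sub hG).norm.pow 2).const_mul _
  have c4 : Continuous (fun x => δ * ‖G x‖ ^ 2) := c2.const_mul _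
  rw [Real.dist_eq, hB, ← intervalIntegral.integral_sub
    (c1.intervalIntegrable _ _) (c2.intervalIntegrable _ _)]
  have h4 : |∫ x in (-X)..X, (‖g L x‖ ^ 2 - ‖G x‖ ^ 2)| ≤
      ∫ x in (-X)..X, ((1 + 1 / δ) * ‖g L x - G x‖ ^ 2 + δ * ‖G x‖ ^ 2) := by
    refine (intervalIntegral.abs_integral_le_integral_abs hXX).trans ?_
    apply intervalIntegral.integral_mono_on hXX
    · exact ((c1.sub c2).abs).intervalIntegrable _ _
    · exact (c3.add c4).intervalIntegrable _ _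
    · intro x _
      exact ptw hδ (norm_nonneg _) (norm_nonneg _) (abs_norm_sub_norm_le _ _)
  refine h4.trans_lt ?_
  rw [intervalIntegral.integral_add (c3.intervalIntegrable _ _) (c4.intervalIntegrable _ _),
    intervalIntegral.integral_const_mul, intervalIntegral.integral_const_mul, ← hB]
  have h5 : (1 + 1 / δ) * ∫ x in (-X)..X, ‖g L x - G x‖ ^ 2 < ε / 2 := by
    calc (1 + 1 / δ) * ∫ x in (-X)..X, ‖g L x - G x‖ ^ 2
        < (1 + 1 / δ) * (ε / (2 * (1 + 1 / δ))) := mul_lt_mul_of_pos_left h2 (by positivity)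
      _ = ε / 2 := by field_simp
  linarith

/-- the rescaled mass of a window -/
noncomputable def am (f : ℝ → ℝ → ℂ) (γ X L : ℝ) : ℝ :=
  ∫ x in (-X)..X, ‖f L (γ + x / L)‖ ^ 2 * wt (γ + x / L)

lemma am_tendsto {f : ℝ → ℝ → ℂ} {G : ℝ → ℂ} {γ X : ℝ} (hX : 0 ≤ X)
    (hf : ∀ L : ℝ, 4 ≤ L → Continuous (f L)) (hG : Continuous G)
    (h : Tendsto (fun L : ℝ => ∫ x in (-X)..X, ‖f L (γ + x / L) - G x‖ ^ 2) atTop (𝓝 0)) :
    Tendsto (am f γ X) atTop (𝓝 (wt γ * ∫ x in (-X)..X, ‖G x‖ ^ 2)) := by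
  have hXX : -X ≤ X := by linarith
  have hcont : ∀ L : ℝ, 4 ≤ L → Continuous (fun x => f L (γ + x / L)) := fun L hL =>
    (hf L hL).comp (by fun_prop)
  have hb := b_tendsto (g := fun L x => f L (γ + x / L)) hX
    (by filter_upwards [eventually_ge_atTop 4] with L hL using hcont L hL) hG h
  have h1 : Tendsto (fun L : ℝ => 8 * X / L * ∫ x in (-X)..X, ‖f L (γ + x / L)‖ ^ 2) atTop
      (𝓝 (0 * ∫ x in (-X)..X, ‖G x‖ ^ 2)) := (tendsto_id.const_div_atTop (8 * X)).mul hb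
  rw [zero_mul] at h1
  have h2 : Tendsto (fun L : ℝ => am f γ X L - wt γ * ∫ x in (-X)..X, ‖f L (γ + x / L)‖ ^ 2)
      atTop (𝓝 0) := by
    refine squeeze_zero_norm' ?_ h1
    filter_upwards [eventually_ge_atTop 4] with L hL
    have hL0 : 0 < L := by linarith
    have hc := hcont L hL
    have hw : Continuous (fun x : ℝ => wt (γ + x / L)) := wt_cont.comp (by fun_prop)
    have c1 : Continuous (fun x => ‖f L (γ + x / L)‖ ^ 2 * wt (γ + x / L)) := (hc.norm.pow 2).mul hw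
    have c2 : Continuous (fun x => wt γ * ‖f L (γ + x / L)‖ ^ 2) := (hc.norm.pow 2).const_mul _
    rw [Real.norm_eq_abs, am, ← intervalIntegral.integral_const_mul, ← intervalIntegral.integral_sub
      (c1.intervalIntegrable _ _) (c2.intervalIntegrable _ _), ← intervalIntegral.integral_const_mul]
    refine (intervalIntegral.abs_integral_le_integral_abs hXX).trans ?_
    apply intervalIntegral.integral_mono_on hXX
    · exact ((c1.sub c2).abs).intervalIntegrable _ _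
    · exact (Continuous.const_mul (hc.norm.pow 2) _).intervalIntegrable _ _
    · intro x hx
      have h3 : ‖f L (γ + x / L)‖ ^ 2 * wt (γ + x / L) - wt γ * ‖f L (γ + x / L)‖ ^ 2 =
          (wt (γ + x / L) - wt γ) * ‖f L (γ + x / L)‖ ^ 2 := by ring
      rw [h3, abs_mul, abs_of_nonneg (sq_nonneg ‖f L (γ + x / L)‖)]
      refine mul_le_mul_of_nonneg_right ((wt_lip _ _).trans ?_) (sq_nonneg _)
      rw [add_sub_cancel_left, abs_div, abs_of_pos hL0, mul_div_assoc]
      refine mul_le_mul_of_nonneg_left ?_ (by norm_num)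
      exact div_le_div_of_nonneg_right (abs_le.2 ⟨hx.1, hx.2⟩) hL0.le
  have h3 := h2.add (hb.const_mul (wt γ))
  simp only [sub_add_cancel, zero_add] at h3
  exact h3

lemma window {f : ℝ → ℝ → ℂ} {γ X L : ℝ} (hX : 0 ≤ X) (hL : 0 < L) (hf : Continuous (f L)) :
    ENNReal.ofReal L * ∫⁻ t in Set.Icc (γ - X / L) (γ + X / L),
      ENNReal.ofReal (‖f L t‖ ^ 2 / (1 / 4 + t ^ 2)) = ENNReal.ofReal (am f γ X L) := by
  have hc : Continuous (fun t => ‖f L t‖ ^ 2 / (1 / 4 + t ^ 2)) :=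
    (hf.norm.pow 2).div (by fun_prop) (fun t => by positivity)
  have hXL : 0 ≤ X / L := by positivity
  rw [← ofReal_integral_eq_lintegral_ofReal (hc.continuousOn.integrableOn_Icc)
    (ae_of_all _ (fun t => by positivity)), ← ENNReal.ofReal_mul hL.le]
  congr 1
  rw [integral_Icc_eq_integral_Ioc, ← intervalIntegral.integral_of_le (by linarith), am]
  have h1 := intervalIntegral.integral_comp_add_div (a := -X) (b := X)
    (fun t => ‖f L t‖ ^ 2 / (1 / 4 + t ^ 2)) hL.ne' γ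
  rw [smul_eq_mul] at h1
  have h2 : γ + -X / L = γ - X / L := by ring
  rw [h2] at h1
  rw [← h1]
  apply intervalIntegral.integral_congr
  intro x _
  simp only [wt]
  ring

/-- the density of the mass -/
noncomputable def ds (f : ℝ → ℝ → ℂ) (L t : ℝ) : ENNReal :=
  ENNReal.ofReal (‖f L t‖ ^ 2 / (1 / 4 + t ^ 2))

/-- the mass of the profile in a window -/
noncomputable def pm (G : D.ZZ → ℝ → ℂ) (ρ : D.ZZ) (X : ℝ) : ℝ :=
  wt (ρ : ℂ).im * ∫ x in (-X)..X, ‖G ρ x‖ ^ 2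

lemma pm_eq {G : D.ZZ → ℝ → ℂ} {ρ : D.ZZ} {X : ℝ} (hX : 0 ≤ X)
    (hG : Continuous (G ρ)) : ENNReal.ofReal (pm G ρ X) =
      ENNReal.ofReal (1 / ‖(ρ : ℂ)‖ ^ 2) * ∫⁻ x in Set.Icc (-X) X, ENNReal.ofReal (‖G ρ x‖ ^ 2) := by
  have hc : Continuous (fun x => ‖G ρ x‖ ^ 2) := hG.norm.pow 2
  rw [norm_sq, pm, ENNReal.ofReal_mul (wt_pos _).le,
    ← ofReal_integral_eq_lintegral_ofReal (hc.continuousOn.integrableOn_Icc)
      (ae_of_all _ (fun t => by positivity)), integral_Icc_eq_integral_Ioc,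
    ← intervalIntegral.integral_of_le (by linarith)]

lemma pm_le {G : D.ZZ → ℝ → ℂ} {ρ : D.ZZ} {X : ℝ} (hX : 0 ≤ X)
    (hG : Continuous (G ρ)) : ENNReal.ofReal (pm G ρ X) ≤
      ENNReal.ofReal (1 / ‖(ρ : ℂ)‖ ^ 2) * ∫⁻ x : ℝ, ENNReal.ofReal (‖G ρ x‖ ^ 2) := by
  rw [pm_eq hX hG]
  gcongr
  exact Measure.restrict_le_self

lemma lin_union_le {ι : Type*} (S : Finset ι) (A : ι → Set ℝ) (g : ℝ → ENNReal) :
    ∫⁻ t in ⋃ i ∈ S, A i, g t ≤ ∑ i ∈ S, ∫⁻ t in A i, g t := by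
  classical
  induction S using Finset.induction_on with
  | empty => simp
  | insert a S ha ih =>
    rw [Finset.set_biUnion_insert, Finset.sum_insert ha]
    exact (lintegral_union_le _ _ _).trans (by gcongr)

lemma ofReal_mul_div {L e : ℝ} (hL : 0 < L) :
    ENNReal.ofReal L * ENNReal.ofReal (e / L) = ENNReal.ofReal e := by
  rw [← ENNReal.ofReal_mul hL.le]
  congr 1
  field_simp

lemma am_nonneg {f : ℝ → ℝ → ℂ} {γ X L : ℝ} (hX : 0 ≤ X) : 0 ≤ am f γ X L :=
  intervalIntegral.integral_nonneg (by linarith) (fun x _ => by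
    have := wt_pos (γ + x / L)
    positivity)

lemma pm_nonneg {G : D.ZZ → ℝ → ℂ} {ρ : D.ZZ} {X : ℝ} (hX : 0 ≤ X) : 0 ≤ pm G ρ X :=
  mul_nonneg (wt_pos _).le (intervalIntegral.integral_nonneg (by linarith) (fun x _ => by
    positivity))

lemma upper (hD : Rp D) {f : ℝ → ℝ → ℂ} {G : D.ZZ → ℝ → ℂ} (P : Prof D f G) {ε : ℝ} (hε : 0 < ε) :
    ∃ (Z : Finset D.ZZ) (X : ℝ), 1 ≤ X ∧ ∀ᶠ L : ℝ in atTop, ENNReal.ofReal L * ∫⁻ t : ℝ, ds f L t ≤
      (∑ ρ ∈ Z, ENNReal.ofReal (pm G ρ X)) + ENNReal.ofReal ε := by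
  obtain ⟨T, L1, hT, h1⟩ := P.tail (ε / 4) (by positivity)
  obtain ⟨X0, h2⟩ := P.out T (ε / 16) hT (by positivity)
  obtain ⟨L2, h3⟩ := h2 (max X0 1) (le_max_left _ _)
  set X := max X0 1 with hXdef
  have hX1 : 1 ≤ X := le_max_right _ _
  have hX0 : 0 ≤ X := by linarith
  have hfin : ((fun ρ : D.ZZ => (ρ : ℂ)) ⁻¹' {s : ℂ | D.IsZ s ∧ |s.im| ≤ T + 1}).Finite :=
    (hD.fin (T + 1)).preimage Subtype.val_injective.injOn
  set Z : Finset D.ZZ := hfin.toFinset with hZdef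
  have hZ : ∀ ρ : D.ZZ, |(ρ : ℂ).im| ≤ T + 1 → ρ ∈ Z := by
    intro ρ h
    rw [hZdef, Set.Finite.mem_toFinset]
    exact ⟨ρ.2, h⟩
  refine ⟨Z, X, hX1, ?_⟩
  have hδ : 0 < ε / (4 * ((Z.card : ℝ) + 1)) := by positivity
  have hwin : ∀ᶠ L : ℝ in atTop, ∀ ρ ∈ Z, am f (ρ : ℂ).im X L < pm G ρ X + ε / (4 * ((Z.card : ℝ) + 1)) := by
    rw [Filter.eventually_all_finset]
    intro ρ _
    exact (am_tendsto hX0 P.cont (P.contG ρ) (P.loc ρ X hX1)).eventually
      (gt_mem_nhds (by rw [pm]; linarith))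
  filter_upwards [eventually_ge_atTop L1, eventually_ge_atTop L2, eventually_ge_atTop 4,
    eventually_ge_atTop X, hwin] with L hL1 hL2 hL4 hLX hw
  have hL0 : 0 < L := by linarith
  have hcover : (Set.univ : Set ℝ) ⊆ ({t : ℝ | T < |t|} ∪
      {t : ℝ | |t| ≤ T ∧ ∀ s : ℂ, D.IsZ s → X / L < |t - s.im|}) ∪
      ⋃ ρ ∈ Z, Set.Icc ((ρ : ℂ).im - X / L) ((ρ : ℂ).im + X / L) := by
    intro t _
    by_cases h4 : T < |t|
    · exact Or.inl (Or.inl h4)
    push Not at h4
    by_cases h5 : ∀ s : ℂ, D.IsZ s → X / L < |t - s.im|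
    · exact Or.inl (Or.inr ⟨h4, h5⟩)
    push Not at h5
    obtain ⟨s, hs, h6⟩ := h5
    right
    have h7 : X / L ≤ 1 := by
      rw [div_le_one hL0]
      exact hLX
    have h8 : |s.im| ≤ T + 1 := by
      have h9 : |s.im| ≤ |t| + |t - s.im| := by
        have h10 : s.im = t - (t - s.im) := by ring
        calc |s.im| = |t - (t - s.im)| := by rw [← h10]
          _ ≤ |t| + |t - s.im| := abs_sub _ _
      linarith
    simp only [Set.mem_iUnion]
    refine ⟨⟨s, hs⟩, hZ _ h8, ?_⟩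
    obtain ⟨h9, h10⟩ := abs_le.1 h6
    constructor <;> simp only <;> linarith
  have hA := h1 L hL1
  have hB : ∫⁻ t in {t : ℝ | |t| ≤ T ∧ ∀ s : ℂ, D.IsZ s → X / L < |t - s.im|}, ds f L t ≤
      4 * ENNReal.ofReal (ε / 16 / L) := by
    refine le_trans ?_ (mul_le_mul_right (h3 L hL2) 4)
    rw [← lintegral_const_mul' _ _ (by norm_num)]
    refine lintegral_mono (fun t => ?_)
    have h5 : (4 : ENNReal) = ENNReal.ofReal 4 := by simp
    rw [ds, h5, ← ENNReal.ofReal_mul (by norm_num)]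
    apply ENNReal.ofReal_le_ofReal
    have h6 := wt_le t
    rw [wt] at h6
    rw [div_eq_mul_one_div, mul_comm]
    exact mul_le_mul_of_nonneg_right h6 (sq_nonneg _)
  have htot : ∫⁻ t : ℝ, ds f L t ≤ (ENNReal.ofReal (ε / 4 / L) + 4 * ENNReal.ofReal (ε / 16 / L)) +
      ∑ ρ ∈ Z, ∫⁻ t in Set.Icc ((ρ : ℂ).im - X / L) ((ρ : ℂ).im + X / L), ds f L t := by
    rw [← setLIntegral_univ]
    refine (lintegral_mono_set hcover).trans ((lintegral_union_le _ _ _).trans ?_)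
    refine add_le_add ((lintegral_union_le _ _ _).trans (add_le_add hA hB)) (lin_union_le _ _ _)
  have e1 : ENNReal.ofReal L * (4 * ENNReal.ofReal (ε / 16 / L)) = ENNReal.ofReal (ε / 4) := by
    rw [mul_left_comm, ofReal_mul_div hL0]
    have h5 : (4 : ENNReal) = ENNReal.ofReal 4 := by simp
    rw [h5, ← ENNReal.ofReal_mul (by norm_num)]
    congr 1
    ring
  calc ENNReal.ofReal L * ∫⁻ t : ℝ, ds f L t
      ≤ ENNReal.ofReal L * ((ENNReal.ofReal (ε / 4 / L) + 4 * ENNReal.ofReal (ε / 16 / L)) +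
        ∑ ρ ∈ Z, ∫⁻ t in Set.Icc ((ρ : ℂ).im - X / L) ((ρ : ℂ).im + X / L), ds f L t) := by
        gcongr
    _ = ENNReal.ofReal (ε / 4) + ENNReal.ofReal (ε / 4) + ∑ ρ ∈ Z, ENNReal.ofReal (am f (ρ : ℂ).im X L) := by
        rw [mul_add, mul_add, ofReal_mul_div hL0, e1, Finset.mul_sum]
        congr 1
        apply Finset.sum_congr rfl
        intro ρ _
        exact window hX0 hL0 (P.cont L hL4)
    _ ≤ ENNReal.ofReal (ε / 4) + ENNReal.ofReal (ε / 4) +
        ∑ ρ ∈ Z, (ENNReal.ofReal (pm G ρ X) + ENNReal.ofReal (ε / (4 * ((Z.card : ℝ) + 1)))) := by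
        gcongr with ρ hρ
        rw [← ENNReal.ofReal_add (pm_nonneg hX0) hδ.le]
        exact ENNReal.ofReal_le_ofReal (hw ρ hρ).le
    _ ≤ (∑ ρ ∈ Z, ENNReal.ofReal (pm G ρ X)) + ENNReal.ofReal ε := by
        rw [Finset.sum_add_distrib, Finset.sum_const, nsmul_eq_mul, add_comm, add_assoc]
        gcongr
        rw [show ((Z.card : ℕ) : ENNReal) = ENNReal.ofReal (Z.card : ℝ) by
          rw [ENNReal.ofReal_natCast], ← ENNReal.ofReal_mul (by positivity),
          ← ENNReal.ofReal_add (by positivity) (by positivity),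
          ← ENNReal.ofReal_add (by positivity) (by positivity)]
        apply ENNReal.ofReal_le_ofReal
        have h5 : (Z.card : ℝ) * (ε / (4 * ((Z.card : ℝ) + 1))) ≤ ε / 4 := by
          rw [mul_div_assoc', div_le_div_iff₀ (by positivity) (by norm_num)]
          nlinarith [Nat.cast_nonneg (α := ℝ) Z.card]
        linarith

lemma lower {f : ℝ → ℝ → ℂ} {G : D.ZZ → ℝ → ℂ} (P : Prof D f G) (S : Finset D.ZZ)
    {X ε : ℝ} (hX1 : 1 ≤ X) (hε : 0 < ε) :
    ∀ᶠ L : ℝ in atTop, (∑ ρ ∈ S, ENNReal.ofReal (pm G ρ X)) ≤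
      ENNReal.ofReal L * (∫⁻ t : ℝ, ds f L t) + ENNReal.ofReal ε := by
  have hX0 : 0 ≤ X := by linarith
  have hδ : 0 < ε / ((S.card : ℝ) + 1) := by positivity
  have hwin : ∀ᶠ L : ℝ in atTop, ∀ ρ ∈ S, pm G ρ X - ε / ((S.card : ℝ) + 1) < am f (ρ : ℂ).im X L := by
    rw [Filter.eventually_all_finset]
    intro ρ _
    exact (am_tendsto hX0 P.cont (P.contG ρ) (P.loc ρ X hX1)).eventually
      (lt_mem_nhds (by rw [pm]; linarith))
  have hdis : ∀ᶠ L : ℝ in atTop, ∀ ρ ∈ S, ∀ σ ∈ S, ρ ≠ σ → 2 * X / L < |(ρ : ℂ).im - (σ : ℂ).im| := by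
    rw [Filter.eventually_all_finset]
    intro ρ _
    rw [Filter.eventually_all_finset]
    intro σ _
    by_cases h : ρ = σ
    · exact Eventually.of_forall (fun L h2 => absurd h h2)
    · have h2 : 0 < |(ρ : ℂ).im - (σ : ℂ).im| := by
        rw [abs_pos, sub_ne_zero]
        exact fun h3 => h (im_inj h3)
      have h3 : Tendsto (fun L : ℝ => 2 * X / L) atTop (𝓝 0) := tendsto_id.const_div_atTop (2 * X)
      filter_upwards [h3.eventually (gt_mem_nhds h2)] with L hL _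
      exact hL
  filter_upwards [eventually_ge_atTop 4, hwin, hdis] with L hL4 hw hd
  have hL0 : 0 < L := by linarith
  have hpd : Set.PairwiseDisjoint (↑S) (fun ρ : D.ZZ => Set.Icc ((ρ : ℂ).im - X / L) ((ρ : ℂ).im + X / L)) := by
    intro ρ hρ σ hσ hne
    rw [Function.onFun, Set.disjoint_left]
    rintro t ⟨h1, h2⟩ ⟨h3, h4⟩
    have h5 := hd ρ hρ σ hσ hne
    have h6 : 2 * X / L = X / L + X / L := by ring
    rw [h6] at h5
    have h7 : |(ρ : ℂ).im - (σ : ℂ).im| ≤ X / L + X / L := abs_le.2 ⟨by linarith, by linarith⟩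
    linarith
  calc (∑ ρ ∈ S, ENNReal.ofReal (pm G ρ X))
      ≤ ∑ ρ ∈ S, (ENNReal.ofReal (am f (ρ : ℂ).im X L) + ENNReal.ofReal (ε / ((S.card : ℝ) + 1))) := by
        gcongr with ρ hρ
        rw [← ENNReal.ofReal_add (am_nonneg hX0) hδ.le]
        apply ENNReal.ofReal_le_ofReal
        linarith [hw ρ hρ]
    _ = ENNReal.ofReal L * (∫⁻ t in ⋃ ρ ∈ S, Set.Icc ((ρ : ℂ).im - X / L) ((ρ : ℂ).im + X / L), ds f L t) +
        (S.card : ENNReal) * ENNReal.ofReal (ε / ((S.card : ℝ) + 1)) := by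
        rw [Finset.sum_add_distrib, Finset.sum_const, nsmul_eq_mul,
          lintegral_biUnion_finset hpd (fun _ _ => measurableSet_Icc), Finset.mul_sum]
        congr 1
        apply Finset.sum_congr rfl
        intro ρ _
        exact (window hX0 hL0 (P.cont L hL4)).symm
    _ ≤ ENNReal.ofReal L * (∫⁻ t : ℝ, ds f L t) + ENNReal.ofReal ε := by
        gcongr
        · exact Measure.restrict_le_self
        · rw [show ((S.card : ℕ) : ENNReal) = ENNReal.ofReal (S.card : ℝ) by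
            rw [ENNReal.ofReal_natCast], ← ENNReal.ofReal_mul (by positivity)]
          apply ENNReal.ofReal_le_ofReal
          rw [mul_div_assoc', div_le_iff₀ (by positivity)]
          nlinarith [Nat.cast_nonneg (α := ℝ) S.card]

end Lim

/-- The limit theorem for families with profiles. -/
theorem lim {D : Dat} (hD : Rp D) : S_lim D := by
  intro f G P
  refine ⟨?_, ?_⟩
  · obtain ⟨Z, X1, hX1, hup⟩ := Lim.upper hD P one_pos
    set C : ENNReal := (∑ ρ ∈ Z, ENNReal.ofReal (Lim.pm G ρ X1)) + ENNReal.ofReal 1 with hC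
    have hCtop : C ≠ ⊤ := by
      rw [hC]
      exact ENNReal.add_ne_top.2 ⟨ENNReal.sum_ne_top.2 (fun _ _ => ENNReal.ofReal_ne_top),
        ENNReal.ofReal_ne_top⟩
    have h1 : ∀ (S : Finset D.ZZ) (X : ℝ), 1 ≤ X →
        (∑ ρ ∈ S, ENNReal.ofReal (Lim.pm G ρ X)) ≤ C + ENNReal.ofReal 1 := by
      intro S X hX
      obtain ⟨L, hL1, hL2⟩ := (hup.and (Lim.lower P S hX one_pos)).exists
      exact hL2.trans (by gcongr)
    have h2 : ∀ S : Finset D.ZZ, (∑ ρ ∈ S, ENNReal.ofReal (1 / ‖(ρ : ℂ)‖ ^ 2) *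
        ∫⁻ x : ℝ, ENNReal.ofReal (‖G ρ x‖ ^ 2)) ≤ C + ENNReal.ofReal 1 := by
      intro S
      have h3 : Tendsto (fun X : ℝ => ∑ ρ ∈ S, ENNReal.ofReal (1 / ‖(ρ : ℂ)‖ ^ 2) *
          ∫⁻ x in Set.Icc (-X) X, ENNReal.ofReal (‖G ρ x‖ ^ 2)) atTop
          (𝓝 (∑ ρ ∈ S, ENNReal.ofReal (1 / ‖(ρ : ℂ)‖ ^ 2) *
            ∫⁻ x : ℝ, ENNReal.ofReal (‖G ρ x‖ ^ 2))) := by
        refine tendsto_finsetSum _ (fun ρ _ => ?_)
        have h4 : AECover (volume : Measure ℝ) atTop (fun X : ℝ => Set.Icc (-X) X) :=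
          aecover_Icc tendsto_neg_atTop_atBot tendsto_id
        have h5 := h4.lintegral_tendsto_of_countably_generated
          (f := fun x => ENNReal.ofReal (‖G ρ x‖ ^ 2))
          (((P.contG ρ).norm.pow 2).measurable.ennreal_ofReal.aemeasurable)
        exact ENNReal.Tendsto.const_mul h5 (Or.inr ENNReal.ofReal_ne_top)
      refine le_of_tendsto h3 ?_
      filter_upwards [eventually_ge_atTop 1] with X hX
      refine le_trans (le_of_eq ?_) (h1 S X hX)
      apply Finset.sum_congr rfl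
      intro ρ _
      exact (Lim.pm_eq (by linarith) (P.contG ρ)).symm
    have h3 : (∑' ρ : D.ZZ, ENNReal.ofReal (1 / ‖(ρ : ℂ)‖ ^ 2) * ∫⁻ x : ℝ, ENNReal.ofReal (‖G ρ x‖ ^ 2)) ≤
        C + ENNReal.ofReal 1 := by
      rw [ENNReal.tsum_eq_iSup_sum]
      exact iSup_le h2
    exact ne_top_of_le_ne_top (ENNReal.add_ne_top.2 ⟨hCtop, ENNReal.ofReal_ne_top⟩) h3
  · intro ε hε
    obtain ⟨Z, X, hX, hup⟩ := Lim.upper hD P hε
    obtain ⟨L0, hL0⟩ := eventually_atTop.1 hup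
    refine ⟨L0, fun L hL => (hL0 L hL).trans ?_⟩
    gcongr
    calc (∑ ρ ∈ Z, ENNReal.ofReal (Lim.pm G ρ X))
        ≤ ∑ ρ ∈ Z, ENNReal.ofReal (1 / ‖(ρ : ℂ)‖ ^ 2) * ∫⁻ x : ℝ, ENNReal.ofReal (‖G ρ x‖ ^ 2) := by
          gcongr with ρ _
          exact Lim.pm_le (by linarith) (P.contG ρ)
      _ ≤ _ := ENNReal.sum_le_tsum Z

namespace Lim

variable {D : Dat}

/-! ### Combinations -/

theorem ofReal_split {ε L : ℝ} (hε : 0 < ε) (hL : 0 < L) :
    ENNReal.ofReal 2 * ENNReal.ofReal (ε / 4 / L) + ENNReal.ofReal 2 * ENNReal.ofReal (ε / 4 / L) =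
      ENNReal.ofReal (ε / L) := by
  rw [← ENNReal.ofReal_mul (by norm_num), ← ENNReal.ofReal_add (by positivity) (by positivity)]
  congr 1
  ring

theorem sq_add (a b : ℂ) : ‖a + b‖ ^ 2 ≤ 2 * ‖a‖ ^ 2 + 2 * ‖b‖ ^ 2 := by
  have h := norm_add_le a b
  have h1 := norm_nonneg (a + b)
  nlinarith [sq_nonneg (‖a‖ - ‖b‖)]

theorem lint_add {s : Set ℝ} {w : ℝ → ℝ} (hw : ∀ t, 0 ≤ w t) (hwm : Measurable w) {f g : ℝ → ℂ}
    (hf : Continuous f) {ε L : ℝ} (hε : 0 < ε) (hL : 0 < L)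
    (h1 : ∫⁻ t in s, ENNReal.ofReal (‖f t‖ ^ 2 * w t) ≤ ENNReal.ofReal (ε / 4 / L))
    (h2 : ∫⁻ t in s, ENNReal.ofReal (‖g t‖ ^ 2 * w t) ≤ ENNReal.ofReal (ε / 4 / L)) :
    ∫⁻ t in s, ENNReal.ofReal (‖f t + g t‖ ^ 2 * w t) ≤ ENNReal.ofReal (ε / L) := by
  have hm : Measurable fun t => ENNReal.ofReal (‖f t‖ ^ 2 * w t) :=
    ((hf.norm.pow 2).measurable.mul hwm).ennreal_ofReal
  calc ∫⁻ t in s, ENNReal.ofReal (‖f t + g t‖ ^ 2 * w t)
      ≤ ∫⁻ t in s, (ENNReal.ofReal 2 * ENNReal.ofReal (‖f t‖ ^ 2 * w t) +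
          ENNReal.ofReal 2 * ENNReal.ofReal (‖g t‖ ^ 2 * w t)) := by
        refine lintegral_mono fun t => ?_
        have := hw t
        rw [← ENNReal.ofReal_mul (by norm_num), ← ENNReal.ofReal_mul (by norm_num),
          ← ENNReal.ofReal_add (by positivity) (by positivity)]
        refine ENNReal.ofReal_le_ofReal ?_
        nlinarith [sq_add (f t) (g t)]
    _ = ENNReal.ofReal 2 * (∫⁻ t in s, ENNReal.ofReal (‖f t‖ ^ 2 * w t)) +
          ENNReal.ofReal 2 * (∫⁻ t in s, ENNReal.ofReal (‖g t‖ ^ 2 * w t)) := by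
        rw [lintegral_add_left (hm.const_mul _), lintegral_const_mul _ hm,
          lintegral_const_mul' _ _ ENNReal.ofReal_ne_top]
    _ ≤ ENNReal.ofReal 2 * ENNReal.ofReal (ε / 4 / L) + ENNReal.ofReal 2 * ENNReal.ofReal (ε / 4 / L) := by
        gcongr
    _ = _ := ofReal_split hε hL

theorem add {f f' : ℝ → ℝ → ℂ} {G G' : D.ZZ → ℝ → ℂ} (h : Prof D f G) (h' : Prof D f' G') :
    Prof D (fun L t => f L t + f' L t) (fun ρ x => G ρ x + G' ρ x) where
  cont L hL := (h.cont L hL).add (h'.cont L hL)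
  contG ρ := (h.contG ρ).add (h'.contG ρ)
  tail ε hε := by
    obtain ⟨T1, L1, hT1, h1⟩ := h.tail (ε / 4) (by positivity)
    obtain ⟨T2, L2, hT2, h2⟩ := h'.tail (ε / 4) (by positivity)
    refine ⟨max T1 T2, max (max L1 L2) 4, hT1.trans (le_max_left _ _), fun L hL => ?_⟩
    have hL1 : L1 ≤ L := (le_max_left _ _).trans ((le_max_left _ _).trans hL)
    have hL2 : L2 ≤ L := (le_max_right _ _).trans ((le_max_left _ _).trans hL)
    have hL4 : 4 ≤ L := (le_max_right _ _).trans hL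
    have key := lint_add (s := {t : ℝ | max T1 T2 < |t|}) (w := fun t => 1 / (1 / 4 + t ^ 2))
      (fun t => by positivity) (by fun_prop) (f := f L) (g := f' L) (h.cont L hL4) hε
      (by linarith : 0 < L)
      (by
        simp only [mul_one_div]
        refine (lintegral_mono_set fun t ht => ?_).trans (h1 L hL1)
        rw [Set.mem_ofPred_eq] at ht ⊢
        exact lt_of_le_of_lt (le_max_left _ _) ht)
      (by
        simp only [mul_one_div]
        refine (lintegral_mono_set fun t ht => ?_).trans (h2 L hL2)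
        rw [Set.mem_ofPred_eq] at ht ⊢
        exact lt_of_le_of_lt (le_max_right _ _) ht)
    simpa only [mul_one_div] using key
  out T ε hT hε := by
    obtain ⟨X1, h1⟩ := h.out T (ε / 4) hT (by positivity)
    obtain ⟨X2, h2⟩ := h'.out T (ε / 4) hT (by positivity)
    refine ⟨max X1 X2, fun X hX => ?_⟩
    obtain ⟨L1, h1⟩ := h1 X ((le_max_left _ _).trans hX)
    obtain ⟨L2, h2⟩ := h2 X ((le_max_right _ _).trans hX)
    refine ⟨max (max L1 L2) 4, fun L hL => ?_⟩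
    have hL1 : L1 ≤ L := (le_max_left _ _).trans ((le_max_left _ _).trans hL)
    have hL2 : L2 ≤ L := (le_max_right _ _).trans ((le_max_left _ _).trans hL)
    have hL4 : 4 ≤ L := (le_max_right _ _).trans hL
    have key := lint_add (s := {t : ℝ | |t| ≤ T ∧ ∀ s : ℂ, D.IsZ s → X / L < |t - s.im|})
      (w := fun _ => 1) (fun t => zero_le_one) (by fun_prop) (f := f L) (g := f' L)
      (h.cont L hL4) hε (by linarith : 0 < L)
      (by simpa only [mul_one] using h1 L hL1) (by simpa only [mul_one] using h2 L hL2)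
    simpa only [mul_one] using key
  loc ρ X hX := by
    have h1 := h.loc ρ X hX
    have h2 := h'.loc ρ X hX
    have h3 := (h1.const_mul 2).add (h2.const_mul 2)
    rw [mul_zero, add_zero] at h3
    refine squeeze_zero' (Eventually.of_forall fun L =>
      intervalIntegral.integral_nonneg (by linarith) fun x _ => by positivity) ?_ h3
    filter_upwards [eventually_ge_atTop (4 : ℝ)] with L hL
    have c1 : Continuous fun x : ℝ => ‖f L ((ρ : ℂ).im + x / L) - G ρ x‖ ^ 2 := by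
      have := h.cont L hL
      have := h.contG ρ
      fun_prop
    have c2 : Continuous fun x : ℝ => ‖f' L ((ρ : ℂ).im + x / L) - G' ρ x‖ ^ 2 := by
      have := h'.cont L hL
      have := h'.contG ρ
      fun_prop
    have c3 : Continuous fun x : ℝ => ‖f L ((ρ : ℂ).im + x / L) + f' L ((ρ : ℂ).im + x / L) -
        (G ρ x + G' ρ x)‖ ^ 2 := by
      have := h.cont L hL
      have := h.contG ρ
      have := h'.cont L hL
      have := h'.contG ρ
      fun_prop
    rw [← intervalIntegral.integral_const_mul, ← intervalIntegral.integral_const_mul,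
      ← intervalIntegral.integral_add ((c1.const_mul 2).intervalIntegrable _ _)
        ((c2.const_mul 2).intervalIntegrable _ _)]
    refine intervalIntegral.integral_mono_on (by linarith) (c3.intervalIntegrable _ _)
      (((c1.const_mul 2).add (c2.const_mul 2)).intervalIntegrable _ _) fun x _ => ?_
    have := sq_add (f L ((ρ : ℂ).im + x / L) - G ρ x) (f' L ((ρ : ℂ).im + x / L) - G' ρ x)
    rwa [show f L ((ρ : ℂ).im + x / L) - G ρ x + (f' L ((ρ : ℂ).im + x / L) - G' ρ x) =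
      f L ((ρ : ℂ).im + x / L) + f' L ((ρ : ℂ).im + x / L) - (G ρ x + G' ρ x) by ring] at this

theorem mulE {f : ℝ → ℝ → ℂ} {G : D.ZZ → ℝ → ℂ} (h : Prof D f G) {E : ℝ → ℂ} (hE : Continuous E)
    (hE1 : ∀ t, ‖E t‖ ≤ 1) : Prof D (fun L t => E t * f L t) (fun ρ x => E (ρ : ℂ).im * G ρ x) where
  cont L hL := hE.mul (h.cont L hL)
  contG ρ := continuous_const.mul (h.contG ρ)
  tail ε hε := by
    obtain ⟨T1, L1, hT1, h1⟩ := h.tail ε hε
    refine ⟨T1, L1, hT1, fun L hL => le_trans (lintegral_mono fun t => ?_) (h1 L hL)⟩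
    refine ENNReal.ofReal_le_ofReal ?_
    have h2 : ‖E t * f L t‖ ≤ ‖f L t‖ := by
      rw [norm_mul]
      exact mul_le_of_le_one_left (norm_nonneg _) (hE1 t)
    gcongr
  out T ε hT hε := by
    obtain ⟨X1, h1⟩ := h.out T ε hT hε
    refine ⟨X1, fun X hX => ?_⟩
    obtain ⟨L1, h1⟩ := h1 X hX
    refine ⟨L1, fun L hL => le_trans (lintegral_mono fun t => ?_) (h1 L hL)⟩
    refine ENNReal.ofReal_le_ofReal ?_
    have h2 : ‖E t * f L t‖ ≤ ‖f L t‖ := by
      rw [norm_mul]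
      exact mul_le_of_le_one_left (norm_nonneg _) (hE1 t)
    gcongr
  loc ρ X hX := by
    have h1 := h.loc ρ X hX
    have h2 : Tendsto (fun L : ℝ => ∫ x in (-X)..X,
        ‖(E ((ρ : ℂ).im + x / L) - E (ρ : ℂ).im) * G ρ x‖ ^ 2) atTop (𝓝 0) := by
      have h3 : Tendsto (fun L : ℝ => ∫ x in (-X)..X,
          ‖(E ((ρ : ℂ).im + x / L) - E (ρ : ℂ).im) * G ρ x‖ ^ 2) atTop
          (𝓝 (∫ x in (-X)..X, (0 : ℝ))) := by
        have hG := h.contG ρ
        refine intervalIntegral.tendsto_integral_filter_of_dominated_convergence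
          (fun x => (2 * ‖G ρ x‖) ^ 2) ?_ ?_ ?_ ?_
        · refine Eventually.of_forall fun L => Continuous.aestronglyMeasurable ?_
          fun_prop
        · refine Eventually.of_forall fun L => Eventually.of_forall fun x _ => ?_
          rw [Real.norm_of_nonneg (by positivity), norm_mul]
          have h4 : ‖E ((ρ : ℂ).im + x / L) - E (ρ : ℂ).im‖ ≤ 2 :=
            (norm_sub_le _ _).trans (by linarith [hE1 ((ρ : ℂ).im + x / L), hE1 (ρ : ℂ).im])
          gcongr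
        · exact Continuous.intervalIntegrable (by fun_prop) _ _
        · refine Eventually.of_forall fun x _ => ?_
          have h4 : Tendsto (fun L : ℝ => (ρ : ℂ).im + x / L) atTop (𝓝 ((ρ : ℂ).im + 0)) :=
            tendsto_const_nhds.add (tendsto_const_nhds.div_atTop tendsto_id)
          rw [add_zero] at h4
          have h5 := (hE.tendsto (ρ : ℂ).im).comp h4
          have h6 := ((h5.sub_const (E (ρ : ℂ).im)).mul_const (G ρ x)).norm.pow 2
          rw [sub_self, zero_mul, norm_zero] at h6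
          simpa using h6
      simpa using h3
    have h3 := (h1.const_mul 2).add (h2.const_mul 2)
    rw [mul_zero, add_zero] at h3
    refine squeeze_zero' (Eventually.of_forall fun L =>
      intervalIntegral.integral_nonneg (by linarith) fun x _ => by positivity) ?_ h3
    filter_upwards [eventually_ge_atTop (4 : ℝ)] with L hL
    have hf := h.cont L hL
    have hG := h.contG ρ
    have c1 : Continuous fun x : ℝ => ‖f L ((ρ : ℂ).im + x / L) - G ρ x‖ ^ 2 := by
      fun_prop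
    have c2 : Continuous fun x : ℝ => ‖(E ((ρ : ℂ).im + x / L) - E (ρ : ℂ).im) * G ρ x‖ ^ 2 := by
      fun_prop
    have c3 : Continuous fun x : ℝ => ‖E ((ρ : ℂ).im + x / L) * f L ((ρ : ℂ).im + x / L) -
        E (ρ : ℂ).im * G ρ x‖ ^ 2 := by
      fun_prop
    rw [← intervalIntegral.integral_const_mul, ← intervalIntegral.integral_const_mul,
      ← intervalIntegral.integral_add ((c1.const_mul 2).intervalIntegrable _ _)
        ((c2.const_mul 2).intervalIntegrable _ _)]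
    refine intervalIntegral.integral_mono_on (by linarith) (c3.intervalIntegrable _ _)
      (((c1.const_mul 2).add (c2.const_mul 2)).intervalIntegrable _ _) fun x _ => ?_
    have h4 := sq_add (E ((ρ : ℂ).im + x / L) * (f L ((ρ : ℂ).im + x / L) - G ρ x))
      ((E ((ρ : ℂ).im + x / L) - E (ρ : ℂ).im) * G ρ x)
    rw [show E ((ρ : ℂ).im + x / L) * (f L ((ρ : ℂ).im + x / L) - G ρ x) +
      (E ((ρ : ℂ).im + x / L) - E (ρ : ℂ).im) * G ρ x =
      E ((ρ : ℂ).im + x / L) * f L ((ρ : ℂ).im + x / L) - E (ρ : ℂ).im * G ρ x by ring] at h4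
    have h5 : ‖E ((ρ : ℂ).im + x / L) * (f L ((ρ : ℂ).im + x / L) - G ρ x)‖ ≤
        ‖f L ((ρ : ℂ).im + x / L) - G ρ x‖ := by
      rw [norm_mul]
      exact mul_le_of_le_one_left (norm_nonneg _) (hE1 _)
    have h6 : ‖E ((ρ : ℂ).im + x / L) * (f L ((ρ : ℂ).im + x / L) - G ρ x)‖ ^ 2 ≤
        ‖f L ((ρ : ℂ).im + x / L) - G ρ x‖ ^ 2 := by gcongr
    linarith

theorem neg {f : ℝ → ℝ → ℂ} {G : D.ZZ → ℝ → ℂ} (h : Prof D f G) :
    Prof D (fun L t => -1 * f L t) (fun ρ x => -1 * G ρ x) :=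
  mulE h (E := fun _ => -1) continuous_const (fun _ => by simp)

end Lim

open Lim in
/-- combinations of families with profiles -/
theorem combo {D : Dat} (_ : Rp D) : S_combo D := by
  classical
  intro S f0 G0 f G E h0
  induction S using Finset.induction_on with
  | empty =>
    intro _ _
    simpa using h0
  | insert i S hi ih =>
    intro hf hE
    have h1 := ih (fun j hj => hf j (Finset.mem_insert_of_mem hj))
      (fun j hj => hE j (Finset.mem_insert_of_mem hj))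
    obtain ⟨hc, hb⟩ := hE i (Finset.mem_insert_self _ _)
    have h2 := add h1 (mulE (add (hf i (Finset.mem_insert_self _ _)) (neg h0)) hc hb)
    convert h2 using 3 with L t ρ x
    · rw [Finset.sum_insert hi]; ring
    · rw [Finset.sum_insert hi]; ring

end Pool.Agent.N967.G
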