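import Pool.Agent.N967.G.StmA
import Pool.Agent.H295R2.L

set_option autoImplicit false

/-!
# Littlewood's bounds to the right of the critical line for general L-functions (BD5/A-lind)
-/

open MeasureTheory Filter Topology Set Metric

namespace Pool.Agent.N967.G

namespace Lind

noncomputable section

open Pool.Agent.H295R2 (exists_log_ball)

/-- the logarithm of a bounded complex number -/
lemma norm_log_le' {w : ℂ} (hw : w ≠ 0) {K : ℝ} (h1 : |Real.log ‖w‖| ≤ K) :
    ‖Complex.log w‖ ≤ K + 4 := by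
  have h2 := Complex.norm_le_abs_re_add_abs_im (Complex.log w)
  rw [Complex.log_re, Complex.log_im] at h2
  have h3 := Complex.abs_arg_le_pi w
  have h4 := Real.pi_lt_four
  linarith

/-- Littlewood's bound: a nonvanishing function in a disc, bounded in a small disc, is of size `exp (C + ε A)` in a
smaller disc if it is of size `exp A` in the disc -/
theorem log_bound {r1 r2 r R' R K ε : ℝ} (h1 : 0 < r1) (h12 : r1 < r2) (h2r : r2 < r) (hrR' : r < R')
    (hR : R' < R) (hK : 0 < K) (hε : 0 < ε) : ∃ C : ℝ, 0 < C ∧ ∀ (f : ℂ → ℂ) (A : ℝ), 1 ≤ A →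
      DifferentiableOn ℂ f (ball 0 R) → (∀ z ∈ ball (0 : ℂ) R, f z ≠ 0) → |Real.log ‖f 0‖| ≤ K →
      (∀ z ∈ ball (0 : ℂ) r2, ‖f z‖ ≤ Real.exp K) → (∀ z ∈ ball (0 : ℂ) R, ‖f z‖ ≤ Real.exp A) →
      ∀ z : ℂ, ‖z‖ ≤ r → |Real.log ‖f z‖| ≤ C + ε * A := by
  have hr'0 : 0 < R' := by linarith
  have hR0 : 0 < R := by linarith
  have hr20 : 0 < r2 := by linarith
  set C1 : ℝ := 2 * K * r1 / (r2 - r1) + (K + 4) * (r2 + r1) / (r2 - r1) with hC1
  have hC1pos : 0 < C1 := by
    rw [hC1]
    have : 0 < r2 - r1 := by linarith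
    have : 0 < r2 + r1 := by linarith
    positivity
  set C2 : ℝ := 2 * R' / (R - R') + (K + 4) * (R + R') / (R - R') with hC2
  have hC2pos : 0 < C2 := by
    rw [hC2]
    have : 0 < R - R' := by linarith
    positivity
  have hratio : r / R' < 1 := by rw [div_lt_one (by linarith)]; exact hrR'
  have hratio0 : 0 ≤ r / R' := div_nonneg (by linarith) (by linarith)
  obtain ⟨N, hN⟩ := exists_pow_lt_of_lt_one (div_pos hε hC2pos) hratio
  have hN' : C2 * (r / R') ^ N ≤ ε := by
    have := (lt_div_iff₀ hC2pos).mp hN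
    linarith
  set C3 : ℝ := C1 * (r / r1) ^ N with hC3
  have hC3pos : 0 ≤ C3 := by
    rw [hC3]
    have : 0 ≤ r / r1 := div_nonneg (by linarith) (by linarith)
    positivity
  refine ⟨C1 + C3, by linarith, ?_⟩
  intro f A hA hfd hfne hf0 hf2 hfR z hz
  obtain ⟨L, hLd, hLexp, hL0⟩ := exists_log_ball hR0 hfd hfne
  have hLre : ∀ w ∈ ball (0:ℂ) R, (L w).re = Real.log ‖f w‖ := by
    intro w hw
    rw [← hLexp w hw, Complex.norm_exp, Real.log_exp]
  have h0mem : (0 : ℂ) ∈ ball (0 : ℂ) R := mem_ball_self hR0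
  have hL00 : ‖L 0‖ ≤ K + 4 := by
    rw [hL0]
    exact norm_log_le' (hfne 0 h0mem) hf0
  have hupper : MapsTo L (ball 0 R) {w | w.re ≤ A} := by
    intro w hw
    change (L w).re ≤ A
    rw [hLre w hw, Real.log_le_iff_le_exp (norm_pos_iff.mpr (hfne w hw))]
    exact hfR w hw
  have hBC : ∀ w : ℂ, ‖w‖ ≤ R' → ‖L w‖ ≤ C2 * A := by
    intro w hw
    have hwR : w ∈ ball (0:ℂ) R := by rw [mem_ball_zero_iff]; linarith
    have h1 := Complex.borelCaratheodory (by linarith : 0 < A) hLd hupper hR0 hwR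
    refine h1.trans ?_
    have hd1 : 0 < R - R' := by linarith
    have hd2 : R - R' ≤ R - ‖w‖ := by linarith
    have e1 : 2 * A * ‖w‖ / (R - ‖w‖) ≤ 2 * A * R' / (R - R') := by
      gcongr
    have e2 : ‖L 0‖ * (R + ‖w‖) / (R - ‖w‖) ≤ (K + 4) * (R + R') / (R - R') := by
      gcongr
    have e3 : 0 ≤ (K + 4) * (R + R') / (R - R') := by positivity
    calc _ ≤ 2 * A * R' / (R - R') + (K + 4) * (R + R') / (R - R') := add_le_add e1 e2
      _ ≤ C2 * A := by
        rw [hC2]
        have e4 : 2 * A * R' / (R - R') = (2 * R' / (R - R')) * A := by ring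
        rw [e4]
        generalize (K + 4) * (R + R') / (R - R') = q at e3 ⊢
        generalize 2 * R' / (R - R') = p
        nlinarith
  have hsmall : ∀ w : ℂ, ‖w‖ ≤ r1 → ‖L w‖ ≤ C1 := by
    intro w hw
    have hsub : ball (0:ℂ) r2 ⊆ ball (0:ℂ) R := ball_subset_ball (by linarith)
    have hup2 : MapsTo L (ball 0 r2) {w | w.re ≤ K} := by
      intro w hw
      change (L w).re ≤ _
      rw [hLre w (hsub hw), Real.log_le_iff_le_exp (norm_pos_iff.mpr (hfne w (hsub hw)))]
      exact hf2 w hw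
    have hwR : w ∈ ball (0:ℂ) r2 := by rw [mem_ball_zero_iff]; linarith
    have h1 := Complex.borelCaratheodory hK (hLd.mono hsub) hup2 (by linarith) hwR
    refine h1.trans ?_
    have hd1 : 0 < r2 - r1 := by linarith
    have hd2 : r2 - r1 ≤ r2 - ‖w‖ := by linarith
    rw [hC1]
    refine add_le_add ?_ ?_
    · gcongr
    · gcongr
  have hann : ∀ w : ℂ, r1 < ‖w‖ → ‖w‖ ≤ r → ‖L w‖ ≤ C3 + ε * A := by
    intro w hw1 hw2
    set U : Set ℂ := ball 0 R' ∩ (closedBall (0:ℂ) r1)ᶜ with hU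
    have hBpos : 0 < C2 * A := by positivity
    have hclos : closure U ⊆ closedBall 0 R' ∩ (ball (0:ℂ) r1)ᶜ := by
      refine closure_minimal ?_ (isClosed_closedBall.inter isOpen_ball.isClosed_compl)
      rintro u ⟨hu1, hu2⟩
      refine ⟨ball_subset_closedBall hu1, fun hu3 => hu2 (ball_subset_closedBall hu3)⟩
    have hdiff : DiffContOnCl ℂ (fun u => L u / u ^ N) U := by
      refine DifferentiableOn.diffContOnCl ?_
      refine DifferentiableOn.mono (s := closure U) ?_ (subset_refl _)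
      intro u hu
      obtain ⟨hu1, hu2⟩ := hclos hu
      rw [mem_closedBall_zero_iff] at hu1
      rw [mem_compl_iff, mem_ball_zero_iff, not_lt] at hu2
      have hu0 : u ≠ 0 := by
        intro h
        rw [h, norm_zero] at hu2
        linarith
      have huR : u ∈ ball (0:ℂ) R := by rw [mem_ball_zero_iff]; linarith
      refine DifferentiableAt.differentiableWithinAt ?_
      refine DifferentiableAt.div (hLd.differentiableAt (isOpen_ball.mem_nhds huR)) (by fun_prop)
        (pow_ne_zero _ hu0)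
    have hfront : ∀ u ∈ frontier U, ‖L u / u ^ N‖ ≤ C1 / r1 ^ N + C2 * A / R' ^ N := by
      intro u hu
      have h3 : u ∈ frontier (ball (0:ℂ) R') ∪ frontier ((closedBall (0:ℂ) r1)ᶜ) := by
        rcases frontier_inter_subset _ _ hu with h | h
        · exact Or.inl h.1
        · exact Or.inr h.2
      have hp1 : 0 < C1 / r1 ^ N := by positivity
      have hp2 : 0 < C2 * A / R' ^ N := by positivity
      rcases h3 with h3 | h3
      · rw [frontier_ball _ (by linarith : R' ≠ 0)] at h3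
        rw [mem_sphere_zero_iff_norm] at h3
        rw [norm_div, norm_pow, h3]
        have := hBC u h3.le
        calc ‖L u‖ / R' ^ N ≤ C2 * A / R' ^ N := by gcongr
          _ ≤ _ := by linarith
      · rw [frontier_compl, frontier_closedBall _ h1.ne'] at h3
        rw [mem_sphere_zero_iff_norm] at h3
        rw [norm_div, norm_pow, h3]
        have := hsmall u h3.le
        calc ‖L u‖ / r1 ^ N ≤ C1 / r1 ^ N := by gcongr
          _ ≤ _ := by linarith
    have hwU : w ∈ U := by
      refine ⟨?_, ?_⟩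
      · rw [mem_ball_zero_iff]; linarith
      · rw [mem_compl_iff, mem_closedBall_zero_iff, not_le]; exact hw1
    have hbdd : Bornology.IsBounded U := isBounded_ball.subset inter_subset_left
    have h4 := Complex.norm_le_of_forall_mem_frontier_norm_le hbdd hdiff hfront (subset_closure hwU)
    rw [norm_div, norm_pow] at h4
    have hwpos : 0 < ‖w‖ ^ N := pow_pos (by linarith) _
    rw [div_le_iff₀ hwpos] at h4
    have h5 : ‖w‖ ^ N ≤ r ^ N := pow_le_pow_left₀ (norm_nonneg _) hw2 N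
    calc ‖L w‖ ≤ (C1 / r1 ^ N + C2 * A / R' ^ N) * ‖w‖ ^ N := h4
      _ ≤ (C1 / r1 ^ N + C2 * A / R' ^ N) * r ^ N := by gcongr
      _ = C3 + (C2 * (r / R') ^ N) * A := by
        rw [hC3, div_pow r r1, div_pow r R']
        ring
      _ ≤ _ := by gcongr
  have hzR : z ∈ ball (0:ℂ) R := by rw [mem_ball_zero_iff]; linarith
  rw [← hLre z hzR]
  refine (Complex.abs_re_le_norm _).trans ?_
  have hε' : 0 ≤ ε * A := by positivity
  rcases le_or_gt ‖z‖ r1 with h | h
  · have := hsmall z h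
    linarith
  · have := hann z h hz
    linarith

end

end Lind

open Lind
open Pool.Agent.Y23 (Lg one_le_Lg)

/-- **The Lindelöf hypothesis to the right of the critical line.** -/
theorem lind {D : Dat} (h : Ax D) : S_lind D := by
  intro δ0 η hδ0 hη
  obtain ⟨δ, hδ, hδ1, hδδ⟩ : ∃ δ : ℝ, 0 < δ ∧ δ ≤ 1 ∧ δ ≤ δ0 :=
    ⟨min δ0 1, lt_min hδ0 one_pos, min_le_right _ _, min_le_left _ _⟩
  obtain ⟨C0, hC0, hbd⟩ := h.bd
  obtain ⟨Cg, k, hCg, hg⟩ := h.base.growth
  -- analyticity
  have hne1 : ∀ s : ℂ, 1 ≤ |s.im| → s ≠ 1 := by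
    rintro s hs rfl
    simp at hs
    linarith
  have hne1' : ∀ s : ℂ, 1 ≤ |s.im| → (s - 1) ^ D.p ≠ 0 := fun s hs =>
    pow_ne_zero _ (sub_ne_zero.2 (hne1 s hs))
  have hLd : ∀ s : ℂ, 1 / 2 < s.re → 1 ≤ |s.im| → DifferentiableAt ℂ D.L s := by
    intro s hs hs1
    have := h.base.diff s (by linarith)
    exact DifferentiableAt.div this (by fun_prop) (hne1' s hs1)
  have hfzd : ∀ s : ℂ, 1 / 2 < s.re → DifferentiableAt ℂ D.fz s := by
    intro s hs
    have := h.base.diff s (by linarith)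
    exact DifferentiableAt.div (by fun_prop) this (h.zero s hs)
  have hLne : ∀ s : ℂ, 1 / 2 < s.re → 1 ≤ |s.im| → D.L s ≠ 0 := fun s hs hs1 =>
    div_ne_zero (h.zero s hs) (hne1' s hs1)
  have hLfz : ∀ s : ℂ, D.fz s = (D.L s)⁻¹ := by
    intro s
    unfold Dat.fz Dat.L
    rw [inv_div]
  -- the constants
  set A0 : ℝ := |Real.log Cg| + k * (Real.log 3 + 1) + 1 with hA0
  have hl3 : 0 ≤ Real.log 3 := Real.log_nonneg (by norm_num)
  have hA0pos : 1 ≤ A0 := by
    rw [hA0]
    have h1 := abs_nonneg (Real.log Cg)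
    have h2 : 0 ≤ (k : ℝ) * (Real.log 3 + 1) := by positivity
    linarith
  set K : ℝ := |Real.log C0| + 1 with hK
  have hKpos : 0 < K := by positivity
  obtain ⟨C1, hC1, hmain⟩ := log_bound (r1 := 1) (r2 := 3 / 2) (r := 7 / 2 - δ) (R' := 7 / 2 - 3 / 4 * δ)
    (R := 7 / 2 - 1 / 2 * δ) (K := K) (ε := η / A0) one_pos (by norm_num) (by linarith) (by linarith)
    (by linarith) hKpos (by positivity)
  -- the main range
  have main : ∀ s : ℂ, 1 / 2 + δ ≤ s.re → s.re ≤ 5 / 2 → 10 ≤ |s.im| →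
      |Real.log ‖D.L s‖| ≤ C1 + η * Lg s.im := by
    intro s hs1 hs2 ht
    set t : ℝ := s.im with htdef
    set c : ℂ := ⟨4, t⟩ with hc
    have hcre : c.re = 4 := rfl
    have hcim : c.im = t := rfl
    have hgeo : ∀ z ∈ ball (0:ℂ) (7 / 2 - 1 / 2 * δ), 1 / 2 + 1 / 2 * δ < (c + z).re ∧
        |t| - 7 / 2 ≤ |(c + z).im| ∧ ‖c + z‖ ≤ |t| + 8 := by
      intro z hz'
      rw [mem_ball_zero_iff] at hz'
      have h1 := Complex.abs_re_le_norm z
      have h2 := Complex.abs_im_le_norm z
      have h3 := abs_le.mp (h1.trans hz'.le)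
      have h4 := abs_lt.mp (h1.trans_lt hz')
      rw [Complex.add_re, Complex.add_im, hcre, hcim]
      refine ⟨by linarith, ?_, ?_⟩
      · have h5 := abs_sub_abs_le_abs_sub t (-z.im)
        rw [abs_neg, sub_neg_eq_add] at h5
        linarith
      · have h5 := norm_add_le c z
        have h6 := Complex.norm_le_abs_re_add_abs_im c
        rw [hcre, hcim] at h6
        have : |(4 : ℝ)| = 4 := abs_of_pos (by norm_num)
        linarith
    have hLg := one_le_Lg t
    have hA : 1 ≤ A0 * Lg t := by nlinarith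
    have key := hmain (fun z => D.L (c + z)) (A0 * Lg t) hA ?_ ?_ ?_ ?_ ?_ (s - c) ?_
    · have e : c + (s - c) = s := by ring
      rw [e] at key
      have e2 : η / A0 * (A0 * Lg t) = η * Lg t := by
        field_simp
      rw [e2] at key
      exact key
    · intro z hz
      obtain ⟨g1, g2, g3⟩ := hgeo z hz
      have := hLd (c + z) (by linarith) (by linarith)
      exact (DifferentiableAt.comp z (g := D.L) (f := fun z => c + z) this
        (by fun_prop)).differentiableWithinAt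
    · intro z hz
      obtain ⟨g1, g2, g3⟩ := hgeo z hz
      exact hLne _ (by linarith) (by linarith)
    · show |Real.log ‖D.L (c + 0)‖| ≤ K
      rw [add_zero]
      have h1 := hbd c (by rw [hcre]; norm_num)
      have h2 : D.L c ≠ 0 := hLne c (by rw [hcre]; norm_num) (by rw [hcim]; linarith)
      rw [hLfz, norm_inv] at h1
      have h3 : 0 < ‖D.L c‖ := norm_pos_iff.2 h2
      have h4 := Real.log_le_log h3 h1.1
      have h5 := Real.log_le_log (inv_pos.2 h3) h1.2
      rw [Real.log_inv] at h5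
      have h6 := le_abs_self (Real.log C0)
      rw [abs_le]
      constructor <;> linarith
    · intro z hz
      have h0 : (5 : ℝ) / 2 ≤ (c + z).re := by
        rw [mem_ball_zero_iff] at hz
        have h3 := abs_lt.mp ((Complex.abs_re_le_norm z).trans_lt hz)
        rw [Complex.add_re, hcre]
        linarith
      refine (hbd _ h0).1.trans ?_
      rw [← Real.log_le_iff_le_exp hC0]
      have h6 := le_abs_self (Real.log C0)
      linarith
    · intro z hz
      obtain ⟨g1, g2, g3⟩ := hgeo z hz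
      have h1 := hg (c + z) (by linarith)
      have h2 : 1 ≤ ‖(c + z - 1) ^ D.p‖ := by
        rw [norm_pow]
        apply one_le_pow₀
        have h4 := Complex.abs_im_le_norm (c + z - 1)
        rw [Complex.sub_im, Complex.one_im, sub_zero] at h4
        linarith
      show ‖D.L (c + z)‖ ≤ _
      unfold Dat.L
      rw [norm_div]
      have h3 : ‖D.Zs (c + z)‖ / ‖(c + z - 1) ^ D.p‖ ≤ ‖D.Zs (c + z)‖ :=
        div_le_self (norm_nonneg _) h2
      refine (h3.trans h1).trans ?_
      have h5 : 1 + ‖c + z‖ ≤ 3 * (3 + |t|) := by linarith [abs_nonneg t]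
      have h6 : (1 + ‖c + z‖) ^ k ≤ (3 * (3 + |t|)) ^ k := by gcongr
      have h7 : Cg * (1 + ‖c + z‖) ^ k ≤ Cg * (3 * (3 + |t|)) ^ k := by gcongr
      refine h7.trans ?_
      have hp : 0 < 3 + |t| := by positivity
      rw [← Real.log_le_iff_le_exp (by positivity), Real.log_mul hCg.ne' (by positivity), Real.log_pow,
        Real.log_mul (by norm_num) hp.ne']
      change Real.log Cg + k * (Real.log 3 + Lg t) ≤ A0 * Lg t
      have h8 := le_abs_self (Real.log Cg)
      have h9 := abs_nonneg (Real.log Cg)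
      have hk : (0 : ℝ) ≤ k := Nat.cast_nonneg k
      have h10 : |Real.log Cg| ≤ |Real.log Cg| * Lg t := le_mul_of_one_le_right h9 hLg
      have h11 : (k : ℝ) * Real.log 3 ≤ (k * Real.log 3) * Lg t :=
        le_mul_of_one_le_right (by positivity) hLg
      rw [hA0]
      have h12 : (|Real.log Cg| + k * (Real.log 3 + 1) + 1) * Lg t = |Real.log Cg| * Lg t +
        (k * Real.log 3) * Lg t + k * Lg t + Lg t := by ring
      rw [h12]
      nlinarith
    · have e : s - c = ((s.re - 4 : ℝ) : ℂ) := by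
        apply Complex.ext
        · rw [Complex.sub_re, hcre, Complex.ofReal_re]
        · rw [Complex.sub_im, hcim, Complex.ofReal_im, sub_self]
      rw [e, Complex.norm_real, Real.norm_eq_abs, abs_of_nonpos (by linarith)]
      linarith
  -- compactness
  have hcomp : ∃ M : ℝ, 0 ≤ M ∧ ∀ s : ℂ, 1 / 2 + δ ≤ s.re → s.re ≤ 5 / 2 → |s.im| ≤ 10 →
      (1 ≤ |s.im| → ‖D.L s‖ ≤ M) ∧ ‖D.fz s‖ ≤ M := by
    set S1 : Set ℂ := {s : ℂ | s.re ∈ Icc (1 / 2 + δ) (5 / 2) ∧ s.im ∈ Icc (-10 : ℝ) 10} with hS1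
    have hS1c : IsCompact S1 := by
      have : S1 = Icc (1 / 2 + δ) (5 / 2) ×ℂ Icc (-10 : ℝ) 10 := by
        ext s; rw [Complex.mem_reProdIm]; rfl
      rw [this]
      exact isCompact_Icc.reProdIm isCompact_Icc
    have hS2c : IsCompact (S1 ∩ {s : ℂ | 1 ≤ |s.im|}) := by
      apply hS1c.inter_right
      exact isClosed_le continuous_const (continuous_abs.comp Complex.continuous_im)
    have hc1 : ContinuousOn D.fz S1 := fun s hs =>
      (hfzd s (by have := hs.1.1; linarith)).continuousAt.continuousWithinAt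
    have hc2 : ContinuousOn D.L (S1 ∩ {s : ℂ | 1 ≤ |s.im|}) := fun s hs =>
      (hLd s (by have := hs.1.1.1; linarith) hs.2).continuousAt.continuousWithinAt
    obtain ⟨M1, hM1⟩ := hS1c.exists_bound_of_continuousOn hc1
    obtain ⟨M2, hM2⟩ := hS2c.exists_bound_of_continuousOn hc2
    refine ⟨|M1| + |M2|, by positivity, fun s hs1 hs2 hs3 => ?_⟩
    have hm : s ∈ S1 := ⟨⟨hs1, hs2⟩, abs_le.1 hs3⟩
    have h3 := le_abs_self M1
    have h4 := le_abs_self M2
    have h5 := abs_nonneg M1
    have h6 := abs_nonneg M2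
    refine ⟨fun h1 => ?_, ?_⟩
    · have := hM2 s ⟨hm, h1⟩
      linarith
    · have := hM1 s hm
      linarith
  obtain ⟨M, hM0, hM⟩ := hcomp
  refine ⟨C0 + M + Real.exp C1, by positivity, fun s hs => ?_⟩
  have hexp : 1 ≤ Real.exp (η * Lg s.im) := by
    rw [← Real.exp_zero]
    apply Real.exp_le_exp.2
    have := one_le_Lg s.im
    positivity
  have hexpC : 0 < Real.exp C1 := Real.exp_pos _
  have up : ∀ x y : ℝ, 0 ≤ y → x ≤ y → y ≤ C0 + M + Real.exp C1 →
      x ≤ (C0 + M + Real.exp C1) * Real.exp (η * Lg s.im) := by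
    intro x y hy hxy hyC
    nlinarith
  by_cases h52 : 5 / 2 ≤ s.re
  · obtain ⟨b1, b2⟩ := hbd s h52
    exact ⟨fun _ => up _ C0 hC0.le b1 (by linarith), up _ C0 hC0.le b2 (by linarith)⟩
  push Not at h52
  by_cases h10 : |s.im| ≤ 10
  · obtain ⟨b1, b2⟩ := hM s (by linarith) h52.le h10
    exact ⟨fun h1 => up _ M hM0 (b1 h1) (by linarith), up _ M hM0 b2 (by linarith)⟩
  push Not at h10
  have hb := main s (by linarith) h52.le h10.le
  have hne := hLne s (by linarith) (by linarith)
  have hpos : 0 < ‖D.L s‖ := norm_pos_iff.2 hne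
  obtain ⟨hb1, hb2⟩ := abs_le.1 hb
  have fin : ∀ x : ℝ, x ≤ Real.exp (C1 + η * Lg s.im) →
      x ≤ (C0 + M + Real.exp C1) * Real.exp (η * Lg s.im) := by
    intro x hx
    rw [Real.exp_add] at hx
    nlinarith
  refine ⟨fun _ => fin _ ?_, fin _ ?_⟩
  · rw [← Real.log_le_iff_le_exp hpos]
    exact hb2
  · rw [hLfz, norm_inv, ← Real.log_le_iff_le_exp (inv_pos.2 hpos), Real.log_inv]
    linarith

end Pool.Agent.N967.G
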