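import Mathlib
import Pool.Agent.N967.G.Stm

set_option autoImplicit false

/-!
# The mean square at bounded height
-/

namespace Pool.Agent.N967.G

open Complex MeasureTheory Filter Topology
open Pool.Agent.Y23 (Lg)

namespace Loc

theorem log_half {u : ℝ} (hu : 0 ≤ u) : Real.log (1 + u) ≤ 2 * (1 + u) ^ (1 / 2 : ℝ) := by
  have h := Real.log_le_rpow_div (show 0 ≤ 1 + u by linarith) (show (0 : ℝ) < 1 / 2 by norm_num)
  have e : (1 + u) ^ (1 / 2 : ℝ) / (1 / 2) = 2 * (1 + u) ^ (1 / 2 : ℝ) := by ring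
  rw [e] at h
  exact h

theorem log_quarter {u : ℝ} (hu : 0 ≤ u) : Real.log (1 + u) ≤ 4 * (1 + u) ^ (1 / 4 : ℝ) := by
  have h := Real.log_le_rpow_div (show 0 ≤ 1 + u by linarith) (show (0 : ℝ) < 1 / 4 by norm_num)
  have e : (1 + u) ^ (1 / 4 : ℝ) / (1 / 4) = 4 * (1 + u) ^ (1 / 4 : ℝ) := by ring
  rw [e] at h
  exact h

theorem log_quarter' {u e : ℝ} (hu : 0 ≤ u) (he : 0 < e) (he1 : e ≤ 1) :
    Real.log (1 + u / e) ≤ 4 / e * (1 + u) ^ (1 / 4 : ℝ) := by
  have h2 := log_quarter (show 0 ≤ u / e by positivity)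
  have h3 : (1 + u / e) ^ (1 / 4 : ℝ) ≤ (1 + u) ^ (1 / 4 : ℝ) / e := by
    have h4 : 1 + u / e ≤ (1 + u) / e := by
      rw [add_div]
      have : 1 ≤ 1 / e := by rw [le_div_iff₀ he]; linarith
      linarith
    have h5 : (1 + u / e) ^ (1 / 4 : ℝ) ≤ ((1 + u) / e) ^ (1 / 4 : ℝ) :=
      Real.rpow_le_rpow (by positivity) h4 (by norm_num)
    refine h5.trans ?_
    rw [Real.div_rpow (by linarith) he.le]
    have h6 : e ≤ e ^ (1 / 4 : ℝ) := by
      calc e = e ^ (1 : ℝ) := (Real.rpow_one e).symm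
        _ ≤ e ^ (1 / 4 : ℝ) := Real.rpow_le_rpow_of_exponent_ge he he1 (by norm_num)
    exact div_le_div_of_nonneg_left (by positivity) he h6
  calc Real.log (1 + u / e) ≤ 4 * (1 + u / e) ^ (1 / 4 : ℝ) := h2
    _ ≤ 4 * ((1 + u) ^ (1 / 4 : ℝ) / e) := by linarith
    _ = 4 / e * (1 + u) ^ (1 / 4 : ℝ) := by ring

theorem Lg_mono {s t : ℝ} (h : |s| ≤ |t|) : Lg s ≤ Lg t := by
  unfold Pool.Agent.Y23.Lg
  exact Real.log_le_log (by positivity) (by linarith)

theorem Lg_div {s : ℝ} : Lg s / Real.log (2 + Lg s) ≤ Lg s := by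
  have h1 := Pool.Agent.Y23.one_le_Lg s
  refine div_le_self (by linarith) ?_
  rw [Real.le_log_iff_exp_le (by linarith)]
  have := Real.exp_one_lt_d9
  linarith

theorem Lg_div0 {s : ℝ} : 0 ≤ Lg s / Real.log (2 + Lg s) := by
  have h1 := Pool.Agent.Y23.one_le_Lg s
  have : 0 ≤ Real.log (2 + Lg s) := Real.log_nonneg (by linarith)
  positivity

/-- the near exponent -/
theorem near_exp {A G X Q u : ℝ} (hA : 0 < A) (hX0 : 0 ≤ X) (hX : X ≤ G) (_hQ0 : 0 ≤ Q)
    (hQ : Q ≤ G) (hu : 0 ≤ u) :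
    (1 + u) * Real.exp (8 * 1 * X + 4 * A * Q * Real.log (1 + u)) ≤
      Real.exp ((8 * G + 2 * (4 * A * G + 1)) * (1 + u) ^ (1 / 2 : ℝ)) := by
  have hG : 0 ≤ G := hX0.trans hX
  have hl0 : 0 ≤ Real.log (1 + u) := Real.log_nonneg (by linarith)
  have h1 : 1 ≤ (1 + u) ^ (1 / 2 : ℝ) := Real.one_le_rpow (by linarith) (by norm_num)
  have h2 := log_half hu
  calc (1 + u) * Real.exp (8 * 1 * X + 4 * A * Q * Real.log (1 + u))
      = Real.exp (Real.log (1 + u) + (8 * 1 * X + 4 * A * Q * Real.log (1 + u))) := by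
        rw [Real.exp_add (Real.log (1 + u)), Real.exp_log (by linarith)]
    _ ≤ Real.exp ((8 * G + 2 * (4 * A * G + 1)) * (1 + u) ^ (1 / 2 : ℝ)) := by
        refine Real.exp_le_exp.2 ?_
        have h3 : 4 * A * Q * Real.log (1 + u) ≤ 4 * A * G * Real.log (1 + u) := by gcongr
        have h4 : (4 * A * G + 1) * Real.log (1 + u) ≤
            (4 * A * G + 1) * (2 * (1 + u) ^ (1 / 2 : ℝ)) :=
          mul_le_mul_of_nonneg_left h2 (by positivity)
        have h5 : 8 * G * 1 ≤ 8 * G * (1 + u) ^ (1 / 2 : ℝ) :=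
          mul_le_mul_of_nonneg_left h1 (by positivity)
        linarith

/-- the far exponent -/
theorem far_exp {A G X Q u w e L : ℝ} (hA : 0 < A) (hX0 : 0 ≤ X) (hX : X ≤ G) (hQ0 : 0 ≤ Q)
    (hQ : Q ≤ G) (hw0 : 0 ≤ w) (hwu : w ≤ u) (he : 0 < e) (he1 : e ≤ 1) (hL : 0 ≤ L)
    (hLu : L ≤ u / e) :
    (1 + u) * Real.exp (4 * 1 * X + 2 * 1 * Real.log (1 + w) +
        2 * A * (Q + 2 * Real.log (1 + w)) * Real.log (1 + L)) ≤
      Real.exp ((4 * G + 12 + 8 * A * G / e + 64 * A / e) * (1 + u) ^ (1 / 2 : ℝ)) := by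
  have hu : 0 ≤ u := hw0.trans hwu
  have hG : 0 ≤ G := hX0.trans hX
  have hlw0 : 0 ≤ Real.log (1 + w) := Real.log_nonneg (by linarith)
  have hlL0 : 0 ≤ Real.log (1 + L) := Real.log_nonneg (by linarith)
  have hlu0 : 0 ≤ Real.log (1 + u) := Real.log_nonneg (by linarith)
  obtain ⟨q, hq⟩ : ∃ q : ℝ, q = (1 + u) ^ (1 / 4 : ℝ) := ⟨_, rfl⟩
  have hq1 : 1 ≤ q := by rw [hq]; exact Real.one_le_rpow (by linarith) (by norm_num)
  have hqq : q * q = (1 + u) ^ (1 / 2 : ℝ) := by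
    rw [hq, ← Real.rpow_add (by linarith)]; norm_num
  have a1 : Real.log (1 + w) ≤ Real.log (1 + u) := Real.log_le_log (by linarith) (by linarith)
  have a2 : Real.log (1 + u) ≤ 4 * q := by rw [hq]; exact log_quarter hu
  have a3 : Real.log (1 + L) ≤ 4 / e * q := by
    rw [hq]
    exact (Real.log_le_log (by linarith) (by linarith)).trans (log_quarter' hu he he1)
  have hqq1 : q ≤ q * q := by nlinarith
  have hqq2 : 1 ≤ q * q := by nlinarith
  calc (1 + u) * Real.exp (4 * 1 * X + 2 * 1 * Real.log (1 + w) +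
        2 * A * (Q + 2 * Real.log (1 + w)) * Real.log (1 + L))
      = Real.exp (Real.log (1 + u) + (4 * 1 * X + 2 * 1 * Real.log (1 + w) +
        2 * A * (Q + 2 * Real.log (1 + w)) * Real.log (1 + L))) := by
        rw [Real.exp_add (Real.log (1 + u)), Real.exp_log (by linarith)]
    _ ≤ Real.exp ((4 * G + 12 + 8 * A * G / e + 64 * A / e) * (1 + u) ^ (1 / 2 : ℝ)) := by
        refine Real.exp_le_exp.2 ?_
        rw [← hqq]
        have b1 : 2 * A * (Q + 2 * Real.log (1 + w)) * Real.log (1 + L) ≤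
            2 * A * (G + 2 * (4 * q)) * (4 / e * q) := by
          have c1 : Q + 2 * Real.log (1 + w) ≤ G + 2 * (4 * q) := by linarith
          have c2 : 0 ≤ Q + 2 * Real.log (1 + w) := by linarith
          have c3 : 2 * A * (Q + 2 * Real.log (1 + w)) ≤ 2 * A * (G + 2 * (4 * q)) :=
            mul_le_mul_of_nonneg_left c1 (by positivity)
          exact mul_le_mul c3 a3 hlL0 (by positivity)
        have b2 : 2 * A * (G + 2 * (4 * q)) * (4 / e * q) =
            8 * A * G / e * q + 64 * A / e * (q * q) := by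
          field_simp
          ring
        have b3 : 8 * A * G / e * q ≤ 8 * A * G / e * (q * q) :=
          mul_le_mul_of_nonneg_left hqq1 (by positivity)
        have b4 : 4 * G * 1 ≤ 4 * G * (q * q) :=
          mul_le_mul_of_nonneg_left hqq2 (by positivity)
        rw [b2] at b1
        linarith

theorem lint_fin (s : Finset ℤ) (S : ℤ → Set ℝ) (f : ℝ → ENNReal) :
    ∫⁻ t in ⋃ m ∈ s, S m, f t ≤ ∑ m ∈ s, ∫⁻ t in S m, f t := by
  classical
  induction s using Finset.induction_on with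
  | empty => simp
  | insert a s ha ih =>
    rw [Finset.set_biUnion_insert, Finset.sum_insert ha]
    exact (lintegral_union_le _ _ _).trans (add_le_add le_rfl ih)

/-- covering by unit blocks -/
theorem cover (T : ℝ) (f : ℝ → ENNReal) (B : ENNReal) (n : ℕ) (hn : T + 1 ≤ n)
    (h : ∀ m : ℤ, |(m : ℝ)| ≤ n → ∫⁻ t in Set.Icc (m : ℝ) (m + 1), f t ≤ B) :
    ∫⁻ t in {t : ℝ | |t| ≤ T}, f t ≤ (2 * n + 1 : ℕ) * B := by
  have hsub : {t : ℝ | |t| ≤ T} ⊆ ⋃ m ∈ Finset.Icc (-(n : ℤ)) n, Set.Icc (m : ℝ) (m + 1) := by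
    intro t ht
    have ht' : |t| ≤ T := ht
    have h1 := abs_le.1 ht'
    simp only [Set.mem_iUnion]
    refine ⟨⌊t⌋, ?_, Int.floor_le t, (Int.lt_floor_add_one t).le⟩
    rw [Finset.mem_Icc]
    constructor
    · rw [Int.le_floor]
      push_cast
      linarith
    · have h2 : ((⌊t⌋ : ℤ) : ℝ) ≤ n := (Int.floor_le t).trans (by linarith)
      exact_mod_cast h2
  calc ∫⁻ t in {t : ℝ | |t| ≤ T}, f t
      ≤ ∫⁻ t in ⋃ m ∈ Finset.Icc (-(n : ℤ)) n, Set.Icc (m : ℝ) (m + 1), f t :=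
        lintegral_mono_set hsub
    _ ≤ ∑ m ∈ Finset.Icc (-(n : ℤ)) n, ∫⁻ t in Set.Icc (m : ℝ) (m + 1), f t :=
        lint_fin _ _ _
    _ ≤ ∑ m ∈ Finset.Icc (-(n : ℤ)) n, B := by
        refine Finset.sum_le_sum fun m hm => h m ?_
        rw [Finset.mem_Icc] at hm
        rw [abs_le]
        constructor
        · exact_mod_cast hm.1
        · exact_mod_cast hm.2
    _ = (2 * n + 1 : ℕ) * B := by
        rw [Finset.sum_const, Int.card_Icc, nsmul_eq_mul]
        congr 2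
        omega

end Loc

open Loc in
theorem loc {D : Dat} (h1 : S_mm D) (h2 : S_nearB D) (h3 : S_farB D) : S_loc D := by
  intro T hT
  obtain ⟨C0, T0, A, hC0, hT0, hA, hS, hcnt⟩ := h1
  obtain ⟨e1, K1, he1, he14, hK1, hnear⟩ := h2 1 A C0 T0 one_pos le_rfl hA hC0 hT0 hS hcnt
  obtain ⟨e2, K2, he2, he24, hK2, hfar⟩ := h3 1 A C0 T0 one_pos le_rfl hA hC0 hT0 hS hcnt
  obtain ⟨n, hn⟩ := exists_nat_ge (T + 1)
  have hn0 : (0 : ℝ) ≤ n := Nat.cast_nonneg n
  obtain ⟨G, hG⟩ : ∃ G : ℝ, G = Lg n := ⟨_, rfl⟩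
  have hG1 : 1 ≤ G := by rw [hG]; exact Pool.Agent.Y23.one_le_Lg _
  have hGm : ∀ s : ℝ, |s| ≤ n → Lg s ≤ G := by
    intro s hs
    rw [hG]
    exact Lg_mono (by rw [abs_of_nonneg hn0]; exact hs)
  obtain ⟨C1, hC1⟩ : ∃ C1 : ℝ, C1 = 8 * G + 2 * (4 * A * G + 1) := ⟨_, rfl⟩
  obtain ⟨C2, hC2⟩ : ∃ C2 : ℝ, C2 = 4 * G + 12 + 8 * A * G / e1 + 64 * A / e1 := ⟨_, rfl⟩
  have hC10 : 0 < C1 := by rw [hC1]; positivity
  have hC20 : 0 < C2 := by rw [hC2]; positivity
  obtain ⟨C, hC⟩ : ∃ C : ℝ, C = (2 * n + 1 : ℕ) * K1 + (2 * T) * (K2 / e1) + C1 + C2 := ⟨_, rfl⟩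
  have hnc : (0 : ℝ) < (2 * n + 1 : ℕ) := by positivity
  have hq1 : 0 ≤ ((2 * n + 1 : ℕ) : ℝ) * K1 := by positivity
  have hq2 : 0 ≤ (2 * T) * (K2 / e1) := by positivity
  have hC0' : 0 < C := by rw [hC]; positivity
  refine ⟨C, max 4 (max (1 / e1) (1 / e2)), hC0', le_max_left _ _, ?_⟩
  intro L y hL
  have hL4 : 4 ≤ L := (le_max_left _ _).trans hL
  have hL0 : 0 < L := by linarith
  have hLe1 : 1 / L ≤ e1 := by
    have : 1 / e1 ≤ L := ((le_max_left _ _).trans (le_max_right _ _)).trans hL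
    rw [div_le_iff₀ he1] at this
    rw [div_le_iff₀ hL0]
    linarith
  have hLe2 : 1 / L ≤ e2 := by
    have : 1 / e2 ≤ L := ((le_max_right _ _).trans (le_max_right _ _)).trans hL
    rw [div_le_iff₀ he2] at this
    rw [div_le_iff₀ hL0]
    linarith
  have hb0 : 0 < 1 / L := by positivity
  obtain ⟨u, hu⟩ : ∃ u : ℝ, u = |y| := ⟨_, rfl⟩
  have hu0 : 0 ≤ u := by rw [hu]; exact abs_nonneg y
  have hv : |(-(y / L))| = u / L := by
    rw [abs_neg, abs_div, abs_of_pos hL0, hu]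
  rw [← hu]
  have hroot : 0 ≤ (1 + u) ^ (1 / 2 : ℝ) := by positivity
  rcases le_or_gt u (e1 * L) with hcase | hcase
  · -- near
    have hve : |(-(y / L))| ≤ e1 := by
      rw [hv, div_le_iff₀ hL0]; exact hcase
    have hB : ∀ m : ℤ, |(m : ℝ)| ≤ n → ∫⁻ t in Set.Icc (m : ℝ) (m + 1),
        ENNReal.ofReal (‖1 - D.Fr (1 / L) (-(y / L)) t‖ ^ 2) ≤
        ENNReal.ofReal (K1 / L * Real.exp (C1 * (1 + u) ^ (1 / 2 : ℝ))) := by
      intro m hm
      refine (hnear (1 / L) (-(y / L)) m hb0 hLe1 hve).trans ?_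
      refine ENNReal.ofReal_le_ofReal ?_
      rw [hv]
      have e3 : u / L / (1 / L) = u := by field_simp
      rw [e3]
      have h4 := near_exp (A := A) (G := G) (X := Lg m) (Q := Lg m / Real.log (2 + Lg m)) (u := u)
        hA (by have := Pool.Agent.Y23.one_le_Lg (m : ℝ); linarith) (hGm m hm) Lg_div0
        (Lg_div.trans (hGm m hm)) hu0
      rw [← hC1] at h4
      have e4 : 4 * A * Lg m / Real.log (2 + Lg m) = 4 * A * (Lg m / Real.log (2 + Lg m)) := by
        ring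
      rw [e4]
      have e5 : 1 / L + u / L = (1 + u) / L := by ring
      rw [e5]
      calc K1 * ((1 + u) / L) * Real.exp (8 * 1 * Lg m +
            4 * A * (Lg m / Real.log (2 + Lg m)) * Real.log (1 + u))
          = K1 / L * ((1 + u) * Real.exp (8 * 1 * Lg m +
            4 * A * (Lg m / Real.log (2 + Lg m)) * Real.log (1 + u))) := by ring
        _ ≤ K1 / L * Real.exp (C1 * (1 + u) ^ (1 / 2 : ℝ)) :=
            mul_le_mul_of_nonneg_left h4 (by positivity)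
    refine (cover T _ _ n hn hB).trans ?_
    rw [← ENNReal.ofReal_natCast, ← ENNReal.ofReal_mul (by positivity)]
    refine ENNReal.ofReal_le_ofReal ?_
    calc ((2 * n + 1 : ℕ) : ℝ) * (K1 / L * Real.exp (C1 * (1 + u) ^ (1 / 2 : ℝ)))
        = (((2 * n + 1 : ℕ) : ℝ) * K1) / L * Real.exp (C1 * (1 + u) ^ (1 / 2 : ℝ)) := by ring
      _ ≤ C / L * Real.exp (C * (1 + u) ^ (1 / 2 : ℝ)) := by
          refine mul_le_mul (div_le_div_of_nonneg_right (by rw [hC]; linarith) hL0.le)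
            (Real.exp_le_exp.2 (mul_le_mul_of_nonneg_right (by rw [hC]; linarith) hroot))
            (Real.exp_pos _).le (by positivity)
  · -- far
    have hpt : ∀ t : ℝ, t ∈ {t : ℝ | |t| ≤ T} →
        ENNReal.ofReal (‖1 - D.Fr (1 / L) (-(y / L)) t‖ ^ 2) ≤
        ENNReal.ofReal (K2 / e1 / L * Real.exp (C2 * (1 + u) ^ (1 / 2 : ℝ))) := by
      intro t ht
      have ht' : |t| ≤ T := ht
      refine ENNReal.ofReal_le_ofReal ?_
      refine (hfar (1 / L) (-(y / L)) t hb0 hLe2).trans ?_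
      rw [hv]
      have htn : |t| ≤ n := by linarith
      have e3 : 1 / (1 / L) = L := by field_simp
      rw [e3]
      have hLu : L ≤ u / e1 := by rw [le_div_iff₀ he1]; linarith
      have h4 := far_exp (A := A) (G := G) (X := Lg t) (Q := Lg t / Real.log (2 + Lg t)) (u := u)
        (w := u / L) (e := e1) (L := L)
        hA (by have := Pool.Agent.Y23.one_le_Lg t; linarith) (hGm t htn) Lg_div0
        (Lg_div.trans (hGm t htn)) (by positivity) (div_le_self hu0 (by linarith)) he1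
        (by linarith) hL0.le hLu
      rw [← hC2] at h4
      obtain ⟨Ex, hEx⟩ : ∃ Ex : ℝ, Ex = Real.exp (4 * 1 * Lg t + 2 * 1 * Real.log (1 + u / L) +
        2 * A * (Lg t / Real.log (2 + Lg t) + 2 * Real.log (1 + u / L)) * Real.log (1 + L)) :=
        ⟨_, rfl⟩
      have hEx0 : 0 ≤ Ex := by rw [hEx]; exact (Real.exp_pos _).le
      rw [← hEx] at h4 ⊢
      have h5 : e1 * L ≤ 1 + u := by linarith
      calc K2 * Ex = K2 / e1 / L * ((e1 * L) * Ex) := by field_simp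
        _ ≤ K2 / e1 / L * ((1 + u) * Ex) :=
            mul_le_mul_of_nonneg_left (mul_le_mul_of_nonneg_right h5 hEx0) (by positivity)
        _ ≤ K2 / e1 / L * Real.exp (C2 * (1 + u) ^ (1 / 2 : ℝ)) :=
            mul_le_mul_of_nonneg_left h4 (by positivity)
    have hmeas : MeasurableSet {t : ℝ | |t| ≤ T} := measurableSet_le (by fun_prop) (by fun_prop)
    refine (setLIntegral_mono' hmeas hpt).trans ?_
    rw [setLIntegral_const]
    have hvol : volume {t : ℝ | |t| ≤ T} ≤ ENNReal.ofReal (2 * T) := by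
      have e6 : {t : ℝ | |t| ≤ T} = Set.Icc (-T) T := by
        ext t
        simp only [Set.mem_ofPred_eq, Set.mem_Icc, abs_le]
      rw [e6, Real.volume_Icc]
      exact ENNReal.ofReal_le_ofReal (by linarith)
    refine (mul_le_mul_right hvol _).trans ?_
    rw [← ENNReal.ofReal_mul (by positivity)]
    refine ENNReal.ofReal_le_ofReal ?_
    calc K2 / e1 / L * Real.exp (C2 * (1 + u) ^ (1 / 2 : ℝ)) * (2 * T)
        = ((2 * T) * (K2 / e1)) / L * Real.exp (C2 * (1 + u) ^ (1 / 2 : ℝ)) := by ring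
      _ ≤ C / L * Real.exp (C * (1 + u) ^ (1 / 2 : ℝ)) := by
          refine mul_le_mul (div_le_div_of_nonneg_right (by rw [hC]; linarith) hL0.le)
            (Real.exp_le_exp.2 (mul_le_mul_of_nonneg_right (by rw [hC]; linarith) hroot))
            (Real.exp_pos _).le (by positivity)

end Pool.Agent.N967.G
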