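import Mathlib
import Pool.Agent.N967.G.Stm
import Pool.Agent.N967.Kern2
import Pool.Agent.N967.App
import Pool.Agent.N967.Gg
import Pool.Agent.N967.Hpol
import Pool.Agent.N891.OPT.M

/-!
# Kernels with the decay `exp (- c |y| ^ β)`: bounded by one on the imaginary axis, nearly optimal

The first part follows `Pool/Agent/N967/Kern2.lean`, the second part `Pool/Agent/N891/OPT/M.lean`.
-/

set_option autoImplicit false

namespace Pool.Agent.N967.G

open Complex

namespace Opt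

open Pool.Agent.N967.Kern Filter Topology
open Pool.Agent.N967.Kern2 (sc_sub_one)

/-- the unnormalised scales -/
noncomputable def A0 (β : ℝ) (k : ℕ) : ℝ := 1 / ((k : ℝ) + 1) ^ (1 / β)

theorem A0_pos (β : ℝ) (k : ℕ) : 0 < A0 β k := by
  unfold A0
  positivity

section
variable {β : ℝ} (hβ0 : 0 < β) (hβ1 : β < 1)
include hβ0 hβ1

theorem A0_summable : Summable (A0 β) := by
  have h : Summable fun n : ℕ => 1 / (n : ℝ) ^ (1 / β) :=
    Real.summable_one_div_nat_rpow.2 (by rw [lt_div_iff₀ hβ0]; linarith)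
  have h2 := (summable_nat_add_iff 1).2 h
  refine h2.congr fun k => ?_
  unfold A0
  push_cast
  rfl

end

/-- the sum of the scales -/
noncomputable def SS (β : ℝ) : ℝ := ∑' k, A0 β k

/-- the normalising constant -/
noncomputable def c0 (β : ℝ) : ℝ := 1 / (2 * SS β)

/-- the scales -/
noncomputable def A (β : ℝ) (k : ℕ) : ℝ := c0 β * A0 β k

/-- the factors -/
noncomputable def F (β : ℝ) (k : ℕ) (z : ℂ) : ℂ := sc ((A β k : ℂ) * z)

theorem F_diff (β : ℝ) (k : ℕ) : Differentiable ℂ (F β k) := sc_diff.comp (by fun_prop)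

theorem F_zero (β : ℝ) (k : ℕ) : F β k 0 = 1 := by
  unfold F
  rw [mul_zero, sc_zero]

/-- the infinite product -/
noncomputable def g (β : ℝ) (z : ℂ) : ℂ := ∏' k, (1 + (F β k z - 1))

theorem g_zero (β : ℝ) : g β 0 = 1 := by
  unfold g
  simp [F_zero]

section
variable {β : ℝ} (hβ0 : 0 < β) (hβ1 : β < 1)
include hβ0 hβ1

theorem SS_pos : 0 < SS β :=
  (A0_summable hβ0 hβ1).tsum_pos (fun k => (A0_pos β k).le) 0 (A0_pos β 0)

theorem c0_pos : 0 < c0 β := by
  unfold c0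
  have := SS_pos hβ0 hβ1
  positivity

theorem A_pos (k : ℕ) : 0 < A β k := mul_pos (c0_pos hβ0 hβ1) (A0_pos β k)

theorem A_summable : Summable (A β) := (A0_summable hβ0 hβ1).mul_left (c0 β)

theorem A_sum_le (n : ℕ) : ∑ k ∈ Finset.range n, A β k ≤ 1 / 2 := by
  have h1 : ∑ k ∈ Finset.range n, A β k ≤ ∑' k, A β k :=
    (A_summable hβ0 hβ1).sum_le_tsum _ fun k _ => (A_pos hβ0 hβ1 k).le
  have h2 : ∑' k, A β k = 1 / 2 := by
    unfold A
    rw [tsum_mul_left]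
    change c0 β * SS β = 1 / 2
    unfold c0
    have := (SS_pos hβ0 hβ1).ne'
    field_simp
  linarith

theorem A_le (k : ℕ) : A β k ≤ 1 := by
  have h := A_sum_le hβ0 hβ1 (k + 1)
  rw [Finset.sum_range_succ] at h
  have h2 : 0 ≤ ∑ k ∈ Finset.range k, A β k :=
    Finset.sum_nonneg fun j _ => (A_pos hβ0 hβ1 j).le
  linarith

theorem mult :
    MultipliableLocallyUniformlyOn (fun k z => 1 + (F β k z - 1)) (Set.univ : Set ℂ) := by
  use fun z => ∏' k, (1 + (F β k z - 1))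
  apply hasProdLocallyUniformlyOn_of_forall_compact isOpen_univ
  intro K _ hcK
  obtain ⟨R, hR⟩ := hcK.isBounded.exists_norm_le
  obtain ⟨C, hC0, hC⟩ := sc_sub_one R
  refine ((A_summable hβ0 hβ1).mul_left (C * R)).hasProdUniformlyOn_nat_one_add hcK
    (.of_forall fun n x hx => ?_) (fun n => ?_)
  · have h1 : ‖(A β n : ℂ) * x‖ = A β n * ‖x‖ := by
      rw [norm_mul, Complex.norm_real, Real.norm_of_nonneg (A_pos hβ0 hβ1 n).le]
    have h2 : ‖(A β n : ℂ) * x‖ ≤ R := by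
      rw [h1]
      calc A β n * ‖x‖ ≤ 1 * ‖x‖ :=
            mul_le_mul_of_nonneg_right (A_le hβ0 hβ1 n) (norm_nonneg _)
        _ ≤ R := by rw [one_mul]; exact hR x hx
    refine (hC _ h2).trans ?_
    rw [h1]
    have h3 := hR x hx
    have h4 := A_pos hβ0 hβ1 n
    calc C * (A β n * ‖x‖) = (C * A β n) * ‖x‖ := by ring
      _ ≤ (C * A β n) * R := mul_le_mul_of_nonneg_left h3 (by positivity)
      _ = C * R * A β n := by ring
  · exact ((F_diff β n).sub_const 1).continuous.continuousOn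

theorem g_diff : Differentiable ℂ (g β) := by
  have h : DifferentiableOn ℂ (g β) Set.univ :=
    (mult hβ0 hβ1).hasProdLocallyUniformlyOn.differentiableOn
      (.of_forall fun s => by
        simpa [Finset.prod_fn] using
          DifferentiableOn.finsetProd (fun k _ => (F_diff β k).differentiableOn)) isOpen_univ
  intro z
  exact (h z (Set.mem_univ z)).differentiableAt Filter.univ_mem

theorem g_tendsto (z : ℂ) :
    Tendsto (fun n => ∏ k ∈ Finset.range n, F β k z) atTop (𝓝 (g β z)) := by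
  have h := ((mult hβ0 hβ1).multipliable (Set.mem_univ z)).hasProd.tendsto_prod_nat
  simpa [g] using h

theorem F_le (k : ℕ) (z : ℂ) :
    ‖F β k z‖ ≤ Real.exp (A β k * |z.re|) * (1 / max 1 (A β k * |z.im|)) := by
  have h := norm_sc_le ((A β k : ℂ) * z)
  rw [Complex.re_ofReal_mul, Complex.im_ofReal_mul, abs_mul, abs_mul,
    abs_of_pos (A_pos hβ0 hβ1 k)] at h
  rw [← div_eq_mul_one_div]
  exact h

end

theorem fac_nonneg (β : ℝ) (k : ℕ) (y : ℝ) : 0 ≤ 1 / max 1 (A β k * |y|) := by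
  have h1 : 1 ≤ max 1 (A β k * |y|) := le_max_left _ _
  positivity

theorem fac_le_one (β : ℝ) (k : ℕ) (y : ℝ) : 1 / max 1 (A β k * |y|) ≤ 1 := by
  have h1 : 1 ≤ max 1 (A β k * |y|) := le_max_left _ _
  rw [div_le_one (by linarith)]
  exact h1

section
variable {β : ℝ} (hβ0 : 0 < β) (hβ1 : β < 1)
include hβ0 hβ1

theorem fac_small {k : ℕ} {y : ℝ} (h : (k : ℝ) + 1 ≤ (c0 β * |y| / Real.exp 1) ^ β) :
    1 / max 1 (A β k * |y|) ≤ Real.exp (-1) := by
  have hk : (0 : ℝ) < (k : ℝ) + 1 := by positivity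
  have hc := c0_pos hβ0 hβ1
  have hy := abs_nonneg y
  have he := Real.exp_pos 1
  have h1 : ((k : ℝ) + 1) ^ (1 / β) ≤ c0 β * |y| / Real.exp 1 := by
    have h2 := Real.rpow_le_rpow hk.le h (by positivity : (0 : ℝ) ≤ 1 / β)
    rw [← Real.rpow_mul (by positivity), mul_one_div_cancel hβ0.ne', Real.rpow_one] at h2
    exact h2
  rw [le_div_iff₀ he] at h1
  have h3 : Real.exp 1 ≤ A β k * |y| := by
    unfold A A0
    have h4 : (0 : ℝ) < ((k : ℝ) + 1) ^ (1 / β) := by positivity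
    rw [show c0 β * (1 / ((k : ℝ) + 1) ^ (1 / β)) * |y| =
      c0 β * |y| / ((k : ℝ) + 1) ^ (1 / β) by ring, le_div_iff₀ h4]
    linarith
  rw [Real.exp_neg, ← one_div]
  exact one_div_le_one_div_of_le he (h3.trans (le_max_right _ _))

theorem prod_le (z : ℂ) {N n : ℕ} (hN : (N : ℝ) ≤ (c0 β * |z.im| / Real.exp 1) ^ β)
    (hn : N ≤ n) :
    ‖∏ k ∈ Finset.range n, F β k z‖ ≤ Real.exp (1 / 2 * |z.re|) * Real.exp (-(N : ℝ)) := by
  rw [norm_prod]
  refine (Finset.prod_le_prod (fun k _ => norm_nonneg _) fun k _ => F_le hβ0 hβ1 k z).trans ?_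
  rw [Finset.prod_mul_distrib, ← Real.exp_sum, ← Finset.sum_mul]
  refine mul_le_mul ?_ ?_ (Finset.prod_nonneg fun k _ => fac_nonneg β k _) (Real.exp_pos _).le
  · exact Real.exp_le_exp.2
      (mul_le_mul_of_nonneg_right (A_sum_le hβ0 hβ1 n) (abs_nonneg _))
  · have h1 : ∏ k ∈ Finset.range n, 1 / max 1 (A β k * |z.im|) ≤
        ∏ k ∈ Finset.range N, 1 / max 1 (A β k * |z.im|) := by
      rw [← Finset.prod_range_mul_prod_Ico _ hn]
      exact mul_le_of_le_one_right (Finset.prod_nonneg fun k _ => fac_nonneg β k _)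
        (Finset.prod_le_one (fun k _ => fac_nonneg β k _) fun k _ => fac_le_one β k _)
    refine h1.trans ?_
    have h2 : ∏ k ∈ Finset.range N, 1 / max 1 (A β k * |z.im|) ≤
        ∏ k ∈ Finset.range N, Real.exp (-1) := by
      refine Finset.prod_le_prod (fun k _ => fac_nonneg β k _) fun k hk =>
        fac_small hβ0 hβ1 ?_
      have h3 : ((k + 1 : ℕ) : ℝ) ≤ N := by exact_mod_cast Finset.mem_range.1 hk
      push_cast at h3
      linarith
    refine h2.trans ?_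
    rw [Finset.prod_const, Finset.card_range, ← Real.exp_nat_mul]
    simp

theorem g_le (z : ℂ) : ‖g β z‖ ≤ Real.exp 1 * Real.exp (1 / 2 * |z.re|) *
    Real.exp (-((c0 β / Real.exp 1) ^ β * |z.im| ^ β)) := by
  set x : ℝ := (c0 β * |z.im| / Real.exp 1) ^ β with hx
  have hc := c0_pos hβ0 hβ1
  have hy := abs_nonneg z.im
  have hx0 : 0 ≤ x := by positivity
  have hx' : x = (c0 β / Real.exp 1) ^ β * |z.im| ^ β := by
    rw [hx, ← Real.mul_rpow (by positivity) hy]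
    congr 1
    ring
  rw [← hx']
  have hN : ((⌊x⌋₊ : ℕ) : ℝ) ≤ x := Nat.floor_le hx0
  have h1 : ‖g β z‖ ≤ Real.exp (1 / 2 * |z.re|) * Real.exp (-((⌊x⌋₊ : ℕ) : ℝ)) := by
    refine le_of_tendsto (g_tendsto hβ0 hβ1 z).norm ?_
    filter_upwards [eventually_ge_atTop ⌊x⌋₊] with n hn
    exact prod_le hβ0 hβ1 z hN hn
  refine h1.trans ?_
  have h2 : x - 1 ≤ (⌊x⌋₊ : ℕ) := by
    have := Nat.lt_floor_add_one x
    linarith
  calc Real.exp (1 / 2 * |z.re|) * Real.exp (-((⌊x⌋₊ : ℕ) : ℝ)) ≤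
      Real.exp (1 / 2 * |z.re|) * (Real.exp 1 * Real.exp (-x)) := by
        refine mul_le_mul_of_nonneg_left ?_ (Real.exp_pos _).le
        rw [← Real.exp_add]
        exact Real.exp_le_exp.2 (by linarith)
    _ = _ := by ring

end

end Opt

open Opt Filter Topology in
/-- a kernel that is bounded by `1` on the imaginary axis -/
theorem kern : S_kern := by
  intro β hβ0 hβ1
  have hc := c0_pos hβ0 hβ1
  refine ⟨fun z => Complex.exp (-z / 2) * g β z, ⟨?_, ?_, (c0 β / Real.exp 1) ^ β, Real.exp 1,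
    by positivity, by positivity, ?_, ?_⟩, ?_⟩
  · exact (by fun_prop : Differentiable ℂ fun z : ℂ => Complex.exp (-z / 2)).mul
      (g_diff hβ0 hβ1)
  · simp [g_zero]
  · intro z hz
    rw [norm_mul, Complex.norm_exp]
    refine (mul_le_mul_of_nonneg_left (g_le hβ0 hβ1 z) (Real.exp_pos _).le).trans (le_of_eq ?_)
    rw [abs_of_nonneg hz]
    have h1 : (-z / 2).re = -(1 / 2 * z.re) := by
      simp
      ring
    rw [h1]
    have h2 : Real.exp (-(1 / 2 * z.re)) * Real.exp (1 / 2 * z.re) = 1 := by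
      rw [← Real.exp_add]
      simp
    calc _ = (Real.exp (-(1 / 2 * z.re)) * Real.exp (1 / 2 * z.re)) *
          (Real.exp 1 * Real.exp (-((c0 β / Real.exp 1) ^ β * |z.im| ^ β))) := by ring
      _ = _ := by rw [h2, one_mul]
  · intro z hz
    rw [norm_mul, Complex.norm_exp]
    refine (mul_le_mul_of_nonneg_left (g_le hβ0 hβ1 z) (Real.exp_pos _).le).trans (le_of_eq ?_)
    rw [abs_of_nonpos hz]
    have h1 : (-z / 2).re = -(1 / 2 * z.re) := by
      simp
      ring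
    rw [h1]
    have h2 : Real.exp (-(1 / 2 * z.re)) * Real.exp (1 / 2 * -z.re) = Real.exp (-z.re) := by
      rw [← Real.exp_add]
      congr 1
      ring
    calc _ = (Real.exp (-(1 / 2 * z.re)) * Real.exp (1 / 2 * -z.re)) *
          (Real.exp 1 * Real.exp (-((c0 β / Real.exp 1) ^ β * |z.im| ^ β))) := by ring
      _ = _ := by rw [h2]; ring
  · intro y
    rw [norm_mul, Complex.norm_exp]
    have h1 : (-((y : ℂ) * I) / 2).re = 0 := by
      simp
    rw [h1, Real.exp_zero, one_mul]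
    refine le_of_tendsto (g_tendsto hβ0 hβ1 _).norm (Eventually.of_forall fun n => ?_)
    rw [norm_prod]
    refine Finset.prod_le_one (fun k _ => norm_nonneg _) fun k _ => ?_
    refine (F_le hβ0 hβ1 k _).trans ?_
    have h2 : ((y : ℂ) * I).re = 0 := by simp
    rw [h2, abs_zero, mul_zero, Real.exp_zero, one_mul]
    exact fac_le_one β k _

namespace Opt

open MeasureTheory Filter Topology
open Pool.Agent.N891.OPT

/-- the kernels with a fast decay are admissible -/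
theorem ker_of_kerB {β : ℝ} (hβ : 19 / 20 ≤ β) {κ : ℂ → ℂ} (hκ : KerB β κ) : Ker κ := by
  obtain ⟨h1, h2, c, C, hc, hC, h3, h4⟩ := hκ
  have key : ∀ y : ℝ, Real.exp (-(c * |y| ^ β)) ≤
      Real.exp c * Real.exp (-(c * |y| ^ (19 / 20 : ℝ))) := by
    intro y
    rw [← Real.exp_add]
    refine Real.exp_le_exp.2 ?_
    have h5 : |y| ^ (19 / 20 : ℝ) ≤ 1 + |y| ^ β := by
      have h6 : 0 ≤ |y| ^ β := by positivity
      rcases le_total |y| 1 with h | h
      · have := Real.rpow_le_one (abs_nonneg y) h (by norm_num : (0 : ℝ) ≤ 19 / 20)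
        linarith
      · have := Real.rpow_le_rpow_of_exponent_le h hβ
        linarith
    nlinarith
  refine ⟨h1, h2, c, C * Real.exp c, hc, by positivity, fun z hz => ?_, fun z hz => ?_⟩
  · refine (h3 z hz).trans ?_
    have := mul_le_mul_of_nonneg_left (key z.im) hC.le
    linarith
  · refine (h4 z hz).trans ?_
    have := mul_le_mul_of_nonneg_left (key z.im) (by positivity : 0 ≤ C * Real.exp (-z.re))
    calc _ ≤ _ := this
      _ = _ := by ring

theorem kerB_kd {β : ℝ} {κ : ℂ → ℂ} (hκ : KerB β κ) {m : ℕ} (hm : 1 ≤ m) {d : ℝ} (hd : 0 < d)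
    (hd1 : d ≤ 1 / 2) : KerB β (kd κ m d) := by
  obtain ⟨h1, h2, c, C, hc, hC, h3, h4⟩ := hκ
  have hrp : ∀ y : ℝ, c * |d * y| ^ β = c * d ^ β * |y| ^ β := by
    intro y
    rw [abs_mul, abs_of_pos hd, Real.mul_rpow hd.le (abs_nonneg _), mul_assoc]
  refine ⟨?_, ?_, c * d ^ β, C, by positivity, hC, fun z hz => ?_, fun z hz => ?_⟩
  · exact (h1.comp (differentiable_id.const_mul _)).mul
      ((km_diff m).comp (differentiable_id.const_mul _))
  · rw [kd, mul_zero, mul_zero, h2, km_zero hm, one_mul]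
  · have e1 : ‖κ ((d : ℂ) * z)‖ ≤ C * Real.exp (-(c * d ^ β * |z.im| ^ β)) := by
      have := h3 ((d : ℂ) * z) (by rw [re_ofReal_mul]; positivity)
      rwa [im_ofReal_mul, hrp] at this
    have e2 : ‖km m (((1 - d : ℝ) : ℂ) * z)‖ ≤ 1 := by
      refine (km_bound hm _).trans (max_le le_rfl ?_)
      rw [re_ofReal_mul, Real.exp_le_one_iff]
      have : 0 ≤ (1 - d) * z.re := mul_nonneg (by linarith) hz
      linarith
    rw [kd, norm_mul]
    calc _ ≤ C * Real.exp (-(c * d ^ β * |z.im| ^ β)) * 1 :=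
          mul_le_mul e1 e2 (norm_nonneg _) (by positivity)
      _ = _ := mul_one _
  · have e1 : ‖κ ((d : ℂ) * z)‖ ≤ C * Real.exp (-(d * z.re)) *
        Real.exp (-(c * d ^ β * |z.im| ^ β)) := by
      have := h4 ((d : ℂ) * z) (by
        rw [re_ofReal_mul]; exact mul_nonpos_of_nonneg_of_nonpos hd.le hz)
      rwa [im_ofReal_mul, hrp, re_ofReal_mul] at this
    have e2 : ‖km m (((1 - d : ℝ) : ℂ) * z)‖ ≤ Real.exp (-((1 - d) * z.re)) := by
      refine (km_bound hm _).trans (max_le ?_ ?_)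
      · rw [Real.one_le_exp_iff]
        have : (1 - d) * z.re ≤ 0 := mul_nonpos_of_nonneg_of_nonpos (by linarith) hz
        linarith
      · rw [re_ofReal_mul]
    rw [kd, norm_mul]
    calc _ ≤ C * Real.exp (-(d * z.re)) * Real.exp (-(c * d ^ β * |z.im| ^ β)) *
          Real.exp (-((1 - d) * z.re)) := mul_le_mul e1 e2 (norm_nonneg _) (by positivity)
      _ = C * (Real.exp (-(d * z.re)) * Real.exp (-((1 - d) * z.re))) *
          Real.exp (-(c * d ^ β * |z.im| ^ β)) := by ring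
      _ = _ := by
          rw [← Real.exp_add]
          congr 3
          ring

/-- **nearly optimal kernels** -/
theorem mainB (hgg : S_gg) (hh : S_hpol) {β : ℝ} (hβ : 19 / 20 ≤ β) {κ : ℂ → ℂ}
    (hκB : KerB β κ) (hb : ∀ y : ℝ, ‖κ (y * I)‖ ≤ 1)
    {m : ℕ} (hm : 1 ≤ m) {ε : ℝ} (hε : 0 < ε) : ∃ κ' : ℂ → ℂ, KerB β κ' ∧
      ∫⁻ x : ℝ, ENNReal.ofReal (‖GG κ' m x‖ ^ 2) ≤
        ENNReal.ofReal (2 * Real.pi * ((m : ℝ) ^ 2 + ε)) := by
  have hκ : Ker κ := ker_of_kerB hβ hκB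
  have hpi := Real.pi_pos
  obtain ⟨s, hs, hs'⟩ : ∃ s : ℝ, 0 < s ∧ (1 + s) * (m : ℝ) ^ 2 < (m : ℝ) ^ 2 + ε := by
    refine ⟨ε / ((m : ℝ) ^ 2 + 1), by positivity, ?_⟩
    have h1 : ε / ((m : ℝ) ^ 2 + 1) * (m : ℝ) ^ 2 < ε := by
      rw [div_mul_eq_mul_div, div_lt_iff₀ (by positivity)]
      nlinarith [sq_nonneg (m : ℝ)]
    linarith
  have hlim : Tendsto (fun d : ℝ => (1 + s) * (2 * Real.pi * (m : ℝ) ^ 2 / (1 - d)) +
      (1 + 1 / s) * ∫ x : ℝ, ‖BB κ m d x‖ ^ 2) (𝓝[>] 0)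
      (𝓝 ((1 + s) * (2 * Real.pi * (m : ℝ) ^ 2 / (1 - 0)) + (1 + 1 / s) * 0)) := by
    refine Tendsto.add (Tendsto.const_mul _ ?_) ((BB_lim hκ m).const_mul _)
    refine Tendsto.div tendsto_const_nhds ?_ (by norm_num)
    exact (tendsto_const_nhds.sub tendsto_id).mono_left nhdsWithin_le_nhds
  have hlt : (1 + s) * (2 * Real.pi * (m : ℝ) ^ 2 / (1 - 0)) + (1 + 1 / s) * 0 <
      2 * Real.pi * ((m : ℝ) ^ 2 + ε) := by
    rw [sub_zero, div_one, mul_zero, add_zero]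
    nlinarith
  have hev : ∀ᶠ d : ℝ in 𝓝[>] 0, 0 < d ∧ d ≤ 1 / 2 := by
    have : Set.Ioc (0 : ℝ) (1 / 2) ∈ 𝓝[>] (0 : ℝ) := Ioc_mem_nhdsGT (by norm_num)
    filter_upwards [this] with d hd
    exact ⟨hd.1, hd.2⟩
  obtain ⟨d, hd1, hd2, hd3⟩ := ((hlim.eventually (gt_mem_nhds hlt)).and hev).exists
  refine ⟨kd κ m d, kerB_kd hκB hm hd2 hd3, ?_⟩
  obtain ⟨hQi, hQ⟩ := Q_scaled hh hm hd3
  have hBi := BB_int hκ m hd2 hd3
  have hsum : Integrable (fun x : ℝ =>
      (1 + s) * ‖Q m (m - 1) (((1 - d : ℝ) : ℂ) * (x * I))‖ ^ 2 +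
      (1 + 1 / s) * ‖BB κ m d x‖ ^ 2) := (hQi.const_mul _).add (hBi.const_mul _)
  have hnn : ∀ x : ℝ, 0 ≤ (1 + s) * ‖Q m (m - 1) (((1 - d : ℝ) : ℂ) * (x * I))‖ ^ 2 +
      (1 + 1 / s) * ‖BB κ m d x‖ ^ 2 := fun x => by positivity
  have hpt : ∀ x : ℝ, x ≠ 0 → ‖GG (kd κ m d) m x‖ ^ 2 ≤
      (1 + s) * ‖Q m (m - 1) (((1 - d : ℝ) : ℂ) * (x * I))‖ ^ 2 +
      (1 + 1 / s) * ‖BB κ m d x‖ ^ 2 := by
    intro x hx
    have h1 : GG (kd κ m d) m x = BB κ m d x + TT κ m d x 0 := by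
      rw [gg_kd hgg hκ hm hd2 hd3 hx, BB, ← Finset.sum_range_succ', show m - 1 + 1 = m by omega]
    have h2 : ‖TT κ m d x 0‖ ≤ ‖Q m (m - 1) (((1 - d : ℝ) : ℂ) * (x * I))‖ := by
      have e1 : (d : ℂ) * ((x : ℂ) * I) = ((d * x : ℝ) : ℂ) * I := by push_cast; ring
      rw [TT, norm_mul, pow_zero, pow_zero, Nat.factorial_zero, iteratedDeriv_zero, e1]
      have h3 := hb (d * x)
      simp only [Nat.cast_one, div_one, one_mul, Nat.sub_zero]
      exact mul_le_of_le_one_left (norm_nonneg _) h3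
    have h3 : ‖GG (kd κ m d) m x‖ ≤ ‖BB κ m d x‖ + ‖TT κ m d x 0‖ := by
      rw [h1]
      exact norm_add_le _ _
    obtain ⟨u, hu⟩ : ∃ u : ℝ, u = ‖BB κ m d x‖ := ⟨_, rfl⟩
    obtain ⟨v, hv⟩ : ∃ v : ℝ, v = ‖Q m (m - 1) (((1 - d : ℝ) : ℂ) * (x * I))‖ := ⟨_, rfl⟩
    have hu0 : 0 ≤ u := by rw [hu]; exact norm_nonneg _
    have hv0 : 0 ≤ v := by rw [hv]; exact norm_nonneg _
    have h4 : ‖GG (kd κ m d) m x‖ ^ 2 ≤ (u + v) ^ 2 :=
      pow_le_pow_left₀ (norm_nonneg _) (by rw [hu, hv]; linarith) 2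
    have h5 : (u + v) ^ 2 ≤ (1 + s) * v ^ 2 + (1 + 1 / s) * u ^ 2 := by
      have h6 : 0 ≤ (s * v - u) ^ 2 / s := by positivity
      have h7 : (s * v - u) ^ 2 / s = s * v ^ 2 - 2 * u * v + 1 / s * u ^ 2 := by
        field_simp
        ring
      rw [h7] at h6
      nlinarith
    rw [← hu, ← hv]
    exact h4.trans h5
  have hae : ∀ᵐ x : ℝ, x ≠ 0 := by
    have := (measure_singleton (0 : ℝ) : volume {(0 : ℝ)} = 0)
    exact compl_mem_ae_iff.2 this
  calc ∫⁻ x : ℝ, ENNReal.ofReal (‖GG (kd κ m d) m x‖ ^ 2)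
      ≤ ∫⁻ x : ℝ, ENNReal.ofReal ((1 + s) * ‖Q m (m - 1) (((1 - d : ℝ) : ℂ) * (x * I))‖ ^ 2 +
          (1 + 1 / s) * ‖BB κ m d x‖ ^ 2) := by
        refine lintegral_mono_ae ?_
        filter_upwards [hae] with x hx
        exact ENNReal.ofReal_le_ofReal (hpt x hx)
    _ = ENNReal.ofReal (∫ x : ℝ, ((1 + s) * ‖Q m (m - 1) (((1 - d : ℝ) : ℂ) * (x * I))‖ ^ 2 +
          (1 + 1 / s) * ‖BB κ m d x‖ ^ 2)) :=
        (ofReal_integral_eq_lintegral_ofReal hsum (Eventually.of_forall hnn)).symm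
    _ ≤ _ := by
        apply ENNReal.ofReal_le_ofReal
        rw [integral_add (hQi.const_mul _) (hBi.const_mul _), integral_const_mul,
          integral_const_mul, hQ]
        exact hd1.le

end Opt

/-- **nearly optimal kernels** -/
theorem opt : S_opt := by
  intro β hβ hβ1 m hm ε hε
  obtain ⟨κ, hκ, hb⟩ := kern β (by linarith) hβ1
  exact Opt.mainB (gg shift) hpol_facts hβ hκ hb hm hε

end Pool.Agent.N967.G
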