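import Mathlib
import Pool.Agent.N967.G.Stm
import Pool.Agent.N967.Upper3

set_option autoImplicit false

/-!
# Baez-Duarte's distance for general L-functions: the tail of `HH`
-/

namespace Pool.Agent.N967.G

open Complex MeasureTheory Filter Topology
open Pool.Agent.Y23 (Lg)

namespace PrT

lemma exp_beta {c β : ℝ} (hc : 0 < c) (hβ : 19 / 20 ≤ β) (y : ℝ) :
    Real.exp (-(c * |y| ^ β)) ≤ Real.exp c * Real.exp (-(c * |y| ^ (19 / 20 : ℝ))) := by
  rw [← Real.exp_add]
  refine Real.exp_le_exp.2 ?_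
  rcases le_or_gt 1 |y| with h | h
  · have h1 : |y| ^ (19 / 20 : ℝ) ≤ |y| ^ β := Real.rpow_le_rpow_of_exponent_le h hβ
    nlinarith
  · have h1 : |y| ^ (19 / 20 : ℝ) ≤ 1 := Real.rpow_le_one (abs_nonneg y) h.le (by norm_num)
    have h2 : 0 ≤ |y| ^ β := Real.rpow_nonneg (abs_nonneg y) _
    nlinarith

lemma ker_of {β : ℝ} {κ : ℂ → ℂ} (hβ : 19 / 20 ≤ β) (h : KerB β κ) : Ker κ := by
  obtain ⟨h1, h2, c, C, hc, hC, h3, h4⟩ := h
  refine ⟨h1, h2, c, C * Real.exp c, hc, by positivity, fun z hz => ?_, fun z hz => ?_⟩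
  · refine (h3 z hz).trans ?_
    rw [mul_assoc]
    gcongr
    exact exp_beta hc hβ _
  · refine (h4 z hz).trans ?_
    calc C * Real.exp (-z.re) * Real.exp (-(c * |z.im| ^ β)) ≤
        C * Real.exp (-z.re) * (Real.exp c * Real.exp (-(c * |z.im| ^ (19 / 20 : ℝ)))) := by
          gcongr
          exact exp_beta hc hβ _
      _ = _ := by ring

/-- the weight on the line `re z = - R` -/
lemma KR_bd {β : ℝ} {κ : ℂ → ℂ} {c C : ℝ} (hC : 0 < C)
    (h : ∀ z : ℂ, z.re ≤ 0 → ‖κ z‖ ≤ C * Real.exp (-z.re) * Real.exp (-(c * |z.im| ^ β)))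
    {R : ℝ} (hR : 1 ≤ R) (y : ℝ) : ‖KR κ R y‖ ≤ C * Real.exp R * Real.exp (-(c * |y| ^ β)) := by
  have h1 := h (-(R : ℂ) + y * I) (by simp; linarith)
  have e1 : (-(R : ℂ) + y * I).re = -R := by simp
  have e2 : (-(R : ℂ) + y * I).im = y := by simp
  rw [e1, e2, neg_neg] at h1
  have h2 : 1 ≤ ‖(-(R : ℂ) + y * I)‖ := by
    have := Complex.abs_re_le_norm (-(R : ℂ) + y * I)
    rw [e1, abs_neg, abs_of_pos (by linarith)] at this
    linarith
  unfold KR
  rw [norm_neg, norm_mul, norm_div (κ (-(R : ℂ) + y * I))]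
  have h4 : ‖(1 / (2 * Real.pi) : ℂ)‖ ≤ 1 := by
    have e5 : ((1 / (2 * Real.pi)) : ℂ) = (((1 / (2 * Real.pi)) : ℝ) : ℂ) := by push_cast; rfl
    rw [e5, Complex.norm_real, Real.norm_eq_abs, abs_of_nonneg (by positivity)]
    rw [div_le_one (by positivity)]
    linarith [Real.pi_gt_three]
  calc ‖(1 / (2 * Real.pi) : ℂ)‖ * (‖κ (-(R : ℂ) + y * I)‖ / ‖(-(R : ℂ) + y * I : ℂ)‖)
      ≤ 1 * ((C * Real.exp R * Real.exp (-(c * |y| ^ β))) / 1) := by gcongr
    _ = _ := by ring

/-- the integral of the weight -/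
lemma KR_int {β : ℝ} {κ : ℂ → ℂ} {c C : ℝ} (hβ : 19 / 20 ≤ β) (hc : 0 < c) (hC : 0 < C)
    (h : ∀ z : ℂ, z.re ≤ 0 → ‖κ z‖ ≤ C * Real.exp (-z.re) * Real.exp (-(c * |z.im| ^ β))) :
    ∃ J : ℝ, 0 < J ∧ ∀ R : ℝ, 1 ≤ R → ∫ y : ℝ, ‖KR κ R y‖ ≤ J * Real.exp R := by
  obtain ⟨B, hB, hd⟩ := U3.dec hc
  have hi : Integrable (fun y : ℝ => ((1 + |y|) ^ 8)⁻¹) := by simpa only [one_div] using U3.eight_int
  have hJ : 0 ≤ ∫ y : ℝ, ((1 + |y|) ^ 8)⁻¹ := integral_nonneg fun y => by positivity
  refine ⟨C * (Real.exp c * B) * ((∫ y : ℝ, ((1 + |y|) ^ 8)⁻¹) + 1), by positivity, fun R hR => ?_⟩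
  calc ∫ y : ℝ, ‖KR κ R y‖ ≤ ∫ y : ℝ, C * (Real.exp c * B) * Real.exp R * ((1 + |y|) ^ 8)⁻¹ := by
        refine integral_mono_of_nonneg (Eventually.of_forall fun y => norm_nonneg _)
          (hi.const_mul _) (Eventually.of_forall fun y => ?_)
        refine (KR_bd hC h hR y).trans ?_
        have h1 := exp_beta hc hβ y
        have h2 := hd |y| (abs_nonneg y)
        calc C * Real.exp R * Real.exp (-(c * |y| ^ β)) ≤
            C * Real.exp R * (Real.exp c * (B / (1 + |y|) ^ 8)) := by
              gcongr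
              exact h1.trans (by gcongr)
          _ = _ := by ring
    _ = C * (Real.exp c * B) * Real.exp R * ∫ y : ℝ, ((1 + |y|) ^ 8)⁻¹ := integral_const_mul _ _
    _ ≤ C * (Real.exp c * B) * Real.exp R * ((∫ y : ℝ, ((1 + |y|) ^ 8)⁻¹) + 1) := by
        gcongr
        linarith
    _ = _ := by ring

lemma KR_one (κ : ℂ → ℂ) (y : ℝ) : KR κ 1 y = KK κ y := by
  unfold KR KK
  rw [Complex.ofReal_one]

lemma HR_one (D : Dat) (κ : ℂ → ℂ) (L t : ℝ) : D.HR κ 1 L t = D.HH κ L t := by
  unfold Dat.HR Dat.HH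
  simp_rw [KR_one]

/-- the function `x / log (2 + x)` is increasing -/
lemma mono {x y : ℝ} (hx : 0 ≤ x) (hxy : x ≤ y) :
    x / Real.log (2 + x) ≤ y / Real.log (2 + y) := by
  have hlx : 0 < Real.log (2 + x) := Real.log_pos (by linarith)
  have hly : 0 < Real.log (2 + y) := Real.log_pos (by linarith)
  rw [div_le_div_iff₀ hlx hly]
  have h1 : Real.log (2 + y) - Real.log (2 + x) ≤ (y - x) / (2 + x) := by
    rw [← Real.log_div (by linarith) (by linarith)]
    refine (Real.log_le_sub_one_of_pos (div_pos (by linarith) (by linarith))).trans (le_of_eq ?_)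
    field_simp
    ring
  have h2 : x / (2 + x) ≤ Real.log (2 + x) := by
    have := Real.one_sub_inv_le_log_of_pos (show 0 < 2 + x by linarith)
    refine le_trans ?_ this
    rw [div_le_iff₀ (by linarith)]
    have : (2 + x)⁻¹ * (2 + x) = 1 := inv_mul_cancel₀ (by linarith)
    nlinarith
  have h3 : x * (Real.log (2 + y) - Real.log (2 + x)) ≤ (y - x) * Real.log (2 + x) := by
    calc x * (Real.log (2 + y) - Real.log (2 + x)) ≤ x * ((y - x) / (2 + x)) := by gcongr
      _ = (y - x) * (x / (2 + x)) := by ring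
      _ ≤ _ := by
        have : 0 ≤ y - x := by linarith
        gcongr
  linarith

lemma Lg_nonneg (t : ℝ) : 0 ≤ Lg t := by
  unfold Lg
  exact Real.log_nonneg (by linarith [abs_nonneg t])

lemma Lg_block {t : ℝ} {m : ℤ} (h1 : (m : ℝ) ≤ t) (h2 : t ≤ m + 1) : Lg t ≤ Lg m + 1 := by
  unfold Lg
  have h3 : |t| ≤ |(m : ℝ)| + 1 := by
    rw [abs_le]
    have := abs_nonneg (m : ℝ)
    have h4 := le_abs_self (m : ℝ)
    have h5 := neg_abs_le (m : ℝ)
    constructor <;> linarith
  have h4 : (1 : ℝ) ≤ Real.log (Real.exp 1) := by rw [Real.log_exp]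
  have h5 : Real.log (3 + |t|) ≤ Real.log ((3 + |(m : ℝ)|) * Real.exp 1) := by
    refine Real.log_le_log (by positivity) ?_
    have := Real.add_one_le_exp (1 : ℝ)
    have := abs_nonneg (m : ℝ)
    nlinarith
  rw [Real.log_mul (by positivity) (by positivity), Real.log_exp] at h5
  exact h5

/-- the weight on the block -/
lemma weight {t : ℝ} {m : ℤ} (h1 : (m : ℝ) ≤ t) (h2 : t ≤ m + 1) :
    (1 / 4 + t ^ 2)⁻¹ ≤ 320 * ((3 + |(m : ℝ)|) ^ 2)⁻¹ := by
  have h3 : |(m : ℝ)| - 1 ≤ |t| := by
    have h4 : |(m : ℝ)| ≤ |t| + 1 := by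
      rw [abs_le]
      have := le_abs_self t
      have := neg_abs_le t
      constructor <;> linarith
    linarith
  have h4 : |t| ^ 2 = t ^ 2 := sq_abs t
  have h5 := abs_nonneg t
  have h6 := abs_nonneg (m : ℝ)
  rw [← div_eq_mul_inv, inv_eq_one_div, div_le_div_iff₀ (by positivity) (by positivity)]
  rw [← h4]
  rcases le_or_gt |(m : ℝ)| 1 with h7 | h7
  · nlinarith [sq_nonneg |t|]
  · have h8 : (|(m : ℝ)| - 1) ^ 2 ≤ |t| ^ 2 := by
      refine pow_le_pow_left₀ (by linarith) h3 2
    nlinarith [sq_nonneg (|(m : ℝ)| - 1)]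

/-- summation over the blocks -/
lemma blocks {f : ℝ → ℂ} {Q T : ℝ} (hQ : 0 ≤ Q) (hT : 1 ≤ T)
    (hb : ∀ m : ℤ, ∫⁻ t in Set.Icc (m : ℝ) (m + 1), ENNReal.ofReal (‖f t‖ ^ 2) ≤
      ENNReal.ofReal (Q * (3 + |(m : ℝ)|) ^ (1 / 10 : ℝ))) :
    ∫⁻ t in {t : ℝ | T < |t|}, ENNReal.ofReal (‖f t‖ ^ 2 / (1 / 4 + t ^ 2)) ≤
      ENNReal.ofReal (320 * Q * T ^ (-(1 / 2) : ℝ) *
        ∑' m : ℤ, 1 / |(m : ℝ) + 1 / 2| ^ (7 / 5 : ℝ)) := by
  have hT0 : 0 < T := by linarith
  have hTp : 0 < T ^ (-(1 / 2) : ℝ) := Real.rpow_pos_of_pos hT0 _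
  have hsm : Summable fun m : ℤ => 1 / |(m : ℝ) + 1 / 2| ^ (7 / 5 : ℝ) :=
    (Real.summable_one_div_int_add_rpow (1 / 2) (7 / 5)).2 (by norm_num)
  have hcov : {t : ℝ | T < |t|} ⊆ ⋃ m : ℤ, {t : ℝ | T < |t| ∧ t ∈ Set.Icc (m : ℝ) (m + 1)} := by
    intro t ht
    rw [Set.mem_iUnion]
    exact ⟨⌊t⌋, ht, Int.floor_le t, (Int.lt_floor_add_one t).le⟩
  have hm1 : ∀ m : ℤ, MeasurableSet {t : ℝ | T < |t| ∧ t ∈ Set.Icc (m : ℝ) (m + 1)} := by
    intro m
    exact (measurableSet_lt measurable_const continuous_abs.measurable).inter measurableSet_Icc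
  calc ∫⁻ t in {t : ℝ | T < |t|}, ENNReal.ofReal (‖f t‖ ^ 2 / (1 / 4 + t ^ 2))
      ≤ ∫⁻ t in ⋃ m : ℤ, {t : ℝ | T < |t| ∧ t ∈ Set.Icc (m : ℝ) (m + 1)},
        ENNReal.ofReal (‖f t‖ ^ 2 / (1 / 4 + t ^ 2)) := lintegral_mono_set hcov
    _ ≤ ∑' m : ℤ, ∫⁻ t in {t : ℝ | T < |t| ∧ t ∈ Set.Icc (m : ℝ) (m + 1)},
        ENNReal.ofReal (‖f t‖ ^ 2 / (1 / 4 + t ^ 2)) := lintegral_iUnion_le _ _
    _ ≤ ∑' m : ℤ, ENNReal.ofReal (320 * Q * T ^ (-(1 / 2) : ℝ) *
        (1 / |(m : ℝ) + 1 / 2| ^ (7 / 5 : ℝ))) := by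
        refine ENNReal.tsum_le_tsum fun m => ?_
        have h6 := abs_nonneg (m : ℝ)
        rcases le_or_gt (|(m : ℝ)| + 1) T with hm | hm
        · have he : {t : ℝ | T < |t| ∧ t ∈ Set.Icc (m : ℝ) (m + 1)} = ∅ := by
            rw [Set.eq_empty_iff_forall_notMem]
            rintro t ⟨ht, ht1, ht2⟩
            have h3 : |t| ≤ |(m : ℝ)| + 1 := by
              rw [abs_le]
              have h4 := le_abs_self (m : ℝ)
              have h5 := neg_abs_le (m : ℝ)
              constructor <;> linarith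
            linarith
          rw [he]
          simp
        · have hmp : (0 : ℝ) < |(m : ℝ) + 1 / 2| := by
            rw [abs_pos]
            intro h
            have h1 : (2 * m + 1 : ℤ) = 0 := by
              have : (2 * (m : ℝ) + 1) = 0 := by linarith
              exact_mod_cast this
            omega
          have h7 : |(m : ℝ) + 1 / 2| ≤ 3 + |(m : ℝ)| := by
            refine (abs_add_le _ _).trans ?_
            rw [abs_of_pos (by norm_num : (0 : ℝ) < 1 / 2)]
            linarith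
          have key : 320 * ((3 + |(m : ℝ)|) ^ 2)⁻¹ * (Q * (3 + |(m : ℝ)|) ^ (1 / 10 : ℝ)) ≤
              320 * Q * T ^ (-(1 / 2) : ℝ) * (1 / |(m : ℝ) + 1 / 2| ^ (7 / 5 : ℝ)) := by
            have e1 : ((3 + |(m : ℝ)|) ^ 2)⁻¹ * (3 + |(m : ℝ)|) ^ (1 / 10 : ℝ) =
                (3 + |(m : ℝ)|) ^ (-(1 / 2) : ℝ) * (3 + |(m : ℝ)|) ^ (-(7 / 5) : ℝ) := by
              rw [← Real.rpow_natCast, ← Real.rpow_neg (by positivity), ← Real.rpow_add (by positivity),
                ← Real.rpow_add (by positivity)]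
              norm_num
            have e2 : (3 + |(m : ℝ)|) ^ (-(1 / 2) : ℝ) ≤ T ^ (-(1 / 2) : ℝ) :=
              Real.rpow_le_rpow_of_nonpos hT0 (by linarith) (by norm_num)
            have e3 : (3 + |(m : ℝ)|) ^ (-(7 / 5) : ℝ) ≤ 1 / |(m : ℝ) + 1 / 2| ^ (7 / 5 : ℝ) := by
              rw [one_div, ← Real.rpow_neg hmp.le]
              exact Real.rpow_le_rpow_of_nonpos hmp h7 (by norm_num)
            calc 320 * ((3 + |(m : ℝ)|) ^ 2)⁻¹ * (Q * (3 + |(m : ℝ)|) ^ (1 / 10 : ℝ))
                = 320 * Q * (((3 + |(m : ℝ)|) ^ 2)⁻¹ * (3 + |(m : ℝ)|) ^ (1 / 10 : ℝ)) := by ring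
              _ = 320 * Q * ((3 + |(m : ℝ)|) ^ (-(1 / 2) : ℝ) * (3 + |(m : ℝ)|) ^ (-(7 / 5) : ℝ)) := by
                rw [e1]
              _ ≤ 320 * Q * (T ^ (-(1 / 2) : ℝ) * (1 / |(m : ℝ) + 1 / 2| ^ (7 / 5 : ℝ))) := by
                gcongr
              _ = _ := by ring
          calc ∫⁻ t in {t : ℝ | T < |t| ∧ t ∈ Set.Icc (m : ℝ) (m + 1)},
                ENNReal.ofReal (‖f t‖ ^ 2 / (1 / 4 + t ^ 2))
              ≤ ∫⁻ t in {t : ℝ | T < |t| ∧ t ∈ Set.Icc (m : ℝ) (m + 1)},
                ENNReal.ofReal (320 * ((3 + |(m : ℝ)|) ^ 2)⁻¹) * ENNReal.ofReal (‖f t‖ ^ 2) := by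
                refine setLIntegral_mono' (hm1 m) fun t ht => ?_
                rw [← ENNReal.ofReal_mul (by positivity)]
                refine ENNReal.ofReal_le_ofReal ?_
                have := weight ht.2.1 ht.2.2
                rw [div_eq_mul_inv, mul_comm]
                gcongr
            _ ≤ ∫⁻ t in Set.Icc (m : ℝ) (m + 1),
                ENNReal.ofReal (320 * ((3 + |(m : ℝ)|) ^ 2)⁻¹) * ENNReal.ofReal (‖f t‖ ^ 2) :=
                lintegral_mono_set fun t ht => ht.2
            _ = ENNReal.ofReal (320 * ((3 + |(m : ℝ)|) ^ 2)⁻¹) *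
                ∫⁻ t in Set.Icc (m : ℝ) (m + 1), ENNReal.ofReal (‖f t‖ ^ 2) :=
                lintegral_const_mul' _ _ ENNReal.ofReal_ne_top
            _ ≤ ENNReal.ofReal (320 * ((3 + |(m : ℝ)|) ^ 2)⁻¹) *
                ENNReal.ofReal (Q * (3 + |(m : ℝ)|) ^ (1 / 10 : ℝ)) := by
                gcongr
                exact hb m
            _ = ENNReal.ofReal (320 * ((3 + |(m : ℝ)|) ^ 2)⁻¹ *
                (Q * (3 + |(m : ℝ)|) ^ (1 / 10 : ℝ))) := by
                rw [← ENNReal.ofReal_mul (by positivity)]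
            _ ≤ _ := ENNReal.ofReal_le_ofReal key
    _ = _ := by
        rw [← ENNReal.ofReal_tsum_of_nonneg (fun m => by positivity) (hsm.mul_left _), tsum_mul_left]

end PrT

open PrT in
theorem prT {D : Dat} (_h : Rp D) (h0 : Pool.Agent.N967.G.S_app D) (h1 : S_cs D) (h2 : S_mm D)
    (h3 : S_nearB D) (h4 : S_farB D) (h5 : S_real) : S_prT D := by
  obtain ⟨Cs, T0, A, hCs, hT0, hA, hslope, hcnt⟩ := h2
  obtain ⟨e1, K1, he1, he1', hK1, hnear⟩ := h3 (1 / 200) A Cs T0 (by norm_num) (by norm_num) hA hCs hT0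
    hslope hcnt
  obtain ⟨e2, K2, he2, he2', hK2, hfar⟩ := h4 (1 / 200) A Cs T0 (by norm_num) (by norm_num) hA hCs hT0
    hslope hcnt
  obtain ⟨β, ν, hβ, hβ1, hν, hν1, hreal⟩ := h5 A (1 / 200) hA (by norm_num) (by norm_num)
  refine ⟨β, hβ, hβ1, fun κ hκ ε hε => ?_⟩
  have hker := ker_of hβ hκ
  obtain ⟨-, -, c, C, hc, hC, -, hκ4⟩ := hκ
  set e : ℝ := min e1 e2 with he
  have hepos : 0 < e := lt_min he1 he2
  obtain ⟨K, L0, hK, hL0, hR⟩ := hreal c e hc hepos ((min_le_left _ _).trans he1')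
  obtain ⟨J, hJ, hJR⟩ := KR_int hβ hc hC hκ4
  -- the constant for one block
  set P : ℝ := J * (C * (K1 + K2) * K) * Real.pi * Real.exp (2 * K + 11 / 200) with hP
  have hP0 : 0 < P := by positivity
  set S0 : ℝ := ∑' m : ℤ, 1 / |(m : ℝ) + 1 / 2| ^ (7 / 5 : ℝ) with hS0
  have hS00 : 0 ≤ S0 := tsum_nonneg fun m => by positivity
  set T : ℝ := max 1 ((320 * P * S0 / ε) ^ 2) with hT
  have hT1 : 1 ≤ T := le_max_left _ _
  have hT0' : 0 < T := by linarith
  refine ⟨T, L0, hT1, fun L hL => ?_⟩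
  have hL4 : 4 ≤ L := hL0.trans hL
  have hLp : 0 < L := by linarith
  have hblock : ∀ m : ℤ, ∫⁻ t in Set.Icc (m : ℝ) (m + 1), ENNReal.ofReal (‖D.HH κ L t‖ ^ 2) ≤
      ENNReal.ofReal (P / L * (3 + |(m : ℝ)|) ^ (1 / 10 : ℝ)) := by
    intro m
    set X : ℝ := Lg m + 1 with hX
    have hLm := Lg_nonneg (m : ℝ)
    have hX1 : 1 ≤ X := by linarith
    obtain ⟨R, hR1, hR2, hR3, hR4, hR5⟩ := hR X L hX1 hL
    have hRp : 0 < R := by linarith
    -- the line
    obtain ⟨a, ha⟩ := h0 κ hker L hL4 ⌈Real.exp L⌉₊ (by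
      rw [Real.le_log_iff_exp_le (by positivity)]
      have := Nat.le_ceil (Real.exp L)
      linarith)
    have hHH : ∀ t, D.HH κ L t = D.HR κ R L t := by
      intro t
      rw [← HR_one, ← ha 1 one_pos t, ← ha R hRp t]
    -- the weight
    set w : ℝ → ℝ := (Set.Icc (m : ℝ) (m + 1)).indicator (fun _ => 1) with hw
    have hwm : Measurable w := measurable_const.indicator measurableSet_Icc
    have hw0 : ∀ t, 0 ≤ w t := fun t => Set.indicator_nonneg (fun _ _ => zero_le_one) t
    have hwe : ∀ f : ℝ → ℂ, ∫⁻ t : ℝ, ENNReal.ofReal (‖f t‖ ^ 2 * w t) =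
        ∫⁻ t in Set.Icc (m : ℝ) (m + 1), ENNReal.ofReal (‖f t‖ ^ 2) := by
      intro f
      rw [← lintegral_indicator measurableSet_Icc]
      refine lintegral_congr fun t => ?_
      by_cases ht : t ∈ Set.Icc (m : ℝ) (m + 1)
      · rw [hw, Set.indicator_of_mem ht, Set.indicator_of_mem ht, mul_one]
      · rw [hw, Set.indicator_of_notMem ht, Set.indicator_of_notMem ht]
        simp
    have hmain := h1 κ hker R L hRp hL4 w hwm hw0
    rw [hwe] at hmain
    simp_rw [hHH]
    refine hmain.trans ?_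
    simp_rw [fun y : ℝ => hwe (fun t => 1 - D.Fr (R / L) (-(y / L)) t)]
    have hbpos : 0 < R / L := by positivity
    have hbe : R / L ≤ e := by rwa [div_le_iff₀ hLp]
    -- one `y`
    have hy : ∀ y : ℝ, ENNReal.ofReal ‖KR κ R y‖ *
        ∫⁻ t in Set.Icc (m : ℝ) (m + 1), ENNReal.ofReal (‖1 - D.Fr (R / L) (-(y / L)) t‖ ^ 2) ≤
        ENNReal.ofReal (C * (K1 + K2) * K / L * Real.exp (R + 9 / 200 * X) * (1 + y ^ 2)⁻¹) := by
      intro y
      have hkr := KR_bd hC hκ4 hR1 y
      have q1 : |-(y / L)| / (R / L) = |y| / R := by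
        rw [abs_neg, abs_div, abs_of_pos hLp]
        field_simp
      have q2 : |-(y / L)| = |y| / L := by rw [abs_neg, abs_div, abs_of_pos hLp]
      have q3 : Lg m ≤ X := by linarith
      have hy0 := abs_nonneg y
      rcases le_or_gt |y| (e * L) with hc' | hc'
      · have g1 := hnear (R / L) (-(y / L)) m hbpos (hbe.trans (min_le_left _ _)) (by
          rw [q2, div_le_iff₀ hLp]
          exact hc'.trans (by gcongr; exact min_le_left _ _))
        rw [q1, q2] at g1
        have g2 := hR4 y hc'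
        have g3 : K1 * (R / L + |y| / L) * Real.exp (8 * (1 / 200) * Lg m +
            4 * A * Lg m / Real.log (2 + Lg m) * Real.log (1 + |y| / R)) ≤
            K1 / L * Real.exp (8 / 200 * X) * ((R + |y|) *
              Real.exp (4 * A * X / Real.log (2 + X) * Real.log (1 + |y| / R))) := by
          have g4 : Real.exp (8 * (1 / 200) * Lg m +
              4 * A * Lg m / Real.log (2 + Lg m) * Real.log (1 + |y| / R)) ≤
              Real.exp (8 / 200 * X) * Real.exp (4 * A * X / Real.log (2 + X) * Real.log (1 + |y| / R)) := by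
            rw [← Real.exp_add]
            refine Real.exp_le_exp.2 ?_
            have g5 := mono hLm q3
            have g6 : 0 ≤ Real.log (1 + |y| / R) := Real.log_nonneg (by
              have : 0 ≤ |y| / R := by positivity
              linarith)
            have g7 : 4 * A * Lg m / Real.log (2 + Lg m) * Real.log (1 + |y| / R) ≤
                4 * A * X / Real.log (2 + X) * Real.log (1 + |y| / R) := by
              rw [mul_div_assoc, mul_div_assoc (4 * A) X]
              gcongr
            linarith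
          calc K1 * (R / L + |y| / L) * Real.exp (8 * (1 / 200) * Lg m +
                4 * A * Lg m / Real.log (2 + Lg m) * Real.log (1 + |y| / R))
              ≤ K1 * (R / L + |y| / L) * (Real.exp (8 / 200 * X) *
                Real.exp (4 * A * X / Real.log (2 + X) * Real.log (1 + |y| / R))) := by gcongr
            _ = _ := by ring
        calc _ ≤ ENNReal.ofReal (C * Real.exp R * Real.exp (-(c * |y| ^ β))) *
              ENNReal.ofReal (K1 / L * Real.exp (8 / 200 * X) * ((R + |y|) *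
              Real.exp (4 * A * X / Real.log (2 + X) * Real.log (1 + |y| / R)))) := by
              gcongr
              exact g1.trans (ENNReal.ofReal_le_ofReal g3)
          _ = ENNReal.ofReal (C * K1 / L * Real.exp R * Real.exp (8 / 200 * X) * ((R + |y|) *
              Real.exp (4 * A * X / Real.log (2 + X) * Real.log (1 + |y| / R)) *
                Real.exp (-(c * |y| ^ β)))) := by
              rw [← ENNReal.ofReal_mul (by positivity)]
              congr 1
              ring
          _ ≤ ENNReal.ofReal (C * K1 / L * Real.exp R * Real.exp (8 / 200 * X) *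
              (K * Real.exp (1 / 200 * X) / (1 + y ^ 2))) := by
              refine ENNReal.ofReal_le_ofReal ?_
              gcongr
          _ = ENNReal.ofReal (C * K1 * K / L * Real.exp (R + 9 / 200 * X) * (1 + y ^ 2)⁻¹) := by
              congr 1
              have : Real.exp (R + 9 / 200 * X) = Real.exp R * Real.exp (8 / 200 * X) *
                  Real.exp (1 / 200 * X) := by
                rw [← Real.exp_add, ← Real.exp_add]
                congr 1
                ring
              rw [this]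
              ring
          _ ≤ _ := by
              refine ENNReal.ofReal_le_ofReal ?_
              gcongr
              linarith
      · have g2 := hR5 y hc'
        have g1 : ∀ t ∈ Set.Icc (m : ℝ) (m + 1), ‖1 - D.Fr (R / L) (-(y / L)) t‖ ^ 2 ≤
            K2 / L * Real.exp (4 / 200 * X) * (L * Real.exp (2 * (1 / 200) * Real.log (1 + |y| / L) +
              2 * A * (X / Real.log (2 + X) + 2 * Real.log (1 + |y| / L)) * Real.log (1 + L / R))) := by
          intro t ht
          have g3 := hfar (R / L) (-(y / L)) t hbpos (hbe.trans (min_le_right _ _))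
          have g4 : Lg t ≤ X := Lg_block ht.1 ht.2
          have q4 : 1 / (R / L) = L / R := by rw [one_div_div]
          rw [q2, q4] at g3
          refine g3.trans ?_
          have g5 := mono (Lg_nonneg t) g4
          have g6 : 0 ≤ Real.log (1 + L / R) := Real.log_nonneg (by
            have : 0 ≤ L / R := by positivity
            linarith)
          have g7 : Real.exp (4 * (1 / 200) * Lg t + 2 * (1 / 200) * Real.log (1 + |y| / L) +
              2 * A * (Lg t / Real.log (2 + Lg t) + 2 * Real.log (1 + |y| / L)) * Real.log (1 + L / R)) ≤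
              Real.exp (4 / 200 * X) * Real.exp (2 * (1 / 200) * Real.log (1 + |y| / L) +
              2 * A * (X / Real.log (2 + X) + 2 * Real.log (1 + |y| / L)) * Real.log (1 + L / R)) := by
            rw [← Real.exp_add]
            refine Real.exp_le_exp.2 ?_
            have g8 : 2 * A * (Lg t / Real.log (2 + Lg t) + 2 * Real.log (1 + |y| / L)) *
                Real.log (1 + L / R) ≤ 2 * A * (X / Real.log (2 + X) + 2 * Real.log (1 + |y| / L)) *
                Real.log (1 + L / R) := by gcongr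
            linarith
          calc _ ≤ K2 * (Real.exp (4 / 200 * X) * Real.exp (2 * (1 / 200) * Real.log (1 + |y| / L) +
              2 * A * (X / Real.log (2 + X) + 2 * Real.log (1 + |y| / L)) * Real.log (1 + L / R))) := by
                gcongr
            _ = _ := by
                field_simp
        have g9 : ∫⁻ t in Set.Icc (m : ℝ) (m + 1), ENNReal.ofReal (‖1 - D.Fr (R / L) (-(y / L)) t‖ ^ 2) ≤
            ENNReal.ofReal (K2 / L * Real.exp (4 / 200 * X) * (L * Real.exp (2 * (1 / 200) *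
              Real.log (1 + |y| / L) + 2 * A * (X / Real.log (2 + X) + 2 * Real.log (1 + |y| / L)) *
                Real.log (1 + L / R)))) := by
          calc _ ≤ ∫⁻ _t in Set.Icc (m : ℝ) (m + 1), ENNReal.ofReal (K2 / L * Real.exp (4 / 200 * X) *
                (L * Real.exp (2 * (1 / 200) * Real.log (1 + |y| / L) + 2 * A * (X / Real.log (2 + X) +
                  2 * Real.log (1 + |y| / L)) * Real.log (1 + L / R)))) :=
                setLIntegral_mono' measurableSet_Icc fun t ht => ENNReal.ofReal_le_ofReal (g1 t ht)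
            _ = _ := by
                rw [setLIntegral_const, Real.volume_Icc]
                simp
        calc _ ≤ ENNReal.ofReal (C * Real.exp R * Real.exp (-(c * |y| ^ β))) *
              ENNReal.ofReal (K2 / L * Real.exp (4 / 200 * X) * (L * Real.exp (2 * (1 / 200) *
              Real.log (1 + |y| / L) + 2 * A * (X / Real.log (2 + X) + 2 * Real.log (1 + |y| / L)) *
                Real.log (1 + L / R)))) := by
              gcongr
          _ = ENNReal.ofReal (C * K2 / L * Real.exp R * Real.exp (4 / 200 * X) * (L * Real.exp (2 *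
              (1 / 200) * Real.log (1 + |y| / L) + 2 * A * (X / Real.log (2 + X) +
                2 * Real.log (1 + |y| / L)) * Real.log (1 + L / R)) * Real.exp (-(c * |y| ^ β)))) := by
              rw [← ENNReal.ofReal_mul (by positivity)]
              congr 1
              ring
          _ ≤ ENNReal.ofReal (C * K2 / L * Real.exp R * Real.exp (8 / 200 * X) *
              (K * Real.exp (1 / 200 * X) / (1 + y ^ 2))) := by
              refine ENNReal.ofReal_le_ofReal ?_
              have : Real.exp (4 / 200 * X) ≤ Real.exp (8 / 200 * X) :=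
                Real.exp_le_exp.2 (by linarith)
              gcongr
          _ = ENNReal.ofReal (C * K2 * K / L * Real.exp (R + 9 / 200 * X) * (1 + y ^ 2)⁻¹) := by
              congr 1
              have : Real.exp (R + 9 / 200 * X) = Real.exp R * Real.exp (8 / 200 * X) *
                  Real.exp (1 / 200 * X) := by
                rw [← Real.exp_add, ← Real.exp_add]
                congr 1
                ring
              rw [this]
              ring
          _ ≤ _ := by
              refine ENNReal.ofReal_le_ofReal ?_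
              gcongr
              linarith
    have hJR' := hJR R hR1
    calc _ ≤ ENNReal.ofReal (J * Real.exp R) * ∫⁻ y : ℝ,
          ENNReal.ofReal (C * (K1 + K2) * K / L * Real.exp (R + 9 / 200 * X) * (1 + y ^ 2)⁻¹) := by
          gcongr with y
          exact hy y
      _ = ENNReal.ofReal (J * Real.exp R) *
          ENNReal.ofReal (C * (K1 + K2) * K / L * Real.exp (R + 9 / 200 * X) * Real.pi) := by
          rw [← integral_univ_inv_one_add_sq, ← integral_const_mul,
            ofReal_integral_eq_lintegral_ofReal (integrable_inv_one_add_sq.const_mul _)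
            (Eventually.of_forall fun y => by positivity)]
      _ = ENNReal.ofReal (J * (C * (K1 + K2) * K) * Real.pi / L *
          Real.exp (2 * R + 9 / 200 * X)) := by
          rw [← ENNReal.ofReal_mul (by positivity)]
          congr 1
          have : Real.exp (2 * R + 9 / 200 * X) = Real.exp R * Real.exp (R + 9 / 200 * X) := by
            rw [← Real.exp_add]
            congr 1
            ring
          rw [this]
          ring
      _ ≤ _ := by
          refine ENNReal.ofReal_le_ofReal ?_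
          have g1 : Real.exp (2 * R + 9 / 200 * X) ≤ Real.exp (2 * K + 11 / 200) *
              (3 + |(m : ℝ)|) ^ (1 / 10 : ℝ) := by
            rw [Real.rpow_def_of_pos (by positivity), ← Real.exp_add]
            refine Real.exp_le_exp.2 ?_
            have g2 : Real.log (3 + |(m : ℝ)|) = Lg m := rfl
            rw [g2]
            linarith
          calc J * (C * (K1 + K2) * K) * Real.pi / L * Real.exp (2 * R + 9 / 200 * X)
              ≤ J * (C * (K1 + K2) * K) * Real.pi / L * (Real.exp (2 * K + 11 / 200) *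
              (3 + |(m : ℝ)|) ^ (1 / 10 : ℝ)) := by gcongr
            _ = _ := by
              rw [hP]
              ring
  refine (blocks (by positivity) hT1 hblock).trans (ENNReal.ofReal_le_ofReal ?_)
  have hTs : 320 * P * S0 / ε ≤ T ^ (1 / 2 : ℝ) := by
    have g1 : (320 * P * S0 / ε) ^ 2 ≤ T := le_max_right _ _
    have g2 := Real.rpow_le_rpow (by positivity) g1 (show (0:ℝ) ≤ 1 / 2 by norm_num)
    rw [← Real.sqrt_eq_rpow, Real.sqrt_sq (by positivity)] at g2
    exact g2
  rw [Real.rpow_neg hT0'.le]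
  have hTp : 0 < T ^ (1 / 2 : ℝ) := Real.rpow_pos_of_pos hT0' _
  rw [div_le_iff₀ hε] at hTs
  calc 320 * (P / L) * (T ^ (1 / 2 : ℝ))⁻¹ * S0 = (320 * P * S0) / T ^ (1 / 2 : ℝ) / L := by ring
    _ ≤ ε / L := by
      refine div_le_div_of_nonneg_right ?_ hLp.le
      rw [div_le_iff₀ hTp]
      linarith

end Pool.Agent.N967.G
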