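import Mathlib
import Pool.Agent.N967.G.Stm
import Pool.Agent.N967.Prof3

set_option autoImplicit false

/-!
# Baez-Duarte's distance for general L-functions: the profiles of `HH` from the parts
-/

namespace Pool.Agent.N967.G

open Complex MeasureTheory Filter Topology
open Pool.Agent.Y23 (Lg)

namespace Prof

/-- kernels with a faster decay are kernels -/
theorem ker_of_kerB {β : ℝ} (hβ : 19 / 20 ≤ β) {κ : ℂ → ℂ} (h : KerB β κ) : Ker κ := by
  obtain ⟨h1, h2, c, C, hc, hC, h3, h4⟩ := h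
  have key : ∀ y : ℝ, Real.exp (-(c * |y| ^ β)) ≤
      Real.exp c * Real.exp (-(c * |y| ^ (19 / 20 : ℝ))) := by
    intro y
    rw [← Real.exp_add]
    apply Real.exp_le_exp.2
    have h5 : |y| ^ (19 / 20 : ℝ) ≤ 1 + |y| ^ β := by
      rcases le_total 1 |y| with h6 | h6
      · have := Real.rpow_le_rpow_of_exponent_le h6 hβ
        linarith
      · have h7 : |y| ^ (19 / 20 : ℝ) ≤ 1 := Real.rpow_le_one (abs_nonneg _) h6 (by norm_num)
        have h8 : 0 ≤ |y| ^ β := Real.rpow_nonneg (abs_nonneg _) _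
        linarith
    nlinarith
  refine ⟨h1, h2, c, C * Real.exp c, hc, by positivity, ?_, ?_⟩
  · intro z hz
    refine (h3 z hz).trans ?_
    rw [mul_assoc]
    exact mul_le_mul_of_nonneg_left (key z.im) hC.le
  · intro z hz
    refine (h4 z hz).trans ?_
    have e : C * Real.exp c * Real.exp (-z.re) * Real.exp (-(c * |z.im| ^ (19 / 20 : ℝ))) =
        C * Real.exp (-z.re) * (Real.exp c * Real.exp (-(c * |z.im| ^ (19 / 20 : ℝ)))) := by ring
    rw [e]
    exact mul_le_mul_of_nonneg_left (key z.im) (by positivity)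

/-- the L-function is continuous on the critical line -/
theorem L_cont {D : Dat} (h : Base D) : Continuous fun t : ℝ => D.L (1 / 2 + t * I) := by
  unfold Dat.L
  refine Continuous.div ?_ (by fun_prop) ?_
  · rw [continuous_iff_continuousAt]
    intro t
    have h1 : ContinuousAt D.Zs (1 / 2 + t * I) := (h.diff _ (by simp)).continuousAt
    exact ContinuousAt.comp (f := fun t : ℝ => (1 / 2 + t * I : ℂ)) h1
      (by fun_prop)
  · intro t
    apply pow_ne_zero
    intro h2
    have := congrArg Complex.re h2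
    simp at this
    norm_num at this

/-- the error on the line `re z = -1` -/
theorem HR_one (D : Dat) (κ : ℂ → ℂ) (L t : ℝ) : D.HR κ 1 L t = D.HH κ L t := by
  unfold Dat.HR Dat.HH KR KK
  norm_num

/-- the error is continuous -/
theorem HH_cont {D : Dat} (h : Base D) (h1 : S_app D) {κ : ℂ → ℂ} (hκ : Ker κ) {L : ℝ}
    (hL : 4 ≤ L) : Continuous (D.HH κ L) := by
  obtain ⟨a, ha⟩ := h1 κ hκ L hL ⌈Real.exp L⌉₊ (by
    rw [Real.le_log_iff_exp_le (by positivity)]
    have := Nat.le_ceil (Real.exp L)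
    linarith)
  have e : D.HH κ L = fun t : ℝ => 1 - D.L (1 / 2 + t * I) * DP ⌈Real.exp L⌉₊ a (1 / 2 + t * I) := by
    funext t
    rw [ha 1 one_pos t, HR_one]
  rw [e]
  exact continuous_const.sub ((L_cont h).mul (Prof3.DP_cont _ _))

end Prof

/-- the profiles of `HH κ` -/
theorem prof {D : Dat} (h : Rp D) (h1 : Pool.Agent.N967.G.S_app D) (h2 : S_prT D) (h3 : S_prO D)
    (h4 : S_prL D) : S_prof D := by
  obtain ⟨β, hβ, hβ1, H⟩ := h2
  refine ⟨β, hβ, hβ1, fun κ hκB => ?_⟩
  have hκ := Prof.ker_of_kerB hβ hκB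
  exact ⟨fun L hL => Prof.HH_cont h.base h1 hκ hL, fun ρ => Prof3.GG_cont hκ _, H κ hκB,
    h3 κ hκ, h4 κ hκ⟩

end Pool.Agent.N967.G
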