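import Mathlib
import Pool.Agent.N967.G.StmA
import Pool.Agent.N967.Near

set_option autoImplicit false

/-!
# Baez-Duarte's distance for general L-functions: the pointwise bound

From the zeros near a height, the logarithmic derivative near the critical line and the values on the
critical line: the bound for `|Z (1/2 + i t)|` by the value at a shifted point.
-/

namespace Pool.Agent.N967.G

open Complex MeasureTheory Filter Topology
open Pool.Agent.Y23 (Lg)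

namespace Pt

lemma one_lt_Lg (t : ℝ) : 1.09 ≤ Lg t := by
  unfold Lg
  have h1 : Real.log 3 ≤ Real.log (3 + |t|) := Real.log_le_log (by norm_num) (by linarith [abs_nonneg t])
  have h2 : (1.09 : ℝ) ≤ Real.log 3 := by
    rw [Real.le_log_iff_exp_le (by norm_num)]
    have := Real.exp_one_lt_d9
    have h3 : Real.exp (1.09 : ℝ) = Real.exp 1 * Real.exp 0.09 := by rw [← Real.exp_add]; norm_num
    have h4 : Real.exp (0.09 : ℝ) ≤ 1.1 := by
      have h5 := Real.exp_bound' (x := 0.09) (by norm_num) (by norm_num) (n := 3) (by norm_num)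
      norm_num [Finset.sum_range_succ, Nat.factorial] at h5
      linarith
    rw [h3]
    have h6 : 0 < Real.exp (0.09 : ℝ) := Real.exp_pos _
    nlinarith
  linarith

lemma log_Lg_pos (t : ℝ) : 0 < Real.log (Lg t) := Real.log_pos (by linarith [one_lt_Lg t])

lemma near_bound2 {b y v l r β : ℝ} (hβ : 0 < β) (hβ2 : β ^ 2 ≤ b ^ 2 + y ^ 2) (hr : 0 ≤ r) (hv : |v| ≤ l) :
    |y| ≤ 1 → b ^ 2 + (y + v) ^ 2 ≤ (b ^ 2 + y ^ 2) * Real.exp (2 * Pn l β r y) := by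
  intro hy
  have hl : 0 ≤ l := (abs_nonneg v).trans hv
  unfold Pn
  split_ifs with h
  · have h1 := shift_sq (b := b) (y := y) hβ hβ2 hv
    have h2 : Real.exp (2 * Real.log (1 + l / β)) = (1 + l / β) ^ 2 := by
      rw [mul_comm, Real.exp_mul, Real.exp_log (by positivity)]
      norm_num
    rwa [h2]
  · have hy0 : 0 < |y| := lt_of_le_of_lt hr (not_le.1 h)
    have h1 := shift_sq (b := b) (y := y) hy0 (by rw [sq_abs]; nlinarith [sq_nonneg b]) hv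
    refine h1.trans (mul_le_mul_of_nonneg_left ?_ (by positivity))
    have h2 := log_one_add_le_sqrt (u := l / |y|) (by positivity)
    have h3 : 1 + l / |y| ≤ Real.exp (Real.sqrt (l / |y|)) := by
      rwa [← Real.log_le_iff_le_exp (by positivity)]
    calc (1 + l / |y|) ^ 2 ≤ (Real.exp (Real.sqrt (l / |y|))) ^ 2 := by gcongr
      _ = Real.exp (2 * Real.sqrt (l / |y|)) := by rw [← Real.exp_nat_mul]; norm_num

/-- horizontal move -/
lemma near_bound3 {b y e r : ℝ} (hb : 0 < b) (he : 0 < e) (hr : 0 ≤ r) (hy : |y| ≤ 1) :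
    e ^ 2 + y ^ 2 ≤ (b ^ 2 + y ^ 2) * Real.exp (2 * Pn e b r y) := by
  unfold Pn
  split_ifs with h
  · have h2 : Real.exp (2 * Real.log (1 + e / b)) = (1 + e / b) ^ 2 := by
      rw [mul_comm, Real.exp_mul, Real.exp_log (by positivity)]
      norm_num
    rw [h2]
    have h3 : b ^ 2 * (e / b) ^ 2 = e ^ 2 := by field_simp
    have h4 : 0 ≤ e / b := by positivity
    have h5 : (b ^ 2 + y ^ 2) * (1 + e / b) ^ 2 = b ^ 2 * (e / b) ^ 2 + y ^ 2 +
        (b ^ 2 * (1 + 2 * (e / b)) + y ^ 2 * (2 * (e / b) + (e / b) ^ 2)) := by ring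
    rw [h5, h3]
    have : 0 ≤ b ^ 2 * (1 + 2 * (e / b)) + y ^ 2 * (2 * (e / b) + (e / b) ^ 2) := by positivity
    linarith
  · have hy0 : 0 < |y| := lt_of_le_of_lt hr (not_le.1 h)
    have h2 := log_one_add_le_sqrt (u := e / |y|) (by positivity)
    have h3 : 1 + e / |y| ≤ Real.exp (Real.sqrt (e / |y|)) := by
      rwa [← Real.log_le_iff_le_exp (by positivity)]
    have h4 : (1 + e / |y|) ^ 2 ≤ Real.exp (2 * Real.sqrt (e / |y|)) := by
      calc (1 + e / |y|) ^ 2 ≤ (Real.exp (Real.sqrt (e / |y|))) ^ 2 := by gcongr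
        _ = Real.exp (2 * Real.sqrt (e / |y|)) := by rw [← Real.exp_nat_mul]; norm_num
    refine le_trans ?_ (mul_le_mul_of_nonneg_left h4 (by positivity))
    have h5 : y ^ 2 * (e / |y|) ^ 2 = e ^ 2 := by
      rw [← sq_abs y]; field_simp
    have h6 : (b ^ 2 + y ^ 2) * (1 + e / |y|) ^ 2 = y ^ 2 * (e / |y|) ^ 2 + y ^ 2 +
        (b ^ 2 * (1 + e / |y|) ^ 2 + y ^ 2 * (2 * (e / |y|))) := by ring
    rw [h6, h5]
    have : 0 ≤ b ^ 2 * (1 + e / |y|) ^ 2 + y ^ 2 * (2 * (e / |y|)) := by positivity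
    linarith

/-- the near cost, with a bound for the number of zeros in the short interval -/
lemma near_all {D : Dat} {θ C T0 : ℝ} (hθ0 : 0 < θ) (hθ1 : θ ≤ 1) (hC : 0 < C) (hT0 : Real.exp 1 ≤ T0)
    (hS : D.Slope θ C T0) {t l β M : ℝ} (hl : 0 ≤ l) (hβ : 0 < β) (hM : D.Cnt t (rad θ T0 t) M) :
    0 < rad θ T0 t ∧ rad θ T0 t ≤ 1 ∧
      ∀ S : Finset ℂ, (∀ s ∈ S, D.IsZ s ∧ |s.im - t| ≤ 1) →
        ∑ s ∈ S, (D.mu s : ℝ) * Pn l β (rad θ T0 t) (t - s.im) ≤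
        M * Real.log (1 + l / β) + 5 * C * Real.sqrt l * Lg t := by
  classical
  have hX := one_lt_Lg t
  have hlogX := log_Lg_pos t
  have hL := log_one_add_nonneg hl hβ
  have hT0pos : 0 < T0 := (Real.exp_pos 1).trans_le hT0
  rcases le_or_gt T0 (Lg t) with hT | hT
  · have hrad : rad θ T0 t = θ / Real.log (Lg t) := if_pos hT
    have hr0 : 0 < θ / Real.log (Lg t) := by positivity
    have hr1 : θ / Real.log (Lg t) ≤ 1 := by
      rw [div_le_one hlogX]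
      have : 1 ≤ Real.log (Lg t) := by
        rw [Real.le_log_iff_exp_le (by linarith)]
        exact hT0.trans hT
      linarith
    rw [hrad] at hM ⊢
    refine ⟨hr0, hr1, fun S hS1 => ?_⟩
    have h1 := near_sum (S := S) (m := fun s => (D.mu s : ℝ)) (y := fun s => t - s.im) (fun s _ => Nat.cast_nonneg _)
      (fun s hs => by
        have := (hS1 s hs).2
        rwa [abs_sub_comm] at this)
      (C' := C * Lg t) (r0 := θ / Real.log (Lg t)) (M0 := M) (l := l) (b := β)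
      (by positivity) hr0 hl hβ ?_ ?_
    · refine h1.trans (le_of_eq ?_)
      ring
    · exact hM _ (fun s hs => by
        rw [Finset.mem_filter] at hs
        refine ⟨(hS1 s hs.1).1, ?_⟩
        have := hs.2
        rwa [abs_sub_comm] at this)
    · intro r hr hr'
      have := hS t hT r hr hr' (S.filter (fun s => |t - s.im| ≤ r)) (fun s hs => by
        rw [Finset.mem_filter] at hs
        refine ⟨(hS1 s hs.1).1, ?_⟩
        have := hs.2
        rwa [abs_sub_comm] at this)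
      refine this.trans (le_of_eq (by ring))
  · have hrad : rad θ T0 t = 1 := if_neg (not_le.2 hT)
    rw [hrad] at hM ⊢
    refine ⟨one_pos, le_rfl, fun S hS1 => ?_⟩
    have h1 : ∑ s ∈ S, (D.mu s : ℝ) * Pn l β 1 (t - s.im) = (∑ s ∈ S, (D.mu s : ℝ)) * Real.log (1 + l / β) := by
      rw [Finset.sum_mul]
      refine Finset.sum_congr rfl fun s hs => ?_
      unfold Pn
      have := (hS1 s hs).2
      rw [abs_sub_comm] at this
      rw [if_pos this]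
    rw [h1]
    have h3 := mul_le_mul_of_nonneg_right (hM S hS1) hL
    have h5 : 0 ≤ 5 * C * Real.sqrt l * Lg t := by positivity
    linarith

lemma prod_cmp {Z : Finset ℂ} {m : ℂ → ℕ} {s s' : ℂ} {c : ℂ → ℝ}
    (h : ∀ ρ ∈ Z, ‖s - ρ‖ ≤ ‖s' - ρ‖ * Real.exp (c ρ)) :
    ∏ ρ ∈ Z, ‖s - ρ‖ ^ m ρ ≤ (∏ ρ ∈ Z, ‖s' - ρ‖ ^ m ρ) * Real.exp (∑ ρ ∈ Z, (m ρ : ℝ) * c ρ) := by
  rw [Real.exp_sum, ← Finset.prod_mul_distrib]
  refine Finset.prod_le_prod (fun _ _ => by positivity) fun ρ hρ => ?_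
  calc ‖s - ρ‖ ^ m ρ ≤ (‖s' - ρ‖ * Real.exp (c ρ)) ^ m ρ := pow_le_pow_left₀ (norm_nonneg _) (h ρ hρ) _
    _ = ‖s' - ρ‖ ^ m ρ * Real.exp (m ρ * c ρ) := by rw [mul_pow, ← Real.exp_nat_mul]

lemma ratio {D : Dat} {Z : Finset ℂ} {s s' : ℂ} {A : ℝ} {c : ℂ → ℝ} (hZ : ∀ ρ ∈ Z, D.Zs ρ = 0)
    (h : ‖D.Zs s‖ * ∏ ρ ∈ Z, ‖s' - ρ‖ ^ D.mu ρ ≤ Real.exp A * ‖D.Zs s'‖ * ∏ ρ ∈ Z, ‖s - ρ‖ ^ D.mu ρ)
    (hs' : D.Zs s' ≠ 0) (hc : ∀ ρ ∈ Z, ‖s - ρ‖ ≤ ‖s' - ρ‖ * Real.exp (c ρ)) :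
    ‖D.Zs s‖ ≤ Real.exp (A + ∑ ρ ∈ Z, (D.mu ρ : ℝ) * c ρ) * ‖D.Zs s'‖ := by
  have hP : 0 < ∏ ρ ∈ Z, ‖s' - ρ‖ ^ D.mu ρ := by
    refine Finset.prod_pos fun ρ hρ => pow_pos (norm_pos_iff.2 (sub_ne_zero.2 ?_)) _
    rintro rfl
    exact hs' (hZ _ hρ)
  have h1 := prod_cmp (m := D.mu) hc
  have h2 := h.trans (mul_le_mul_of_nonneg_left h1 (by positivity))
  refine le_of_mul_le_mul_right (h2.trans (le_of_eq ?_)) hP
  rw [Real.exp_add]
  ring

lemma pos {D : Dat} (h : Ax D) {τ : ℝ} {ρ : ℂ} (h0 : D.Zs ρ = 0) (h1 : ‖ρ - (5 / 2 + τ * I)‖ ≤ 35 / 16) :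
    ρ.re ≤ 1 / 2 ∧ |ρ.im - τ| ≤ 1 := by
  have h2 : ρ.re ≤ 1 / 2 := by
    by_contra h3
    exact h.zero ρ (not_le.1 h3) h0
  refine ⟨h2, ?_⟩
  have h3 : ‖ρ - (5 / 2 + τ * I)‖ ^ 2 = (ρ.re - 5 / 2) ^ 2 + (ρ.im - τ) ^ 2 := by
    rw [← Complex.normSq_eq_norm_sq, Complex.normSq_apply]
    have e1 : (ρ - (5 / 2 + τ * I)).re = ρ.re - 5 / 2 := by simp
    have e2 : (ρ - (5 / 2 + τ * I)).im = ρ.im - τ := by simp
    rw [e1, e2]
    ring
  have h4 : ‖ρ - (5 / 2 + τ * I)‖ ^ 2 ≤ (35 / 16) ^ 2 := pow_le_pow_left₀ (norm_nonneg _) h1 2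
  rw [h3] at h4
  rw [← sq_le_one_iff_abs_le_one]
  nlinarith

/-- the total cost -/
lemma cost {D : Dat} (h : Ax D) {C1 τ : ℝ} {Z : Finset ℂ}
    (hZ : ∀ ρ : ℂ, ρ ∈ Z ↔ D.Zs ρ = 0 ∧ ‖ρ - (5 / 2 + τ * I)‖ ≤ 35 / 16)
    (hZm : ∑ ρ ∈ Z, (D.mu ρ : ℝ) ≤ C1 * Lg τ) {θ C T0 : ℝ} (hθ0 : 0 < θ) (hθ1 : θ ≤ 1) (hC : 0 < C)
    (hT0 : Real.exp 1 ≤ T0) (hS : D.Slope θ C T0) {l β M k : ℝ} (hl : 0 ≤ l) (hβ : 0 < β) (hk : 0 ≤ k)
    (hM : D.Cnt τ (rad θ T0 τ) M) :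
    ∑ ρ ∈ Z, (D.mu ρ : ℝ) * (if ρ.re = 1 / 2 then Pn l β (rad θ T0 τ) (τ - ρ.im) else k) ≤
      M * Real.log (1 + l / β) + 5 * C * Real.sqrt l * Lg τ + k * (C1 * Lg τ) := by
  classical
  obtain ⟨-, -, hN⟩ := near_all hθ0 hθ1 hC hT0 hS hl hβ hM
  rw [← Finset.sum_filter_add_sum_filter_not Z (fun ρ => ρ.re = 1 / 2)]
  refine add_le_add ?_ ?_
  · refine le_trans (le_of_eq ?_) (hN (Z.filter fun ρ => ρ.re = 1 / 2) ?_)
    · refine Finset.sum_congr rfl fun ρ hρ => ?_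
      rw [if_pos (Finset.mem_filter.1 hρ).2]
    · intro ρ hρ
      have h1 := (hZ ρ).1 (Finset.mem_filter.1 hρ).1
      exact ⟨⟨h1.1, (Finset.mem_filter.1 hρ).2⟩, (pos h h1.1 h1.2).2⟩
  · calc ∑ ρ ∈ Z.filter (fun ρ => ¬ ρ.re = 1 / 2), (D.mu ρ : ℝ) *
          (if ρ.re = 1 / 2 then Pn l β (rad θ T0 τ) (τ - ρ.im) else k)
        = ∑ ρ ∈ Z.filter (fun ρ => ¬ ρ.re = 1 / 2), (D.mu ρ : ℝ) * k := by
          refine Finset.sum_congr rfl fun ρ hρ => ?_
          rw [if_neg (Finset.mem_filter.1 hρ).2]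
      _ ≤ ∑ ρ ∈ Z, (D.mu ρ : ℝ) * k :=
          Finset.sum_le_sum_of_subset_of_nonneg (Finset.filter_subset _ _) fun _ _ _ => by positivity
      _ = (∑ ρ ∈ Z, (D.mu ρ : ℝ)) * k := by rw [Finset.sum_mul]
      _ ≤ C1 * Lg τ * k := mul_le_mul_of_nonneg_right hZm hk
      _ = k * (C1 * Lg τ) := mul_comm _ _

lemma norm_sq' (a b : ℝ) (ρ : ℂ) : ‖(a + b * I : ℂ) - ρ‖ ^ 2 = (a - ρ.re) ^ 2 + (b - ρ.im) ^ 2 := by
  rw [← Complex.normSq_eq_norm_sq, Complex.normSq_apply]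
  have e1 : ((a + b * I : ℂ) - ρ).re = a - ρ.re := by simp
  have e2 : ((a + b * I : ℂ) - ρ).im = b - ρ.im := by simp
  rw [e1, e2]
  ring

lemma le_exp_of_sq {A B c : ℝ} (hA : 0 ≤ A) (hB : 0 ≤ B) (h : A ^ 2 ≤ B ^ 2 * Real.exp (2 * c)) :
    A ≤ B * Real.exp c := by
  have h1 : B ^ 2 * Real.exp (2 * c) = (B * Real.exp c) ^ 2 := by
    rw [mul_pow, ← Real.exp_nat_mul]
    norm_num
  rw [h1] at h
  exact (pow_le_pow_iff_left₀ hA (by positivity) two_ne_zero).1 h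

lemma far_cmp {A B d k : ℝ} (hAB : A ≤ B + d) (hd : d ≤ B * k) (hB : 0 ≤ B) : A ≤ B * Real.exp k := by
  have h1 := Real.add_one_le_exp k
  nlinarith [mul_le_mul_of_nonneg_left h1 hB]

lemma L_fz {D : Dat} {s s' : ℂ} {E : ℝ} (h1 : ‖s' - 1‖ ≤ 2 * ‖s - 1‖) (hs : 0 < ‖s - 1‖) (hs' : D.Zs s' ≠ 0)
    (hE : ‖D.Zs s‖ ≤ E * ‖D.Zs s'‖) (hE0 : 0 ≤ E) : ‖D.L s‖ * ‖D.fz s'‖ ≤ 2 ^ D.p * E := by
  have h2 : 0 < ‖D.Zs s'‖ := norm_pos_iff.2 hs'
  unfold Dat.L Dat.fz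
  rw [norm_div, norm_div, norm_pow, norm_pow]
  have h3 : ‖s' - 1‖ ^ D.p ≤ 2 ^ D.p * ‖s - 1‖ ^ D.p := by
    rw [← mul_pow]
    exact pow_le_pow_left₀ (norm_nonneg _) h1 _
  calc ‖D.Zs s‖ / ‖s - 1‖ ^ D.p * (‖s' - 1‖ ^ D.p / ‖D.Zs s'‖) ≤
      (E * ‖D.Zs s'‖) / ‖s - 1‖ ^ D.p * ((2 ^ D.p * ‖s - 1‖ ^ D.p) / ‖D.Zs s'‖) := by
        refine mul_le_mul (div_le_div_of_nonneg_right hE (by positivity))
          (div_le_div_of_nonneg_right h3 h2.le) (by positivity) (by positivity)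
    _ = 2 ^ D.p * E := by field_simp

lemma fz_fz {D : Dat} {s s' : ℂ} {E : ℝ} (h1 : ‖s' - 1‖ ≤ 2 * ‖s - 1‖) (hs0 : D.Zs s ≠ 0) (hs' : D.Zs s' ≠ 0)
    (hE : ‖D.Zs s‖ ≤ E * ‖D.Zs s'‖) (hE0 : 0 ≤ E) : ‖D.fz s'‖ ≤ 2 ^ D.p * E * ‖D.fz s‖ := by
  have h2 : 0 < ‖D.Zs s'‖ := norm_pos_iff.2 hs'
  have h2' : 0 < ‖D.Zs s‖ := norm_pos_iff.2 hs0
  unfold Dat.fz
  rw [norm_div, norm_div, norm_pow, norm_pow]
  have h3 : ‖s' - 1‖ ^ D.p ≤ 2 ^ D.p * ‖s - 1‖ ^ D.p := by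
    rw [← mul_pow]
    exact pow_le_pow_left₀ (norm_nonneg _) h1 _
  rw [mul_div_assoc', div_le_div_iff₀ h2 h2']
  calc ‖s' - 1‖ ^ D.p * ‖D.Zs s‖ ≤ (2 ^ D.p * ‖s - 1‖ ^ D.p) * (E * ‖D.Zs s'‖) :=
        mul_le_mul h3 hE (norm_nonneg _) (by positivity)
    _ = _ := by ring

lemma two_close {s s' : ℂ} (h1 : 1 / 4 ≤ ‖s - 1‖) (h2 : ‖s' - s‖ ≤ 1 / 4) : ‖s' - 1‖ ≤ 2 * ‖s - 1‖ := by
  have h3 : ‖s' - 1‖ ≤ ‖s' - s‖ + ‖s - 1‖ := by
    have := norm_add_le (s' - s) (s - 1)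
    rwa [sub_add_sub_cancel] at this
  linarith

end Pt

theorem pt {D : Dat} (h : Ax D) (hz : S_zn D) (hl : S_lind D) (hc : S_crit D) : S_pt D := by
  intro η θ C T0 hη hη1 hθ0 hθ1 hC hT0 hS
  obtain ⟨e0, he0, hleft⟩ := h.left
  obtain ⟨C1, hC1, hz⟩ := hz
  set e : ℝ := min (min (1 / 8) (e0 / 2)) (min (η / (8 * (C1 + 2 * C1 / e0))) ((η / (20 * C)) ^ 2)) with hedef
  have hCC : 0 < C1 + 2 * C1 / e0 := by positivity
  have he : 0 < e := lt_min (lt_min (by norm_num) (by positivity)) (lt_min (by positivity) (by positivity))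
  have he1 : e ≤ 1 / 8 := (min_le_left _ _).trans (min_le_left _ _)
  have he2 : e ≤ e0 / 2 := (min_le_left _ _).trans (min_le_right _ _)
  have he3 : 2 * e * (C1 + 2 * C1 / e0) ≤ η / 4 := by
    have h1 : e ≤ η / (8 * (C1 + 2 * C1 / e0)) := (min_le_right _ _).trans (min_le_left _ _)
    rw [le_div_iff₀ (by positivity)] at h1
    linarith
  have he4 : 5 * C * Real.sqrt e ≤ η / 4 := by
    have h1 : e ≤ (η / (20 * C)) ^ 2 := (min_le_right _ _).trans (min_le_right _ _)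
    have h2 : Real.sqrt e ≤ η / (20 * C) := by
      rw [Real.sqrt_le_left (by positivity)]
      exact h1
    calc 5 * C * Real.sqrt e ≤ 5 * C * (η / (20 * C)) := by gcongr
      _ = η / 4 := by field_simp; norm_num
  obtain ⟨K2, hK2, hl2⟩ := hl e (η / 2) he (by positivity)
  obtain ⟨K1, hK1, hc1⟩ := hc η hη
  have hp2 : (0:ℝ) < 2 ^ D.p := by positivity
  have hk : 0 ≤ 4 * e / e0 := by positivity
  have hleft' : ∀ ρ : ℂ, D.Zs ρ = 0 → ρ.re ≤ 1 / 2 → ρ.re ≠ 1 / 2 → ρ.re ≤ 1 / 2 - e0 := by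
    intro ρ h0 h1 h2
    by_contra h3
    exact hleft ρ (not_le.1 h3) (lt_of_le_of_ne h1 h2) h0
  refine ⟨e, 2 ^ D.p * (1 + K1 * K2), he, by linarith, by positivity, ?_, ?_⟩
  · intro x v τ β M hx hv hβ hβ2 hM
    obtain ⟨hr0, hr1, -⟩ := Pt.near_all (l := |v|) hθ0 hθ1 hC hT0 hS (abs_nonneg v) hβ hM
    obtain ⟨Z, hZ, hZm, hZc, -⟩ := hz τ
    have hLτ := Pt.one_lt_Lg τ
    obtain ⟨hx1, hx2⟩ := abs_le.1 hx
    by_cases h0 : D.Zs (1 / 2 + x + τ * I) = 0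
    · have : D.fz (1 / 2 + x + τ * I) = 0 := by
        unfold Dat.fz
        rw [h0, div_zero]
      rw [this, norm_zero, mul_zero]
      positivity
    have es : (1 / 2 + ((τ + v : ℝ) : ℂ) * I : ℂ) = ((1 / 2 : ℝ) : ℂ) + ((τ + v : ℝ) : ℂ) * I := by push_cast; ring
    have es' : (1 / 2 + x + τ * I : ℂ) = ((1 / 2 + x : ℝ) : ℂ) + (τ : ℂ) * I := by push_cast; ring
    set s : ℂ := 1 / 2 + ((τ + v : ℝ) : ℂ) * I with hs
    set s' : ℂ := 1 / 2 + x + τ * I with hs'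
    have hss : ‖s' - s‖ ≤ 2 * e := by
      have e1 : s' - s = (x : ℂ) - (v : ℂ) * I := by rw [hs, hs']; push_cast; ring
      rw [e1]
      refine (norm_sub_le _ _).trans ?_
      rw [norm_mul, Complex.norm_I, mul_one, Complex.norm_real, Complex.norm_real, Real.norm_eq_abs,
        Real.norm_eq_abs]
      linarith
    have hd1 : ‖s - (5 / 2 + τ * I)‖ ≤ 17 / 8 := by
      have e1 : ‖s - (5 / 2 + τ * I)‖ ^ 2 = 4 + v ^ 2 := by
        rw [es, Pt.norm_sq']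
        have e2 : ((5 / 2 + τ * I : ℂ)).re = 5 / 2 := by simp
        have e3 : ((5 / 2 + τ * I : ℂ)).im = τ := by simp
        rw [e2, e3]
        ring
      have e2 : v ^ 2 ≤ (1 / 8) ^ 2 := by
        rw [← sq_abs]
        exact pow_le_pow_left₀ (abs_nonneg v) (hv.trans he1) 2
      refine (pow_le_pow_iff_left₀ (norm_nonneg _) (by norm_num) two_ne_zero).1 ?_
      rw [e1]
      norm_num at e2 ⊢
      linarith
    have hd2 : ‖s' - (5 / 2 + τ * I)‖ ≤ 17 / 8 := by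
      have e1 : s' - (5 / 2 + τ * I) = ((x - 2 : ℝ) : ℂ) := by rw [hs']; push_cast; ring
      rw [e1, Complex.norm_real, Real.norm_eq_abs, abs_le]
      constructor <;> linarith
    have hcmp := hZc s s' hd1 hd2
    have hcc : ∀ ρ ∈ Z, ‖s - ρ‖ ≤ ‖s' - ρ‖ *
        Real.exp (if ρ.re = 1 / 2 then Pn |v| β (rad θ T0 τ) (τ - ρ.im) else 4 * e / e0) := by
      intro ρ hρ
      obtain ⟨hρ0, hρ1⟩ := (hZ ρ).1 hρ
      obtain ⟨hρ2, hρ3⟩ := Pt.pos h hρ0 hρ1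
      split_ifs with h1
      · refine Pt.le_exp_of_sq (norm_nonneg _) (norm_nonneg _) ?_
        rw [es, es', Pt.norm_sq', Pt.norm_sq', h1]
        have h2 := Pt.near_bound2 (b := x) (y := τ - ρ.im) (v := v) (l := |v|) (r := rad θ T0 τ) hβ
          (hβ2 ρ ⟨hρ0, h1⟩ hρ3) hr0.le le_rfl (by rwa [abs_sub_comm])
        have e1 : (1 / 2 + x - 1 / 2 : ℝ) = x := by ring
        have e2 : τ + v - ρ.im = τ - ρ.im + v := by ring
        rw [e1, e2]
        refine le_trans ?_ h2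
        have : 0 ≤ x ^ 2 := sq_nonneg x
        linarith
      · have h2 := hleft' ρ hρ0 hρ2 h1
        have h3 : e0 / 2 ≤ ‖s' - ρ‖ := by
          have h4 := Complex.re_le_norm (s' - ρ)
          have h5 : (s' - ρ).re = 1 / 2 + x - ρ.re := by rw [es']; simp
          rw [h5] at h4
          linarith
        refine Pt.far_cmp (d := 2 * e) ?_ ?_ (norm_nonneg _)
        · have := norm_add_le (s' - ρ) (s - s')
          have e1 : s' - ρ + (s - s') = s - ρ := by ring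
          rw [e1, norm_sub_rev s s'] at this
          linarith
        · have h4 : e0 / 2 * (4 * e / e0) = 2 * e := by field_simp; norm_num
          rw [← h4]
          exact mul_le_mul_of_nonneg_right h3 hk
    have hR := Pt.ratio (fun ρ hρ => ((hZ ρ).1 hρ).1) hcmp h0 hcc
    have hcost := Pt.cost h hZ hZm hθ0 hθ1 hC hT0 hS (l := |v|) (β := β) (k := 4 * e / e0) (abs_nonneg v) hβ hk hM
    have hs1 : 1 / 4 ≤ ‖s - 1‖ := by
      have h4 := Complex.abs_re_le_norm (s - 1)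
      have h5 : (s - 1).re = -(1 / 2) := by rw [es]; simp; norm_num
      rw [h5, abs_neg, abs_of_pos (by norm_num : (0:ℝ) < 1 / 2)] at h4
      linarith
    have hfin := Pt.L_fz (Pt.two_close hs1 (hss.trans (by linarith))) (by linarith) h0 hR (Real.exp_pos _).le
    refine hfin.trans ?_
    have hE : Real.exp (C1 * Lg τ * ‖s - s'‖ + ∑ ρ ∈ Z, (D.mu ρ : ℝ) *
        (if ρ.re = 1 / 2 then Pn |v| β (rad θ T0 τ) (τ - ρ.im) else 4 * e / e0)) ≤
        Real.exp (η * Lg τ + M * Real.log (1 + |v| / β)) := by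
      rw [Real.exp_le_exp]
      have q1 : C1 * Lg τ * ‖s - s'‖ ≤ C1 * Lg τ * (2 * e) := by
        rw [norm_sub_rev]
        exact mul_le_mul_of_nonneg_left hss (by positivity)
      have q2 : 5 * C * Real.sqrt |v| * Lg τ ≤ η / 4 * Lg τ := by
        refine mul_le_mul_of_nonneg_right (le_trans ?_ he4) (by linarith)
        exact mul_le_mul_of_nonneg_left (Real.sqrt_le_sqrt hv) (by positivity)
      have q3 : C1 * Lg τ * (2 * e) + 4 * e / e0 * (C1 * Lg τ) = 2 * e * (C1 + 2 * C1 / e0) * Lg τ := by ring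
      have q4 := mul_le_mul_of_nonneg_right he3 (by linarith : 0 ≤ Lg τ)
      have q5 : 0 ≤ η * Lg τ := by positivity
      linarith
    calc 2 ^ D.p * Real.exp (C1 * Lg τ * ‖s - s'‖ + ∑ ρ ∈ Z, (D.mu ρ : ℝ) *
        (if ρ.re = 1 / 2 then Pn |v| β (rad θ T0 τ) (τ - ρ.im) else 4 * e / e0)) ≤
        2 ^ D.p * Real.exp (η * Lg τ + M * Real.log (1 + |v| / β)) := mul_le_mul_of_nonneg_left hE hp2.le
      _ ≤ 2 ^ D.p * (1 + K1 * K2) * Real.exp (η * Lg τ + M * Real.log (1 + |v| / β)) := by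
          refine mul_le_mul_of_nonneg_right ?_ (Real.exp_pos _).le
          refine le_mul_of_one_le_right hp2.le ?_
          have : 0 ≤ K1 * K2 := by positivity
          linarith
  · intro b t τ M hb hbe hM
    obtain ⟨hr0, hr1, -⟩ := Pt.near_all (l := e) hθ0 hθ1 hC hT0 hS he.le hb hM
    obtain ⟨Z, hZ, hZm, hZc, -⟩ := hz τ
    have hLτ := Pt.one_lt_Lg τ
    have hLt := Pt.one_lt_Lg t
    have es : (1 / 2 + e + (τ : ℂ) * I : ℂ) = ((1 / 2 + e : ℝ) : ℂ) + (τ : ℂ) * I := by push_cast; ring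
    have es' : (1 / 2 + b + τ * I : ℂ) = ((1 / 2 + b : ℝ) : ℂ) + (τ : ℂ) * I := by push_cast; ring
    set s : ℂ := 1 / 2 + e + τ * I with hs
    set s' : ℂ := 1 / 2 + b + τ * I with hs'
    have hs0 : D.Zs s ≠ 0 := h.zero s (by rw [es]; simp; linarith)
    have hs'0 : D.Zs s' ≠ 0 := h.zero s' (by rw [es']; simp; linarith)
    have hss : ‖s' - s‖ ≤ e := by
      have e1 : s' - s = ((b - e : ℝ) : ℂ) := by rw [hs, hs']; push_cast; ring
      rw [e1, Complex.norm_real, Real.norm_eq_abs, abs_le]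
      constructor <;> linarith
    have hd1 : ‖s - (5 / 2 + τ * I)‖ ≤ 17 / 8 := by
      have e1 : s - (5 / 2 + τ * I) = ((e - 2 : ℝ) : ℂ) := by rw [hs]; push_cast; ring
      rw [e1, Complex.norm_real, Real.norm_eq_abs, abs_le]
      constructor <;> linarith
    have hd2 : ‖s' - (5 / 2 + τ * I)‖ ≤ 17 / 8 := by
      have e1 : s' - (5 / 2 + τ * I) = ((b - 2 : ℝ) : ℂ) := by rw [hs']; push_cast; ring
      rw [e1, Complex.norm_real, Real.norm_eq_abs, abs_le]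
      constructor <;> linarith
    have hcmp := hZc s s' hd1 hd2
    have hcc : ∀ ρ ∈ Z, ‖s - ρ‖ ≤ ‖s' - ρ‖ *
        Real.exp (if ρ.re = 1 / 2 then Pn e b (rad θ T0 τ) (τ - ρ.im) else 4 * e / e0) := by
      intro ρ hρ
      obtain ⟨hρ0, hρ1⟩ := (hZ ρ).1 hρ
      obtain ⟨hρ2, hρ3⟩ := Pt.pos h hρ0 hρ1
      split_ifs with h1
      · refine Pt.le_exp_of_sq (norm_nonneg _) (norm_nonneg _) ?_
        rw [es, es', Pt.norm_sq', Pt.norm_sq', h1]
        have h2 := Pt.near_bound3 (b := b) (y := τ - ρ.im) (e := e) (r := rad θ T0 τ) hb he hr0.le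
          (by rwa [abs_sub_comm])
        have e1 : (1 / 2 + e - 1 / 2 : ℝ) = e := by ring
        have e2 : (1 / 2 + b - 1 / 2 : ℝ) = b := by ring
        rw [e1, e2]
        exact h2
      · have h2 := hleft' ρ hρ0 hρ2 h1
        have h3 : e0 / 2 ≤ ‖s' - ρ‖ := by
          have h4 := Complex.re_le_norm (s' - ρ)
          have h5 : (s' - ρ).re = 1 / 2 + b - ρ.re := by rw [es']; simp
          rw [h5] at h4
          linarith
        refine Pt.far_cmp (d := 2 * e) ?_ ?_ (norm_nonneg _)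
        · have := norm_add_le (s' - ρ) (s - s')
          have e1 : s' - ρ + (s - s') = s - ρ := by ring
          rw [e1, norm_sub_rev s s'] at this
          linarith
        · have h4 : e0 / 2 * (4 * e / e0) = 2 * e := by field_simp; norm_num
          rw [← h4]
          exact mul_le_mul_of_nonneg_right h3 hk
    have hR := Pt.ratio (fun ρ hρ => ((hZ ρ).1 hρ).1) hcmp hs'0 hcc
    have hcost := Pt.cost h hZ hZm hθ0 hθ1 hC hT0 hS (l := e) (β := b) (k := 4 * e / e0) he.le hb hk hM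
    have hs1 : 1 / 4 ≤ ‖s - 1‖ := by
      have h4 := Complex.abs_re_le_norm (s - 1)
      have h5 : (s - 1).re = -(1 / 2 - e) := by rw [es]; simp; ring
      rw [h5, abs_neg, abs_of_pos (by linarith)] at h4
      linarith
    have hfin := Pt.fz_fz (Pt.two_close hs1 (hss.trans (by linarith))) hs0 hs'0 hR (Real.exp_pos _).le
    have hfe : ‖D.fz s‖ ≤ K2 * Real.exp (η / 2 * Lg τ) := by
      have h1 := (hl2 s (by rw [es]; simp)).2
      have h2 : s.im = τ := by rw [es]; simp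
      rwa [h2] at h1
    have hM0 : 0 ≤ M := by
      have := hM ∅ (by simp)
      simpa using this
    have hE : Real.exp (C1 * Lg τ * ‖s - s'‖ + ∑ ρ ∈ Z, (D.mu ρ : ℝ) *
        (if ρ.re = 1 / 2 then Pn e b (rad θ T0 τ) (τ - ρ.im) else 4 * e / e0)) ≤
        Real.exp (η / 2 * Lg τ + M * Real.log (1 + 1 / b)) := by
      rw [Real.exp_le_exp]
      have q0 : M * Real.log (1 + e / b) ≤ M * Real.log (1 + 1 / b) := by
        refine mul_le_mul_of_nonneg_left (Real.log_le_log (by positivity) ?_) hM0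
        have : e / b ≤ 1 / b := div_le_div_of_nonneg_right (by linarith) hb.le
        linarith
      have q1 : C1 * Lg τ * ‖s - s'‖ ≤ C1 * Lg τ * (2 * e) := by
        rw [norm_sub_rev]
        exact mul_le_mul_of_nonneg_left (hss.trans (by linarith)) (by positivity)
      have q2 : 5 * C * Real.sqrt e * Lg τ ≤ η / 4 * Lg τ :=
        mul_le_mul_of_nonneg_right he4 (by linarith)
      have q3 : C1 * Lg τ * (2 * e) + 4 * e / e0 * (C1 * Lg τ) = 2 * e * (C1 + 2 * C1 / e0) * Lg τ := by ring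
      have q4 := mul_le_mul_of_nonneg_right he3 (by linarith : 0 ≤ Lg τ)
      linarith
    have h1 := hc1 t
    calc ‖D.L (1 / 2 + t * I)‖ * ‖D.fz s'‖ ≤ (K1 * Real.exp (η * Lg t)) *
        (2 ^ D.p * Real.exp (η / 2 * Lg τ + M * Real.log (1 + 1 / b)) * (K2 * Real.exp (η / 2 * Lg τ))) := by
          refine mul_le_mul h1 (hfin.trans ?_) (norm_nonneg _) (by positivity)
          exact mul_le_mul (mul_le_mul_of_nonneg_left hE hp2.le) hfe (norm_nonneg _) (by positivity)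
      _ = 2 ^ D.p * (K1 * K2) * (Real.exp (η * Lg t) * (Real.exp (η / 2 * Lg τ + M * Real.log (1 + 1 / b)) *
          Real.exp (η / 2 * Lg τ))) := by ring
      _ = 2 ^ D.p * (K1 * K2) * Real.exp (η * Lg t + η * Lg τ + M * Real.log (1 + 1 / b)) := by
          rw [← Real.exp_add, ← Real.exp_add]
          congr 2
          ring
      _ ≤ 2 ^ D.p * (1 + K1 * K2) * Real.exp (η * Lg t + η * Lg τ + M * Real.log (1 + 1 / b)) := by
          refine mul_le_mul_of_nonneg_right (mul_le_mul_of_nonneg_left ?_ hp2.le) (Real.exp_pos _).le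
          linarith

end Pool.Agent.N967.G
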