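import Mathlib
import Pool.Agent.N967.G.Stm

set_option autoImplicit false

/-!
# The choice of the line: real inequalities
-/

namespace Pool.Agent.N967.G

open Complex MeasureTheory Filter Topology

namespace RealB

/-- powers -/
theorem pow_le {a b c C : ℝ} (ha : 0 < a) (hab : a < b) (hc : 0 < c) (hC : 0 ≤ C) :
    ∃ K : ℝ, 0 < K ∧ ∀ u : ℝ, 0 ≤ u → C * (1 + u) ^ a ≤ c * u ^ b + K := by
  obtain ⟨U, hU⟩ : ∃ U : ℝ, U = max 1 ((C * 2 ^ a / c) ^ (1 / (b - a))) := ⟨_, rfl⟩
  have hU1 : 1 ≤ U := by rw [hU]; exact le_max_left _ _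
  refine ⟨C * (1 + U) ^ a + 1, by positivity, ?_⟩
  intro u hu
  by_cases h : u ≤ U
  · have h1 : (1 + u) ^ a ≤ (1 + U) ^ a := Real.rpow_le_rpow (by positivity) (by linarith) ha.le
    have h2 : C * (1 + u) ^ a ≤ C * (1 + U) ^ a := mul_le_mul_of_nonneg_left h1 hC
    have h3 : 0 ≤ c * u ^ b := by positivity
    linarith
  · push Not at h
    have h1 : 1 ≤ u := hU1.trans h.le
    have h2 : (C * 2 ^ a / c) ^ (1 / (b - a)) ≤ u := by
      refine le_trans ?_ h.le
      rw [hU]; exact le_max_right _ _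
    have hq : 0 ≤ C * 2 ^ a / c := by positivity
    have h3 : C * 2 ^ a / c ≤ u ^ (b - a) := by
      calc C * 2 ^ a / c = ((C * 2 ^ a / c) ^ (1 / (b - a))) ^ (b - a) := by
            rw [← Real.rpow_mul hq, one_div, inv_mul_cancel₀ (by linarith), Real.rpow_one]
        _ ≤ u ^ (b - a) := Real.rpow_le_rpow (by positivity) h2 (by linarith)
    have h4 : (1 + u) ^ a ≤ 2 ^ a * u ^ a := by
      rw [← Real.mul_rpow (by norm_num) hu]
      exact Real.rpow_le_rpow (by positivity) (by linarith) ha.le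
    have h5 : u ^ b = u ^ (b - a) * u ^ a := by
      rw [← Real.rpow_add (by linarith)]; congr 1; ring
    have h6 : C * 2 ^ a ≤ c * u ^ (b - a) := by
      rw [div_le_iff₀ hc] at h3; linarith
    have h7 : 0 ≤ u ^ a := by positivity
    have h8 : 0 ≤ C * (1 + U) ^ a := by positivity
    calc C * (1 + u) ^ a ≤ C * (2 ^ a * u ^ a) := mul_le_mul_of_nonneg_left h4 hC
      _ = (C * 2 ^ a) * u ^ a := by ring
      _ ≤ (c * u ^ (b - a)) * u ^ a := mul_le_mul_of_nonneg_right h6 h7
      _ = c * u ^ b := by rw [h5]; ring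
      _ ≤ c * u ^ b + (C * (1 + U) ^ a + 1) := by linarith

theorem log_le {ε u : ℝ} (hε : 0 < ε) (hu : 0 ≤ u) : Real.log (1 + u) ≤ (1 + u) ^ ε / ε :=
  Real.log_le_rpow_div (by linarith) hε

/-- logarithms -/
theorem log_bd {b c k : ℝ} (hb : 1 / 4 < b) (hc : 0 < c) (hk : 0 ≤ k) :
    ∃ K : ℝ, 0 < K ∧ ∀ u : ℝ, 0 ≤ u → k * Real.log (1 + u) ≤ c * u ^ b + K := by
  obtain ⟨K, hK, h⟩ := pow_le (a := 1 / 4) (b := b) (c := c) (C := 4 * k) (by norm_num) hb hc
    (by positivity)
  refine ⟨K, hK, fun u hu => ?_⟩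
  have h1 := log_le (ε := 1 / 4) (by norm_num) hu
  have h2 := mul_le_mul_of_nonneg_left h1 hk
  have h3 := h u hu
  have e : k * ((1 + u) ^ (1 / 4 : ℝ) / (1 / 4)) = 4 * k * (1 + u) ^ (1 / 4 : ℝ) := by ring
  rw [e] at h2
  linarith

/-- the product of two logarithms -/
theorem log2_bd {b c k e : ℝ} (hb : 1 / 2 < b) (hc : 0 < c) (hk : 0 ≤ k) (he : 0 < e) (he1 : e ≤ 1) :
    ∃ K : ℝ, 0 < K ∧ ∀ u : ℝ, 0 ≤ u →
      k * (Real.log (1 + u) * Real.log (1 + u / e)) ≤ c * u ^ b + K := by
  obtain ⟨K, hK, h⟩ := pow_le (a := 1 / 2) (b := b) (c := c) (C := 16 * k / e) (by norm_num) hb hc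
    (by positivity)
  refine ⟨K, hK, fun u hu => ?_⟩
  have h1 := log_le (ε := 1 / 4) (by norm_num) hu
  have h2 := log_le (ε := 1 / 4) (by norm_num) (show 0 ≤ u / e by positivity)
  have h0 : 0 ≤ Real.log (1 + u / e) := Real.log_nonneg (by
    have : 0 ≤ u / e := by positivity
    linarith)
  have h3 : (1 + u / e) ^ (1 / 4 : ℝ) ≤ (1 + u) ^ (1 / 4 : ℝ) / e := by
    have h4 : 1 + u / e ≤ (1 + u) / e := by
      rw [add_div]
      have : 1 ≤ 1 / e := by rw [le_div_iff₀ he]; linarith
      linarith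
    have h5 : (1 + u / e) ^ (1 / 4 : ℝ) ≤ ((1 + u) / e) ^ (1 / 4 : ℝ) :=
      Real.rpow_le_rpow (by positivity) h4 (by norm_num)
    refine h5.trans ?_
    rw [Real.div_rpow (by linarith) he.le]
    have h6 : e ≤ e ^ (1 / 4 : ℝ) := by
      calc e = e ^ (1 : ℝ) := (Real.rpow_one e).symm
        _ ≤ e ^ (1 / 4 : ℝ) := Real.rpow_le_rpow_of_exponent_ge he he1 (by norm_num)
    exact div_le_div_of_nonneg_left (by positivity) he h6
  have h7 : Real.log (1 + u) * Real.log (1 + u / e) ≤
      ((1 + u) ^ (1 / 4 : ℝ) / (1 / 4)) * (((1 + u) ^ (1 / 4 : ℝ) / e) / (1 / 4)) := by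
    refine mul_le_mul h1 (h2.trans ?_) h0 (by positivity)
    exact div_le_div_of_nonneg_right h3 (by norm_num)
  have h8 : (1 + u) ^ (1 / 4 : ℝ) * (1 + u) ^ (1 / 4 : ℝ) = (1 + u) ^ (1 / 2 : ℝ) := by
    rw [← Real.rpow_add (by linarith)]; norm_num
  have h9 := mul_le_mul_of_nonneg_left h7 hk
  have e1 : k * (((1 + u) ^ (1 / 4 : ℝ) / (1 / 4)) * (((1 + u) ^ (1 / 4 : ℝ) / e) / (1 / 4))) =
      16 * k / e * ((1 + u) ^ (1 / 4 : ℝ) * (1 + u) ^ (1 / 4 : ℝ)) := by
    field_simp
    ring
  rw [e1, h8] at h9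
  linarith [h u hu]

/-- `X / log (2 + X)` is small -/
theorem div_log_bd {C δ : ℝ} (hC : 0 ≤ C) (hδ : 0 < δ) :
    ∃ K : ℝ, 0 < K ∧ ∀ X : ℝ, 1 ≤ X → C * (X / Real.log (2 + X)) ≤ δ * X + K := by
  refine ⟨C * Real.exp (C / δ) + 1, by positivity, fun X hX => ?_⟩
  have hl : 1 ≤ Real.log (2 + X) := by
    rw [Real.le_log_iff_exp_le (by linarith)]
    have := Real.exp_one_lt_d9
    linarith
  by_cases h : C / δ ≤ Real.log (2 + X)
  · have h1 : C ≤ δ * Real.log (2 + X) := by rw [div_le_iff₀ hδ] at h; linarith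
    have h2 : C * (X / Real.log (2 + X)) ≤ δ * X := by
      rw [← mul_div_assoc, div_le_iff₀ (by linarith)]
      nlinarith
    have : 0 ≤ C * Real.exp (C / δ) := by positivity
    linarith
  · push Not at h
    have h1 : 2 + X < Real.exp (C / δ) := (Real.log_lt_iff_lt_exp (by linarith)).1 h
    have h2 : X / Real.log (2 + X) ≤ X := div_le_self (by linarith) hl
    have h3 : C * (X / Real.log (2 + X)) ≤ C * Real.exp (C / δ) :=
      mul_le_mul_of_nonneg_left (by linarith) hC
    have : 0 ≤ δ * X := by positivity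
    linarith

/-- the main estimate: the line `X ^ ν` -/
theorem claimA {A η β ν g : ℝ} (hA : 0 < A) (hη : 0 < η) (hg : g = η / (8 * A)) (hν : 0 < ν)
    (hs : 1 / (ν + g) < β) {c : ℝ} (hc : 0 < c) :
    ∃ K : ℝ, 0 < K ∧ ∀ X u : ℝ, 1 ≤ X → 0 ≤ u →
      4 * A * X / Real.log (2 + X) * Real.log (1 + u / X ^ ν) ≤ η * X / 2 + c * u ^ β + K := by
  have hg0 : 0 < g := by rw [hg]; positivity
  obtain ⟨s, hs'⟩ : ∃ s, s = 1 / (ν + g) := ⟨_, rfl⟩
  have hs0 : 0 < s := by rw [hs']; positivity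
  rw [← hs'] at hs
  obtain ⟨q, hq⟩ : ∃ q : ℝ, q = 1 - (3 : ℝ) ^ (-g) := ⟨_, rfl⟩
  have hq0 : 0 < q := by
    have : (3 : ℝ) ^ (-g) < 1 := Real.rpow_lt_one_of_one_lt_of_neg (by norm_num) (by linarith)
    rw [hq]; linarith
  obtain ⟨K, hK, h⟩ := pow_le (a := (s + β) / 2) (b := β) (c := c)
    (C := 4 * A * (1 / q) ^ s * (2 / (β - s))) (by linarith) (by linarith) hc (by
      have : 0 < β - s := by linarith
      positivity)
  refine ⟨K, hK, fun X u hX hu => ?_⟩
  have hl : 1 ≤ Real.log (2 + X) := by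
    rw [Real.le_log_iff_exp_le (by linarith)]
    have := Real.exp_one_lt_d9
    linarith
  have hXν : 1 ≤ X ^ ν := Real.one_le_rpow hX hν.le
  have hP : 0 ≤ 4 * A * X / Real.log (2 + X) := by positivity
  have hx1 : 0 < 1 + u / X ^ ν := by positivity
  by_cases h1 : 1 + u / X ^ ν ≤ (2 + X) ^ g
  · have h2 : Real.log (1 + u / X ^ ν) ≤ g * Real.log (2 + X) := by
      rw [← Real.log_rpow (by linarith)]
      exact Real.log_le_log hx1 h1
    have h3 := mul_le_mul_of_nonneg_left h2 hP
    have h4 : 4 * A * X / Real.log (2 + X) * (g * Real.log (2 + X)) = η * X / 2 := by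
      rw [hg]
      field_simp
      ring
    have : 0 ≤ c * u ^ β := by positivity
    linarith
  · push Not at h1
    have h2 : (2 + X) ^ g ≥ 3 ^ g := Real.rpow_le_rpow (by norm_num) (by linarith) hg0.le
    have h3 : q * X ^ g ≤ (2 + X) ^ g - 1 := by
      have h4 : X ^ g ≤ (2 + X) ^ g := Real.rpow_le_rpow (by linarith) (by linarith) hg0.le
      have h5 : 1 ≤ (3 : ℝ) ^ (-g) * (2 + X) ^ g := by
        rw [Real.rpow_neg (by norm_num), inv_mul_eq_div, le_div_iff₀ (by positivity)]
        linarith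
      have h6 : q * X ^ g ≤ q * (2 + X) ^ g := mul_le_mul_of_nonneg_left h4 hq0.le
      rw [hq] at h6 ⊢
      linarith
    have h4 : q * X ^ (ν + g) ≤ u := by
      have h5 : q * X ^ g ≤ u / X ^ ν := by linarith
      rw [le_div_iff₀ (by linarith)] at h5
      rw [Real.rpow_add (by linarith)]
      linarith
    have h5 : X ≤ (u / q) ^ s := by
      have h6 : X ^ (ν + g) ≤ u / q := by rw [le_div_iff₀ hq0]; linarith
      calc X = (X ^ (ν + g)) ^ s := by
            rw [← Real.rpow_mul (by linarith), hs', mul_one_div, div_self (by linarith),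
              Real.rpow_one]
        _ ≤ (u / q) ^ s := Real.rpow_le_rpow (by positivity) h6 hs0.le
    have h6 : (u / q) ^ s ≤ (1 / q) ^ s * (1 + u) ^ s := by
      rw [← Real.mul_rpow (by positivity) (by linarith)]
      refine Real.rpow_le_rpow (by positivity) ?_ hs0.le
      rw [one_div, inv_mul_eq_div]
      exact div_le_div_of_nonneg_right (by linarith) hq0.le
    have h7 : Real.log (1 + u / X ^ ν) ≤ Real.log (1 + u) := by
      refine Real.log_le_log hx1 ?_
      have := div_le_self hu hXν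
      linarith
    have h8 : Real.log (1 + u) ≤ (1 + u) ^ ((β - s) / 2) / ((β - s) / 2) :=
      log_le (by linarith) hu
    have h9 : 0 ≤ Real.log (1 + u / X ^ ν) := Real.log_nonneg (by
      have : 0 ≤ u / X ^ ν := by positivity
      linarith)
    have h10 : 4 * A * X / Real.log (2 + X) ≤ 4 * A * ((1 / q) ^ s * (1 + u) ^ s) := by
      refine (div_le_self (by positivity) hl).trans ?_
      exact mul_le_mul_of_nonneg_left (h5.trans h6) (by positivity)
    have h11 : 4 * A * X / Real.log (2 + X) * Real.log (1 + u / X ^ ν) ≤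
        4 * A * ((1 / q) ^ s * (1 + u) ^ s) * ((1 + u) ^ ((β - s) / 2) / ((β - s) / 2)) :=
      mul_le_mul h10 (h7.trans h8) h9 (by positivity)
    have h12 : (1 + u) ^ s * (1 + u) ^ ((β - s) / 2) = (1 + u) ^ ((s + β) / 2) := by
      rw [← Real.rpow_add (by linarith)]; congr 1; ring
    have h13 : 4 * A * ((1 / q) ^ s * (1 + u) ^ s) * ((1 + u) ^ ((β - s) / 2) / ((β - s) / 2)) =
        4 * A * (1 / q) ^ s * (2 / (β - s)) * (1 + u) ^ ((s + β) / 2) := by
      rw [← h12]
      have : β - s ≠ 0 := by linarith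
      field_simp
    rw [h13] at h11
    have h14 := h u hu
    have : 0 ≤ η * X / 2 := by positivity
    linarith

theorem aux1 {u : ℝ} (hu : 0 ≤ u) : 1 + u ^ 2 ≤ (1 + u) ^ 2 := by nlinarith

theorem aux2 {R X u : ℝ} (hR : R ≤ X) (hX : 1 ≤ X) (hu : 0 ≤ u) : R + u ≤ X * (1 + u) := by
  nlinarith

theorem aux3 {η a b : ℝ} (hη : η ≤ 1) (ha : 0 ≤ a) (hab : a ≤ b) : 2 * η * a ≤ 2 * b := by
  nlinarith

end RealB

open RealB in
theorem real : S_real := by
  intro A η hA hη hη1
  obtain ⟨g, hg⟩ : ∃ g : ℝ, g = η / (8 * A) := ⟨_, rfl⟩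
  have hg0 : 0 < g := by rw [hg]; positivity
  obtain ⟨g1, hg1⟩ : ∃ g1 : ℝ, g1 = min g 1 := ⟨_, rfl⟩
  have hg10 : 0 < g1 := by rw [hg1]; exact lt_min hg0 one_pos
  have hg11 : g1 ≤ 1 := by rw [hg1]; exact min_le_right _ _
  have hg1g : g1 ≤ g := by rw [hg1]; exact min_le_left _ _
  obtain ⟨ν, hν⟩ : ∃ ν : ℝ, ν = 1 - g1 / 4 := ⟨_, rfl⟩
  obtain ⟨β, hβ⟩ : ∃ β : ℝ, β = max (19 / 20) (1 / (1 + g1 / 2)) := ⟨_, rfl⟩
  have hβ1 : 19 / 20 ≤ β := by rw [hβ]; exact le_max_left _ _
  have hβ2 : 1 / (1 + g1 / 2) ≤ β := by rw [hβ]; exact le_max_right _ _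
  have hβ3 : β < 1 := by
    rw [hβ]
    refine max_lt (by norm_num) ?_
    rw [div_lt_one (by linarith)]
    linarith
  have hν0 : 0 < ν := by rw [hν]; linarith
  have hν1 : ν < 1 := by rw [hν]; linarith
  have hs : 1 / (ν + g) < β := by
    refine lt_of_lt_of_le ?_ hβ2
    refine one_div_lt_one_div_of_lt (by linarith) ?_
    rw [hν]; linarith
  have hβ0 : 0 < β := by linarith
  refine ⟨β, ν, hβ1, hβ3, hν0, hν1, ?_⟩
  intro c e hc he he4
  obtain ⟨K1, hK1, h1⟩ := claimA hA hη hg hν0 hs (c := c / 4) (by positivity)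
  obtain ⟨K2, hK2, h2⟩ := claimA hA hη hg hν0 hs (c := c / 8 * e ^ β) (by positivity)
  obtain ⟨K3, hK3, h3⟩ := div_log_bd (C := 4 * A * Real.log 2) (δ := η / 2)
    (by have := Real.log_nonneg (show (1 : ℝ) ≤ 2 by norm_num); positivity) (by positivity)
  have hlog1e : 0 ≤ Real.log (1 + 1 / e) := Real.log_nonneg (by
    have : 0 ≤ 1 / e := by positivity
    linarith)
  obtain ⟨K4, hK4, h4⟩ := div_log_bd (C := 2 * A * Real.log (1 + 1 / e)) (δ := η / 2)
    (by positivity) (by positivity)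
  obtain ⟨K5, hK5, h5⟩ := log_bd (b := β) (c := c / 4) (k := 3) (by linarith) (by positivity)
    (by norm_num)
  obtain ⟨K6, hK6, h6⟩ := log_bd (b := 1) (c := η / 2) (k := 1) (by norm_num) (by positivity)
    (by norm_num)
  obtain ⟨K7, hK7, h7⟩ := pow_le (a := ν) (b := 1) (c := η) (C := 1) hν0 hν1 hη (by norm_num)
  obtain ⟨K8, hK8, h8⟩ := log2_bd (b := β) (c := c / 8) (k := 4 * A) (e := e) (by linarith)
    (by positivity) (by positivity) he (by linarith)
  obtain ⟨K9, hK9, h9⟩ := log_bd (b := β) (c := c / 4) (k := 5) (by linarith) (by positivity)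
    (by norm_num)
  obtain ⟨K, hK⟩ : ∃ K : ℝ, K = Real.exp (K1 + K3 + K5 + K6) + K7 +
    1 / e * Real.exp (K2 + K4 + K8 + K9) := ⟨_, rfl⟩
  have hE1 : 0 < Real.exp (K1 + K3 + K5 + K6) := Real.exp_pos _
  have hE2 : 0 < 1 / e * Real.exp (K2 + K4 + K8 + K9) := by positivity
  refine ⟨K, 1 / e, by rw [hK]; positivity, by rw [le_div_iff₀ he]; linarith, ?_⟩
  intro X L hX hL
  have hL1 : 1 ≤ L := le_trans (by rw [le_div_iff₀ he]; linarith) hL
  have hL0 : 0 < L := by linarith
  have heL : 1 ≤ e * L := by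
    rw [div_le_iff₀ he] at hL; linarith
  have hl : 1 ≤ Real.log (2 + X) := by
    rw [Real.le_log_iff_exp_le (by linarith)]
    have := Real.exp_one_lt_d9
    linarith
  have hXν : 1 ≤ X ^ ν := Real.one_le_rpow hX hν0.le
  have hXν2 : X ^ ν ≤ X := by
    calc X ^ ν ≤ X ^ (1 : ℝ) := Real.rpow_le_rpow_of_exponent_le hX hν1.le
      _ = X := Real.rpow_one X
  obtain ⟨R, hR⟩ : ∃ R : ℝ, R = min (X ^ ν) (e * L) := ⟨_, rfl⟩
  have hR1 : 1 ≤ R := by rw [hR]; exact le_min hXν heL
  have hRν : R ≤ X ^ ν := by rw [hR]; exact min_le_left _ _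
  have hRe : R ≤ e * L := by rw [hR]; exact min_le_right _ _
  have hR0 : 0 < R := by linarith
  refine ⟨R, hR1, hRe, ?_, ?_, ?_⟩
  · have h10 := h7 X (by linarith)
    rw [Real.rpow_one, one_mul] at h10
    have h11 : X ^ ν ≤ (1 + X) ^ ν := Real.rpow_le_rpow (by linarith) (by linarith) hν0.le
    rw [hK]
    linarith
  · -- near part
    intro y hy
    obtain ⟨u, hu⟩ : ∃ u : ℝ, u = |y| := ⟨_, rfl⟩
    have hu0 : 0 ≤ u := by rw [hu]; exact abs_nonneg y
    have hy2 : y ^ 2 = u ^ 2 := by rw [hu, sq_abs]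
    rw [hy2, ← hu]
    rw [← hu] at hy
    have hub : 0 ≤ u ^ β := by positivity
    have hcub : 0 ≤ c * u ^ β := by positivity
    -- the exponent
    have hP : 4 * A * X / Real.log (2 + X) * Real.log (1 + u / R) ≤
        η * X / 2 + c / 4 * u ^ β + K1 + K3 := by
      rcases le_total (X ^ ν) (e * L) with h | h
      · have e1 : R = X ^ ν := by rw [hR]; exact min_eq_left h
        rw [e1]
        linarith [h1 X u hX hu0]
      · have e1 : R = e * L := by rw [hR]; exact min_eq_right h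
        have h10 : Real.log (1 + u / R) ≤ Real.log 2 := by
          refine Real.log_le_log (by positivity) ?_
          have : u / R ≤ 1 := by rw [div_le_one hR0, e1]; exact hy
          linarith
        have h11 : 0 ≤ 4 * A * X / Real.log (2 + X) := by positivity
        have h12 := mul_le_mul_of_nonneg_left h10 h11
        have h13 := h3 X hX
        have e2 : 4 * A * X / Real.log (2 + X) * Real.log 2 =
          4 * A * Real.log 2 * (X / Real.log (2 + X)) := by ring
        rw [e2] at h12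
        have : 0 ≤ c / 4 * u ^ β := by positivity
        linarith
    have h10 : (R + u) * (1 + u ^ 2) ≤ Real.exp (η / 2 * X + K6 + (c / 4 * u ^ β + K5)) := by
      have h11 : (R + u) * (1 + u ^ 2) ≤ X * (1 + u) ^ 3 := by
        have h12 : R + u ≤ X * (1 + u) := aux2 (hRν.trans hXν2) hX hu0
        have h13 : 1 + u ^ 2 ≤ (1 + u) ^ 2 := aux1 hu0
        calc (R + u) * (1 + u ^ 2) ≤ (X * (1 + u)) * (1 + u) ^ 2 :=
              mul_le_mul h12 h13 (by positivity) (by positivity)
          _ = X * (1 + u) ^ 3 := by ring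
      have h14 : X ≤ Real.exp (η / 2 * X + K6) := by
        have h15 := h6 X (by linarith)
        rw [Real.rpow_one, one_mul] at h15
        rw [← Real.log_le_iff_le_exp (by linarith)]
        exact (Real.log_le_log (by linarith) (by linarith)).trans h15
      have h15 : (1 + u) ^ 3 ≤ Real.exp (c / 4 * u ^ β + K5) := by
        rw [← Real.log_le_iff_le_exp (by positivity), Real.log_pow]
        exact_mod_cast h5 u hu0
      calc (R + u) * (1 + u ^ 2) ≤ X * (1 + u) ^ 3 := h11
        _ ≤ Real.exp (η / 2 * X + K6) * Real.exp (c / 4 * u ^ β + K5) :=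
          mul_le_mul h14 h15 (by positivity) (by positivity)
        _ = _ := by rw [← Real.exp_add]
    rw [le_div_iff₀ (by positivity)]
    calc (R + u) * Real.exp (4 * A * X / Real.log (2 + X) * Real.log (1 + u / R)) *
          Real.exp (-(c * u ^ β)) * (1 + u ^ 2)
        = (R + u) * (1 + u ^ 2) * Real.exp (4 * A * X / Real.log (2 + X) * Real.log (1 + u / R) +
          -(c * u ^ β)) := by rw [Real.exp_add]; ring
      _ ≤ Real.exp (η / 2 * X + K6 + (c / 4 * u ^ β + K5)) *
          Real.exp (η * X / 2 + c / 4 * u ^ β + K1 + K3 + -(c * u ^ β)) :=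
          mul_le_mul h10 (Real.exp_le_exp.2 (by linarith)) (Real.exp_pos _).le (Real.exp_pos _).le
      _ = Real.exp (η / 2 * X + K6 + (c / 4 * u ^ β + K5) +
          (η * X / 2 + c / 4 * u ^ β + K1 + K3 + -(c * u ^ β))) := by rw [← Real.exp_add]
      _ ≤ Real.exp (K1 + K3 + K5 + K6 + η * X) := Real.exp_le_exp.2 (by linarith)
      _ = Real.exp (K1 + K3 + K5 + K6) * Real.exp (η * X) := by rw [Real.exp_add]
      _ ≤ K * Real.exp (η * X) :=
          mul_le_mul_of_nonneg_right (by rw [hK]; linarith) (Real.exp_pos _).le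
  · -- far part
    intro y hy
    obtain ⟨u, hu⟩ : ∃ u : ℝ, u = |y| := ⟨_, rfl⟩
    have hu0 : 0 ≤ u := by rw [hu]; exact abs_nonneg y
    have hy2 : y ^ 2 = u ^ 2 := by rw [hu, sq_abs]
    rw [hy2, ← hu]
    rw [← hu] at hy
    have hub : 0 ≤ u ^ β := by positivity
    have hcub : 0 ≤ c * u ^ β := by positivity
    have hLu : L ≤ u / e := by rw [le_div_iff₀ he]; linarith
    have hue0 : 0 ≤ u / e := by positivity
    have huL : u / L ≤ u := div_le_self hu0 hL1
    have huL0 : 0 ≤ u / L := by positivity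
    have hLR : L / R ≤ L := div_le_self hL0.le hR1
    have hLR0 : 0 ≤ L / R := by positivity
    have g1' : Real.log (1 + u / L) ≤ Real.log (1 + u) :=
      Real.log_le_log (by positivity) (by linarith)
    have g2 : Real.log (1 + L / R) ≤ Real.log (1 + u / e) :=
      Real.log_le_log (by positivity) (by linarith)
    have g3 : 0 ≤ Real.log (1 + u / L) := Real.log_nonneg (by linarith)
    have g4 : 0 ≤ Real.log (1 + L / R) := Real.log_nonneg (by linarith)
    have g5 : 0 ≤ Real.log (1 + u) := Real.log_nonneg (by linarith)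
    -- the middle term
    have hM : 2 * A * (X / Real.log (2 + X)) * Real.log (1 + L / R) ≤
        η * X + c / 8 * u ^ β + K2 + K4 := by
      have hηX : 0 ≤ η * X := by positivity
      have hcu : 0 ≤ c / 8 * u ^ β := by positivity
      rcases le_total (X ^ ν) (e * L) with h | h
      · have e1 : R = X ^ ν := by rw [hR]; exact min_eq_left h
        rw [e1]
        have h10 := h2 X L hX hL0.le
        have h11 : c / 8 * e ^ β * L ^ β ≤ c / 8 * u ^ β := by
          have h12 : e ^ β * L ^ β = (e * L) ^ β := (Real.mul_rpow he.le hL0.le).symm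
          rw [mul_assoc, h12]
          refine mul_le_mul_of_nonneg_left ?_ (by positivity)
          exact Real.rpow_le_rpow (by positivity) hy.le hβ0.le
        have e2 : 2 * A * (X / Real.log (2 + X)) * Real.log (1 + L / X ^ ν) =
          (4 * A * X / Real.log (2 + X) * Real.log (1 + L / X ^ ν)) / 2 := by ring
        rw [e2]
        linarith
      · have e1 : R = e * L := by rw [hR]; exact min_eq_right h
        have e2 : L / R = 1 / e := by
          rw [e1]; field_simp
        rw [e2]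
        have h10 := h4 X hX
        have e3 : 2 * A * (X / Real.log (2 + X)) * Real.log (1 + 1 / e) =
          2 * A * Real.log (1 + 1 / e) * (X / Real.log (2 + X)) := by ring
        rw [e3]
        linarith
    have hT : 2 * η * Real.log (1 + u / L) +
        2 * A * (X / Real.log (2 + X) + 2 * Real.log (1 + u / L)) * Real.log (1 + L / R) ≤
        2 * Real.log (1 + u) + (η * X + c / 8 * u ^ β + K2 + K4) + (c / 8 * u ^ β + K8) := by
      have h10 : 2 * η * Real.log (1 + u / L) ≤ 2 * Real.log (1 + u) := aux3 hη1 g3 g1'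
      have h11 : 4 * A * (Real.log (1 + u / L) * Real.log (1 + L / R)) ≤ c / 8 * u ^ β + K8 := by
        refine le_trans ?_ (h8 u hu0)
        exact mul_le_mul_of_nonneg_left (mul_le_mul g1' g2 g4 g5) (by positivity)
      have e1 : 2 * A * (X / Real.log (2 + X) + 2 * Real.log (1 + u / L)) * Real.log (1 + L / R) =
        2 * A * (X / Real.log (2 + X)) * Real.log (1 + L / R) +
          4 * A * (Real.log (1 + u / L) * Real.log (1 + L / R)) := by ring
      rw [e1]
      linarith
    have h10 : L * (1 + u ^ 2) * Real.exp (2 * Real.log (1 + u)) ≤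
        1 / e * Real.exp (c / 4 * u ^ β + K9) := by
      have h11 : L * (1 + u ^ 2) ≤ 1 / e * (1 + u) ^ 3 := by
        have h12 : L ≤ 1 / e * (1 + u) := by
          refine hLu.trans ?_
          rw [one_div, inv_mul_eq_div]
          exact div_le_div_of_nonneg_right (by linarith) he.le
        have h13 : 1 + u ^ 2 ≤ (1 + u) ^ 2 := aux1 hu0
        calc L * (1 + u ^ 2) ≤ (1 / e * (1 + u)) * (1 + u) ^ 2 :=
              mul_le_mul h12 h13 (by positivity) (by positivity)
          _ = 1 / e * (1 + u) ^ 3 := by ring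
      have h12 : Real.exp (2 * Real.log (1 + u)) = (1 + u) ^ 2 := by
        rw [mul_comm, Real.exp_mul, Real.exp_log (by linarith)]
        norm_cast
      have h13 : (1 + u) ^ 5 ≤ Real.exp (c / 4 * u ^ β + K9) := by
        rw [← Real.log_le_iff_le_exp (by positivity), Real.log_pow]
        exact_mod_cast h9 u hu0
      rw [h12]
      calc L * (1 + u ^ 2) * (1 + u) ^ 2 ≤ 1 / e * (1 + u) ^ 3 * (1 + u) ^ 2 :=
            mul_le_mul_of_nonneg_right h11 (by positivity)
        _ = 1 / e * (1 + u) ^ 5 := by ring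
        _ ≤ _ := mul_le_mul_of_nonneg_left h13 (by positivity)
    rw [le_div_iff₀ (by positivity)]
    calc L * Real.exp (2 * η * Real.log (1 + u / L) +
          2 * A * (X / Real.log (2 + X) + 2 * Real.log (1 + u / L)) * Real.log (1 + L / R)) *
            Real.exp (-(c * u ^ β)) * (1 + u ^ 2)
        ≤ L * Real.exp (2 * Real.log (1 + u) + (η * X + c / 8 * u ^ β + K2 + K4) +
            (c / 8 * u ^ β + K8)) * Real.exp (-(c * u ^ β)) * (1 + u ^ 2) := by
          gcongr
      _ = (L * (1 + u ^ 2) * Real.exp (2 * Real.log (1 + u))) *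
          Real.exp ((η * X + c / 8 * u ^ β + K2 + K4) + (c / 8 * u ^ β + K8) +
            -(c * u ^ β)) := by
          rw [show 2 * Real.log (1 + u) + (η * X + c / 8 * u ^ β + K2 + K4) +
            (c / 8 * u ^ β + K8) = 2 * Real.log (1 + u) + ((η * X + c / 8 * u ^ β + K2 + K4) +
            (c / 8 * u ^ β + K8)) by ring, Real.exp_add (2 * Real.log (1 + u)),
            Real.exp_add _ (-(c * u ^ β))]
          ring
      _ ≤ (1 / e * Real.exp (c / 4 * u ^ β + K9)) *
          Real.exp ((η * X + c / 8 * u ^ β + K2 + K4) + (c / 8 * u ^ β + K8) +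
            -(c * u ^ β)) := mul_le_mul_of_nonneg_right h10 (Real.exp_pos _).le
      _ = 1 / e * Real.exp (c / 4 * u ^ β + K9 + ((η * X + c / 8 * u ^ β + K2 + K4) +
            (c / 8 * u ^ β + K8) + -(c * u ^ β))) := by rw [mul_assoc, ← Real.exp_add]
      _ ≤ 1 / e * Real.exp (K2 + K4 + K8 + K9 + η * X) :=
          mul_le_mul_of_nonneg_left (Real.exp_le_exp.2 (by linarith)) (by positivity)
      _ = 1 / e * Real.exp (K2 + K4 + K8 + K9) * Real.exp (η * X) := by
          rw [Real.exp_add _ (η * X)]; ring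
      _ ≤ K * Real.exp (η * X) :=
          mul_le_mul_of_nonneg_right (by rw [hK]; linarith) (Real.exp_pos _).le

end Pool.Agent.N967.G
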