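import Pool.Agent.N967.G.StmA

set_option autoImplicit false

/-!
# Baez-Duarte's distance for general L-functions: the zeros of the L-function and of the completed function
-/

namespace Pool.Agent.N967.G

open Complex MeasureTheory Filter Topology
open Pool.Agent.Y23 (Lg)
open Pool.Agent.TH839.NA (RawT)
open scoped ComplexConjugate

namespace Rzero

/-- the factor between the completed function and the L-function -/
noncomputable def gg {m : ℕ} (r : ℕ) (N : ℝ) (a : Fin m → ℂ) (s : ℂ) : ℂ :=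
  (s ^ r)⁻¹ * ((N : ℂ) ^ (s / 2))⁻¹ * ∏ j, (Gammaℝ (s + a j))⁻¹

lemma Zs_eq {m : ℕ} (r : ℕ) (N : ℝ) (a : Fin m → ℂ) (X : ℂ → ℂ) :
    (datOf r N a X).Zs = X * gg r N a := by
  funext s
  simp only [datOf, Pi.mul_apply, gg]
  ring

lemma gg_ne {m : ℕ} (r : ℕ) {N : ℝ} (hN : 1 ≤ N) (a : Fin m → ℂ) {s : ℂ} (hs : 0 < s.re)
    (ha : ∀ j, 0 < (s + a j).re) : gg r N a s ≠ 0 := by
  have hs0 : s ≠ 0 := by
    rintro rfl
    simp at hs
  have hN0 : (N : ℂ) ≠ 0 := by
    rw [Ne, Complex.ofReal_eq_zero]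
    linarith
  unfold gg
  refine mul_ne_zero (mul_ne_zero (inv_ne_zero (pow_ne_zero _ hs0)) (inv_ne_zero ?_)) ?_
  · rw [Ne, Complex.cpow_eq_zero_iff]
    exact fun h => hN0 h.1
  · rw [Finset.prod_ne_zero_iff]
    intro j _
    exact inv_ne_zero (Gammaℝ_ne_zero_of_re_pos (ha j))

lemma gg_an {m : ℕ} (r : ℕ) {N : ℝ} (hN : 1 ≤ N) (a : Fin m → ℂ) {s : ℂ} (hs : 0 < s.re) :
    AnalyticAt ℂ (gg r N a) s := by
  have hN0 : (N : ℂ) ≠ 0 := by
    rw [Ne, Complex.ofReal_eq_zero]
    linarith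
  have hd : DifferentiableOn ℂ (gg r N a) {z : ℂ | 0 < z.re} := by
    intro z hz
    have hz0 : z ≠ 0 := by
      rintro rfl
      simp at hz
    apply DifferentiableAt.differentiableWithinAt
    unfold gg
    refine DifferentiableAt.mul (DifferentiableAt.mul ?_ ?_) ?_
    · exact (differentiableAt_pow r).inv (pow_ne_zero _ hz0)
    · refine DifferentiableAt.inv ?_ ?_
      · exact (differentiableAt_id.div_const 2).const_cpow (Or.inl hN0)
      · rw [Ne, Complex.cpow_eq_zero_iff]
        exact fun h => hN0 h.1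
    · have h1 : ∀ j ∈ Finset.univ, DifferentiableAt ℂ (fun z : ℂ => (Gammaℝ (z + a j))⁻¹) z := by
        intro j _
        have h2 : DifferentiableAt ℂ (fun w : ℂ => (Gammaℝ w)⁻¹) (z + a j) :=
          differentiable_Gammaℝ_inv (z + a j)
        have h4 : DifferentiableAt ℂ (fun z : ℂ => z + a j) z := by fun_prop
        exact DifferentiableAt.comp (g := fun w : ℂ => (Gammaℝ w)⁻¹) z h2 h4
      have h3 := DifferentiableAt.fun_finsetProd h1
      exact h3
  exact hd.analyticAt ((isOpen_lt continuous_const continuous_re).mem_nhds hs)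

end Rzero

open Rzero

theorem rzero : S_rzero := by
  intro θ m r N a b c X hX ha
  have hmain : ∀ s : ℂ, 0 < s.re → (∀ j, 0 < (s + a j).re) →
      ((datOf r N a X).Zs s = 0 ↔ X s = 0) := by
    intro s hs hj
    rw [Zs_eq, Pi.mul_apply, mul_eq_zero]
    exact ⟨fun h => h.resolve_right (gg_ne r hX.hN a hs hj), Or.inl⟩
  refine ⟨fun s hs => ?_, fun h0 => ?_, ?_⟩
  · have hs0 : 0 < s.re := by linarith
    have hj : ∀ j, 0 < (s + a j).re := by
      intro j
      rw [Complex.add_re]
      linarith [ha j]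
    refine ⟨hmain s hs0 hj, ?_⟩
    unfold Dat.mu analyticOrderNatAt
    have hXa : AnalyticAt ℂ X s := hX.entire.analyticAt s
    have hg := gg_an r hX.hN a hs0
    rw [Zs_eq, analyticOrderAt_mul hXa hg,
      hg.analyticOrderAt_eq_zero.2 (gg_ne r hX.hN a hs0 hj), add_zero]
  · have hne : Nonempty (Fin m) := ⟨⟨0, hX.hm⟩⟩
    obtain ⟨j0, hj0⟩ := Finite.exists_min (fun j => (a j).re)
    refine ⟨min (1 / 2) (1 / 2 + (a j0).re), lt_min (by norm_num) (by linarith [ha j0]), ?_⟩
    intro s hs1 hs2 hz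
    have e1 : min (1 / 2) (1 / 2 + (a j0).re) ≤ 1 / 2 := min_le_left _ _
    have e2 : min (1 / 2) (1 / 2 + (a j0).re) ≤ 1 / 2 + (a j0).re := min_le_right _ _
    have hs0 : 0 < s.re := by linarith
    have hj : ∀ j, 0 < (s + a j).re := by
      intro j
      rw [Complex.add_re]
      linarith [hj0 j]
    have := h0 s ((hmain s hs0 hj).1 hz)
    linarith
  · rintro ⟨s, hs, hs2⟩
    have hright : ∀ z : ℂ, 1 / 2 < z.re → X z = 0 → (datOf r N a X).Zs z = 0 := by
      intro z hz hz0
      rw [Zs_eq, Pi.mul_apply, hz0, zero_mul]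
    rcases lt_or_gt_of_ne hs2 with h | h
    · obtain ⟨ε, hε, hfe⟩ := hX.fe
      have hε0 : ε ≠ 0 := by
        rintro rfl
        simp at hε
      have h1 := hfe s
      rw [hs] at h1
      have h2 : X (1 - conj s) = 0 := by
        have h3 := (mul_eq_zero.1 h1.symm).resolve_left hε0
        rwa [map_eq_zero] at h3
      refine ⟨1 - conj s, ?_, hright _ ?_ h2⟩
      · rw [Complex.sub_re, Complex.one_re, Complex.conj_re]
        linarith
      · rw [Complex.sub_re, Complex.one_re, Complex.conj_re]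
        linarith
    · exact ⟨s, h, hright s h hs⟩

end Pool.Agent.N967.G
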