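import Mathlib

set_option autoImplicit false

/-!
# Baez-Duarte's distance for L-functions: the definitions used in the theorems
-/

namespace Pool.Agent.N967.G

open Complex MeasureTheory Filter Topology

/-- The Riemann hypothesis: all zeros of the completed L-function `Λ` are on the line `Re s = c`. -/
def OnLine (Λ : ℂ → ℂ) (c : ℝ) : Prop := ∀ s : ℂ, Λ s = 0 → s.re = c

/-- `|1 - L(s) A(s)|² / (1/4 + t²)` at `s = c + i t`, for the Dirichlet polynomial
`A(s) = ∑_{n ≤ M} a(n) n^(-s)`. -/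
noncomputable def integrand (L : ℂ → ℂ) (c : ℝ) (M : ℕ) (a : ℕ → ℂ) (t : ℝ) : ℝ :=
  ‖1 - L (c + t * I) * ∑ n ∈ Finset.Icc 1 M, a n * (n : ℂ) ^ (-((c : ℂ) + t * I))‖ ^ 2 / (1 / 4 + t ^ 2)

/-- The square of Baez-Duarte's distance: the infimum of `(1/2π) ∫ |1 - L A|² dt / (1/4 + t²)` over all
Dirichlet polynomials `A` of length `M`, with values in `[0, ∞]`. -/
noncomputable def dist2 (L : ℂ → ℂ) (c : ℝ) (M : ℕ) : ENNReal :=
  ⨅ a : ℕ → ℂ, ENNReal.ofReal (1 / (2 * Real.pi)) * ∫⁻ t : ℝ, ENNReal.ofReal (integrand L c M a t)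

/-- The zeros of `Λ` (distinct zeros, without multiplicity). -/
abbrev Zero (Λ : ℂ → ℂ) : Type := {s : ℂ // Λ s = 0}

/-- The multiplicity of a zero. -/
noncomputable def mult (Λ : ℂ → ℂ) (ρ : Zero Λ) : ℕ := analyticOrderNatAt Λ (ρ : ℂ)

/-- `|ρ - c + 1/2|²`, which is `1/4 + γ²` for a zero `ρ = c + i γ` on the critical line. -/
noncomputable def norm2 (Λ : ℂ → ℂ) (c : ℝ) (ρ : Zero Λ) : ℝ := ‖(ρ : ℂ) - (c - 1 / 2)‖ ^ 2

/-- The theorem on Baez-Duarte's distance for a completed L-function `Λ` with the critical line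
`Re s = c` and its L-function `L`. -/
structure BaezDuarte (Λ L : ℂ → ℂ) (c : ℝ) : Prop where
  /-- the integrals converge -/
  integrable : OnLine Λ c → ∀ (M : ℕ) (a : ℕ → ℂ), Integrable (integrand L c M a)
  /-- the sum over the zeros converges -/
  summable : OnLine Λ c → Summable fun ρ : Zero Λ => (mult Λ ρ : ℝ) ^ 2 / norm2 Λ c ρ
  /-- **the asymptotic formula** -/
  asymptotic : OnLine Λ c → Tendsto (fun M : ℕ => dist2 L c M * ENNReal.ofReal (Real.log M)) atTop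
    (𝓝 (ENNReal.ofReal (∑' ρ : Zero Λ, (mult Λ ρ : ℝ) ^ 2 / norm2 Λ c ρ)))
  /-- if the Riemann hypothesis fails then the distance does not tend to zero -/
  bounded_below : ¬ OnLine Λ c → ∃ δ : ℝ, 0 < δ ∧ ∀ M : ℕ, ENNReal.ofReal δ ≤ dist2 L c M
  /-- the criterion -/
  iff_limit : OnLine Λ c ↔ ∃ ℓ : ENNReal, ℓ ≠ ⊤ ∧
    Tendsto (fun M : ℕ => dist2 L c M * ENNReal.ofReal (Real.log M)) atTop (𝓝 ℓ)
  /-- the first moment of the multiplicities -/
  first_moment : OnLine Λ c →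
    HasSum (fun ρ : Zero Λ => (mult Λ ρ : ℝ) / norm2 Λ c ρ) (2 * (logDeriv Λ (c + 1 / 2)).re)
  /-- the criterion for the Riemann hypothesis together with the simplicity of all zeros -/
  iff_simple : (OnLine Λ c ∧ ∀ ρ : Zero Λ, mult Λ ρ = 1) ↔
    Tendsto (fun M : ℕ => dist2 L c M * ENNReal.ofReal (Real.log M)) atTop
      (𝓝 (ENNReal.ofReal (2 * (logDeriv Λ (c + 1 / 2)).re)))

end Pool.Agent.N967.G
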