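import Mathlib
import Pool.Agent.TH839.NA.Raw

set_option autoImplicit false

/-!
# The sum over the zeros
-/

namespace Pool.Agent.N967.G

open Complex MeasureTheory Filter Topology
open Pool.Agent.TH839.NA (RawT)

/-- a nonzero slowly growing function with a functional equation and all zeros on the line: the sum over the zeros -/
def S_lamS : Prop := ∀ X : ℂ → ℂ, Pool.Agent.W169.HF.Slow X → Pool.Agent.W169.HF.Fe X → (∃ s, X s ≠ 0) →
  (∀ s : ℂ, X s = 0 → s.re = 1 / 2) →
  HasSum (fun ρ : {s : ℂ // X s = 0} => (analyticOrderNatAt X (ρ : ℂ) : ℝ) / ‖(ρ : ℂ)‖ ^ 2) (2 * (logDeriv X 1).re)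

end Pool.Agent.N967.G
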