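import Mathlib
import Pool.Agent.N967.G.Def
import Pool.Agent.N967.G.Main
import Pool.Agent.N967.G.StmL

set_option autoImplicit false

/-!
# Baez-Duarte's distance for L-functions: the final form
-/

namespace Pool.Agent.N967.G

open Complex MeasureTheory Filter Topology
open Pool.Agent.TH839.NA (RawT)

lemma half_cast : (((1 / 2 : ℝ)) : ℂ) = 1 / 2 := by push_cast; ring

lemma integrand_eq (D : Dat) (M : ℕ) (a : ℕ → ℂ) : integrand D.L (1 / 2) M a = D.ig M a := by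
  funext t
  unfold integrand Dat.ig DP
  rw [half_cast]

lemma dist2_eq (D : Dat) (M : ℕ) : dist2 D.L (1 / 2) M = D.dE M := by
  unfold dist2 Dat.dE
  simp only [integrand_eq]

lemma norm2_half (X : ℂ → ℂ) (ρ : Zero X) : norm2 X (1 / 2) ρ = ‖(ρ : ℂ)‖ ^ 2 := by
  unfold norm2
  rw [half_cast, sub_self, sub_zero]

/-- from the dichotomy for `D` to the final form -/
theorem bd_of {X : ℂ → ℂ} {D : Dat} (hd : Dich D (∀ s : ℂ, X s = 0 → s.re = 1 / 2))
    (hz : ∀ s : ℂ, 1 / 2 ≤ s.re → (D.Zs s = 0 ↔ X s = 0) ∧ D.mu s = analyticOrderNatAt X s)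
    (hpos : ∀ s : ℂ, X s = 0 → 1 ≤ analyticOrderNatAt X s)
    (hl : (∀ s : ℂ, X s = 0 → s.re = 1 / 2) →
      HasSum (fun ρ : {s : ℂ // X s = 0} => (analyticOrderNatAt X (ρ : ℂ) : ℝ) / ‖(ρ : ℂ)‖ ^ 2)
        (2 * (logDeriv X 1).re)) :
    BaezDuarte X D.L (1 / 2) := by
  obtain ⟨h1, h2, h3⟩ := hd
  have hRH : OnLine X (1 / 2) ↔ ∀ s : ℂ, X s = 0 → s.re = 1 / 2 := Iff.rfl
  have e1 : (((1 / 2 : ℝ)) : ℂ) + 1 / 2 = 1 := by rw [half_cast]; norm_num
  have key : (∀ s : ℂ, X s = 0 → s.re = 1 / 2) → ∃ e : Zero X ≃ D.ZZ,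
      ∀ ρ : Zero X, (mult X ρ : ℝ) ^ 2 / norm2 X (1 / 2) ρ = (D.mu (e ρ) : ℝ) ^ 2 / ‖((e ρ : D.ZZ) : ℂ)‖ ^ 2 := by
    intro h
    have hiff : ∀ s : ℂ, X s = 0 ↔ D.IsZ s := by
      intro s
      constructor
      · intro hs
        have := h s hs
        exact ⟨(hz s this.ge).1.2 hs, this⟩
      · rintro ⟨hs, hre⟩
        exact (hz s hre.ge).1.1 hs
    refine ⟨Equiv.subtypeEquivRight hiff, fun ρ => ?_⟩
    rw [norm2_half]
    have h5 : ((Equiv.subtypeEquivRight hiff ρ : D.ZZ) : ℂ) = (ρ : ℂ) := rfl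
    rw [h5, (hz (ρ : ℂ) (h _ ρ.2).ge).2]
    rfl
  have hsum : (∀ s : ℂ, X s = 0 → s.re = 1 / 2) →
      Summable (fun ρ : Zero X => (mult X ρ : ℝ) ^ 2 / norm2 X (1 / 2) ρ) ∧
      ∑' ρ : Zero X, (mult X ρ : ℝ) ^ 2 / norm2 X (1 / 2) ρ = ∑' ρ : D.ZZ, (D.mu ρ : ℝ) ^ 2 / ‖(ρ : ℂ)‖ ^ 2 := by
    intro h
    obtain ⟨e, he⟩ := key h
    have h4 := (h1 h).2.1
    refine ⟨?_, ?_⟩
    · refine (e.summable_iff.2 h4).congr fun ρ => ?_
      exact (he ρ).symm
    · rw [← e.tsum_eq]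
      exact tsum_congr he
  have hasym : (∀ s : ℂ, X s = 0 → s.re = 1 / 2) →
      Tendsto (fun M : ℕ => dist2 D.L (1 / 2) M * ENNReal.ofReal (Real.log M)) atTop
        (𝓝 (ENNReal.ofReal (∑' ρ : Zero X, (mult X ρ : ℝ) ^ 2 / norm2 X (1 / 2) ρ))) := by
    intro h
    rw [(hsum h).2]
    simp only [dist2_eq]
    exact (h1 h).2.2
  have hiff : OnLine X (1 / 2) ↔ ∃ ℓ : ENNReal, ℓ ≠ ⊤ ∧
      Tendsto (fun M : ℕ => dist2 D.L (1 / 2) M * ENNReal.ofReal (Real.log M)) atTop (𝓝 ℓ) := by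
    simp only [dist2_eq]
    exact h3
  have hfirst : OnLine X (1 / 2) →
      HasSum (fun ρ : Zero X => (mult X ρ : ℝ) / norm2 X (1 / 2) ρ) (2 * (logDeriv X ((1 / 2 : ℝ) + 1 / 2)).re) := by
    intro h
    rw [e1]
    simp only [norm2_half]
    exact hl h
  refine ⟨fun h M a => ?_, fun h => (hsum h).1, hasym, fun h => ?_, hiff, hfirst, ?_⟩
  · rw [integrand_eq]
    exact (h1 h).1 M a
  · simp only [dist2_eq]
    exact h2 h
  · have hnn0 : OnLine X (1 / 2) → ∀ ρ : Zero X, 0 < norm2 X (1 / 2) ρ := by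
      intro h ρ
      rw [norm2_half]
      have h5 : (ρ : ℂ) ≠ 0 := by
        intro h0
        have h6 := h _ ρ.2
        rw [h0] at h6
        norm_num at h6
      positivity
    constructor
    · rintro ⟨h, hm⟩
      have h5 := hasym h
      have h6 : ∑' ρ : Zero X, (mult X ρ : ℝ) ^ 2 / norm2 X (1 / 2) ρ = 2 * (logDeriv X ((1 / 2 : ℝ) + 1 / 2)).re := by
        rw [← (hfirst h).tsum_eq]
        refine tsum_congr fun ρ => ?_
        rw [hm ρ]
        norm_num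
      rwa [h6] at h5
    · intro ht
      have h : OnLine X (1 / 2) := hiff.2 ⟨_, ENNReal.ofReal_ne_top, ht⟩
      have hnn := hnn0 h
      refine ⟨h, fun ρ => ?_⟩
      have h5 := tendsto_nhds_unique (hasym h) ht
      have h6 := hfirst h
      have h7 := hsum h
      have hnn1 : 0 ≤ ∑' ρ : Zero X, (mult X ρ : ℝ) ^ 2 / norm2 X (1 / 2) ρ :=
        tsum_nonneg fun ρ => div_nonneg (by positivity) (hnn ρ).le
      have hnn2 : 0 ≤ 2 * (logDeriv X ((1 / 2 : ℝ) + 1 / 2)).re :=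
        h6.nonneg fun ρ => div_nonneg (by positivity) (hnn ρ).le
      have h8 := (ENNReal.ofReal_eq_ofReal_iff hnn1 hnn2).1 h5
      have h9 : HasSum (fun ρ : Zero X => (mult X ρ : ℝ) ^ 2 / norm2 X (1 / 2) ρ - (mult X ρ : ℝ) / norm2 X (1 / 2) ρ) 0 := by
        have := h7.1.hasSum.sub h6
        rwa [h8, sub_self] at this
      have h10 : ∀ ρ : Zero X, 0 ≤ (mult X ρ : ℝ) ^ 2 / norm2 X (1 / 2) ρ - (mult X ρ : ℝ) / norm2 X (1 / 2) ρ := by
        intro ρ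
        rw [← sub_div]
        refine div_nonneg ?_ (hnn ρ).le
        have : (1 : ℝ) ≤ mult X ρ := by exact_mod_cast hpos _ ρ.2
        nlinarith
      have h11 := (hasSum_zero_iff_of_nonneg h10).1 h9
      have h12 := congrFun h11 ρ
      simp only [Pi.zero_apply] at h12
      rw [← sub_div, div_eq_zero_iff] at h12
      rcases h12 with h12 | h12
      · have h13 : (1 : ℝ) ≤ mult X ρ := by exact_mod_cast hpos _ ρ.2
        have h14 : (mult X ρ : ℝ) * ((mult X ρ : ℝ) - 1) = 0 := by linarith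
        rcases mul_eq_zero.1 h14 with h15 | h15
        · linarith
        · have : (mult X ρ : ℝ) = 1 := by linarith
          exact_mod_cast this
      · exact absurd h12 (hnn ρ).ne'

end Pool.Agent.N967.G
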