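import Mathlib
import Pool.Agent.N967.G.StmA
import Pool.Agent.TH270.MS.GrowthLeft
import Pool.Agent.W12.UN.Slow

set_option autoImplicit false

/-!
# Baez-Duarte's distance for general L-functions: the polynomial growth
-/

namespace Pool.Agent.N967.G

open Complex MeasureTheory Filter Topology
open Pool.Agent.TH839.NA (RawT)
open Pool.Agent.W355.UN (gaf_eq)

namespace Rbase

/-- the inverse of the Gamma factor, shifted by `4` -/
lemma ratio (z : ℂ) : ‖Gammaℝ (z + 4)‖ * ‖(Gammaℝ z)⁻¹‖ ≤ ‖z‖ * ‖z + 2‖ := by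
  rcases eq_or_ne (Gammaℝ z) 0 with h | h
  · rw [h, inv_zero, norm_zero, mul_zero]
    positivity
  · have h0 : z ≠ 0 := by
      rintro rfl
      exact h (Gammaℝ_eq_zero_iff.2 ⟨0, by simp⟩)
    have h2 : z + 2 ≠ 0 := by
      intro h'
      refine h (Gammaℝ_eq_zero_iff.2 ⟨1, ?_⟩)
      rw [eq_neg_of_add_eq_zero_left h']
      simp
    have h4 : Gammaℝ (z + 4) = Gammaℝ z * (z * (z + 2)) * ((4 * Real.pi ^ 2 : ℝ) : ℂ)⁻¹ := by
      rw [show z + 4 = z + 2 + 2 by ring, Gammaℝ_add_two h2, Gammaℝ_add_two h0]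
      push_cast
      field_simp
      try ring
    have h5 : 1 ≤ 4 * Real.pi ^ 2 := by nlinarith [Real.pi_gt_three]
    rw [h4, norm_mul, norm_mul, norm_mul, norm_inv, norm_inv, Complex.norm_real,
      Real.norm_of_nonneg (by positivity)]
    have h6 : ‖Gammaℝ z‖ ≠ 0 := norm_ne_zero_iff.2 h
    calc ‖Gammaℝ z‖ * (‖z‖ * ‖z + 2‖) * (4 * Real.pi ^ 2)⁻¹ * ‖Gammaℝ z‖⁻¹ =
          (‖z‖ * ‖z + 2‖) * (4 * Real.pi ^ 2)⁻¹ * (‖Gammaℝ z‖ * ‖Gammaℝ z‖⁻¹) := by ring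
      _ = (‖z‖ * ‖z + 2‖) * (4 * Real.pi ^ 2)⁻¹ := by rw [mul_inv_cancel₀ h6, mul_one]
      _ ≤ (‖z‖ * ‖z + 2‖) * 1 := by
          gcongr
          exact inv_le_one_of_one_le₀ h5
      _ = _ := mul_one _

/-- a crude bound for the inverse of the Gamma factor in a strip -/
lemma inv_strip (a : ℂ) (x₀ x₁ : ℝ) : ∃ C T : ℝ, 0 ≤ C ∧ ∀ z : ℂ, x₀ ≤ z.re → z.re ≤ x₁ → T ≤ |z.im| →
    ‖(Gammaℝ (z + a))⁻¹‖ ≤ C * Real.exp (Real.pi * |z.im|) := by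
  obtain ⟨C, hC0, hC⟩ := Pool.Agent.TH270.MS.GrowL.inv_Gamma_strip ((x₀ + a.re) / 2) ((x₁ + a.re) / 2)
  refine ⟨Real.exp (|Real.log Real.pi * ((x₁ + a.re) / 2)|) * C * Real.exp (Real.pi * |a.im|), |a.im| + 2, by positivity,
    fun z h0 h1 h2 => ?_⟩
  have e1 : ((z + a) / 2).re = (z.re + a.re) / 2 := by
    rw [show (z + a) / 2 = ((1 / 2 : ℝ) : ℂ) * (z + a) by push_cast; ring, Complex.re_ofReal_mul, add_re]
    ring
  have e2 : ((z + a) / 2).im = (z.im + a.im) / 2 := by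
    rw [show (z + a) / 2 = ((1 / 2 : ℝ) : ℂ) * (z + a) by push_cast; ring, Complex.im_ofReal_mul, add_im]
    ring
  have h3 : |z.im| ≤ |z.im + a.im| + |a.im| := by
    have := abs_sub (z.im + a.im) a.im
    rwa [add_sub_cancel_right] at this
  have h4 : |z.im + a.im| ≤ |z.im| + |a.im| := abs_add_le _ _
  have h5 := hC ((z + a) / 2) (by rw [e1]; linarith) (by rw [e1]; linarith) (by
    rw [e2, abs_div, abs_of_pos (two_pos : (0 : ℝ) < 2)]
    linarith)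
  rw [Gammaℝ_def, mul_inv, norm_mul]
  have h6 : ‖((Real.pi : ℂ) ^ (-(z + a) / 2))⁻¹‖ ≤ Real.exp (|Real.log Real.pi * ((x₁ + a.re) / 2)|) := by
    rw [norm_inv, Complex.norm_cpow_eq_rpow_re_of_pos Real.pi_pos, Real.rpow_def_of_pos Real.pi_pos,
      ← Real.exp_neg]
    apply Real.exp_le_exp.2
    have e3 : (-(z + a) / 2).re = -((z.re + a.re) / 2) := by
      rw [neg_div, neg_re, e1]
    rw [e3]
    have h7 : 0 ≤ Real.log Real.pi := Real.log_nonneg (by linarith [Real.pi_gt_three])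
    calc -(Real.log Real.pi * -((z.re + a.re) / 2)) = Real.log Real.pi * ((z.re + a.re) / 2) := by ring
      _ ≤ Real.log Real.pi * ((x₁ + a.re) / 2) := by
          apply mul_le_mul_of_nonneg_left _ h7
          linarith
      _ ≤ _ := le_abs_self _
  have h8 : Real.exp (Real.pi * |((z + a) / 2).im|) ≤ Real.exp (Real.pi * |z.im|) * Real.exp (Real.pi * |a.im|) := by
    rw [← Real.exp_add]
    apply Real.exp_le_exp.2
    rw [e2, abs_div, abs_of_pos (two_pos : (0 : ℝ) < 2), ← mul_add]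
    apply mul_le_mul_of_nonneg_left _ Real.pi_pos.le
    have := abs_nonneg (z.im + a.im)
    linarith
  calc ‖((Real.pi : ℂ) ^ (-(z + a) / 2))⁻¹‖ * ‖(Complex.Gamma ((z + a) / 2))⁻¹‖
      ≤ Real.exp (|Real.log Real.pi * ((x₁ + a.re) / 2)|) *
        (C * (Real.exp (Real.pi * |z.im|) * Real.exp (Real.pi * |a.im|))) := by
        apply mul_le_mul h6 _ (norm_nonneg _) (Real.exp_pos _).le
        exact h5.trans (mul_le_mul_of_nonneg_left h8 hC0)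
    _ = _ := by ring

/-- the product of the inverses of the Gamma factors in a strip -/
lemma prod_strip {m : ℕ} (a : Fin m → ℂ) (x₀ x₁ : ℝ) : ∃ C T : ℝ, 0 ≤ C ∧ ∀ z : ℂ, x₀ ≤ z.re → z.re ≤ x₁ →
    T ≤ |z.im| → ‖∏ j, (Gammaℝ (z + a j))⁻¹‖ ≤ C * Real.exp (m * Real.pi * |z.im|) := by
  choose C T hC0 hC using fun j => inv_strip (a j) x₀ x₁
  refine ⟨∏ j, C j, ∑ j, |T j|, Finset.prod_nonneg fun j _ => hC0 j, fun z h0 h1 h2 => ?_⟩
  have h3 : Real.exp (m * Real.pi * |z.im|) = ∏ _j : Fin m, Real.exp (Real.pi * |z.im|) := by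
    rw [Finset.prod_const, ← Real.exp_nat_mul, Finset.card_univ, Fintype.card_fin, mul_assoc]
  rw [norm_prod, h3, ← Finset.prod_mul_distrib]
  refine Finset.prod_le_prod (fun _ _ => norm_nonneg _) fun j _ => hC j z h0 h1 ?_
  refine le_trans ?_ h2
  exact (le_abs_self _).trans (Finset.single_le_sum (f := fun j => |T j|) (fun _ _ => abs_nonneg _) (Finset.mem_univ j))

/-- Phragmen-Lindelof in the strip `-3/2 ≤ re s ≤ 5/2` -/
lemma pl {W : ℂ → ℂ} (hd : Differentiable ℂ W) {C c B D T : ℝ} {K : ℕ} (hC : 0 ≤ C) (hc : c < Real.pi / (5 / 2 - -3 / 2))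
    (hap : ∀ z : ℂ, -3 / 2 < z.re → z.re < 5 / 2 → T ≤ |z.im| →
      ‖W z‖ ≤ D * Real.exp (B * Real.exp (c * |z.im|)))
    (hl : ∀ z : ℂ, z.re = -3 / 2 → ‖W z‖ ≤ C * (1 + ‖z‖) ^ K)
    (hr : ∀ z : ℂ, z.re = 5 / 2 → ‖W z‖ ≤ C * (1 + ‖z‖) ^ K) :
    ∀ z : ℂ, -3 / 2 ≤ z.re → z.re ≤ 5 / 2 → ‖W z‖ ≤ C * 12 ^ K * (1 + ‖z‖) ^ K := by
  set h : ℂ → ℂ := fun z => W z / (z + 3) ^ K with hh
  have hn1 : ∀ z : ℂ, -3 / 2 ≤ z.re → 3 / 2 ≤ ‖z + 3‖ := fun z hz => by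
    refine le_trans ?_ ((le_abs_self _).trans (Complex.abs_re_le_norm (z + 3)))
    rw [add_re]
    norm_num
    linarith
  have hn2 : ∀ z : ℂ, -3 / 2 ≤ z.re → 1 + ‖z‖ ≤ 4 * ‖z + 3‖ := fun z hz => by
    have h1 := hn1 z hz
    have h2 : ‖z‖ ≤ ‖z + 3‖ + 3 := by
      have := norm_sub_le (z + 3) 3
      rw [add_sub_cancel_right] at this
      simpa using this
    linarith
  have hne : ∀ z : ℂ, -3 / 2 ≤ z.re → (z + 3) ^ K ≠ 0 := fun z hz =>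
    pow_ne_zero _ (norm_pos_iff.1 (lt_of_lt_of_le (by norm_num) (hn1 z hz)))
  have hle : ∀ z : ℂ, -3 / 2 ≤ z.re → ‖h z‖ ≤ ‖W z‖ := by
    intro z hz
    rw [hh]
    simp only [norm_div, norm_pow]
    apply div_le_self (norm_nonneg _)
    exact one_le_pow₀ (by linarith [hn1 z hz])
  have hbd : ∀ z : ℂ, -3 / 2 ≤ z.re → ‖W z‖ ≤ C * (1 + ‖z‖) ^ K → ‖h z‖ ≤ C * 4 ^ K := by
    intro z hz h1
    rw [hh]
    simp only [norm_div, norm_pow]
    have h3 := hn1 z hz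
    rw [div_le_iff₀ (pow_pos (by linarith) _)]
    calc ‖W z‖ ≤ C * (1 + ‖z‖) ^ K := h1
      _ ≤ C * (4 * ‖z + 3‖) ^ K := by
          gcongr
          exact hn2 z hz
      _ = _ := by rw [mul_pow]; ring
  have key : ∀ z : ℂ, -3 / 2 ≤ z.re → z.re ≤ 5 / 2 → ‖h z‖ ≤ C * 4 ^ K := by
    intro z hza hzb
    apply PhragmenLindelof.vertical_strip (a := -3 / 2) (b := 5 / 2) (f := h) (C := C * 4 ^ K) ?_ ?_ ?_ ?_ hza hzb
    · apply DifferentiableOn.diffContOnCl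
      intro w hw
      have hw' : w ∈ Complex.re ⁻¹' (Set.Icc (-3 / 2) (5 / 2)) := by
        have : closure (Complex.re ⁻¹' (Set.Ioo (-3 / 2) (5 / 2))) ⊆ Complex.re ⁻¹' (Set.Icc (-3 / 2) (5 / 2)) :=
          closure_minimal (Set.preimage_mono Set.Ioo_subset_Icc_self) (isClosed_Icc.preimage Complex.continuous_re)
        exact this hw
      apply DifferentiableAt.differentiableWithinAt
      apply DifferentiableAt.div
      · exact hd w
      · fun_prop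
      · exact hne w hw'.1
    · refine ⟨c, hc, B, ?_⟩
      apply Asymptotics.IsBigO.of_bound D
      rw [Filter.eventually_inf_principal]
      have hev : ∀ᶠ z : ℂ in comap (_root_.abs ∘ Complex.im) atTop, T ≤ (_root_.abs ∘ Complex.im) z :=
        tendsto_comap.eventually (eventually_ge_atTop T)
      filter_upwards [hev] with z hz1 hz
      have hz1 : T ≤ |z.im| := hz1
      have ha : -3 / 2 < z.re := (Set.mem_preimage.1 hz).1
      have hb' : z.re < 5 / 2 := (Set.mem_preimage.1 hz).2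
      rw [Real.norm_of_nonneg (Real.exp_pos _).le]
      exact (hle z ha.le).trans (hap z ha hb' hz1)
    · intro w hw
      exact hbd w hw.ge (hl w hw)
    · intro w hw
      exact hbd w (by rw [hw]; norm_num) (hr w hw)
  intro z hza hzb
  have h1 := key z hza hzb
  have h3 := hn1 z hza
  rw [hh] at h1
  simp only [norm_div, norm_pow] at h1
  rw [div_le_iff₀ (pow_pos (by linarith) _)] at h1
  have h4 : ‖z + 3‖ ≤ 3 * (1 + ‖z‖) := by
    have := norm_add_le z 3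
    have h5 : ‖(3 : ℂ)‖ = 3 := by simp
    rw [h5] at this
    linarith [norm_nonneg z]
  calc ‖W z‖ ≤ C * 4 ^ K * ‖z + 3‖ ^ K := h1
    _ ≤ C * 4 ^ K * (3 * (1 + ‖z‖)) ^ K := by gcongr
    _ = C * 12 ^ K * (1 + ‖z‖) ^ K := by
        rw [mul_pow, show (12 : ℝ) = 4 * 3 by norm_num, mul_pow]
        ring


variable {θ : ℝ} {m r : ℕ} {N : ℝ} {a : Fin m → ℂ} {b c : ℕ → ℂ} {X : ℂ → ℂ}

/-- the completed function divided by the Gamma factors -/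
noncomputable def W (N : ℝ) (a : Fin m → ℂ) (X : ℂ → ℂ) (s : ℂ) : ℂ :=
  X s * ((N : ℂ) ^ (s / 2))⁻¹ * ∏ j, (Gammaℝ (s + a j))⁻¹

lemma Zs_eq (r : ℕ) (N : ℝ) (a : Fin m → ℂ) (X : ℂ → ℂ) (s : ℂ) :
    (datOf r N a X).Zs s = W N a X s * (s ^ r)⁻¹ := by
  show X s * (s ^ r)⁻¹ * ((N : ℂ) ^ (s / 2))⁻¹ * ∏ j, (Gammaℝ (s + a j))⁻¹ = _
  unfold W
  ring

lemma cpow_ne (hN : 0 < N) (s : ℂ) : (N : ℂ) ^ s ≠ 0 := by
  rw [Ne, Complex.cpow_eq_zero_iff]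
  exact fun h' => (by exact_mod_cast hN.ne' : (N : ℂ) ≠ 0) h'.1

lemma W_diff (hN : 0 < N) (hX : Differentiable ℂ X) : Differentiable ℂ (W N a X) := by
  unfold W
  have h1 : Differentiable ℂ fun s : ℂ => ((N : ℂ) ^ (s / 2))⁻¹ := by
    refine Differentiable.inv ?_ fun s => cpow_ne hN _
    exact (by fun_prop : Differentiable ℂ fun s : ℂ => s / 2).const_cpow
      (Or.inl (by exact_mod_cast hN.ne'))
  have h2 : Differentiable ℂ fun s : ℂ => ∏ j, (Gammaℝ (s + a j))⁻¹ := by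
    refine Differentiable.fun_finsetProd fun j _ => ?_
    exact differentiable_Gammaℝ_inv.comp (by fun_prop : Differentiable ℂ fun s : ℂ => s + a j)
  exact (hX.mul h1).mul h2

lemma W_right (h : RawT θ m r N a b c X) {s : ℂ} (hs : 1 + θ < s.re) :
    W N a X s = (s * (s - 1)) ^ r * LSeries b s := by
  have hθ := h.hθ
  have hN0 : (0 : ℝ) < N := lt_of_lt_of_le one_pos h.hN
  have h1 : ((N : ℂ) ^ (s / 2)) ≠ 0 := cpow_ne hN0 _
  have h2 : ∏ j, Gammaℝ (s + a j) ≠ 0 := Finset.prod_ne_zero_iff.2 fun j _ =>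
    Gammaℝ_ne_zero_of_re_pos (by rw [add_re]; linarith [h.re_ge j])
  unfold W
  rw [h.eq' hs, gaf_eq, Finset.prod_inv_distrib]
  field_simp

/-- the constant in the linear bounds -/
noncomputable def M (a : Fin m → ℂ) : ℝ := 4 + ∑ j, ‖a j‖

lemma M4 (a : Fin m → ℂ) : 4 ≤ M a := by
  unfold M
  have : 0 ≤ ∑ j, ‖a j‖ := Finset.sum_nonneg fun _ _ => norm_nonneg _
  linarith

lemma lin (a : Fin m → ℂ) (s w : ℂ) (h : ‖w‖ ≤ M a) : ‖s + w‖ ≤ M a * (1 + ‖s‖) := by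
  have h1 := M4 a
  have h2 := norm_add_le s w
  nlinarith [norm_nonneg s]

lemma linj (a : Fin m → ℂ) (s : ℂ) (j : Fin m) : ‖s + a j‖ ≤ M a * (1 + ‖s‖) ∧ ‖s + a j + 2‖ ≤ M a * (1 + ‖s‖) := by
  have h1 : ‖a j‖ ≤ ∑ j, ‖a j‖ :=
    Finset.single_le_sum (f := fun j => ‖a j‖) (fun _ _ => norm_nonneg _) (Finset.mem_univ j)
  constructor
  · refine lin a s _ ?_
    unfold M
    linarith
  · rw [add_assoc]
    refine lin a s _ ?_
    have h2 := norm_add_le (a j) 2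
    have h3 : ‖(2 : ℂ)‖ = 2 := by simp
    unfold M
    linarith

lemma lser_bd (h : RawT θ m r N a b c X) : ∃ S : ℝ, 0 < S ∧ ∀ s : ℂ, 5 / 2 ≤ s.re → ‖LSeries b s‖ ≤ S := by
  have h0 : LSeriesSummable b ((5 / 2 : ℝ) : ℂ) := (h.coef (by
    rw [Complex.ofReal_re]
    linarith [h.hθ1])).1
  have h1 : Summable fun n => ‖LSeries.term b ((5 / 2 : ℝ) : ℂ) n‖ := h0.norm
  refine ⟨∑' n, ‖LSeries.term b ((5 / 2 : ℝ) : ℂ) n‖ + 1, by positivity, fun s hs => ?_⟩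
  have h2 : ∀ n, ‖LSeries.term b s n‖ ≤ ‖LSeries.term b ((5 / 2 : ℝ) : ℂ) n‖ := fun n =>
    LSeries.norm_term_le_of_re_le_re b (by rw [Complex.ofReal_re]; exact hs) n
  have h3 : ‖LSeries b s‖ ≤ ∑' n, ‖LSeries.term b ((5 / 2 : ℝ) : ℂ) n‖ :=
    tsum_of_norm_bounded h1.hasSum h2
  linarith

lemma W_rbd (h : RawT θ m r N a b c X) {S : ℝ} (hS0 : 0 < S) (hS : ∀ s : ℂ, 5 / 2 ≤ s.re → ‖LSeries b s‖ ≤ S)
    {s : ℂ} (hs : 5 / 2 ≤ s.re) : ‖W N a X s‖ ≤ N ^ 2 * S * (M a * (1 + ‖s‖)) ^ (2 * m + 2 * r) := by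
  rw [W_right h (by linarith [h.hθ1]), norm_mul, norm_pow, norm_mul]
  have h4 := M4 a
  set Q : ℝ := M a * (1 + ‖s‖) with hQ
  have hQ1 : 1 ≤ Q := by nlinarith [norm_nonneg s]
  have e1 : ‖s‖ ≤ Q := by nlinarith [norm_nonneg s]
  have e2 : ‖s - 1‖ ≤ Q := by
    rw [sub_eq_add_neg]
    refine lin a s (-1) ?_
    rw [norm_neg, norm_one]
    linarith
  have hN2 : 1 ≤ N ^ 2 := one_le_pow₀ h.hN
  calc (‖s‖ * ‖s - 1‖) ^ r * ‖LSeries b s‖ ≤ (Q * Q) ^ r * S := by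
        gcongr
        exact hS s hs
    _ = Q ^ (2 * r) * S := by rw [← sq, pow_mul]
    _ ≤ Q ^ (2 * m + 2 * r) * S := by
        apply mul_le_mul_of_nonneg_right _ hS0.le
        exact pow_le_pow_right₀ hQ1 (by omega)
    _ ≤ N ^ 2 * (Q ^ (2 * m + 2 * r) * S) := by
        refine le_mul_of_one_le_left ?_ hN2
        positivity
    _ = _ := by ring

lemma W_lbd (h : RawT θ m r N a b c X) {S : ℝ} (hS0 : 0 < S) (hS : ∀ s : ℂ, 5 / 2 ≤ s.re → ‖LSeries b s‖ ≤ S)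
    {s : ℂ} (hs : s.re = -3 / 2) : ‖W N a X s‖ ≤ N ^ 2 * S * (M a * (1 + ‖s‖)) ^ (2 * m + 2 * r) := by
  have hN0 : (0 : ℝ) < N := lt_of_lt_of_le one_pos h.hN
  obtain ⟨ε, hε, hfe⟩ := h.fe
  have e0 : 1 - starRingEnd ℂ s = s + 4 := by
    apply Complex.ext
    · simp [hs]
      norm_num
    · simp
  have e1 : ‖X s‖ = ‖X (s + 4)‖ := by
    rw [hfe s, norm_mul, hε, one_mul, RCLike.norm_conj, e0]
  have e2 : (s + 4).re = 5 / 2 := by
    rw [add_re, hs]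
    norm_num
  have h4 := M4 a
  set Q : ℝ := M a * (1 + ‖s‖) with hQ
  have hQ0 : 0 ≤ Q := by nlinarith [norm_nonneg s]
  have e3 : ‖s + 4‖ ≤ Q := lin a s 4 (by simpa using h4)
  have e4 : ‖s + 3‖ ≤ Q := lin a s 3 (by
    have : ‖(3 : ℂ)‖ = 3 := by simp
    rw [this]
    linarith)
  have e5 : ‖(N : ℂ) ^ ((s + 4) / 2)‖ * ‖((N : ℂ) ^ (s / 2))⁻¹‖ = N ^ 2 := by
    rw [norm_inv, Complex.norm_cpow_eq_rpow_re_of_pos hN0, Complex.norm_cpow_eq_rpow_re_of_pos hN0,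
      ← Real.rpow_neg hN0.le, ← Real.rpow_add hN0, ← Real.rpow_natCast]
    congr 1
    rw [show (s + 4) / 2 = s / 2 + 2 by ring, add_re]
    simp
  unfold W
  rw [norm_mul, norm_mul, e1, h.eq' (by rw [e2]; linarith [h.hθ1]), gaf_eq, norm_mul, norm_mul, norm_prod, norm_prod,
    norm_mul, norm_pow, norm_mul, show s + 4 - 1 = s + 3 by ring]
  have e6 : (∏ j, ‖Gammaℝ (s + 4 + a j)‖) * ∏ j, ‖(Gammaℝ (s + a j))⁻¹‖ ≤ (Q * Q) ^ m := by
    rw [← Finset.prod_mul_distrib]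
    calc ∏ j, (‖Gammaℝ (s + 4 + a j)‖ * ‖(Gammaℝ (s + a j))⁻¹‖) ≤ ∏ _j : Fin m, (Q * Q) := by
          refine Finset.prod_le_prod (fun _ _ => by positivity) fun j _ => ?_
          have h5 := ratio (s + a j)
          rw [show s + a j + 4 = s + 4 + a j by ring] at h5
          obtain ⟨h6, h7⟩ := linj a s j
          exact h5.trans (mul_le_mul h6 h7 (norm_nonneg _) hQ0)
      _ = _ := by rw [Finset.prod_const, Finset.card_univ, Fintype.card_fin]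
  calc ‖(N : ℂ) ^ ((s + 4) / 2)‖ * (∏ j, ‖Gammaℝ (s + 4 + a j)‖) * ((‖s + 4‖ * ‖s + 3‖) ^ r * ‖LSeries b (s + 4)‖) *
        ‖((N : ℂ) ^ (s / 2))⁻¹‖ * ∏ j, ‖(Gammaℝ (s + a j))⁻¹‖ =
      (‖(N : ℂ) ^ ((s + 4) / 2)‖ * ‖((N : ℂ) ^ (s / 2))⁻¹‖) *
        ((∏ j, ‖Gammaℝ (s + 4 + a j)‖) * ∏ j, ‖(Gammaℝ (s + a j))⁻¹‖) *
        ((‖s + 4‖ * ‖s + 3‖) ^ r * ‖LSeries b (s + 4)‖) := by ring
    _ ≤ N ^ 2 * (Q * Q) ^ m * ((Q * Q) ^ r * S) := by
        rw [e5]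
        gcongr
        exact hS _ e2.ge
    _ = N ^ 2 * S * Q ^ (2 * m + 2 * r) := by
        rw [← sq, ← pow_mul, ← pow_mul, pow_add]
        ring

lemma W_ap (h : RawT θ m r N a b c X) : ∃ c0 B D T : ℝ, c0 < Real.pi / (5 / 2 - -3 / 2) ∧
    ∀ z : ℂ, -3 / 2 < z.re → z.re < 5 / 2 → T ≤ |z.im| →
      ‖W N a X z‖ ≤ D * Real.exp (B * Real.exp (c0 * |z.im|)) := by
  have hN0 : (0 : ℝ) < N := lt_of_lt_of_le one_pos h.hN
  obtain ⟨A, ρ, hord⟩ := h.order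
  obtain ⟨c0, K, hc0, hcp, hK0, hK⟩ := Pool.Agent.W12.UN.growth (-3 / 2) (5 / 2) (by norm_num) A ρ
  obtain ⟨C, T, hC0, hC⟩ := prod_strip a (-3 / 2) (5 / 2)
  refine ⟨c0, K + m * Real.pi / c0, N * C, T, hcp, fun z h1 h2 h3 => ?_⟩
  have e1 : ‖X z‖ ≤ Real.exp (K * Real.exp (c0 * |z.im|)) :=
    (hord z).trans (Real.exp_le_exp.2 (hK z h1 h2))
  have e2 : ‖((N : ℂ) ^ (z / 2))⁻¹‖ ≤ N := by
    rw [norm_inv, Complex.norm_cpow_eq_rpow_re_of_pos hN0, ← Real.rpow_neg hN0.le]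
    have e3 : (z / 2).re = z.re / 2 := by simp
    rw [e3]
    calc N ^ (-(z.re / 2)) ≤ N ^ (1 : ℝ) := Real.rpow_le_rpow_of_exponent_le h.hN (by linarith)
      _ = N := Real.rpow_one N
  have e3 := hC z h1.le h2.le h3
  have e4 : m * Real.pi * |z.im| ≤ m * Real.pi / c0 * Real.exp (c0 * |z.im|) := by
    have h5 := Real.add_one_le_exp (c0 * |z.im|)
    have h6 : m * Real.pi * |z.im| = m * Real.pi / c0 * (c0 * |z.im|) := by
      field_simp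
    rw [h6]
    apply mul_le_mul_of_nonneg_left _ (by positivity)
    linarith
  unfold W
  rw [norm_mul, norm_mul]
  calc ‖X z‖ * ‖((N : ℂ) ^ (z / 2))⁻¹‖ * ‖∏ j, (Gammaℝ (z + a j))⁻¹‖ ≤
      Real.exp (K * Real.exp (c0 * |z.im|)) * N * (C * Real.exp (m * Real.pi * |z.im|)) := by gcongr
    _ ≤ Real.exp (K * Real.exp (c0 * |z.im|)) * N * (C * Real.exp (m * Real.pi / c0 * Real.exp (c0 * |z.im|))) := by
        gcongr
    _ = N * C * (Real.exp (K * Real.exp (c0 * |z.im|)) * Real.exp (m * Real.pi / c0 * Real.exp (c0 * |z.im|))) := by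
        ring
    _ = _ := by
        rw [← Real.exp_add]
        congr 2
        ring

/-- polynomial growth of `W` -/
lemma W_gr (h : RawT θ m r N a b c X) : ∃ C : ℝ, 0 < C ∧ ∀ s : ℂ, -3 / 2 ≤ s.re →
    ‖W N a X s‖ ≤ C * (1 + ‖s‖) ^ (2 * m + 2 * r) := by
  have hN0 : (0 : ℝ) < N := lt_of_lt_of_le one_pos h.hN
  obtain ⟨S, hS0, hS⟩ := lser_bd h
  obtain ⟨c0, B, D, T, hc0, hap⟩ := W_ap h
  have h4 := M4 a
  have hM : 0 < M a := by linarith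
  have hC : 0 < N ^ 2 * S * M a ^ (2 * m + 2 * r) := by positivity
  have e1 : ∀ s : ℂ, N ^ 2 * S * (M a * (1 + ‖s‖)) ^ (2 * m + 2 * r) =
      N ^ 2 * S * M a ^ (2 * m + 2 * r) * (1 + ‖s‖) ^ (2 * m + 2 * r) := fun s => by
    rw [mul_pow]
    ring
  have h5 := pl (W_diff (a := a) hN0 h.entire) hC.le hc0 hap
    (fun z hz => (W_lbd h hS0 hS hz).trans_eq (e1 z)) (fun z hz => (W_rbd h hS0 hS hz.ge).trans_eq (e1 z))
  refine ⟨N ^ 2 * S * M a ^ (2 * m + 2 * r) * 12 ^ (2 * m + 2 * r), by positivity, fun s hs => ?_⟩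
  rcases le_total s.re (5 / 2) with h6 | h6
  · exact h5 s hs h6
  · refine ((W_rbd h hS0 hS h6).trans_eq (e1 s)).trans ?_
    refine mul_le_mul_of_nonneg_right ?_ (by positivity)
    exact le_mul_of_one_le_right hC.le (one_le_pow₀ (by norm_num))

end Rbase

open Rbase in
theorem rbase : S_rbase := by
  intro θ m r N a b c X h h1
  have hN0 : (0 : ℝ) < N := lt_of_lt_of_le one_pos h.hN
  have hfun : (datOf r N a X).Zs = fun s => W N a X s * (s ^ r)⁻¹ := funext fun s => Zs_eq r N a X s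
  refine ⟨fun s hs => ?_, fun hr => ?_, ?_⟩
  · rw [hfun]
    have hs0 : s ^ r ≠ 0 := pow_ne_zero _ (fun h' => by rw [h'] at hs; simp at hs)
    exact (W_diff hN0 h.entire s).mul ((by fun_prop : DifferentiableAt ℂ (fun s : ℂ => s ^ r) s).inv hs0)
  · rw [Zs_eq]
    have h2 : ∏ j, (Gammaℝ (1 + a j))⁻¹ ≠ 0 := Finset.prod_ne_zero_iff.2 fun j _ =>
      inv_ne_zero (Gammaℝ_ne_zero_of_re_pos (by rw [add_re, one_re]; linarith [h.re_ge j]))
    refine mul_ne_zero (mul_ne_zero (mul_ne_zero (h1 hr) (inv_ne_zero (cpow_ne hN0 _))) h2) ?_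
    simp
  · obtain ⟨C, hC0, hC⟩ := W_gr h
    refine ⟨C * 4 ^ r, 2 * m + 2 * r, by positivity, fun s hs => ?_⟩
    rw [Zs_eq, norm_mul, norm_inv, norm_pow]
    have h2 : 1 / 4 ≤ ‖s‖ := hs.trans ((le_abs_self _).trans (Complex.abs_re_le_norm s))
    have h3 : (‖s‖ ^ r)⁻¹ ≤ 4 ^ r := by
      rw [← inv_pow]
      have h4 : ‖s‖⁻¹ ≤ 4 := by
        rw [inv_le_comm₀ (by linarith) (by norm_num)]
        linarith
      gcongr
    calc ‖W N a X s‖ * (‖s‖ ^ r)⁻¹ ≤ (C * (1 + ‖s‖) ^ (2 * m + 2 * r)) * 4 ^ r :=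
          mul_le_mul (hC s (by linarith)) h3 (by positivity) (by positivity)
      _ = _ := by ring

end Pool.Agent.N967.G
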