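import Mathlib
import Pool.Agent.N967.G.Rbase

set_option autoImplicit false

/-!
# Baez-Duarte's distance for general L-functions: the Dirichlet series of the inverse
-/

namespace Pool.Agent.N967.G

open Complex MeasureTheory Filter Topology
open Pool.Agent.TH839.NA (RawT pw pw_one cb_tw conv_pw summ_shift)
open Pool.Agent.W355.UN (Conv)

namespace Rser

/-- an arithmetic function from a sequence -/
noncomputable def af (b : ℕ → ℂ) : ArithmeticFunction ℂ := ⟨fun n => if n = 0 then 0 else b n, by simp⟩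

lemma af_apply (b : ℕ → ℂ) {n : ℕ} (hn : n ≠ 0) : af b n = b n := by
  show (if n = 0 then 0 else b n) = b n
  rw [if_neg hn]

/-- multiplication by the logarithm -/
noncomputable def dl (f : ArithmeticFunction ℂ) : ArithmeticFunction ℂ :=
  ⟨fun n => f n * ((Real.log n : ℝ) : ℂ), by simp⟩

lemma dl_apply (f : ArithmeticFunction ℂ) (n : ℕ) : dl f n = f n * ((Real.log n : ℝ) : ℂ) := rfl

lemma dl_mul (f g : ArithmeticFunction ℂ) : dl (f * g) = dl f * g + f * dl g := by
  ext n
  rw [dl_apply, ArithmeticFunction.mul_apply, ArithmeticFunction.add_apply, ArithmeticFunction.mul_apply,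
    ArithmeticFunction.mul_apply, Finset.sum_mul, ← Finset.sum_add_distrib]
  refine Finset.sum_congr rfl fun x hx => ?_
  obtain ⟨h1, h2⟩ := Nat.mem_divisorsAntidiagonal.1 hx
  have h3 : x.1 ≠ 0 := fun h => h2 (by rw [← h1, h, zero_mul])
  have h4 : x.2 ≠ 0 := fun h => h2 (by rw [← h1, h, mul_zero])
  have h5 : Real.log n = Real.log x.1 + Real.log x.2 := by
    rw [← h1, Nat.cast_mul, Real.log_mul (by exact_mod_cast h3) (by exact_mod_cast h4)]
  rw [h5, dl_apply, dl_apply, Complex.ofReal_add]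
  ring

lemma dl_one : dl 1 = 0 := by
  ext n
  rw [dl_apply, ArithmeticFunction.zero_apply]
  rcases eq_or_ne n 1 with rfl | h
  · simp
  · rw [ArithmeticFunction.one_apply_ne h, zero_mul]

/-- the von Mangoldt function twisted by the traces -/
noncomputable def lam (c : ℕ → ℂ) : ArithmeticFunction ℂ :=
  ⟨fun n => ((ArithmeticFunction.vonMangoldt n : ℝ) : ℂ) * c n, by simp⟩

lemma lam_apply (c : ℕ → ℂ) (n : ℕ) : lam c n = ((ArithmeticFunction.vonMangoldt n : ℝ) : ℂ) * c n := rfl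

lemma lam_neg (c : ℕ → ℂ) : lam (fun n => -c n) = -lam c := by
  ext n
  rw [ArithmeticFunction.neg_apply, lam_apply, lam_apply, mul_neg]

lemma conv_iff (f : ArithmeticFunction ℂ) (c : ℕ → ℂ) : Conv f c ↔ dl f = lam c * f := by
  constructor
  · intro h
    ext n
    rcases eq_or_ne n 0 with rfl | hn
    · simp
    · rw [dl_apply, h n hn, ArithmeticFunction.mul_apply,
        Nat.sum_divisorsAntidiagonal (fun x y => lam c x * f y)]
      rfl
  · intro h n hn
    rw [← dl_apply, h, ArithmeticFunction.mul_apply,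
        Nat.sum_divisorsAntidiagonal (fun x y => lam c x * f y)]
    rfl

lemma conv_af {b c : ℕ → ℂ} (h : Conv b c) : Conv (af b) c := by
  intro n hn
  rw [af_apply b hn, h n hn]
  refine Finset.sum_congr rfl fun d hd => ?_
  rw [af_apply]
  exact (Nat.div_pos (Nat.divisor_le hd) (Nat.pos_of_mem_divisors hd)).ne'

/-- the inverse series -/
lemma inv {b c : ℕ → ℂ} (h1 : b 1 = 1) (h : Conv b c) :
    ∃ g : ArithmeticFunction ℂ, af b * g = 1 ∧ g 1 = 1 ∧ Conv g (fun n => -c n) := by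
  have h2 : IsUnit (af b) := by
    rw [ArithmeticFunction.isUnit_iff_isUnit_apply_one, af_apply b one_ne_zero, h1]
    exact isUnit_one
  obtain ⟨g, hg⟩ := h2.exists_right_inv
  refine ⟨g, hg, ?_, ?_⟩
  · have h3 : (af b * g) 1 = 1 := by rw [hg]; simp
    rw [ArithmeticFunction.mul_apply_one, af_apply b one_ne_zero, h1, one_mul] at h3
    exact h3
  · rw [conv_iff, lam_neg]
    have h3 := dl_mul (af b) g
    rw [hg, dl_one, (conv_iff _ _).1 (conv_af h), mul_assoc, hg, mul_one] at h3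
    have h4 : g * (lam c + af b * dl g) = 0 := by rw [← h3, mul_zero]
    rw [mul_add, ← mul_assoc, mul_comm g (af b), hg, one_mul] at h4
    linear_combination h4

lemma lser_af (b : ℕ → ℂ) : LSeries (af b) = LSeries b :=
  funext fun s => LSeries_congr (fun {_} hn => af_apply b hn) s

lemma summ_af {b : ℕ → ℂ} {s : ℂ} (h : LSeriesSummable b s) : LSeriesSummable (af b) s :=
  (LSeriesSummable_congr s (fun {_} hn => af_apply b hn)).2 h

lemma lser_mul {b : ℕ → ℂ} {g : ArithmeticFunction ℂ} (h : af b * g = 1) {s : ℂ} (hb : LSeriesSummable b s)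
    (hg : LSeriesSummable g s) : LSeries b s * LSeries g s = 1 := by
  have h1 := ArithmeticFunction.LSeries_mul' (summ_af hb) hg
  rw [h, ArithmeticFunction.one_eq_delta, LSeries_delta, Pi.one_apply, lser_af] at h1
  exact h1.symm

/-- bound in a half-plane -/
lemma bnd {b : ℕ → ℂ} {x : ℝ} (h : LSeriesSummable b (x : ℂ)) : ∃ C : ℝ, 0 < C ∧ ∀ s : ℂ, x ≤ s.re →
    ‖LSeries b s‖ ≤ C := by
  have h1 : Summable fun n => ‖LSeries.term b (x : ℂ) n‖ := h.norm
  refine ⟨∑' n, ‖LSeries.term b (x : ℂ) n‖ + 1, by positivity, fun s hs => ?_⟩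
  have h2 : ∀ n, ‖LSeries.term b s n‖ ≤ ‖LSeries.term b (x : ℂ) n‖ := fun n =>
    LSeries.norm_term_le_of_re_le_re b (by simpa using hs) n
  have h3 : ‖LSeries b s‖ ≤ ∑' n, ‖LSeries.term b (x : ℂ) n‖ :=
    tsum_of_norm_bounded h1.hasSum h2
  linarith


variable {θ : ℝ} {m r : ℕ} {N : ℝ} {a : Fin m → ℂ} {b c : ℕ → ℂ} {X : ℂ → ℂ}

/-- the inverse series in the half-plane `re s > 1 + θ` -/
lemma main (h : RawT θ m r N a b c X) : ∃ g : ℕ → ℂ, ∀ s : ℂ, 1 + θ < s.re →
    LSeriesSummable g s ∧ LSeries b s * LSeries g s = 1 := by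
  obtain ⟨g, h1, h2, h3⟩ := inv h.one h.conv
  refine ⟨g, fun s hs => ?_⟩
  have hs' : 1 < (s - θ).re := by
    rw [sub_re, ofReal_re]
    linarith
  have h4 := (Pool.Agent.W672.UN.coef m (fun n => g n * pw (-θ) n)
    (fun n => -c n * pw (-θ) n) (by rw [h2, pw_one, one_mul])
    (cb_tw (c := fun n => -c n) fun n => by rw [norm_neg]; exact h.cb n) (conv_pw h3 _) (s - θ) hs').1
  have h5 : LSeriesSummable g s := summ_shift h4
  exact ⟨h5, lser_mul h1 (h.coef hs).1 h5⟩

lemma fz_eq (h : RawT θ m r N a b c X) {g : ℕ → ℂ} {s : ℂ} (hs : 1 + θ < s.re) (hg : LSeries b s * LSeries g s = 1) :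
    (datOf r N a X).L s = LSeries b s ∧ (datOf r N a X).fz s = LSeries g s := by
  have hθ := h.hθ
  have hs0 : s ^ r ≠ 0 := pow_ne_zero _ (fun h' => by rw [h', zero_re] at hs; linarith)
  have hs1 : (s - 1) ^ r ≠ 0 := pow_ne_zero _ (fun h' => by
    rw [sub_eq_zero.1 h', one_re] at hs
    linarith)
  have h1 : (datOf r N a X).Zs s = (s - 1) ^ r * LSeries b s := by
    rw [Rbase.Zs_eq, Rbase.W_right h hs, mul_pow]
    field_simp
  have hL : LSeries b s ≠ 0 := fun h' => by rw [h', zero_mul] at hg; exact zero_ne_one hg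
  constructor
  · show (datOf r N a X).Zs s / (s - 1) ^ r = _
    rw [h1]
    field_simp
  · show (s - 1) ^ r / (datOf r N a X).Zs s = _
    rw [h1, eq_inv_of_mul_eq_one_right hg]
    field_simp

end Rser

open Rser in
theorem rser : S_rser := by
  intro θ m r N a b c X h
  have hθ := h.hθ
  have hθ1 := h.hθ1
  obtain ⟨g, hg⟩ := main h
  refine ⟨⟨g, 1 + θ, by linarith, fun s hs => ⟨(hg s hs).1, (fz_eq h hs (hg s hs).2).2⟩⟩, ?_⟩
  have h0 : 1 + θ < (((5 / 2 : ℝ)) : ℂ).re := by
    rw [ofReal_re]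
    linarith
  obtain ⟨C1, hC1, hC1'⟩ := bnd (h.coef h0).1
  obtain ⟨C2, hC2, hC2'⟩ := bnd (hg _ h0).1
  refine ⟨C1 + C2, by positivity, fun s hs => ?_⟩
  have hs' : 1 + θ < s.re := by linarith
  obtain ⟨h1, h2⟩ := fz_eq h hs' (hg s hs').2
  rw [h1, h2]
  have h3 := hC1' s hs
  have h4 := hC2' s hs
  constructor <;> linarith

end Pool.Agent.N967.G
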