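import Mathlib
import Pool.Agent.N967.G.Fin
import Pool.Agent.N967.G.All
import Pool.Agent.N967.G.Rbase
import Pool.Agent.N967.G.Rser
import Pool.Agent.N967.G.Rzero

set_option autoImplicit false

/-!
# Baez-Duarte's distance for L-functions: the class of L-functions with an Euler product
-/

namespace Pool.Agent.N967.G

open Complex MeasureTheory Filter Topology
open Pool.Agent.TH839.NA (RawT)

variable {θ : ℝ} {m r : ℕ} {N : ℝ} {a : Fin m → ℂ} {b c : ℕ → ℂ} {X : ℂ → ℂ}

lemma raw_ne (h : RawT θ m r N a b c X) : X 3 ≠ 0 := by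
  have hθ := h.hθ1
  have h1 : 1 + θ < ((3 : ℂ)).re := by
    rw [show ((3 : ℂ)).re = 3 by norm_num]
    linarith
  have hN0 : (N : ℂ) ≠ 0 := by
    rw [Ne, Complex.ofReal_eq_zero]
    linarith [h.hN]
  rw [h.eq' h1, Pool.Agent.W355.UN.gaf_eq]
  refine mul_ne_zero (mul_ne_zero ?_ ?_) (mul_ne_zero (pow_ne_zero _ (by norm_num)) (h.coef h1).2.1)
  · rw [Ne, Complex.cpow_eq_zero_iff]
    exact fun h => hN0 h.1
  · rw [Finset.prod_ne_zero_iff]
    intro j _
    refine Gammaℝ_ne_zero_of_re_pos ?_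
    have := h.re_ge j
    rw [Complex.add_re, show ((3 : ℂ)).re = 3 by norm_num]
    linarith

lemma ord_pos (hd : Differentiable ℂ X) (hX : ∃ z, X z ≠ 0) {s : ℂ} (hs : X s = 0) : 1 ≤ analyticOrderNatAt X s := by
  have han : AnalyticAt ℂ X s := hd.analyticAt s
  have h1 : analyticOrderAt X s ≠ 0 := by
    intro h0
    exact (han.analyticOrderAt_eq_zero.1 h0) hs
  have h2 : analyticOrderAt X s ≠ ⊤ := by
    intro h0
    rw [analyticOrderAt_eq_top] at h0
    obtain ⟨z, hz⟩ := hX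
    have h3 : AnalyticOnNhd ℂ X Set.univ := fun z _ => hd.analyticAt z
    exact hz (h3.eqOn_zero_of_preconnected_of_eventuallyEq_zero isPreconnected_univ (Set.mem_univ s) h0 (Set.mem_univ z))
  rw [Nat.one_le_iff_ne_zero]
  intro h0
  apply h1
  have h4 := Nat.cast_analyticOrderNatAt h2
  rw [← h4, h0]
  rfl

theorem bd_raw (hlam : S_lamS) (h : RawT θ m r N a b c X)
    (ha : ∀ j, -1 / 2 < (a j).re) (h1 : 1 ≤ r → X 1 ≠ 0) : BaezDuarte X (datOf r N a X).L (1 / 2) := by
  obtain ⟨hz, hleft, hoff⟩ := rzero θ m r N a b c X h ha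
  have hne : ∃ z, X z ≠ 0 := ⟨3, raw_ne h⟩
  refine bd_of (D := datOf r N a X) ?_ hz (fun s hs => ord_pos h.entire hne hs) (fun hRH => hlam X h.slow h.fe hne hRH)
  refine dich_of (fun hRH => ?_) (off (rbase θ m r N a b c X h h1) shift) (fun hn => ?_)
  · exact rp_asym (rp_all (ax_raw rbase rser rzero θ m r N a b c X h ha h1 hRH))
  · have h2 : ∃ s : ℂ, X s = 0 ∧ s.re ≠ 1 / 2 := by
      by_contra hcon
      exact hn fun s hs => by
        by_contra h3
        exact hcon ⟨s, hs, h3⟩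
    obtain ⟨s, h3, h4⟩ := hoff h2
    exact ⟨s, h3, h4⟩

/-- change of normalisation -/
theorem BaezDuarte.shift {X L Λ L' : ℂ → ℂ} (h : BaezDuarte X L (1 / 2)) {κ : ℂ} {δ : ℝ} (hκ : κ ≠ 0)
    (hX : ∀ s : ℂ, X s = κ * Λ (s + δ)) (hΛ : Differentiable ℂ Λ)
    (hL : ∀ t : ℝ, L' (((1 / 2 + δ : ℝ) : ℂ) + t * I) = L (1 / 2 + t * I)) : BaezDuarte Λ L' (1 / 2 + δ) := by
  have hon : OnLine Λ (1 / 2 + δ) ↔ OnLine X (1 / 2) := by
    constructor
    · intro h1 s hs
      rw [hX] at hs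
      have h2 := h1 (s + δ) ((mul_eq_zero.1 hs).resolve_left hκ)
      rw [Complex.add_re, Complex.ofReal_re] at h2
      linarith
    · intro h1 s hs
      have h2 := h1 (s - δ) (by rw [hX, sub_add_cancel, hs, mul_zero])
      rw [Complex.sub_re, Complex.ofReal_re] at h2
      linarith
  have hdist : ∀ M : ℕ, dist2 L' (1 / 2 + δ) M = dist2 L (1 / 2) M := by
    intro M
    have key : ∀ (a : ℕ → ℂ) (t : ℝ), integrand L' (1 / 2 + δ) M a t =
        integrand L (1 / 2) M (fun n => a n * (n : ℂ) ^ (-(δ : ℂ))) t := by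
      intro a t
      unfold integrand
      rw [hL, half_cast]
      congr 4
      congr 1
      refine Finset.sum_congr rfl fun n hn => ?_
      have hn0 : (n : ℂ) ≠ 0 := by
        have := (Finset.mem_Icc.1 hn).1
        exact_mod_cast (by omega : n ≠ 0)
      rw [mul_assoc, ← Complex.cpow_add _ _ hn0]
      congr 2
      push_cast
      ring
    unfold dist2
    refine le_antisymm ?_ ?_
    · refine le_iInf fun a => ?_
      refine (iInf_le _ (fun n => a n * (n : ℂ) ^ (δ : ℂ))).trans (le_of_eq ?_)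
      congr 1
      refine lintegral_congr fun t => ?_
      rw [key]
      congr 1
      unfold integrand
      congr 4
      congr 1
      refine Finset.sum_congr rfl fun n hn => ?_
      have hn0 : (n : ℂ) ≠ 0 := by
        have := (Finset.mem_Icc.1 hn).1
        exact_mod_cast (by omega : n ≠ 0)
      show a n * (n : ℂ) ^ (δ : ℂ) * (n : ℂ) ^ (-(δ : ℂ)) * _ = _
      rw [mul_assoc (a n), ← Complex.cpow_add _ _ hn0, add_neg_cancel, Complex.cpow_zero, mul_one]
    · refine le_iInf fun a => ?_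
      refine (iInf_le _ (fun n => a n * (n : ℂ) ^ (-(δ : ℂ)))).trans (le_of_eq ?_)
      congr 1
      exact lintegral_congr fun t => by rw [key]
  have hint : ∀ (M : ℕ) (a : ℕ → ℂ), integrand L' (1 / 2 + δ) M a =
      integrand L (1 / 2) M (fun n => a n * (n : ℂ) ^ (-(δ : ℂ))) := by
    intro M a
    funext t
    unfold integrand
    rw [hL, half_cast]
    congr 4
    congr 1
    refine Finset.sum_congr rfl fun n hn => ?_
    have hn0 : (n : ℂ) ≠ 0 := by
      have := (Finset.mem_Icc.1 hn).1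
      exact_mod_cast (by omega : n ≠ 0)
    rw [mul_assoc, ← Complex.cpow_add _ _ hn0]
    congr 2
    push_cast
    ring
  have hord : ∀ s : ℂ, analyticOrderNatAt X (s - δ) = analyticOrderNatAt Λ s := by
    intro s
    have e1 : X = (fun _ => κ) * (Λ ∘ fun z : ℂ => z + δ) := by
      funext z
      rw [hX]
      rfl
    have e2 : AnalyticAt ℂ (fun z : ℂ => z + δ) (s - δ) := by fun_prop
    have e3 : AnalyticAt ℂ (Λ ∘ fun z : ℂ => z + δ) (s - δ) :=
      (hΛ.comp (by fun_prop : Differentiable ℂ fun z : ℂ => z + δ)).analyticAt _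
    have e4 : analyticOrderAt (Λ ∘ fun z : ℂ => z + δ) (s - δ) = analyticOrderAt Λ (s - δ + δ) := by
      refine analyticOrderAt_comp_of_deriv_ne_zero e2 ?_
      simp
    have e5 : analyticOrderAt (fun _ : ℂ => κ) (s - δ) = 0 := by
      rw [analyticAt_const.analyticOrderAt_eq_zero]
      exact hκ
    unfold analyticOrderNatAt
    rw [e1, analyticOrderAt_mul analyticAt_const e3, e5, zero_add, e4, sub_add_cancel]
  have hlog : logDeriv X 1 = logDeriv Λ (((1 / 2 + δ : ℝ) : ℂ) + 1 / 2) := by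
    have e1 : X = fun z : ℂ => κ * Λ (z + δ) := funext hX
    have e2 : HasDerivAt X (κ * deriv Λ (1 + δ)) 1 := by
      rw [e1]
      have h5 : HasDerivAt (fun z : ℂ => Λ (z + δ)) (deriv Λ (1 + δ)) 1 := by
        have := (hΛ ((1 : ℂ) + δ)).hasDerivAt.comp_add_const (1 : ℂ) (δ : ℂ)
        exact this
      exact h5.const_mul κ
    have e3 : ((1 / 2 + δ : ℝ) : ℂ) + 1 / 2 = 1 + δ := by push_cast; ring
    rw [logDeriv_apply, logDeriv_apply, e2.deriv, hX, e3, mul_div_mul_left _ _ hκ]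
  -- the zeros
  let e : Zero Λ ≃ Zero X :=
    { toFun := fun ρ => ⟨(ρ : ℂ) - δ, by
        show X ((ρ : ℂ) - δ) = 0
        rw [hX, sub_add_cancel, ρ.2, mul_zero]⟩
      invFun := fun ρ => ⟨(ρ : ℂ) + δ, by
        have h5 := ρ.2
        rw [hX] at h5
        exact (mul_eq_zero.1 h5).resolve_left hκ⟩
      left_inv := fun ρ => by
        apply Subtype.ext
        show (ρ : ℂ) - δ + δ = ρ
        ring
      right_inv := fun ρ => by
        apply Subtype.ext
        show (ρ : ℂ) + δ - δ = ρ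
        ring }
  have he : ∀ ρ : Zero Λ, ((e ρ : Zero X) : ℂ) = (ρ : ℂ) - δ := fun ρ => rfl
  have hm : ∀ ρ : Zero Λ, mult X (e ρ) = mult Λ ρ := by
    intro ρ
    unfold mult
    rw [he, hord]
  have hn : ∀ ρ : Zero Λ, norm2 X (1 / 2) (e ρ) = norm2 Λ (1 / 2 + δ) ρ := by
    intro ρ
    unfold norm2
    rw [he]
    congr 2
    push_cast
    ring
  have hts : ∑' ρ : Zero Λ, (mult Λ ρ : ℝ) ^ 2 / norm2 Λ (1 / 2 + δ) ρ =
      ∑' ρ : Zero X, (mult X ρ : ℝ) ^ 2 / norm2 X (1 / 2) ρ := by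
    rw [← e.tsum_eq]
    exact tsum_congr fun ρ => by rw [hm, hn]
  have hhalf : (((1 / 2 : ℝ)) : ℂ) + 1 / 2 = 1 := by rw [half_cast]; norm_num
  refine ⟨fun h1 M a => ?_, fun h1 => ?_, fun h1 => ?_, fun h1 => ?_, ?_, fun h1 => ?_, ?_⟩
  · rw [hint]
    exact h.integrable (hon.1 h1) M _
  · refine (e.summable_iff.2 (h.summable (hon.1 h1))).congr fun ρ => ?_
    simp only [Function.comp_apply, hm, hn]
  · rw [hts]
    simp only [hdist]
    exact h.asymptotic (hon.1 h1)
  · simp only [hdist]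
    exact h.bounded_below (fun h2 => h1 (hon.2 h2))
  · rw [hon]
    simp only [hdist]
    exact h.iff_limit
  · have h2 := h.first_moment (hon.1 h1)
    rw [hhalf, hlog] at h2
    have h3 := (e.hasSum_iff).2 h2
    have h4 : ((fun ρ : Zero X => (mult X ρ : ℝ) / norm2 X (1 / 2) ρ) ∘ e) =
        fun ρ : Zero Λ => (mult Λ ρ : ℝ) / norm2 Λ (1 / 2 + δ) ρ := by
      funext ρ
      simp only [Function.comp_apply, hm, hn]
    rwa [h4] at h3
  · have h2 := h.iff_simple
    rw [hhalf, hlog] at h2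
    simp only [hdist]
    rw [← h2, hon]
    refine and_congr_right fun _ => ⟨fun h3 ρ => ?_, fun h3 ρ => ?_⟩
    · have := h3 (e.symm ρ)
      rw [← hm, e.apply_symm_apply] at this
      exact this
    · rw [← hm]
      exact h3 _

end Pool.Agent.N967.G
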