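import Mathlib
import Pool.Agent.N967.G.Fin2
import Pool.Agent.TH839.NA.Inst
import Pool.Agent.W355.UN.Ab2

set_option autoImplicit false

/-!
# Baez-Duarte's distance for L-functions: the L-function as an analytic continuation
-/

namespace Pool.Agent.N967.G

open Complex MeasureTheory Filter Topology
open UpperHalfPlane MatrixGroups CongruenceSubgroup
open Pool.Agent.TH839.NA (RawT RawTL rawTL_of_rawL)

variable {θ : ℝ} {m r : ℕ} {N : ℝ} {a : Fin m → ℂ} {b c : ℕ → ℂ} {X : ℂ → ℂ}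

/-- the analytic continuation of the L-series is the function `L` of the data -/
lemma L_eq (h : RawT θ m r N a b c X) {L : ℂ → ℂ} (hL : DifferentiableOn ℂ L ({0, 1} : Set ℂ)ᶜ)
    (hs : ∃ σ : ℝ, ∀ s : ℂ, σ ≤ s.re → L s = LSeries b s) {s : ℂ} (h0 : s ≠ 0) (h1 : s ≠ 1) :
    L s = (datOf r N a X).L s := by
  have hN : (0 : ℝ) < N := by linarith [h.hN]
  have hN0 : (N : ℂ) ≠ 0 := by
    rw [Ne, Complex.ofReal_eq_zero]
    exact hN.ne'
  have hop : IsOpen (({0, 1} : Set ℂ)ᶜ) := (Set.toFinite _).isClosed.isOpen_compl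
  have hpc : IsPreconnected (({0, 1} : Set ℂ)ᶜ) :=
    (Set.Countable.isPathConnected_compl_of_one_lt_rank (by simp) (Set.toFinite _).countable).isConnected.isPreconnected
  have hG : Differentiable ℂ fun s : ℂ => ∏ j, (Gammaℝ (s + a j))⁻¹ := by
    refine Differentiable.fun_finsetProd fun j _ => ?_
    exact differentiable_Gammaℝ_inv.comp (differentiable_id.add_const _)
  have hC : Differentiable ℂ fun s : ℂ => (N : ℂ) ^ (s / 2) := by
    intro z
    exact ((differentiableAt_id).div_const 2).const_cpow (Or.inl hN0)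
  have hA : AnalyticOnNhd ℂ (fun s : ℂ => X s * ∏ j, (Gammaℝ (s + a j))⁻¹) (({0, 1} : Set ℂ)ᶜ) :=
    (DifferentiableOn.analyticOnNhd (h.entire.mul hG).differentiableOn hop)
  have hB : AnalyticOnNhd ℂ (fun s : ℂ => (s * (s - 1)) ^ r * (N : ℂ) ^ (s / 2) * L s) (({0, 1} : Set ℂ)ᶜ) := by
    refine DifferentiableOn.analyticOnNhd (DifferentiableOn.mul (Differentiable.differentiableOn ?_) hL) hop
    exact ((differentiable_id.mul (differentiable_id.sub_const 1)).pow r).mul hC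
  obtain ⟨σ, hσ⟩ := hs
  obtain ⟨σ', hσ'⟩ := h.eq
  have hz0 : ((max (max σ σ') 2 + 1 : ℝ) : ℂ) ∈ (({0, 1} : Set ℂ)ᶜ) := by
    have h2 : (2 : ℝ) ≤ max (max σ σ') 2 := le_max_right _ _
    simp only [Set.mem_compl_iff, Set.mem_insert_iff, Set.mem_singleton_iff, not_or]
    refine ⟨fun h => ?_, fun h => ?_⟩
    · have := congrArg Complex.re h
      rw [Complex.ofReal_re, Complex.zero_re] at this
      linarith
    · have := congrArg Complex.re h
      rw [Complex.ofReal_re, Complex.one_re] at this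
      linarith
  have hev : (fun s : ℂ => X s * ∏ j, (Gammaℝ (s + a j))⁻¹) =ᶠ[𝓝 ((max (max σ σ') 2 + 1 : ℝ) : ℂ)]
      fun s : ℂ => (s * (s - 1)) ^ r * (N : ℂ) ^ (s / 2) * L s := by
    have hmem : {s : ℂ | max (max σ σ') 2 < s.re} ∈ 𝓝 ((max (max σ σ') 2 + 1 : ℝ) : ℂ) := by
      refine (isOpen_lt continuous_const Complex.continuous_re).mem_nhds ?_
      show max (max σ σ') 2 < ((max (max σ σ') 2 + 1 : ℝ) : ℂ).re
      rw [Complex.ofReal_re]
      linarith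
    filter_upwards [hmem] with z hz
    have hz1 : max (max σ σ') 2 < z.re := hz
    have h3 : σ ≤ z.re := ((le_max_left _ _).trans (le_max_left _ _)).trans hz1.le
    have h4 : σ' ≤ z.re := ((le_max_right _ _).trans (le_max_left _ _)).trans hz1.le
    have h5 : (2 : ℝ) < z.re := lt_of_le_of_lt (le_max_right _ _) hz1
    have hne : ∏ j, Gammaℝ (z + a j) ≠ 0 := by
      rw [Finset.prod_ne_zero_iff]
      intro j _
      refine Gammaℝ_ne_zero_of_re_pos ?_
      have := h.re_ge j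
      rw [Complex.add_re]
      linarith
    rw [hσ' z h4, hσ z h3, Finset.prod_inv_distrib]
    field_simp
  have heq := hA.eqOn_of_preconnected_of_eventuallyEq hB hpc hz0 hev
  have h2 : s ∈ (({0, 1} : Set ℂ)ᶜ) := by simp [h0, h1]
  have h3 := heq h2
  simp only at h3
  show L s = X s * (s ^ r)⁻¹ * ((N : ℂ) ^ (s / 2))⁻¹ * (∏ j, (Gammaℝ (s + a j))⁻¹) / (s - 1) ^ r
  have h4 : (N : ℂ) ^ (s / 2) ≠ 0 := by
    rw [Ne, Complex.cpow_eq_zero_iff]
    exact fun h => hN0 h.1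
  have h5 : s - 1 ≠ 0 := sub_ne_zero.2 h1
  have h6 : X s * (s ^ r)⁻¹ * ((N : ℂ) ^ (s / 2))⁻¹ * (∏ j, (Gammaℝ (s + a j))⁻¹) / (s - 1) ^ r =
      (X s * ∏ j, (Gammaℝ (s + a j))⁻¹) * (s ^ r)⁻¹ * ((N : ℂ) ^ (s / 2))⁻¹ / (s - 1) ^ r := by ring
  rw [h6, h3, mul_pow]
  field_simp

/-- the theorem for the normalised and the shifted completed function -/
theorem bd_fin (hlam : S_lamS) (h : RawT θ m r N a b c X)
    (ha : ∀ j, -1 / 2 < (a j).re) (h1 : 1 ≤ r → X 1 ≠ 0) {Λ L : ℂ → ℂ} {κ : ℂ} {δ : ℝ} (hκ : κ ≠ 0)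
    (hX : ∀ s : ℂ, X s = κ * Λ (s + δ))
    (hL : DifferentiableOn ℂ (fun s : ℂ => L (s + δ)) ({0, 1} : Set ℂ)ᶜ)
    (hs : ∃ σ : ℝ, ∀ s : ℂ, σ ≤ s.re → L (s + δ) = LSeries b s) : BaezDuarte Λ L (1 / 2 + δ) := by
  have hΛ : Differentiable ℂ Λ := by
    have e : Λ = fun s : ℂ => κ⁻¹ * X (s - δ) := by
      funext s
      rw [hX, sub_add_cancel, inv_mul_cancel_left₀ hκ]
    rw [e]
    exact (h.entire.comp (differentiable_id.sub_const _)).const_mul _
  refine (bd_raw hlam h ha h1).shift hκ hX hΛ fun t => ?_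
  have h2 := L_eq h hL hs (s := 1 / 2 + t * Complex.I) (fun h0 => ?_) (fun h0 => ?_)
  · rw [← h2]
    congr 1
    push_cast
    ring
  · have := congrArg Complex.re h0
    simp at this
  · have := congrArg Complex.re h0
    norm_num at this

section
variable {K : ℕ} [NeZero K] {f : CuspForm (Gamma0 K : Subgroup (GL (Fin 2) ℝ)) 2} {w : ℝ}
open Pool.Agent.W355.UN (Eu2 lam2 eu2_of isNewf_of tw_raw fac_eq facE cser)
open Pool.Agent.W355.LJ (lseries_tsum)
open Pool.Agent.W169.HF (IsForm coef)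

omit [NeZero K] in
lemma lser_tw (hE : Eu2 (lam2 f)) {q : ℕ} (χ : DirichletCharacter ℂ q) {s : ℂ} (hs : 1 < s.re) :
    LSeries (fun n => χ (n : ZMod q) * lam2 f n) s =
      ∑' n : ℕ, coef f (n + 1) * χ ((n + 1 : ℕ) : ZMod q) * ((n + 1 : ℕ) : ℂ) ^ (-(s + 1 / 2)) := by
  obtain ⟨c, hc, hconv⟩ := (hE.twist χ).conv
  have hsum : LSeriesSummable (fun n => χ (n : ZMod q) * lam2 f n) s :=
    (Pool.Agent.W672.UN.coef 2 _ c (hE.twist χ).one (fun n => by simpa using hc n) hconv s hs).1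
  rw [lseries_tsum hsum]
  refine tsum_congr fun n => ?_
  have hn : ((n + 1 : ℕ) : ℂ) ≠ 0 := by exact_mod_cast Nat.succ_ne_zero n
  have h1 : -(s + 1 / 2) = ((-(1 / 2) : ℝ) : ℂ) + -s := by push_cast; ring
  have h2 : ((((n + 1 : ℕ) : ℝ) ^ (-(1 / 2 : ℝ)) : ℝ) : ℂ) =
      ((n + 1 : ℕ) : ℂ) ^ ((-(1 / 2) : ℝ) : ℂ) := by
    rw [Complex.ofReal_cpow (Nat.cast_nonneg _), Complex.ofReal_natCast]
  rw [h1, Complex.cpow_add _ _ hn, ← h2]
  unfold lam2 coef
  ring

/-- the constant of one factor -/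
noncomputable def kapq (K q : ℕ) : ℂ := 2 * ((Real.sqrt K * q : ℝ) : ℂ) ^ (-(1 / 2) : ℂ)

lemma kapq_ne (K q : ℕ) [NeZero K] [NeZero q] : kapq K q ≠ 0 := by
  have hN : (0 : ℝ) < K := by exact_mod_cast Nat.pos_of_ne_zero (NeZero.ne K)
  have hq : (0 : ℝ) < q := by exact_mod_cast Nat.pos_of_ne_zero (NeZero.ne q)
  have hR : 0 < Real.sqrt K * q := by positivity
  have hRc : ((Real.sqrt K * q : ℝ) : ℂ) ≠ 0 := by exact_mod_cast hR.ne'
  unfold kapq
  refine mul_ne_zero (by norm_num) ?_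
  rw [Ne, Complex.cpow_eq_zero_iff]
  exact fun h => hRc h.1

/-- twists of a newform of weight two by primitive Dirichlet characters -/
theorem bd_tw (hlam : S_lamS) (hf : IsForm K f w) {q : ℕ} [NeZero q] (χ : DirichletCharacter ℂ q)
    (hχ : χ.IsPrimitive) (hco : Nat.Coprime q K) {Λ L : ℂ → ℂ} (hΛ : Differentiable ℂ Λ) (hL : Differentiable ℂ L)
    (hLs : ∀ s : ℂ, 2 < s.re → L s = ∑' n : ℕ, coef f (n + 1) * χ ((n + 1 : ℕ) : ZMod q) * ((n + 1 : ℕ) : ℂ) ^ (-s))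
    (hΛL : ∀ s : ℂ, 2 < s.re → Λ s = ((Real.sqrt K * q / (2 * Real.pi) : ℝ) : ℂ) ^ s * Complex.Gamma s * L s) :
    BaezDuarte Λ L 1 := by
  have hE := eu2_of hf
  obtain ⟨c, X, hr⟩ := tw_raw f hE (isNewf_of hf) χ hχ hco
  have hr' := rawTL_of_rawL hr
  have hκ := kapq_ne K q
  obtain ⟨σ, hσ⟩ := hr.eq
  have hXs : ∀ s : ℂ, max σ 2 ≤ s.re → X s = kapq K q * Λ (s + 1 / 2) := by
    intro s hs
    have h1 := fac_eq hE (Nat.pos_of_ne_zero (NeZero.ne q)) χ (s := s) (by linarith [(le_max_right σ 2).trans hs])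
    have h2 : 2 < (s + 1 / 2).re := by
      have e : ((1 / 2 : ℂ)).re = 1 / 2 := by norm_num
      rw [Complex.add_re, e]
      linarith [(le_max_right σ 2).trans hs]
    have h3 : Λ (s + 1 / 2) = facE f χ (s + 1 / 2) := by
      rw [hΛL _ h2, hLs _ h2]
      rfl
    rw [h3, kapq, ← h1, hσ s ((le_max_left _ _).trans hs)]
    unfold cser
    rw [← Pool.Agent.W355.UN.prod_get]
  have hX : ∀ s : ℂ, X s = kapq K q * Λ (s + 1 / 2) := by
    have h1 : AnalyticOnNhd ℂ X Set.univ := fun z _ => hr.entire.analyticAt z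
    have h2 : AnalyticOnNhd ℂ (fun s : ℂ => kapq K q * Λ (s + 1 / 2)) Set.univ := fun z _ =>
      ((hΛ.comp (differentiable_id.add_const _)).const_mul _).analyticAt z
    have h3 : X =ᶠ[𝓝 (((max σ 2 + 1 : ℝ)) : ℂ)] fun s : ℂ => kapq K q * Λ (s + 1 / 2) := by
      have hmem : {s : ℂ | max σ 2 < s.re} ∈ 𝓝 ((max σ 2 + 1 : ℝ) : ℂ) := by
        refine (isOpen_lt continuous_const Complex.continuous_re).mem_nhds ?_
        show max σ 2 < ((max σ 2 + 1 : ℝ) : ℂ).re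
        rw [Complex.ofReal_re]
        linarith
      filter_upwards [hmem] with z hz
      exact hXs z (le_of_lt hz)
    intro s
    exact h1.eqOn_of_preconnected_of_eventuallyEq h2 isPreconnected_univ (Set.mem_univ _) h3 (Set.mem_univ s)
  have e1 : (1 : ℝ) = 1 / 2 + 1 / 2 := by norm_num
  rw [e1]
  refine bd_fin hlam hr' (fun j => ?_) (fun h => absurd h (by norm_num)) hκ (fun s => ?_) ?_ ⟨2, fun s hs => ?_⟩
  · have h1 : ∀ j : Fin 2, -1 / 2 < (([(((1 / 2 : ℝ)) : ℂ), (((3 / 2 : ℝ)) : ℂ)] : List ℂ).get j).re := by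
      intro j
      fin_cases j <;> norm_num
    exact h1 j
  · rw [hX]
    push_cast
    rfl
  · exact (hL.comp (differentiable_id.add_const _)).differentiableOn
  · have h2 : 2 < (s + (((1 / 2 : ℝ)) : ℂ)).re := by
      rw [Complex.add_re, Complex.ofReal_re]
      linarith
    rw [hLs _ h2, lser_tw hE χ (by linarith)]
    refine tsum_congr fun n => ?_
    push_cast
    rfl

/-- existence of the L-function and of the completed L-function of a twist -/
theorem tw_exists (hf : IsForm K f w) {q : ℕ} [NeZero q] (χ : DirichletCharacter ℂ q)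
    (hχ : χ.IsPrimitive) (hco : Nat.Coprime q K) : ∃ L Λ : ℂ → ℂ, Differentiable ℂ L ∧ Differentiable ℂ Λ ∧
    (∀ s : ℂ, 3 / 2 < s.re → L s = ∑' n : ℕ, coef f (n + 1) * χ ((n + 1 : ℕ) : ZMod q) * ((n + 1 : ℕ) : ℂ) ^ (-s)) ∧
    (∀ s : ℂ, Λ s = ((Real.sqrt K * q / (2 * Real.pi) : ℝ) : ℂ) ^ s * Complex.Gamma s * L s ∨
      ∃ n : ℕ, s = -n) := by
  have hE := eu2_of hf
  obtain ⟨c, X, hr⟩ := tw_raw f hE (isNewf_of hf) χ hχ hco
  have hr' : RawT 0 _ 0 _ _ _ c X := rawTL_of_rawL hr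
  have hκ := kapq_ne K q
  have hN : (0 : ℝ) < K := by exact_mod_cast Nat.pos_of_ne_zero (NeZero.ne K)
  have hq : (0 : ℝ) < q := by exact_mod_cast Nat.pos_of_ne_zero (NeZero.ne q)
  have hR : 0 < Real.sqrt K * q / (2 * Real.pi) := by positivity
  have hRc : ((Real.sqrt K * q / (2 * Real.pi) : ℝ) : ℂ) ≠ 0 := by exact_mod_cast hR.ne'
  set R : ℂ := ((Real.sqrt K * q / (2 * Real.pi) : ℝ) : ℂ) with hRdef
  have hXs : ∀ s : ℂ, 1 < s.re → X s = kapq K q * facE f χ (s + 1 / 2) := by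
    intro s hs
    have h1 := fac_eq hE (Nat.pos_of_ne_zero (NeZero.ne q)) χ (s := s) hs
    rw [kapq, ← h1, hr'.eq' (by rw [add_zero]; exact hs), Pool.Agent.W355.UN.gaf_eq]
    unfold cser
    rw [← Pool.Agent.W355.UN.prod_get]
    ring
  have hRd : Differentiable ℂ fun s : ℂ => R ^ (-s) := by
    intro z
    exact (differentiableAt_id.neg).const_cpow (Or.inl hRc)
  have hΛd : Differentiable ℂ fun s : ℂ => (kapq K q)⁻¹ * X (s - 1 / 2) :=
    (hr.entire.comp (differentiable_id.sub_const _)).const_mul _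
  have hRn : ∀ s : ℂ, R ^ s ≠ 0 := fun s => by
    rw [Ne, Complex.cpow_eq_zero_iff]
    exact fun h => hRc h.1
  refine ⟨fun s => ((kapq K q)⁻¹ * X (s - 1 / 2)) * R ^ (-s) * (Complex.Gamma s)⁻¹, fun s => (kapq K q)⁻¹ * X (s - 1 / 2),
    (hΛd.mul hRd).mul Complex.differentiable_one_div_Gamma, hΛd, fun s hs => ?_, fun s => ?_⟩
  · have h1 : 1 < (s - 1 / 2).re := by
      have e : ((1 / 2 : ℂ)).re = 1 / 2 := by norm_num
      rw [Complex.sub_re, e]
      linarith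
    have hG : Complex.Gamma s ≠ 0 := Complex.Gamma_ne_zero_of_re_pos (by linarith)
    show ((kapq K q)⁻¹ * X (s - 1 / 2)) * R ^ (-s) * (Complex.Gamma s)⁻¹ = _
    rw [hXs _ h1, sub_add_cancel, facE, ← hRdef, Complex.cpow_neg]
    field_simp [hRn s]
  · by_cases hn : ∃ n : ℕ, s = -n
    · exact Or.inr hn
    · left
      have hG : Complex.Gamma s ≠ 0 := Complex.Gamma_ne_zero fun n h => hn ⟨n, h⟩
      show (kapq K q)⁻¹ * X (s - 1 / 2) =
        R ^ s * Complex.Gamma s * ((kapq K q)⁻¹ * X (s - 1 / 2) * R ^ (-s) * (Complex.Gamma s)⁻¹)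
      rw [Complex.cpow_neg]
      field_simp [hRn s]

end

end Pool.Agent.N967.G
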