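import Mathlib
import Pool.Agent.N967.G.StmA
import Pool.Agent.TH839.NA.Inst
import Pool.Agent.W355.UN.Ab2

set_option autoImplicit false

/-!
# Baez-Duarte's distance for general L-functions: products of L-functions
-/

namespace Pool.Agent.N967.G

open Complex MeasureTheory Filter Topology
open UpperHalfPlane MatrixGroups CongruenceSubgroup
open Pool.Agent.TH839.NA (RawTL)

/-- products -/
def S_rmul : Prop := ∀ (θ θ' : ℝ) (l l' : List ℂ) (r r' : ℕ) (N N' : ℝ) (b b' c c' : ℕ → ℂ) (X X' : ℂ → ℂ),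
  RawTL θ l r N b c X → RawTL θ' l' r' N' b' c' X' →
  ∃ b'' c'' : ℕ → ℂ, RawTL (max θ θ') (l ++ l') (r + r') (N * N') b'' c'' (fun s => X s * X' s) ∧
    ∀ s : ℂ, 2 < s.re → LSeries b'' s = LSeries b s * LSeries b' s

/-- the L-function of an elliptic curve over an abelian number field, normalised to the critical line `re s = 1/2` -/
def S_rab : Prop := ∀ (N : ℕ) [NeZero N] (f : CuspForm (Gamma0 N : Subgroup (GL (Fin 2) ℝ)) 2) (w : ℝ)
  (M : ℕ) [NeZero M] (G : Subgroup (DirichletCharacter ℂ M)) [Fintype G],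
  Pool.Agent.W169.HF.IsForm N f w → Nat.Coprime M N →
  ∃ (l : List ℂ) (b c : ℕ → ℂ) (X : ℂ → ℂ), RawTL 0 l 0 (Pool.Agent.W355.UN.condA G N) b c X ∧
    l = List.flatten (List.replicate (Fintype.card G) [(((1 / 2 : ℝ)) : ℂ), (((3 / 2 : ℝ)) : ℂ)]) ∧
    ∃ σ : ℝ, ∀ s : ℂ, σ ≤ s.re → X s = Pool.Agent.W355.UN.kap G N * Pool.Agent.W355.UN.prodE G f (s + 1 / 2)

end Pool.Agent.N967.G
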