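import Mathlib
import Pool.Agent.N967.G.StmC

set_option autoImplicit false

/-!
# Products of L-functions
-/

namespace Pool.Agent.N967.G

open Complex MeasureTheory Filter Topology
open scoped ComplexConjugate
open Pool.Agent.TH839.NA (RawTL RawT)
open Pool.Agent.W355.UN (Conv prod_get)

namespace Rmul

/-- a sequence as an arithmetic function -/
def af (f : ℕ → ℂ) : ArithmeticFunction ℂ := ⟨fun n => if n = 0 then 0 else f n, by simp⟩

theorem af_apply (f : ℕ → ℂ) {n : ℕ} (hn : n ≠ 0) : af f n = f n := if_neg hn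

theorem af_mul (f g : ℕ → ℂ) (n : ℕ) :
    (af f * af g) n = ∑ p ∈ n.divisorsAntidiagonal, f p.1 * g p.2 := by
  rw [ArithmeticFunction.mul_apply]
  refine Finset.sum_congr rfl fun p hp => ?_
  obtain ⟨h1, h2⟩ := Nat.mem_divisorsAntidiagonal.1 hp
  have h3 : p.1 ≠ 0 := fun h => h2 (by rw [← h1, h, zero_mul])
  have h4 : p.2 ≠ 0 := fun h => h2 (by rw [← h1, h, mul_zero])
  rw [af_apply _ h3, af_apply _ h4]

theorem af_conv {b c : ℕ → ℂ} (h : Conv b c) :
    af (fun n => b n * ((Real.log n : ℝ) : ℂ)) =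
      af (fun d => ((ArithmeticFunction.vonMangoldt d : ℝ) : ℂ) * c d) * af b := by
  ext n
  rcases eq_or_ne n 0 with hn | hn
  · subst hn
    simp
  · rw [af_apply _ hn, af_mul, h n hn]
    exact (Nat.sum_divisorsAntidiagonal
      (fun i j => ((ArithmeticFunction.vonMangoldt i : ℝ) : ℂ) * c i * b j)).symm

theorem af_log (f g : ℕ → ℂ) (n : ℕ) :
    (af f * af g) n * ((Real.log n : ℝ) : ℂ) =
      (af (fun n => f n * ((Real.log n : ℝ) : ℂ)) * af g) n +
        (af f * af (fun n => g n * ((Real.log n : ℝ) : ℂ))) n := by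
  rw [af_mul, af_mul, af_mul, Finset.sum_mul, ← Finset.sum_add_distrib]
  refine Finset.sum_congr rfl fun p hp => ?_
  obtain ⟨h1, h2⟩ := Nat.mem_divisorsAntidiagonal.1 hp
  have h3 : (p.1 : ℝ) ≠ 0 := by
    have : p.1 ≠ 0 := fun h => h2 (by rw [← h1, h, zero_mul])
    exact_mod_cast this
  have h4 : (p.2 : ℝ) ≠ 0 := by
    have : p.2 ≠ 0 := fun h => h2 (by rw [← h1, h, mul_zero])
    exact_mod_cast this
  rw [← h1, Nat.cast_mul, Real.log_mul h3 h4]
  push_cast
  ring

theorem conv_mul {b c b' c' : ℕ → ℂ} (h : Conv b c) (h' : Conv b' c') :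
    Conv (LSeries.convolution b b') (fun n => if n = 0 then 0 else c n + c' n) := by
  intro n hn
  have e0 : ∀ k, LSeries.convolution b b' k = (af b * af b') k := by
    intro k
    rw [af_mul, LSeries.convolution_def]
  rw [e0, af_log _ _ n, af_conv h, af_conv h', mul_comm (af b) _, mul_assoc, mul_assoc,
    mul_comm (af b') (af b), ← ArithmeticFunction.add_apply, ← add_mul, ArithmeticFunction.mul_apply,
    Nat.sum_divisorsAntidiagonal (fun i j =>
      (af (fun d => ((ArithmeticFunction.vonMangoldt d : ℝ) : ℂ) * c d) +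
        af (fun d => ((ArithmeticFunction.vonMangoldt d : ℝ) : ℂ) * c' d)) i * (af b * af b') j)]
  refine Finset.sum_congr rfl fun d hd => ?_
  have hd0 : d ≠ 0 := (Nat.pos_of_mem_divisors hd).ne'
  have e1 : (fun n : ℕ => if n = 0 then (0 : ℂ) else c n + c' n) d = c d + c' d := if_neg hd0
  rw [e0, e1, ArithmeticFunction.add_apply, af_apply _ hd0, af_apply _ hd0]
  ring

theorem order_mul {X X' : ℂ → ℂ}
    (h : ∃ A ρ : ℝ, ∀ s : ℂ, ‖X s‖ ≤ Real.exp (A * (1 + ‖s‖) ^ ρ))
    (h' : ∃ A ρ : ℝ, ∀ s : ℂ, ‖X' s‖ ≤ Real.exp (A * (1 + ‖s‖) ^ ρ)) :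
    ∃ A ρ : ℝ, ∀ s : ℂ, ‖X s * X' s‖ ≤ Real.exp (A * (1 + ‖s‖) ^ ρ) := by
  obtain ⟨A, ρ, h⟩ := h
  obtain ⟨A', ρ', h'⟩ := h'
  refine ⟨|A| + |A'|, max ρ ρ', fun s => ?_⟩
  have h1 : 1 ≤ 1 + ‖s‖ := by linarith [norm_nonneg s]
  rw [norm_mul]
  refine (mul_le_mul (h s) (h' s) (norm_nonneg _) (Real.exp_pos _).le).trans ?_
  rw [← Real.exp_add, Real.exp_le_exp, add_mul]
  have h2 : (1 + ‖s‖) ^ ρ ≤ (1 + ‖s‖) ^ max ρ ρ' :=
    Real.rpow_le_rpow_of_exponent_le h1 (le_max_left _ _)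
  have h3 : (1 + ‖s‖) ^ ρ' ≤ (1 + ‖s‖) ^ max ρ ρ' :=
    Real.rpow_le_rpow_of_exponent_le h1 (le_max_right _ _)
  have h4 : 0 ≤ (1 + ‖s‖) ^ ρ := Real.rpow_nonneg (by linarith) _
  have h5 : 0 ≤ (1 + ‖s‖) ^ ρ' := Real.rpow_nonneg (by linarith) _
  refine add_le_add ?_ ?_
  · exact (mul_le_mul_of_nonneg_right (le_abs_self A) h4).trans
      (mul_le_mul_of_nonneg_left h2 (abs_nonneg A))
  · exact (mul_le_mul_of_nonneg_right (le_abs_self A') h5).trans
      (mul_le_mul_of_nonneg_left h3 (abs_nonneg A'))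


end Rmul

open Rmul

theorem rmul : S_rmul := by
  intro θ θ' l l' r r' N N' b b' c c' X X' h h'
  have h : RawT θ l.length r N (fun j => l.get j) b c X := h
  have h' : RawT θ' l'.length r' N' (fun j => l'.get j) b' c' X' := h'
  have hL : ∀ s : ℂ, 2 < s.re →
      LSeries (LSeries.convolution b b') s = LSeries b s * LSeries b' s := by
    intro s hs
    refine LSeries_convolution' (h.coef ?_).1 (h'.coef ?_).1
    · have := h.hθ1
      linarith
    · have := h'.hθ1
      linarith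
  refine ⟨LSeries.convolution b b', fun n => if n = 0 then 0 else c n + c' n, ?_, hL⟩
  have hN := h.hN
  have hN' := h'.hN
  show RawT (max θ θ') (l ++ l').length (r + r') (N * N') (fun j => (l ++ l').get j) _ _ _
  refine ⟨?_, ?_, ?_, le_max_of_le_left h.hθ, max_lt h.hθ1 h'.hθ1, fun j => ?_,
    h.entire.mul h'.entire, order_mul h.order h'.order, ?_, ?_, fun n => ?_,
    conv_mul h.conv h'.conv, ?_⟩
  · rw [List.length_append]
    exact h.hm.trans (Nat.le_add_right _ _)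
  · rw [List.length_append]
    exact Nat.add_le_add h.hr h'.hr
  · nlinarith
  · have h1 := List.get_mem (l ++ l') j
    rcases List.mem_append.1 h1 with h2 | h2
    · obtain ⟨i, hi⟩ := List.get_of_mem h2
      show -1 / 2 ≤ ((l ++ l').get j).re
      rw [← hi]
      exact h.re_ge i
    · obtain ⟨i, hi⟩ := List.get_of_mem h2
      show -1 / 2 ≤ ((l ++ l').get j).re
      rw [← hi]
      exact h'.re_ge i
  · obtain ⟨ε, hε, hf⟩ := h.fe
    obtain ⟨ε', hε', hf'⟩ := h'.fe
    refine ⟨ε * ε', by rw [norm_mul, hε, hε', mul_one], fun s => ?_⟩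
    show X s * X' s = ε * ε' * conj (X (1 - conj s) * X' (1 - conj s))
    rw [map_mul, hf s, hf' s]
    ring
  · rw [LSeries.convolution_def]
    simp [h.one, h'.one]
  · rcases Nat.eq_zero_or_pos n with hn | hn
    · subst hn
      show ‖(if (0 : ℕ) = 0 then (0 : ℂ) else _)‖ ≤ _
      rw [if_pos rfl, norm_zero]
      exact mul_nonneg (Nat.cast_nonneg _) (Real.rpow_nonneg (Nat.cast_nonneg _) _)
    · show ‖(if n = 0 then (0 : ℂ) else c n + c' n)‖ ≤ _
      rw [if_neg hn.ne']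
      have hn1 : (1 : ℝ) ≤ n := by exact_mod_cast hn
      have h1 := h.cb n
      have h2 := h'.cb n
      have h3 : (n : ℝ) ^ θ ≤ (n : ℝ) ^ max θ θ' :=
        Real.rpow_le_rpow_of_exponent_le hn1 (le_max_left _ _)
      have h4 : (n : ℝ) ^ θ' ≤ (n : ℝ) ^ max θ θ' :=
        Real.rpow_le_rpow_of_exponent_le hn1 (le_max_right _ _)
      rw [List.length_append, Nat.cast_add, add_mul]
      refine (norm_add_le _ _).trans (add_le_add (h1.trans ?_) (h2.trans ?_))
      · exact mul_le_mul_of_nonneg_left h3 (Nat.cast_nonneg _)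
      · exact mul_le_mul_of_nonneg_left h4 (Nat.cast_nonneg _)
  · obtain ⟨σ, hσ⟩ := h.eq
    obtain ⟨σ', hσ'⟩ := h'.eq
    refine ⟨max (max σ σ') 3, fun s hs => ?_⟩
    have hs1 : σ ≤ s.re := (le_max_left _ _).trans ((le_max_left _ _).trans hs)
    have hs2 : σ' ≤ s.re := (le_max_right _ _).trans ((le_max_left _ _).trans hs)
    have hs3 : 3 ≤ s.re := (le_max_right _ _).trans hs
    have e1 : ∏ j : Fin (l ++ l').length, Gammaℝ (s + (l ++ l').get j) =
        (∏ j : Fin l.length, Gammaℝ (s + l.get j)) *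
          ∏ j : Fin l'.length, Gammaℝ (s + l'.get j) := by
      rw [prod_get (l ++ l') (fun a => Gammaℝ (s + a)), prod_get l (fun a => Gammaℝ (s + a)),
        prod_get l' (fun a => Gammaℝ (s + a)), List.map_append, List.prod_append]
    have e2 : ((N * N' : ℝ) : ℂ) ^ (s / 2) = (N : ℂ) ^ (s / 2) * (N' : ℂ) ^ (s / 2) := by
      rw [Complex.ofReal_mul, Complex.mul_cpow_ofReal_nonneg (by linarith) (by linarith)]
    show X s * X' s = _
    rw [hσ s hs1, hσ' s hs2, hL s (by linarith), e1, e2, pow_add]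
    ring

end Pool.Agent.N967.G
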