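import Mathlib
import Pool.Agent.N967.G.Fin3
import Pool.Agent.N967.G.Rmul

set_option autoImplicit false

/-!
# Baez-Duarte's distance for L-functions: products
-/

namespace Pool.Agent.N967.G

open Complex MeasureTheory Filter Topology
open UpperHalfPlane MatrixGroups CongruenceSubgroup
open Pool.Agent.TH839.NA (RawT RawTL rawTL_of_rawL)

/-- products over a nonempty list -/
theorem list_mul {ι : Type*} (θ : ι → ℝ) (l : ι → List ℂ) (r : ι → ℕ) (A : ι → ℝ) (F S : ι → ℂ → ℂ)
    (hone : ∀ i, ∃ (b c : ℕ → ℂ) (X : ℂ → ℂ), RawTL (θ i) (l i) (r i) (A i) b c X ∧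
      ∃ σ : ℝ, ∀ s : ℂ, σ ≤ s.re → X s = F i s ∧ LSeries b s = S i s)
    (L : List ι) (hL : L ≠ []) :
    ∃ (θ' : ℝ) (b c : ℕ → ℂ) (X : ℂ → ℂ), RawTL θ' (L.flatMap l) (L.map r).sum (L.map A).prod b c X ∧
      ∃ σ : ℝ, ∀ s : ℂ, σ ≤ s.re → X s = (L.map fun i => F i s).prod ∧ LSeries b s = (L.map fun i => S i s).prod := by
  induction L with
  | nil => exact absurd rfl hL
  | cons i L ih =>
    obtain ⟨b, c, X, h1, σ, h2⟩ := hone i
    by_cases hn : L = []
    · subst hn
      refine ⟨θ i, b, c, X, ?_, σ, fun s hs => ?_⟩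
      · have e1 : [i].flatMap l = l i := by simp
        have e2 : ([i].map A).prod = A i := by simp
        have e3 : ([i].map r).sum = r i := by simp
        rw [e1, e2, e3]
        exact h1
      · obtain ⟨h3, h4⟩ := h2 s hs
        rw [h3, h4]
        simp
    · obtain ⟨θ', b', c', X', h3, σ', h4⟩ := ih hn
      obtain ⟨b'', c'', h5, h6⟩ := rmul _ _ _ _ _ _ _ _ _ _ _ _ _ _ h1 h3
      refine ⟨max (θ i) θ', b'', c'', fun s => X s * X' s, ?_, max (max σ σ') 3, fun s hs => ?_⟩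
      · rw [List.flatMap_cons, List.map_cons (f := A), List.prod_cons, List.map_cons (f := r), List.sum_cons]
        exact h5
      · obtain ⟨h7, h8⟩ := h2 s (((le_max_left _ _).trans (le_max_left _ _)).trans hs)
        obtain ⟨h9, h10⟩ := h4 s (((le_max_right _ _).trans (le_max_left _ _)).trans hs)
        have h11 : 2 < s.re := by linarith [(le_max_right (max σ σ') 3).trans hs]
        refine ⟨?_, ?_⟩
        · show X s * X' s = _
          rw [h7, h9, List.map_cons, List.prod_cons]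
        · rw [h6 s h11, h8, h10, List.map_cons, List.prod_cons]

section
variable {K : ℕ} [NeZero K] {f : CuspForm (Gamma0 K : Subgroup (GL (Fin 2) ℝ)) 2} {w : ℝ}
open Pool.Agent.W355.UN (Eu2 lam2 eu2_of isNewf_of tw_raw fac_eq facE cser coprime_cond)
open Pool.Agent.W355.LJ (lseries_tsum)
open Pool.Agent.W169.HF (IsForm coef)

/-- the L-function of a twist, for large real part -/
noncomputable def serE (f : CuspForm (Gamma0 K : Subgroup (GL (Fin 2) ℝ)) 2) {q : ℕ}
    (χ : DirichletCharacter ℂ q) (s : ℂ) : ℂ :=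
  ∑' n : ℕ, coef f (n + 1) * χ ((n + 1 : ℕ) : ZMod q) * ((n + 1 : ℕ) : ℂ) ^ (-s)

/-- the L-function of an elliptic curve over an abelian number field -/
theorem bd_ab (hlam : S_lamS) (hf : IsForm K f w) {M : ℕ} [NeZero M] (G : Subgroup (DirichletCharacter ℂ M)) [Fintype G]
    (hco : Nat.Coprime M K) {Λ L : ℂ → ℂ} (hΛ : Differentiable ℂ Λ) (hL : Differentiable ℂ L)
    (hLs : ∃ σ : ℝ, ∀ s : ℂ, σ ≤ s.re → L s = ∏ χ : G, serE f (χ : DirichletCharacter ℂ M).primitiveCharacter s)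
    (hΛs : ∃ σ : ℝ, ∀ s : ℂ, σ ≤ s.re → Λ s = ∏ χ : G, facE f (χ : DirichletCharacter ℂ M).primitiveCharacter s) :
    BaezDuarte Λ L 1 := by
  have hE := eu2_of hf
  have hnf := isNewf_of hf
  have hone : ∀ χ : G, ∃ (b c : ℕ → ℂ) (X : ℂ → ℂ),
      RawTL 0 [(((1 / 2 : ℝ)) : ℂ), (((3 / 2 : ℝ)) : ℂ)] 0
        ((K : ℝ) * ((χ : DirichletCharacter ℂ M).conductor : ℝ) ^ 2) b c X ∧ ∃ σ : ℝ, ∀ s : ℂ, σ ≤ s.re →
        X s = kapq K (χ : DirichletCharacter ℂ M).conductor *
          facE f (χ : DirichletCharacter ℂ M).primitiveCharacter (s + 1 / 2) ∧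
        LSeries b s = serE f (χ : DirichletCharacter ℂ M).primitiveCharacter (s + 1 / 2) := by
    intro χ
    have : NeZero (χ : DirichletCharacter ℂ M).conductor := ⟨DirichletCharacter.conductor_ne_zero _⟩
    obtain ⟨c, X, hr⟩ := tw_raw f hE hnf (χ : DirichletCharacter ℂ M).primitiveCharacter
      (DirichletCharacter.primitiveCharacter_isPrimitive _) (coprime_cond hco _)
    obtain ⟨σ, hσ⟩ := hr.eq
    refine ⟨_, c, X, rawTL_of_rawL hr, max σ 2, fun s hs => ⟨?_, ?_⟩⟩
    · have h1 := fac_eq hE (Nat.pos_of_ne_zero (NeZero.ne (χ : DirichletCharacter ℂ M).conductor))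
        (χ : DirichletCharacter ℂ M).primitiveCharacter (s := s) (by linarith [(le_max_right σ 2).trans hs])
      rw [kapq, ← h1, hσ s ((le_max_left _ _).trans hs)]
      unfold cser
      rw [← Pool.Agent.W355.UN.prod_get]
    · exact lser_tw hE _ (by linarith [(le_max_right σ 2).trans hs])
  have hl : (Finset.univ : Finset G).toList ≠ [] := by
    intro h
    have h1 : (1 : G) ∈ (Finset.univ : Finset G).toList := Finset.mem_toList.2 (Finset.mem_univ _)
    rw [h] at h1
    exact List.not_mem_nil h1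
  obtain ⟨θ', b, c, X, hr, σ, hσ⟩ := list_mul _ _ _ _ _ _ hone (Finset.univ : Finset G).toList hl
  simp only [Finset.prod_map_toList, Finset.sum_map_toList, Finset.sum_const_zero] at hr hσ
  set κ : ℂ := ∏ χ : G, kapq K (χ : DirichletCharacter ℂ M).conductor with hκdef
  have hκ : κ ≠ 0 := by
    rw [hκdef, Finset.prod_ne_zero_iff]
    intro χ _
    have : NeZero (χ : DirichletCharacter ℂ M).conductor := ⟨DirichletCharacter.conductor_ne_zero _⟩
    exact kapq_ne _ _
  obtain ⟨σ1, hσ1⟩ := hLs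
  obtain ⟨σ2, hσ2⟩ := hΛs
  have hre : ∀ s : ℂ, (s + 1 / 2).re = s.re + 1 / 2 := fun s => by
    rw [Complex.add_re]
    norm_num
  have hXs : ∀ s : ℂ, max σ σ2 ≤ s.re → X s = κ * Λ (s + 1 / 2) := by
    intro s hs
    rw [(hσ s ((le_max_left _ _).trans hs)).1, Finset.prod_mul_distrib,
      hσ2 (s + 1 / 2) (by rw [hre]; linarith [(le_max_right σ σ2).trans hs])]
  have hX : ∀ s : ℂ, X s = κ * Λ (s + 1 / 2) := by
    have h1 : AnalyticOnNhd ℂ X Set.univ := fun z _ => hr.entire.analyticAt z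
    have h2 : AnalyticOnNhd ℂ (fun s : ℂ => κ * Λ (s + 1 / 2)) Set.univ := fun z _ =>
      ((hΛ.comp (differentiable_id.add_const _)).const_mul _).analyticAt z
    have h3 : X =ᶠ[𝓝 (((max σ σ2 + 1 : ℝ)) : ℂ)] fun s : ℂ => κ * Λ (s + 1 / 2) := by
      have hmem : {s : ℂ | max σ σ2 < s.re} ∈ 𝓝 ((max σ σ2 + 1 : ℝ) : ℂ) := by
        refine (isOpen_lt continuous_const Complex.continuous_re).mem_nhds ?_
        show max σ σ2 < ((max σ σ2 + 1 : ℝ) : ℂ).re
        rw [Complex.ofReal_re]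
        linarith
      filter_upwards [hmem] with z hz
      exact hXs z (le_of_lt hz)
    intro s
    exact h1.eqOn_of_preconnected_of_eventuallyEq h2 isPreconnected_univ (Set.mem_univ _) h3 (Set.mem_univ s)
  have e1 : (1 : ℝ) = 1 / 2 + 1 / 2 := by norm_num
  rw [e1]
  refine bd_fin hlam hr (fun j => ?_) (fun h => absurd h (by norm_num)) hκ (fun s => ?_) ?_
    ⟨max σ σ1, fun s hs => ?_⟩
  · have h1 : ∀ x ∈ (Finset.univ : Finset G).toList.flatMap
        (fun _ => [(((1 / 2 : ℝ)) : ℂ), (((3 / 2 : ℝ)) : ℂ)]), -1 / 2 < x.re := by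
      intro x hx
      obtain ⟨i, _, hi⟩ := List.mem_flatMap.1 hx
      simp only [List.mem_cons, List.not_mem_nil, or_false] at hi
      rcases hi with rfl | rfl <;> norm_num
    exact h1 _ (List.get_mem _ j)
  · rw [hX]
    push_cast
    rfl
  · exact (hL.comp (differentiable_id.add_const _)).differentiableOn
  · have h2 : σ1 ≤ (s + (((1 / 2 : ℝ)) : ℂ)).re := by
      rw [Complex.add_re, Complex.ofReal_re]
      linarith [(le_max_right σ σ1).trans hs]
    rw [hσ1 _ h2, (hσ s ((le_max_left _ _).trans hs)).2]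
    refine Finset.prod_congr rfl fun χ _ => ?_
    congr 1
    push_cast
    rfl

/-- existence -/
theorem ab_exists (hf : IsForm K f w) {M : ℕ} [NeZero M] (G : Subgroup (DirichletCharacter ℂ M)) [Fintype G]
    (hco : Nat.Coprime M K) : ∃ L Λ : ℂ → ℂ, Differentiable ℂ L ∧ Differentiable ℂ Λ ∧
    (∀ s : ℂ, 3 / 2 < s.re → L s = ∏ χ : G, serE f (χ : DirichletCharacter ℂ M).primitiveCharacter s) ∧
    (∀ s : ℂ, 3 / 2 < s.re → Λ s = ∏ χ : G, facE f (χ : DirichletCharacter ℂ M).primitiveCharacter s) := by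
  have hone : ∀ χ : G, ∃ L Λ : ℂ → ℂ, Differentiable ℂ L ∧ Differentiable ℂ Λ ∧
    (∀ s : ℂ, 3 / 2 < s.re → L s = serE f (χ : DirichletCharacter ℂ M).primitiveCharacter s) ∧
    (∀ s : ℂ, 3 / 2 < s.re → Λ s = facE f (χ : DirichletCharacter ℂ M).primitiveCharacter s) := by
    intro χ
    have : NeZero (χ : DirichletCharacter ℂ M).conductor := ⟨DirichletCharacter.conductor_ne_zero _⟩
    obtain ⟨L, Λ, h1, h2, h3, h4⟩ := tw_exists hf (χ : DirichletCharacter ℂ M).primitiveCharacter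
      (DirichletCharacter.primitiveCharacter_isPrimitive _) (coprime_cond hco _)
    refine ⟨L, Λ, h1, h2, h3, fun s hs => ?_⟩
    rcases h4 s with h5 | ⟨n, h5⟩
    · rw [h5, h3 s hs]
      rfl
    · rw [h5] at hs
      simp only [Complex.neg_re, Complex.natCast_re] at hs
      have : (0 : ℝ) ≤ n := Nat.cast_nonneg n
      linarith
  choose L Λ h1 h2 h3 h4 using hone
  refine ⟨fun s => ∏ χ : G, L χ s, fun s => ∏ χ : G, Λ χ s, ?_, ?_, fun s hs => ?_, fun s hs => ?_⟩
  · exact Differentiable.fun_finsetProd fun χ _ => h1 χ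
  · exact Differentiable.fun_finsetProd fun χ _ => h2 χ
  · exact Finset.prod_congr rfl fun χ _ => h3 χ s hs
  · exact Finset.prod_congr rfl fun χ _ => h4 χ s hs

end

end Pool.Agent.N967.G
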