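import Mathlib
import Pool.Agent.N967.G.StmL
import Pool.Agent.H24R2.JP.Had

set_option autoImplicit false

/-!
# The sum over the zeros of a slowly growing function with a functional equation (helper80)
-/

namespace Pool.Agent.N967.G

open Complex MeasureTheory Filter Topology Metric
open scoped ComplexConjugate
open Pool.Agent.H24R2.JP (had_split)

namespace Lam

/-- an even entire function is an entire function of the square -/
lemma even_sq {E : ℂ → ℂ} (hE : Differentiable ℂ E) (hev : ∀ w, E (-w) = E w) :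
    ∃ G : ℂ → ℂ, Differentiable ℂ G ∧ ∀ w, G (w ^ 2) = E w := by
  set r : ℂ → ℂ := fun v => v ^ (1 / 2 : ℂ) with hr
  have hr2 : ∀ v, r v ^ 2 = v := fun v => by
    simp only [hr]
    simp
  have hpm : ∀ a b : ℂ, a ^ 2 = b ^ 2 → E a = E b := by
    intro a b h
    rcases sq_eq_sq_iff_eq_or_eq_neg.1 h with h | h
    · rw [h]
    · rw [h, hev]
  have hslit : ∀ v ∈ slitPlane, DifferentiableAt ℂ r v := by
    intro v hv
    exact differentiableAt_id.cpow (differentiableAt_const _) hv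
  refine ⟨fun v => E (r v), ?_, fun w => hpm _ _ (by rw [hr2])⟩
  have h1 : ∀ v : ℂ, v ≠ 0 → DifferentiableAt ℂ (fun v => E (r v)) v := by
    intro v hv
    by_cases hs : v ∈ slitPlane
    · exact (hE _).comp v (hslit v hs)
    · have hs' : -v ∈ slitPlane := by
        rw [Complex.mem_slitPlane_iff] at hs ⊢
        push Not at hs
        left
        have h2 : v.re ≠ 0 := by
          intro h3
          exact hv (Complex.ext h3 hs.2)
        have h3 : v.re < 0 := lt_of_le_of_ne hs.1 h2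
        simpa using h3
      have e : (fun v => E (r v)) = fun v => E (I * r (-v)) := by
        funext u
        apply hpm
        rw [mul_pow, hr2, hr2, I_sq]
        ring
      rw [e]
      have h4 : DifferentiableAt ℂ (fun v => r (-v)) v :=
        DifferentiableAt.comp v (hslit (-v) hs') (differentiableAt_id.neg)
      exact (hE _).comp v (h4.const_mul I)
  have hc : ContinuousAt r 0 := by
    have hn : ∀ v, ‖r v‖ = Real.sqrt ‖v‖ := by
      intro v
      rw [← Real.sqrt_sq (norm_nonneg (r v)), ← norm_pow, hr2]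
    have h0 : r 0 = 0 := by simp [hr]
    rw [ContinuousAt, h0, tendsto_zero_iff_norm_tendsto_zero]
    have h5 : Tendsto (fun v : ℂ => Real.sqrt ‖v‖) (𝓝 0) (𝓝 (Real.sqrt ‖(0 : ℂ)‖)) :=
      (Real.continuous_sqrt.comp continuous_norm).tendsto 0
    simpa [hn] using h5
  have h6 : DifferentiableOn ℂ (fun v => E (r v)) Set.univ := by
    rw [← Complex.differentiableOn_compl_singleton_and_continuousAt_iff
      (Filter.univ_mem : Set.univ ∈ 𝓝 (0 : ℂ))]
    refine ⟨fun v hv => (h1 v (by simpa using hv)).differentiableWithinAt, ?_⟩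
    exact ContinuousAt.comp (hE _).continuousAt hc
  exact differentiableOn_univ.1 h6

/-- a function without zeros in a disc is an exponential there; version with the derivative -/
theorem base {F : ℂ → ℂ} (hF : Differentiable ℂ F) {ρ M : ℝ} (hρ : 0 < ρ)
    (hnz : ∀ u ∈ ball (0 : ℂ) ρ, F u ≠ 0) (hb : ∀ w ∈ ball (0 : ℂ) ρ, ‖F w‖ ≤ Real.exp M) :
    ∃ L : ℂ → ℂ, (∀ w ∈ ball (0 : ℂ) ρ, HasDerivAt L (deriv F w / F w) w) ∧
      ∀ w : ℂ, ‖w‖ < ρ → ‖L w‖ ≤ 2 * (M - Real.log ‖F 0‖) * (‖w‖ / (ρ - ‖w‖)) := by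
  have h0 : F 0 ≠ 0 := hnz 0 (mem_ball_self hρ)
  have h0n : 0 < ‖F 0‖ := norm_pos_iff.2 h0
  have hg : DifferentiableOn ℂ (fun z => deriv F z / F z) (ball 0 ρ) := by
    refine DifferentiableOn.div ?_ hF.differentiableOn hnz
    exact (hF.contDiff (n := 2)).differentiable_deriv_two.differentiableOn
  obtain ⟨L0, hL0⟩ := hg.isExactOn_ball
  set L : ℂ → ℂ := fun z => L0 z - L0 0 with hLdef
  have hL : ∀ z ∈ ball (0 : ℂ) ρ, HasDerivAt L (deriv F z / F z) z := fun z hz =>
    (hL0 z hz).sub_const _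
  have hLz : L 0 = 0 := by simp [hLdef]
  have hconst : ∀ z ∈ ball (0 : ℂ) ρ, F z * cexp (-L z) = F 0 := by
    intro z hz
    have hd : ∀ x ∈ ball (0 : ℂ) ρ, HasDerivAt (fun y => F y * cexp (-L y)) 0 x := by
      intro x hx
      have h1 := (hF x).hasDerivAt.mul ((hL x hx).neg.cexp)
      have e : deriv F x * cexp (-L x) + F x * (cexp (-L x) * -(deriv F x / F x)) = 0 := by
        have hx' := hnz x hx
        field_simp
        ring
      have h1' : HasDerivAt (fun y => F y * cexp (-L y))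
        (deriv F x * cexp (-L x) + F x * (cexp (-L x) * -(deriv F x / F x))) x := h1
      rwa [e] at h1'
    have h2 := (convex_ball (0 : ℂ) ρ).is_const_of_fderivWithin_eq_zero (𝕜 := ℂ)
      (f := fun y => F y * cexp (-L y))
      (fun x hx => (hd x hx).differentiableAt.differentiableWithinAt) (by
        intro x hx
        rw [((hd x hx).hasFDerivAt.hasFDerivWithinAt (s := ball (0 : ℂ) ρ)).fderivWithin
          (isOpen_ball.uniqueDiffWithinAt hx)]
        ext
        simp) hz (mem_ball_self hρ)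
    simpa [hLz] using h2
  have hFL : ∀ z ∈ ball (0 : ℂ) ρ, F z = F 0 * cexp (L z) := by
    intro z hz
    rw [← hconst z hz, mul_assoc, ← Complex.exp_add]
    simp
  have hnorm : ∀ z ∈ ball (0 : ℂ) ρ, ‖F z‖ = Real.exp (Real.log ‖F 0‖ + (L z).re) := by
    intro z hz
    rw [hFL z hz, norm_mul, Complex.norm_exp, Real.exp_add, Real.exp_log h0n]
  set A : ℝ := M - Real.log ‖F 0‖ with hA
  have hre : ∀ z ∈ ball (0 : ℂ) ρ, (L z).re ≤ A := by
    intro z hz
    have h1 := hb z hz
    rw [hnorm z hz, Real.exp_le_exp] at h1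
    linarith
  have hA0 : 0 ≤ A := by
    have := hre 0 (mem_ball_self hρ)
    rwa [hLz] at this
  refine ⟨L, hL, ?_⟩
  intro w hw
  have hwb : w ∈ ball (0 : ℂ) ρ := by simpa using hw
  have hden : 0 < ρ - ‖w‖ := by linarith
  set c : ℝ := ‖w‖ / (ρ - ‖w‖) with hc
  have hc0 : 0 ≤ c := div_nonneg (norm_nonneg _) hden.le
  refine le_of_forall_pos_le_add (fun δ hδ => ?_)
  have hε : 0 < δ / (2 * c + 1) := by positivity
  have h1 := Complex.borelCaratheodory_zero (f := L) (R := ρ) (z := w)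
    (M := A + δ / (2 * c + 1)) (by linarith)
    (fun z hz => (hL z hz).differentiableAt.differentiableWithinAt)
    (fun z hz => by
      show (L z).re ≤ _
      linarith [hre z hz]) hρ hwb hLz
  refine h1.trans ?_
  have h2 : 2 * (A + δ / (2 * c + 1)) * ‖w‖ / (ρ - ‖w‖) =
      2 * A * c + (δ / (2 * c + 1)) * (2 * c) := by
    rw [hc]; ring
  rw [h2]
  have h3 : (δ / (2 * c + 1)) * (2 * c) ≤ (δ / (2 * c + 1)) * (2 * c + 1) :=
    mul_le_mul_of_nonneg_left (by linarith) hε.le
  have h4 : (δ / (2 * c + 1)) * (2 * c + 1) = δ := by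
    field_simp
  linarith

/-- the logarithmic derivative at `0` -/
lemma logd {F : ℂ → ℂ} (hF : Differentiable ℂ F) {ρ M : ℝ} (hρ : 0 < ρ)
    (hnz : ∀ u ∈ ball (0 : ℂ) ρ, F u ≠ 0) (hb : ∀ w ∈ ball (0 : ℂ) ρ, ‖F w‖ ≤ Real.exp M) :
    ‖deriv F 0 / F 0‖ ≤ 4 * (M - Real.log ‖F 0‖) / ρ := by
  obtain ⟨L, hL, hLb⟩ := base hF hρ hnz hb
  have hd : DiffContOnCl ℂ L (ball (0 : ℂ) (ρ / 2)) := by
    apply DifferentiableOn.diffContOnCl
    rw [closure_ball _ (by positivity)]
    intro z hz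
    have h1 : z ∈ ball (0 : ℂ) ρ := by
      rw [mem_closedBall_zero_iff] at hz
      rw [mem_ball_zero_iff]
      linarith
    exact (hL z h1).differentiableAt.differentiableWithinAt
  have h1 := Complex.norm_deriv_le_of_forall_mem_sphere_norm_le (c := (0 : ℂ)) (R := ρ / 2)
    (C := 2 * (M - Real.log ‖F 0‖)) (by positivity) hd (by
      intro z hz
      rw [mem_sphere_zero_iff_norm] at hz
      have h2 := hLb z (by linarith)
      have h3 : ‖z‖ / (ρ - ‖z‖) = 1 := by
        rw [hz, div_eq_one_iff_eq (by linarith)]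
        ring
      rwa [h3, mul_one] at h2)
  rw [(hL _ (mem_ball_self hρ)).deriv] at h1
  refine h1.trans (le_of_eq ?_)
  field_simp
  ring

/-- the order of a polynomial -/
lemma ord_poly (P : Polynomial ℂ) (hP : P ≠ 0) (x : ℂ) :
    analyticOrderAt (fun w => P.eval w) x = (P.rootMultiplicity x : ℕ∞) := by
  obtain ⟨Q, hQ, hQx⟩ := P.exists_eq_pow_rootMultiplicity_mul_and_not_dvd hP x
  have hA : AnalyticAt ℂ (fun w => P.eval w) x := by
    have : Differentiable ℂ (fun w => P.eval w) := P.differentiable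
    exact this.analyticAt x
  rw [hA.analyticOrderAt_eq_natCast]
  refine ⟨fun w => Q.eval w, Q.differentiable.analyticAt x, ?_, Filter.Eventually.of_forall fun w => ?_⟩
  · intro h
    exact hQx (Polynomial.dvd_iff_isRoot.2 h)
  · conv_lhs => rw [hQ]
    simp

lemma order_ne_top {F : ℂ → ℂ} (hF : Differentiable ℂ F) {a : ℂ} (ha : F a ≠ 0) (x : ℂ) :
    analyticOrderAt F x ≠ ⊤ := by
  have h1 : AnalyticOnNhd ℂ F Set.univ := fun z _ => hF.analyticAt z
  refine h1.analyticOrderAt_ne_top_of_isPreconnected (x := a) isPreconnected_univ (Set.mem_univ _)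
    (Set.mem_univ _) ?_
  rw [((hF.analyticAt a).analyticOrderAt_eq_zero).2 ha]
  simp

/-- the comparison with a polynomial -/
lemma compare {F : ℂ → ℂ} (hFd : Differentiable ℂ F) (h0 : F 0 ≠ 0)
    (hz : ∀ x, F x = 0 → x = ((-‖x‖ : ℝ) : ℂ)) {A : ℝ} (hA : deriv F 0 / F 0 = (A : ℂ))
    {P : Polynomial ℂ} {G : ℂ → ℂ} (hG : Differentiable ℂ G)
    (hF : ∀ w, F w = P.eval w * G w) :
    P ≠ 0 ∧ (∀ x, (P.rootMultiplicity x) ≤ analyticOrderNatAt F x) ∧
    (∀ x, G x ≠ 0 → P.rootMultiplicity x = analyticOrderNatAt F x) ∧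
    |A - ∑ x ∈ P.roots.toFinset, (P.rootMultiplicity x : ℝ) / ‖x‖| ≤ ‖deriv G 0 / G 0‖ := by
  have hP4 : P.eval 0 ≠ 0 := by
    intro h
    apply h0
    rw [hF, h, zero_mul]
  have hG4 : G 0 ≠ 0 := by
    intro h
    apply h0
    rw [hF, h, mul_zero]
  have hP : P ≠ 0 := by
    rintro rfl
    simp at hP4
  have hFe : F = (fun w => P.eval w) * G := funext hF
  have hord : ∀ x, analyticOrderAt F x = (P.rootMultiplicity x : ℕ∞) + analyticOrderAt G x := by
    intro x
    rw [hFe, analyticOrderAt_mul (P.differentiable.analyticAt x) (hG.analyticAt x), ord_poly P hP x]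
  refine ⟨hP, ?_, ?_, ?_⟩
  · intro x
    have h1 : (analyticOrderNatAt F x : ℕ∞) = analyticOrderAt F x :=
      Nat.cast_analyticOrderNatAt (order_ne_top hFd h0 x)
    have h2 : (P.rootMultiplicity x : ℕ∞) ≤ (analyticOrderNatAt F x : ℕ∞) := by
      rw [h1, hord x]
      exact le_self_add
    exact_mod_cast h2
  · intro x hx
    have h1 : (analyticOrderNatAt F x : ℕ∞) = analyticOrderAt F x :=
      Nat.cast_analyticOrderNatAt (order_ne_top hFd h0 x)
    have h2 : (P.rootMultiplicity x : ℕ∞) = (analyticOrderNatAt F x : ℕ∞) := by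
      rw [h1, hord x, ((hG.analyticAt x).analyticOrderAt_eq_zero).2 hx, add_zero]
    exact_mod_cast h2
  · have h1 : deriv F 0 = P.derivative.eval 0 * G 0 + P.eval 0 * deriv G 0 := by
      have h2 : HasDerivAt (fun w => P.eval w * G w)
          (P.derivative.eval 0 * G 0 + P.eval 0 * deriv G 0) 0 :=
        (P.hasDerivAt 0).mul (hG 0).hasDerivAt
      have h3 : F = fun w => P.eval w * G w := funext hF
      rw [h3]
      exact h2.deriv
    have h2 : deriv F 0 / F 0 = P.derivative.eval 0 / P.eval 0 + deriv G 0 / G 0 := by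
      rw [h1, hF]
      field_simp
    have h3 : P.derivative.eval 0 / P.eval 0 =
        ((∑ x ∈ P.roots.toFinset, (P.rootMultiplicity x : ℝ) / ‖x‖ : ℝ) : ℂ) := by
      rw [(IsAlgClosed.splits P).eval_derivative_div_eval_of_ne_zero hP4,
        Finset.sum_multiset_map_count]
      push_cast
      refine Finset.sum_congr rfl fun x hx => ?_
      have hx0 : F x = 0 := by
        rw [hF]
        have : P.eval x = 0 := by
          have := Multiset.mem_toFinset.1 hx
          exact (Polynomial.mem_roots'.1 this).2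
        rw [this, zero_mul]
      have hx1 := hz x hx0
      have e : (1 : ℂ) / (0 - x) = 1 / ((‖x‖ : ℝ) : ℂ) := by
        conv_lhs => rw [hx1]
        push_cast
        ring
      rw [e, Polynomial.count_roots, nsmul_eq_mul]
      ring
    rw [hA, h3] at h2
    have h5 : deriv G 0 / G 0 = ((A -
        ∑ x ∈ P.roots.toFinset, (P.rootMultiplicity x : ℝ) / ‖x‖ : ℝ) : ℂ) := by
      rw [Complex.ofReal_sub, h2]
      ring
    rw [h5, Complex.norm_real, Real.norm_eq_abs]

/-- the sum over the zeros, for functions of order at most one and minimal type with negative zeros -/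
theorem sum_ord {F : ℂ → ℂ} (hF : Differentiable ℂ F) (h0 : F 0 ≠ 0)
    (hsym : ∀ x, F (conj x) = conj (F x))
    (hgr : ∀ δ : ℝ, 0 < δ → ∃ K : ℝ, 0 < K ∧ ∀ z : ℂ, ‖F z‖ ≤ K * Real.exp (δ * ‖z‖))
    (hz : ∀ x, F x = 0 → x = ((-‖x‖ : ℝ) : ℂ)) {A : ℝ} (hA : deriv F 0 / F 0 = (A : ℂ)) :
    HasSum (fun x : ℂ => (analyticOrderNatAt F x : ℝ) / ‖x‖) A := by
  classical
  have h0n : 0 < ‖F 0‖ := norm_pos_iff.2 h0
  have hdat : ∀ δ : ℝ, 0 < δ → ∀ᶠ R : ℝ in atTop, ∃ (P : Polynomial ℂ),
      (∀ x, (P.rootMultiplicity x) ≤ analyticOrderNatAt F x) ∧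
      (∀ x, F x = 0 → ‖x‖ ≤ R → x ∈ P.roots.toFinset ∧
        P.rootMultiplicity x = analyticOrderNatAt F x) ∧
      |A - ∑ x ∈ P.roots.toFinset, (P.rootMultiplicity x : ℝ) / ‖x‖| ≤ δ := by
    intro δ hδ
    obtain ⟨K, hK, hKb⟩ := hgr (δ / 16) (by positivity)
    have hlim : Tendsto (fun R : ℝ => 4 * (Real.log K - Real.log ‖F 0‖) / R) atTop (𝓝 0) :=
      tendsto_const_nhds.div_atTop tendsto_id
    filter_upwards [eventually_gt_atTop 0, hlim.eventually (gt_mem_nhds (half_pos hδ))] with R hR hR2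
    obtain ⟨n, hn⟩ := exists_nat_ge
      (∑ᶠ u, (MeromorphicOn.divisor F (closedBall 0 R) u : ℝ) * 1)
    obtain ⟨P, G, hG, hG0, hGb, hFG, hnz⟩ := had_split (M := Real.log K + δ / 16 * (2 * R)) hR n
      F hF h0 hsym (by
        intro w hw
        rw [mem_closedBall_zero_iff] at hw
        rw [Real.exp_add, Real.exp_log hK]
        refine (hKb w).trans ?_
        gcongr) hn
    have hF' : ∀ w, F w = (P.map (algebraMap ℝ ℂ)).eval w * G w := by
      intro w
      rw [hFG, Polynomial.eval_map_algebraMap]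
    obtain ⟨h1, h2, h3, h4⟩ := compare hF h0 hz hA hG hF'
    refine ⟨P.map (algebraMap ℝ ℂ), h2, ?_, h4.trans ?_⟩
    · intro x hx hxR
      have hGx : G x ≠ 0 := hnz x (by simpa using hxR)
      refine ⟨?_, h3 x hGx⟩
      rw [Multiset.mem_toFinset, Polynomial.mem_roots h1]
      have := hF' x
      rw [hx] at this
      rcases mul_eq_zero.1 this.symm with h5 | h5
      · exact h5
      · exact absurd h5 hGx
    · have h6 := logd (M := Real.log K + δ / 16 * (2 * R)) hG hR
        (fun u hu => hnz u (ball_subset_closedBall hu))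
        (fun w hw => hGb w (ball_subset_closedBall (ball_subset_ball (by linarith) hw)))
      refine h6.trans ?_
      rw [hG0]
      have e : 4 * (Real.log K + δ / 16 * (2 * R) - Real.log ‖F 0‖) / R =
          4 * (Real.log K - Real.log ‖F 0‖) / R + δ / 2 := by
        field_simp
        ring
      rw [e]
      linarith
  have hnn : ∀ x : ℂ, 0 ≤ (analyticOrderNatAt F x : ℝ) / ‖x‖ := fun x => by positivity
  refine hasSum_of_isLUB_of_nonneg _ hnn ⟨?_, ?_⟩
  · rintro _ ⟨T, rfl⟩
    show ∑ x ∈ T, (analyticOrderNatAt F x : ℝ) / ‖x‖ ≤ A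
    refine le_of_forall_pos_le_add fun δ hδ => ?_
    obtain ⟨B, hB⟩ : ∃ B : ℝ, ∀ x ∈ T, ‖x‖ ≤ B :=
      ⟨∑ x ∈ T, ‖x‖, fun x hx => Finset.single_le_sum (f := fun x : ℂ => ‖x‖)
        (fun _ _ => norm_nonneg _) hx⟩
    obtain ⟨R, ⟨P, h1, h2, h3⟩, hRB⟩ := ((hdat δ hδ).and (eventually_ge_atTop B)).exists
    calc ∑ x ∈ T, (analyticOrderNatAt F x : ℝ) / ‖x‖
        = ∑ x ∈ T.filter (fun x => F x = 0), (analyticOrderNatAt F x : ℝ) / ‖x‖ := by
          rw [Finset.sum_filter_of_ne]
          intro x _ hx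
          by_contra h
          apply hx
          have : analyticOrderNatAt F x = 0 := by
            unfold analyticOrderNatAt
            rw [((hF.analyticAt x).analyticOrderAt_eq_zero).2 h]
            simp
          rw [this]
          simp
      _ = ∑ x ∈ T.filter (fun x => F x = 0), (P.rootMultiplicity x : ℝ) / ‖x‖ := by
          refine Finset.sum_congr rfl fun x hx => ?_
          rw [Finset.mem_filter] at hx
          rw [(h2 x hx.2 ((hB x hx.1).trans hRB)).2]
      _ ≤ ∑ x ∈ P.roots.toFinset, (P.rootMultiplicity x : ℝ) / ‖x‖ := by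
          refine Finset.sum_le_sum_of_subset_of_nonneg (fun x hx => ?_) fun _ _ _ => by positivity
          rw [Finset.mem_filter] at hx
          exact (h2 x hx.2 ((hB x hx.1).trans hRB)).1
      _ ≤ A + δ := by
          have := (abs_le.1 h3).1
          linarith
  · intro B hB
    refine le_of_forall_pos_le_add fun δ hδ => ?_
    obtain ⟨R, P, h1, h2, h3⟩ := (hdat δ hδ).exists
    have h4 : ∑ x ∈ P.roots.toFinset, (analyticOrderNatAt F x : ℝ) / ‖x‖ ≤ B :=
      hB ⟨P.roots.toFinset, rfl⟩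
    have h5 : ∑ x ∈ P.roots.toFinset, (P.rootMultiplicity x : ℝ) / ‖x‖ ≤
        ∑ x ∈ P.roots.toFinset, (analyticOrderNatAt F x : ℝ) / ‖x‖ := by
      refine Finset.sum_le_sum fun x _ => ?_
      have : (P.rootMultiplicity x : ℝ) ≤ (analyticOrderNatAt F x : ℝ) := by exact_mod_cast h1 x
      gcongr
    have := (abs_le.1 h3).2
    linarith

/-- the order at a point, as a natural number -/
lemma ord_zero {X : ℂ → ℂ} (hX : Differentiable ℂ X) {s : ℂ} (h : X s ≠ 0) :
    analyticOrderNatAt X s = 0 := by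
  unfold analyticOrderNatAt
  rw [((hX.analyticAt s).analyticOrderAt_eq_zero).2 h]
  simp

lemma norm_sub_one {s : ℂ} (h : s.re = 1 / 2) : ‖s - 1‖ = ‖s‖ := by
  have e : s - 1 = -conj s := by
    apply Complex.ext
    · simp [h]
      norm_num
    · simp
  rw [e, norm_neg, Complex.norm_conj]

/-- the product of the values at `1/2 + w` and `1/2 - w` -/
noncomputable def E (X : ℂ → ℂ) (w : ℂ) : ℂ := X (1 / 2 + w) * X (1 / 2 - w)

lemma E_diff {X : ℂ → ℂ} (hX : Differentiable ℂ X) : Differentiable ℂ (E X) := by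
  intro w
  have h1 : DifferentiableAt ℂ (fun w => X (1 / 2 + w)) w :=
    (hX _).comp w ((differentiableAt_const _).add differentiableAt_id)
  have h2 : DifferentiableAt ℂ (fun w => X (1 / 2 - w)) w :=
    (hX _).comp w ((differentiableAt_const _).sub differentiableAt_id)
  exact h1.mul h2

lemma E_neg (X : ℂ → ℂ) (w : ℂ) : E X (-w) = E X w := by
  unfold E
  rw [sub_neg_eq_add, ← sub_eq_add_neg, mul_comm]

/-- the order of `E` -/
lemma E_ord {X : ℂ → ℂ} (hX : Differentiable ℂ X) (z : ℂ) : analyticOrderAt (E X) z =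
    analyticOrderAt X (1 / 2 + z) + analyticOrderAt X (1 / 2 - z) := by
  have e : E X = (X ∘ (fun w => 1 / 2 + w)) * (X ∘ (fun w => 1 / 2 - w)) := rfl
  have h1 : AnalyticAt ℂ (fun w : ℂ => 1 / 2 + w) z := by fun_prop
  have h2 : AnalyticAt ℂ (fun w : ℂ => 1 / 2 - w) z := by fun_prop
  have d1 : deriv (fun w : ℂ => 1 / 2 + w) z ≠ 0 := by
    rw [((hasDerivAt_id' z).const_add (1 / 2)).deriv]
    exact one_ne_zero
  have d2 : deriv (fun w : ℂ => 1 / 2 - w) z ≠ 0 := by
    rw [((hasDerivAt_id' z).const_sub (1 / 2)).deriv]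
    exact neg_ne_zero.2 one_ne_zero
  rw [e, analyticOrderAt_mul ((hX.analyticAt _).comp h1) ((hX.analyticAt _).comp h2),
    analyticOrderAt_comp_of_deriv_ne_zero h1 d1, analyticOrderAt_comp_of_deriv_ne_zero h2 d2]

/-- the fibre of `s ↦ (s - 1/2)^2 - 1/4` -/
noncomputable def q (s : ℂ) : ℂ := (s - 1 / 2) ^ 2 - 1 / 4

lemma q_norm {s : ℂ} (h : s.re = 1 / 2) : ‖q s‖ = ‖s‖ ^ 2 := by
  have e : q s = s * (s - 1) := by
    unfold q
    ring
  rw [e, norm_mul, norm_sub_one h, pow_two]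

theorem fib {X : ℂ → ℂ} (hX : Differentiable ℂ X) {a : ℂ} (ha : X a ≠ 0) {G : ℂ → ℂ}
    (hG : Differentiable ℂ G) (hGE : ∀ w, G (w ^ 2) = E X w) (hG0 : ∃ x, G x ≠ 0) (v : ℂ) :
    ∃ S : Finset ℂ, (∀ s, s ∈ S ↔ q s = v) ∧
      ∑ s ∈ S, analyticOrderNatAt X s = analyticOrderNatAt (fun v => G (v + 1 / 4)) v := by
  classical
  obtain ⟨z, hz⟩ := IsAlgClosed.exists_pow_nat_eq (v + 1 / 4) (n := 2) (by norm_num)
  obtain ⟨b, hb⟩ := hG0
  have hshift : analyticOrderAt (fun v => G (v + 1 / 4)) v = analyticOrderAt G (z ^ 2) := by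
    have h1 : AnalyticAt ℂ (fun v : ℂ => v + 1 / 4) v := by fun_prop
    have d1 : deriv (fun v : ℂ => v + 1 / 4) v ≠ 0 := by
      rw [((hasDerivAt_id' v).add_const (1 / 4)).deriv]
      exact one_ne_zero
    rw [hz]
    exact analyticOrderAt_comp_of_deriv_ne_zero h1 d1
  have hcomp : G ∘ (fun w => w ^ 2) = E X := funext hGE
  have hEX := E_ord hX z
  have hXt : ∀ s, (analyticOrderNatAt X s : ℕ∞) = analyticOrderAt X s := fun s =>
    Nat.cast_analyticOrderNatAt (order_ne_top hX ha s)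
  have hGt : (analyticOrderNatAt G (z ^ 2) : ℕ∞) = analyticOrderAt G (z ^ 2) :=
    Nat.cast_analyticOrderNatAt (order_ne_top hG hb _)
  have hGv : analyticOrderNatAt (fun v => G (v + 1 / 4)) v = analyticOrderNatAt G (z ^ 2) := by
    unfold analyticOrderNatAt
    rw [hshift]
  rw [hGv]
  refine ⟨{1 / 2 + z, 1 / 2 - z}, ?_, ?_⟩
  · intro s
    rw [Finset.mem_insert, Finset.mem_singleton]
    have h1 : q s = v ↔ (s - 1 / 2) ^ 2 = z ^ 2 := by
      rw [hz]
      unfold q
      constructor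
      · intro h
        linear_combination h
      · intro h
        linear_combination h
    rw [h1, sq_eq_sq_iff_eq_or_eq_neg]
    constructor
    · rintro (h | h)
      · left
        rw [h]
        ring
      · right
        rw [h]
        ring
    · rintro (h | h)
      · left
        linear_combination h
      · right
        linear_combination h
  · by_cases h0 : z = 0
    · subst h0
      have h2 : analyticOrderAt (G ∘ (fun w : ℂ => w ^ 2)) 0 =
          analyticOrderAt G ((fun w : ℂ => w ^ 2) 0) *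
            analyticOrderAt (fun w : ℂ => (fun w : ℂ => w ^ 2) w - (fun w : ℂ => w ^ 2) 0) 0 :=
        AnalyticAt.analyticOrderAt_comp (g := fun w : ℂ => w ^ 2) (hG.analyticAt _) (by fun_prop)
      have h3 : analyticOrderAt (fun w : ℂ => (fun w : ℂ => w ^ 2) w - (fun w : ℂ => w ^ 2) 0) 0 =
          ((2 : ℕ) : ℕ∞) := by
        rw [AnalyticAt.analyticOrderAt_eq_natCast (by fun_prop)]
        refine ⟨fun _ => 1, analyticAt_const, one_ne_zero, Filter.Eventually.of_forall fun w => ?_⟩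
        simp
      rw [hcomp, hEX, h3] at h2
      simp only [add_zero, sub_zero] at h2 ⊢
      rw [← hXt] at h2
      have h4 : (analyticOrderNatAt G (0 ^ 2) : ℕ∞) = analyticOrderAt G (0 ^ 2) := hGt
      rw [← h4] at h2
      have h5 : analyticOrderNatAt X (1 / 2) + analyticOrderNatAt X (1 / 2) =
          analyticOrderNatAt G (0 ^ 2) * 2 := by exact_mod_cast h2
      rw [Finset.insert_eq_self.2 (Finset.mem_singleton_self _), Finset.sum_singleton]
      omega
    · have hne : 1 / 2 + z ≠ 1 / 2 - z := by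
        intro h
        apply h0
        linear_combination h / 2
      rw [Finset.sum_pair hne]
      have h2 : analyticOrderAt (G ∘ (fun w : ℂ => w ^ 2)) z = analyticOrderAt G (z ^ 2) :=
        analyticOrderAt_comp_of_deriv_ne_zero (g := fun z : ℂ => z ^ 2) (by fun_prop)
          (by simp [h0])
      rw [hcomp, hEX, ← hXt, ← hXt, ← hGt] at h2
      exact_mod_cast h2

theorem main {X : ℂ → ℂ} (hX : Pool.Agent.W169.HF.Slow X) (hFe : Pool.Agent.W169.HF.Fe X)
    (hz : ∀ s : ℂ, X s = 0 → s.re = 1 / 2) :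
    HasSum (fun ρ : {s : ℂ // X s = 0} => (analyticOrderNatAt X (ρ : ℂ) : ℝ) / ‖(ρ : ℂ)‖ ^ 2)
      (2 * (logDeriv X 1).re) := by
  classical
  obtain ⟨hXd, hXg⟩ := hX
  obtain ⟨ε, hε, hfe⟩ := hFe
  have hεε : conj ε * ε = 1 := by
    rw [mul_comm, Complex.mul_conj, Complex.normSq_eq_norm_sq, hε]
    simp
  have hX1 : X 1 ≠ 0 := by
    intro h
    have := hz 1 h
    norm_num at this
  have hX0 : X 0 ≠ 0 := by
    intro h
    have := hz 0 h
    norm_num at this
  obtain ⟨G, hG, hGE⟩ := even_sq (E_diff hXd) (E_neg X)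
  have hfe1 : ∀ w, X (1 / 2 - w) = ε * conj (X (1 / 2 + conj w)) := by
    intro w
    rw [hfe]
    congr 3
    simp only [map_sub, map_div₀, map_one, Complex.conj_ofNat]
    ring
  have hE2 : ∀ w, E X w = ε * (X (1 / 2 + w) * conj (X (1 / 2 + conj w))) := by
    intro w
    unfold E
    rw [hfe1 w]
    ring
  set F : ℂ → ℂ := fun v => conj ε * G (v + 1 / 4) with hFdef
  have hFE : ∀ w : ℂ, F (w ^ 2 - 1 / 4) = X (1 / 2 + w) * conj (X (1 / 2 + conj w)) := by
    intro w
    simp only [hFdef]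
    rw [sub_add_cancel, hGE, hE2, ← mul_assoc, hεε, one_mul]
  have hsurj : ∀ v : ℂ, ∃ w : ℂ, v = w ^ 2 - 1 / 4 := by
    intro v
    obtain ⟨z, hz⟩ := IsAlgClosed.exists_pow_nat_eq (v + 1 / 4) (n := 2) (by norm_num)
    exact ⟨z, by rw [hz]; ring⟩
  have hFd : Differentiable ℂ F := by
    intro v
    have h1 : DifferentiableAt ℂ (fun v => G (v + 1 / 4)) v :=
      (hG _).comp v (differentiableAt_id.add (differentiableAt_const _))
    exact h1.const_mul _
  have hF0' : F 0 = X 1 * conj (X 1) := by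
    have := hFE (1 / 2)
    have e : ((1 / 2 : ℂ)) ^ 2 - 1 / 4 = 0 := by norm_num
    have e2 : (1 / 2 + 1 / 2 : ℂ) = 1 := by norm_num
    have e3 : conj (1 / 2 : ℂ) = 1 / 2 := by simp only [map_div₀, map_one, Complex.conj_ofNat]
    rwa [e, e3, e2] at this
  have hF0 : F 0 ≠ 0 := by
    rw [hF0']
    exact mul_ne_zero hX1 ((_root_.map_ne_zero _).2 hX1)
  have hFsym : ∀ x, F (conj x) = conj (F x) := by
    intro x
    obtain ⟨w, rfl⟩ := hsurj x
    have e : conj (w ^ 2 - 1 / 4 : ℂ) = (conj w) ^ 2 - 1 / 4 := by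
      simp only [map_sub, map_pow, map_div₀, map_one, Complex.conj_ofNat]
    rw [e, hFE, hFE]
    simp only [map_mul, Complex.conj_conj]
    ring
  have hFgr : ∀ δ : ℝ, 0 < δ → ∃ K : ℝ, 0 < K ∧ ∀ z : ℂ, ‖F z‖ ≤ K * Real.exp (δ * ‖z‖) := by
    intro δ hδ
    obtain ⟨K, hK, hKb⟩ := hXg (δ / 4) (by positivity)
    refine ⟨K * K * Real.exp (δ / 2), by positivity, fun v => ?_⟩
    obtain ⟨w, rfl⟩ := hsurj v
    rw [hFE, norm_mul, Complex.norm_conj]
    have hh : ‖(1 / 2 : ℂ)‖ = 1 / 2 := by norm_num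
    have h1 : ∀ u : ℂ, ‖u‖ = ‖w‖ → ‖X (1 / 2 + u)‖ ≤ K * Real.exp (δ / 4 * (2 * (1 / 4 + ‖w‖ ^ 2))) := by
      intro u hu
      refine (hKb _).trans ?_
      have h2 : ‖1 / 2 + u‖ ≤ 1 / 2 + ‖w‖ := by
        refine (norm_add_le _ _).trans ?_
        rw [hh, hu]
      have h3 : ‖1 / 2 + u‖ ^ 2 ≤ 2 * (1 / 4 + ‖w‖ ^ 2) := by
        have h4 : ‖1 / 2 + u‖ ^ 2 ≤ (1 / 2 + ‖w‖) ^ 2 := by gcongr
        nlinarith [sq_nonneg (1 / 2 - ‖w‖)]
      gcongr
    have h5 : ‖w‖ ^ 2 ≤ ‖w ^ 2 - 1 / 4‖ + 1 / 4 := by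
      have h6 : ‖w ^ 2‖ ≤ ‖w ^ 2 - 1 / 4‖ + ‖(1 / 4 : ℂ)‖ := by
        calc ‖w ^ 2‖ = ‖(w ^ 2 - 1 / 4) + 1 / 4‖ := by ring_nf
          _ ≤ _ := norm_add_le _ _
      have h7 : ‖(1 / 4 : ℂ)‖ = 1 / 4 := by norm_num
      rw [h7, norm_pow] at h6
      exact h6
    calc ‖X (1 / 2 + w)‖ * ‖X (1 / 2 + conj w)‖
        ≤ (K * Real.exp (δ / 4 * (2 * (1 / 4 + ‖w‖ ^ 2)))) *
          (K * Real.exp (δ / 4 * (2 * (1 / 4 + ‖w‖ ^ 2)))) :=
          mul_le_mul (h1 w rfl) (h1 _ (Complex.norm_conj w)) (norm_nonneg _) (by positivity)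
      _ = K * K * Real.exp (δ * (1 / 4 + ‖w‖ ^ 2)) := by
          rw [show K * Real.exp (δ / 4 * (2 * (1 / 4 + ‖w‖ ^ 2))) *
            (K * Real.exp (δ / 4 * (2 * (1 / 4 + ‖w‖ ^ 2)))) = K * K *
            (Real.exp (δ / 4 * (2 * (1 / 4 + ‖w‖ ^ 2))) *
              Real.exp (δ / 4 * (2 * (1 / 4 + ‖w‖ ^ 2)))) by ring, ← Real.exp_add]
          congr 2
          ring
      _ ≤ K * K * Real.exp (δ / 2 + δ * ‖w ^ 2 - 1 / 4‖) := by
          gcongr
          nlinarith
      _ = K * K * Real.exp (δ / 2) * Real.exp (δ * ‖w ^ 2 - 1 / 4‖) := by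
          rw [Real.exp_add]
          ring
  have hFz : ∀ x, F x = 0 → x = ((-‖x‖ : ℝ) : ℂ) := by
    intro x hx
    obtain ⟨w, rfl⟩ := hsurj x
    rw [hFE] at hx
    have hre : w.re = 0 := by
      rcases mul_eq_zero.1 hx with h | h
      · have := hz _ h
        simpa using this
      · have h1 : X (1 / 2 + conj w) = 0 := (_root_.map_eq_zero _).1 h
        have := hz _ h1
        simpa using this
    have hw : w = (w.im : ℂ) * I := by
      apply Complex.ext
      · simp [hre]
      · simp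
    have e : w ^ 2 - 1 / 4 = ((-(w.im ^ 2 + 1 / 4) : ℝ) : ℂ) := by
      conv_lhs => rw [hw]
      rw [mul_pow, I_sq]
      push_cast
      ring
    rw [e, Complex.norm_real, Real.norm_eq_abs, abs_neg, abs_of_nonneg (by positivity)]
  -- the logarithmic derivative
  have hA : deriv F 0 / F 0 = ((2 * (logDeriv X 1).re : ℝ) : ℂ) := by
    have h1 : HasDerivAt (fun w : ℂ => X (1 / 2 + w)) (deriv X 1) (1 / 2) := by
      have h2 : HasDerivAt X (deriv X 1) (1 / 2 + 1 / 2) := by
        rw [show (1 / 2 + 1 / 2 : ℂ) = 1 by norm_num]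
        exact (hXd 1).hasDerivAt
      exact h2.comp_const_add (1 / 2) (1 / 2)
    have h3 : HasDerivAt (fun w : ℂ => conj (X (1 / 2 + conj w))) (conj (deriv X 1)) (1 / 2) := by
      have h4 := h1.conj_conj
      have e : conj (1 / 2 : ℂ) = 1 / 2 := by simp only [map_div₀, map_one, Complex.conj_ofNat]
      rw [e] at h4
      exact h4
    have h5 := h1.mul h3
    have h6 : HasDerivAt (fun w : ℂ => F (w ^ 2 - 1 / 4)) (deriv F 0) (1 / 2) := by
      have h7 : HasDerivAt (fun w : ℂ => w ^ 2 - 1 / 4) (1 : ℂ) (1 / 2) := by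
        have := (hasDerivAt_pow 2 (1 / 2 : ℂ)).sub_const (1 / 4)
        have e : ((2 : ℕ) : ℂ) * (1 / 2) ^ (2 - 1) = 1 := by norm_num
        rwa [e] at this
      have h8 : HasDerivAt F (deriv F 0) ((fun w : ℂ => w ^ 2 - 1 / 4) (1 / 2)) := by
        have e : (fun w : ℂ => w ^ 2 - 1 / 4) (1 / 2) = 0 := by norm_num
        rw [e]
        exact (hFd 0).hasDerivAt
      have h9 := HasDerivAt.comp (1 / 2) h8 h7
      rwa [mul_one] at h9
    have e : (fun w : ℂ => F (w ^ 2 - 1 / 4)) =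
        (fun w : ℂ => X (1 / 2 + w)) * (fun w : ℂ => conj (X (1 / 2 + conj w))) := funext hFE
    rw [e] at h6
    have h7 := h6.unique h5
    have e2 : (1 / 2 + 1 / 2 : ℂ) = 1 := by norm_num
    have e3 : conj (1 / 2 : ℂ) = 1 / 2 := by simp only [map_div₀, map_one, Complex.conj_ofNat]
    rw [e3, e2] at h7
    rw [h7, hF0', ← Complex.add_conj, logDeriv_apply, map_div₀]
    have hc : conj (X 1) ≠ 0 := (_root_.map_ne_zero _).2 hX1
    field_simp
  have hsum := sum_ord hFd hF0 hFsym hFgr hFz hA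
  have hFo : ∀ v, analyticOrderNatAt F v = analyticOrderNatAt (fun v => G (v + 1 / 4)) v := by
    intro v
    unfold analyticOrderNatAt
    have hc : AnalyticAt ℂ (fun _ : ℂ => conj ε) v := analyticAt_const
    have hg : AnalyticAt ℂ (fun v => G (v + 1 / 4)) v := by
      have : Differentiable ℂ (fun v => G (v + 1 / 4)) := fun v =>
        (hG _).comp v (differentiableAt_id.add (differentiableAt_const _))
      exact this.analyticAt v
    have hce : conj ε ≠ 0 := left_ne_zero_of_mul (by rw [hεε]; exact one_ne_zero)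
    have e : F = (fun _ : ℂ => conj ε) * (fun v => G (v + 1 / 4)) := rfl
    rw [e, analyticOrderAt_mul hc hg, hc.analyticOrderAt_eq_zero.2 hce, zero_add]
  have hGne : ∃ x, G x ≠ 0 := by
    refine ⟨0 + 1 / 4, fun h => hF0 ?_⟩
    simp only [hFdef]
    rw [h, mul_zero]
  choose S hS1 hS2 using fun v => fib hXd hX1 hG hGE hGne v
  -- the function on the plane
  set f : ℂ → ℝ := fun s => (analyticOrderNatAt X s : ℝ) / ‖s‖ ^ 2 with hf
  have hfq : ∀ s, f s = (analyticOrderNatAt X s : ℝ) / ‖q s‖ := by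
    intro s
    by_cases h : X s = 0
    · rw [q_norm (hz s h)]
    · simp only [hf]
      rw [ord_zero hXd h]
      simp
  have hfn : ∀ s, 0 ≤ f s := fun s => by positivity
  have hfib : ∀ v, HasSum (fun c : {s : ℂ // q s = v} => f c)
      ((analyticOrderNatAt F v : ℝ) / ‖v‖) := by
    intro v
    have h1 : HasSum (Set.indicator {s : ℂ | q s = v} f)
        (∑ s ∈ S v, Set.indicator {s : ℂ | q s = v} f s) := by
      apply hasSum_sum_of_ne_finset_zero
      intro s hs
      apply Set.indicator_of_notMem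
      intro h
      exact hs ((hS1 v s).2 h)
    have h2 : ∑ s ∈ S v, Set.indicator {s : ℂ | q s = v} f s =
        (analyticOrderNatAt F v : ℝ) / ‖v‖ := by
      rw [hFo, ← hS2 v, Nat.cast_sum, Finset.sum_div]
      refine Finset.sum_congr rfl fun s hs => ?_
      have h3 : q s = v := (hS1 v s).1 hs
      rw [Set.indicator_of_mem (show s ∈ {s : ℂ | q s = v} from h3), hfq, h3]
    rw [h2] at h1
    exact hasSum_subtype_iff_indicator.2 h1
  have hsig : HasSum (fun p : (Σ v : ℂ, {s : ℂ // q s = v}) => f p.2) (2 * (logDeriv X 1).re) := by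
    refine HasSum.sigma_of_hasSum hsum hfib ?_
    refine (summable_sigma_of_nonneg fun p => hfn _).2 ⟨fun v => (hfib v).summable, ?_⟩
    have e : (fun v : ℂ => ∑' c : {s : ℂ // q s = v}, f c) =
        fun v => (analyticOrderNatAt F v : ℝ) / ‖v‖ := funext fun v => (hfib v).tsum_eq
    show Summable fun v : ℂ => ∑' c : {s : ℂ // q s = v}, f c
    rw [e]
    exact hsum.summable
  have hall : HasSum f (2 * (logDeriv X 1).re) := by
    rw [← (Equiv.sigmaFiberEquiv q).hasSum_iff]
    exact hsig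
  refine (hasSum_subtype_iff_of_support_subset (s := {s : ℂ | X s = 0}) (f := f) ?_).2 hall
  intro s hs
  by_contra h
  apply hs
  simp only [hf]
  rw [ord_zero hXd h]
  simp

end Lam

/-- the sum over the zeros is twice the real part of the logarithmic derivative at `1` -/
theorem lamS : S_lamS := fun _ h1 h2 _ h4 => Lam.main h1 h2 h4

end Pool.Agent.N967.G
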